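import Pool.Agent.Lib.MP_56e792_co.S.Defs

/-!
# MP_56e792_co, all prime powers, module BiA

Bivariate polynomials with bounded degrees. `Bi k D E` is linearly equivalent to `Fin E → Fin D → k` (coefficients). `dX G = (swap G).natDegree`; prove `swap_coeff` first (`Bivariate.swap_monomial_monomial`, `Polynomial.induction_on`).
`mem_Bi`: `G ∈ Bi k D E` iff all coefficients `(G.coeff j).coeff i` with `D ≤ i` or `E ≤ j` vanish, i.e. for `G ≠ 0` iff `natDegree G < E` and `natDegree (swap G) < D`.
-/

set_option autoImplicit false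
set_option linter.unusedVariables false

namespace GPC

open Polynomial
open Pool.Agent.Lib.MP_56e792_co (J mem_J GP)

theorem bia_mono {k : Type} [Field k] (n m : ℕ) (r : k) (a b : ℕ) :
    (((monomial n (monomial m r) : k[X][X])).coeff b).coeff a =
      if n = b then (if m = a then r else 0) else 0 := by
  rw [coeff_monomial]
  split_ifs with h1 h2
  · rw [coeff_monomial, if_pos h2]
  · rw [coeff_monomial, if_neg h2]
  · rw [coeff_zero]

theorem swap_coeff {k : Type} [Field k] (G : k[X][X]) (i j : ℕ) :
    ((Bivariate.swap G).coeff i).coeff j = (G.coeff j).coeff i := by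
  induction G using Polynomial.induction_on' with
  | add p q hp hq => rw [map_add, coeff_add, coeff_add, coeff_add, coeff_add, hp, hq]
  | monomial n f =>
    induction f using Polynomial.induction_on' with
    | add p q hp hq =>
      rw [map_add (monomial n), map_add, coeff_add, coeff_add, coeff_add, coeff_add, hp, hq]
    | monomial m r =>
      rw [Bivariate.swap_monomial_monomial, bia_mono, bia_mono]
      split_ifs <;> rfl

/-- the coefficients -/
noncomputable def bia_map (k : Type) [Field k] (D E : ℕ) : Bi k D E →ₗ[k] (Fin E → Fin D → k) where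
  toFun G := fun j i => (G.1.coeff j).coeff i
  map_add' := by
    intro a b
    funext j i
    simp
  map_smul' := by
    intro c a
    funext j i
    simp

theorem bia_inj (k : Type) [Field k] (D E : ℕ) : Function.Injective (bia_map k D E) := by
  intro a b h
  apply Subtype.ext
  ext j i
  by_cases hj : j < E
  · by_cases hi : i < D
    · have := congrFun (congrFun h ⟨j, hj⟩) ⟨i, hi⟩
      exact this
    · rw [a.2 i j (Or.inl (not_lt.1 hi)), b.2 i j (Or.inl (not_lt.1 hi))]
  · rw [a.2 i j (Or.inr (not_lt.1 hj)), b.2 i j (Or.inr (not_lt.1 hj))]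

theorem bia_coeff {k : Type} [Field k] {D E : ℕ} (f : Fin E → Fin D → k) (a b : ℕ) :
    ((∑ j : Fin E, ∑ i : Fin D, (monomial (j : ℕ) (monomial (i : ℕ) (f j i)) : k[X][X])).coeff b).coeff a =
      ∑ j : Fin E, ∑ i : Fin D, if (j : ℕ) = b then (if (i : ℕ) = a then f j i else 0) else 0 := by
  rw [finsetSum_coeff, finsetSum_coeff]
  refine Finset.sum_congr rfl fun j _ => ?_
  rw [finsetSum_coeff, finsetSum_coeff]
  refine Finset.sum_congr rfl fun i _ => ?_
  rw [bia_mono]

theorem bia_surj (k : Type) [Field k] (D E : ℕ) : Function.Surjective (bia_map k D E) := by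
  intro f
  refine ⟨⟨∑ j : Fin E, ∑ i : Fin D, (monomial (j : ℕ) (monomial (i : ℕ) (f j i)) : k[X][X]), ?_⟩, ?_⟩
  · intro a b hab
    rw [bia_coeff]
    refine Finset.sum_eq_zero fun j _ => Finset.sum_eq_zero fun i _ => ?_
    rcases hab with h | h
    · have : (i : ℕ) ≠ a := by have := i.2; omega
      rw [if_neg this, ite_self]
    · have : (j : ℕ) ≠ b := by have := j.2; omega
      rw [if_neg this]
  · funext b a
    change ((∑ j : Fin E, ∑ i : Fin D, (monomial (j : ℕ) (monomial (i : ℕ) (f j i)) : k[X][X])).coeff b).coeff a = _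
    rw [bia_coeff]
    simp only [Fin.val_inj]
    rw [Finset.sum_eq_single b]
    · simp
    · intro j _ hj
      refine Finset.sum_eq_zero fun i _ => ?_
      rw [if_neg hj]
    · intro h
      exact absurd (Finset.mem_univ b) h

theorem Bi_fin {k : Type} [Field k] (D E : ℕ) : FiniteDimensional k (Bi k D E) :=
  FiniteDimensional.of_injective (bia_map k D E) (bia_inj k D E)

theorem Bi_finrank {k : Type} [Field k] (D E : ℕ) : Module.finrank k (Bi k D E) = D * E := by
  have h := LinearEquiv.finrank_eq (LinearEquiv.ofBijective (bia_map k D E) ⟨bia_inj k D E, bia_surj k D E⟩)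
  rw [h, Module.finrank_pi_fintype]
  simp [mul_comm]

theorem mem_Bi {k : Type} [Field k] {D E : ℕ} {G : k[X][X]} :
    G ∈ Bi k D E ↔ G = 0 ∨ (dX G < D ∧ dY G < E) := by
  constructor
  · intro h
    by_cases h0 : G = 0
    · exact Or.inl h0
    refine Or.inr ⟨?_, ?_⟩
    · by_contra hD
      rw [not_lt] at hD
      have hs : Bivariate.swap G ≠ 0 := by
        intro h1
        exact h0 ((map_eq_zero_iff _ (AlgEquiv.injective _)).1 h1)
      apply hs
      rw [← leadingCoeff_eq_zero]
      ext j
      rw [leadingCoeff, swap_coeff, coeff_zero]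
      exact h _ _ (Or.inl hD)
    · by_contra hE
      rw [not_lt] at hE
      apply h0
      rw [← leadingCoeff_eq_zero]
      ext i
      rw [leadingCoeff, coeff_zero]
      exact h _ _ (Or.inr hE)
  · rintro (rfl | ⟨h1, h2⟩)
    · exact Submodule.zero_mem _
    · intro i j hij
      rcases hij with h | h
      · rw [← swap_coeff, coeff_eq_zero_of_natDegree_lt (lt_of_lt_of_le h1 h), coeff_zero]
      · rw [coeff_eq_zero_of_natDegree_lt (lt_of_lt_of_le h2 h), coeff_zero]

theorem Bi_mono {k : Type} [Field k] {D E D' E' : ℕ} (h : D ≤ D') (h' : E ≤ E') :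
    Bi k D E ≤ Bi k D' E' := by
  intro G hG i j hij
  refine hG i j ?_
  rcases hij with h1 | h1
  · exact Or.inl (h.trans h1)
  · exact Or.inr (h'.trans h1)

end GPC
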