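import Pool.Agent.Lib.MP_56e792_co.S.Defs
import Pool.Agent.Lib.MP_56e792_co.S.BiA

/-!
# MP_56e792_co, all prime powers, module BiM

Products. `swap` is an algebra automorphism, `natDegree_mul` in a domain.
-/

set_option autoImplicit false
set_option linter.unusedVariables false

namespace GPC

open Polynomial
open Pool.Agent.Lib.MP_56e792_co (J mem_J GP)

theorem bim_swap_ne {k : Type} [Field k] {G : k[X][X]} (h : G ≠ 0) : Bivariate.swap G ≠ 0 := by
  intro h1
  exact h ((map_eq_zero_iff _ (AlgEquiv.injective _)).1 h1)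

theorem dX_mul {k : Type} [Field k] {G G' : k[X][X]} (h : G ≠ 0) (h' : G' ≠ 0) :
    dX (G * G') = dX G + dX G' := by
  unfold dX
  rw [map_mul, natDegree_mul (bim_swap_ne h) (bim_swap_ne h')]

theorem dY_mul {k : Type} [Field k] {G G' : k[X][X]} (h : G ≠ 0) (h' : G' ≠ 0) :
    dY (G * G') = dY G + dY G' := by
  unfold dY
  rw [natDegree_mul h h']

theorem dX_le_of_dvd {k : Type} [Field k] {G G' : k[X][X]} (h : G ∣ G') (h' : G' ≠ 0) :
    dX G ≤ dX G' ∧ dY G ≤ dY G' := by
  obtain ⟨H, rfl⟩ := h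
  have h1 : G ≠ 0 := fun h0 => h' (by rw [h0, zero_mul])
  have h2 : H ≠ 0 := fun h0 => h' (by rw [h0, mul_zero])
  rw [dX_mul h1 h2, dY_mul h1 h2]
  omega

theorem Bi_mul {k : Type} [Field k] {D E D' E' : ℕ} {G G' : k[X][X]} (h : G ∈ Bi k (D + 1) (E + 1))
    (h' : G' ∈ Bi k (D' + 1) (E' + 1)) : G * G' ∈ Bi k (D + D' + 1) (E + E' + 1) := by
  by_cases h0 : G = 0
  · rw [h0, zero_mul]
    exact Submodule.zero_mem _
  by_cases h0' : G' = 0
  · rw [h0', mul_zero]
    exact Submodule.zero_mem _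
  rw [mem_Bi] at h h' ⊢
  right
  obtain ⟨h1, h2⟩ := h.resolve_left h0
  obtain ⟨h3, h4⟩ := h'.resolve_left h0'
  rw [dX_mul h0 h0', dY_mul h0 h0']
  omega

theorem bim_one {k : Type} [Field k] : (1 : k[X][X]) ∈ Bi k 1 1 := by
  rw [mem_Bi]
  right
  unfold dX dY
  rw [map_one, natDegree_one]
  omega

theorem Bi_pow {k : Type} [Field k] {D E : ℕ} {G : k[X][X]} (h : G ∈ Bi k (D + 1) (E + 1)) (n : ℕ) :
    G ^ n ∈ Bi k (n * D + 1) (n * E + 1) := by
  induction n with
  | zero =>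
    rw [pow_zero, Nat.zero_mul, Nat.zero_mul]
    exact bim_one
  | succ n ih =>
    rw [pow_succ, Nat.succ_mul, Nat.succ_mul]
    exact Bi_mul ih h

theorem Bi_one {k : Type} [Field k] : (1 : k[X][X]) ∈ Bi k 1 1 := bim_one

theorem Bi_vv {k : Type} [Field k] (a : k) : vv a ∈ Bi k 2 1 := by
  rw [mem_Bi]
  right
  unfold dX dY vv
  rw [Bivariate.swap_C, natDegree_C]
  refine ⟨?_, by omega⟩
  have h1 : (X - C a : k[X]).natDegree = 1 := natDegree_X_sub_C a
  have h2 : ((X - C a : k[X]).map C).natDegree ≤ (X - C a : k[X]).natDegree := natDegree_map_le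
  omega

theorem Bi_uu {k : Type} [Field k] (a : k) : uu a ∈ Bi k 1 2 := by
  rw [mem_Bi]
  right
  unfold dX dY uu
  rw [map_sub, Bivariate.swap_C_C, Bivariate.swap_Y, ← C_sub, natDegree_C, natDegree_X_sub_C]
  omega

theorem bim_prod {k : Type} [Field k] {ι : Type} (D E : ℕ) (f : ι → k[X][X]) (S : Finset ι)
    (h : ∀ j ∈ S, f j ∈ Bi k (D + 1) (E + 1)) : (∏ j ∈ S, f j) ∈ Bi k (S.card * D + 1) (S.card * E + 1) := by
  classical
  induction S using Finset.induction_on with
  | empty =>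
    rw [Finset.prod_empty, Finset.card_empty, Nat.zero_mul, Nat.zero_mul]
    exact bim_one
  | insert a S ha ih =>
    rw [Finset.prod_insert ha, Finset.card_insert_of_notMem ha, mul_comm (f a), Nat.succ_mul, Nat.succ_mul]
    exact Bi_mul (ih fun j hj => h j (Finset.mem_insert_of_mem hj)) (h a (Finset.mem_insert_self _ _))

theorem Bi_UV {k : Type} [Field k] {K : ℕ} (a a' : Fin K → k) (S : Finset (Fin K)) :
    UV a a' S ∈ Bi k (K + 1) (K + 1) := by
  unfold UV
  have h1 := bim_prod 0 1 (fun j => uu (a' j)) S fun j _ => Bi_uu (a' j)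
  have h2 := bim_prod 1 0 (fun j => vv (a j)) Sᶜ fun j _ => Bi_vv (a j)
  have h3 := Bi_mul h1 h2
  refine Bi_mono ?_ ?_ h3
  · have h4 : Sᶜ.card ≤ K := by
      have := Finset.card_le_univ Sᶜ
      rwa [Fintype.card_fin] at this
    omega
  · have h4 : S.card ≤ K := by
      have := Finset.card_le_univ S
      rwa [Fintype.card_fin] at this
    omega

theorem Bi_prodvv {k : Type} [Field k] {K : ℕ} (a : Fin K → k) (S : Finset (Fin K)) :
    (∏ j ∈ S, vv (a j)) ∈ Bi k (K + 1) 1 := by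
  have h2 := bim_prod 1 0 (fun j => vv (a j)) S fun j _ => Bi_vv (a j)
  refine Bi_mono ?_ ?_ h2
  · have h4 : S.card ≤ K := by
      have := Finset.card_le_univ S
      rwa [Fintype.card_fin] at this
    omega
  · omega

end GPC
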