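import Pool.Agent.Lib.MP_56e792_co.S.Defs
import Pool.Agent.Lib.MP_56e792_co.S.BiM

/-!
# MP_56e792_co, all prime powers, module BiD

`Bd H D E`: the multiples of `H` in `Bi k D E`. For `H ≠ 0` the map `F ↦ H * F` is a linear equivalence from `Bi k (D - dX H) (E - dY H)` onto `Bd H D E` (`mem_Bi`, `dX_mul`, `dY_mul`; truncated subtraction is right: if `D ≤ dX H` both are `0`).
`Bd_codim`: `D^2 - (D-α)(D-β) ≤ (α+β) D` for truncated subtraction. `Bd_codim_eq`: `= (α+β) D - α β` if `α, β ≤ D`.
-/

set_option autoImplicit false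
set_option linter.unusedVariables false

namespace GPC

open Polynomial
open Pool.Agent.Lib.MP_56e792_co (J mem_J GP)

/-- the multiples of `H` in `Bi k D E` -/
noncomputable def Bd {k : Type} [Field k] (H : k[X][X]) (D E : ℕ) : Submodule k (k[X][X]) :=
  Bi k D E ⊓ (Ideal.span {H}).restrictScalars k

theorem mem_Bd {k : Type} [Field k] {H : k[X][X]} {D E : ℕ} {G : k[X][X]} :
    G ∈ Bd H D E ↔ G ∈ Bi k D E ∧ H ∣ G := by
  unfold Bd
  rw [Submodule.mem_inf, Submodule.restrictScalars_mem, Ideal.mem_span_singleton]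

theorem Bd_finrank {k : Type} [Field k] {H : k[X][X]} (hH : H ≠ 0) (D E : ℕ) :
    Module.finrank k (Bd H D E) = (D - dX H) * (E - dY H) := by
  have hmap : ∀ F : k[X][X], F ∈ Bi k (D - dX H) (E - dY H) → H * F ∈ Bd H D E := by
    intro F hF
    rw [mem_Bd]
    refine ⟨?_, Dvd.intro _ rfl⟩
    rw [mem_Bi] at hF ⊢
    rcases hF with h | ⟨h1, h2⟩
    · left
      rw [h, mul_zero]
    · by_cases h0 : F = 0
      · left
        rw [h0, mul_zero]
      · right
        rw [dX_mul hH h0, dY_mul hH h0]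
        omega
  let f : Bi k (D - dX H) (E - dY H) →ₗ[k] Bd H D E :=
    ((LinearMap.mulLeft k H).comp (Bi k (D - dX H) (E - dY H)).subtype).codRestrict (Bd H D E)
      (fun F => hmap F.1 F.2)
  have hf : ∀ F, ((f F : Bd H D E) : k[X][X]) = H * F.1 := fun F => rfl
  have hinj : Function.Injective f := by
    intro F F' h
    have h1 : H * F.1 = H * F'.1 := by rw [← hf, ← hf, h]
    exact Subtype.ext (mul_left_cancel₀ hH h1)
  have hsurj : Function.Surjective f := by
    rintro ⟨G, hG⟩
    obtain ⟨h1, F, h2⟩ := mem_Bd.1 hG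
    have h3 : F ∈ Bi k (D - dX H) (E - dY H) := by
      rw [mem_Bi] at h1 ⊢
      by_cases h0 : F = 0
      · exact Or.inl h0
      · right
        rcases h1 with h1 | ⟨h1, h1'⟩
        · exfalso
          rw [h1] at h2
          exact (mul_ne_zero hH h0) h2.symm
        · rw [h2, dX_mul hH h0] at h1
          rw [h2, dY_mul hH h0] at h1'
          omega
    exact ⟨⟨F, h3⟩, Subtype.ext ((hf _).trans h2.symm)⟩
  rw [← (LinearEquiv.ofBijective f ⟨hinj, hsurj⟩).finrank_eq, Bi_finrank]

theorem Bd_codim {k : Type} [Field k] {H : k[X][X]} (hH : H ≠ 0) (D : ℕ) :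
    D * D ≤ Module.finrank k (Bd H D D) + (dX H + dY H) * D := by
  rw [Bd_finrank hH]
  rcases le_total D (dX H) with h | h
  · nlinarith [Nat.zero_le (dY H), Nat.zero_le ((D - dX H) * (D - dY H))]
  · rcases le_total D (dY H) with h' | h'
    · nlinarith [Nat.zero_le (dX H), Nat.zero_le ((D - dX H) * (D - dY H))]
    · obtain ⟨x, hx⟩ := Nat.exists_eq_add_of_le h
      obtain ⟨y, hy⟩ := Nat.exists_eq_add_of_le h'
      have e1 : D - dX H = x := by omega
      have e2 : D - dY H = y := by omega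
      rw [e1, e2]
      have h1 : (D : ℤ) = dX H + x := by exact_mod_cast hx
      have h2 : (D : ℤ) = dY H + y := by exact_mod_cast hy
      have h3 : (D : ℤ) * D ≤ x * y + (dX H + dY H) * D := by
        have e3 : (x : ℤ) = D - dX H := by linarith
        have e4 : (y : ℤ) = D - dY H := by linarith
        have h5 : (0 : ℤ) ≤ dX H * dY H := by positivity
        rw [e3, e4]
        nlinarith
      exact_mod_cast h3

theorem Bd_codim_eq {k : Type} [Field k] {H : k[X][X]} (hH : H ≠ 0) {D : ℕ} (h1 : dX H ≤ D)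
    (h2 : dY H ≤ D) : D * D + dX H * dY H = Module.finrank k (Bd H D D) + (dX H + dY H) * D := by
  rw [Bd_finrank hH]
  obtain ⟨x, hx⟩ := Nat.exists_eq_add_of_le h1
  obtain ⟨y, hy⟩ := Nat.exists_eq_add_of_le h2
  have e1 : D - dX H = x := by omega
  have e2 : D - dY H = y := by omega
  rw [e1, e2]
  have h3 : (D : ℤ) * D + dX H * dY H = x * y + (dX H + dY H) * D := by
    have h4 : (D : ℤ) = dX H + x := by exact_mod_cast hx
    have h5 : (D : ℤ) = dY H + y := by exact_mod_cast hy
    have e3 : (x : ℤ) = D - dX H := by linarith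
    have e4 : (y : ℤ) = D - dY H := by linarith
    rw [e3, e4]
    ring
  exact_mod_cast h3

end GPC
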