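import Pool.Agent.Lib.MP_56e792_co.S.Defs
import Pool.Agent.Lib.MP_56e792_co.S.BiD

/-!
# MP_56e792_co, all prime powers, module Rnk

Bidegree Bezout as a dimension count. It is enough to treat large `S = D + D1`, `D1 ≥ max (dX H) (dY H)` (the ranks increase with `S`: `Bi_mono`). `φ` kills `G * Bi k D1 D1 + Bd H S S ≤ Bi k S S`
(`G ∈ Bi k D D`, so `G * F ∈ Bi k S S`). `(G * Bi k D1 D1) ⊓ Bd H S S = G * Bd H D1 D1` because `H` is prime and does not divide `G` (`Irreducible.prime`, UFD). So the sum has dimension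
`D1^2 + (S-α)(S-β) - (D1-α)(D1-β) = S^2 - D (α+β)` (`Submodule.finrank_sup_add_finrank_inf_eq`; `G ≠ 0` as `H` does not divide it), and the rank of `φ` on `Bi k S S` is `≤ S^2` minus this.
-/

set_option autoImplicit false
set_option linter.unusedVariables false

namespace GPC

open Polynomial
open Pool.Agent.Lib.MP_56e792_co (J mem_J GP)

/-- rank and nullity on a subspace -/
private theorem rnk_aux {k E V : Type} [Field k] [AddCommGroup E] [Module k E] [AddCommGroup V] [Module k V]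
    (φ : E →ₗ[k] V) (U W : Submodule k E) [FiniteDimensional k U] (hWU : W ≤ U) (hW : ∀ x ∈ W, φ x = 0) :
    Module.finrank k (U.map φ) + Module.finrank k W ≤ Module.finrank k U := by
  have h1 := LinearMap.finrank_range_add_finrank_ker (φ.domRestrict U)
  rw [LinearMap.range_domRestrict] at h1
  have h2 : Module.finrank k W ≤ Module.finrank k (LinearMap.ker (φ.domRestrict U)) := by
    have h3 : Module.finrank k (W.comap U.subtype) = Module.finrank k W :=
      (Submodule.comapSubtypeEquivOfLe hWU).finrank_eq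
    rw [← h3]
    apply Submodule.finrank_mono
    intro x hx
    rw [LinearMap.mem_ker, LinearMap.domRestrict_apply]
    exact hW _ hx
  omega

theorem rnk {k : Type} [Field k] {H G : k[X][X]} (hH : Irreducible H) {D : ℕ}
    (hG : G ∈ Bi k D D) (hHG : ¬ H ∣ G) {V : Type} [AddCommGroup V] [Module k V]
    (φ : k[X][X] →ₗ[k] V) (h1 : ∀ F, φ (G * F) = 0) (h2 : ∀ F, φ (H * F) = 0) (S : ℕ) :
    Module.finrank k ((Bi k S S).map φ) ≤ (dX H + dY H) * D := by
  have hG0 : G ≠ 0 := by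
    rintro rfl
    exact hHG (dvd_zero H)
  have hD : D ≠ 0 := by
    rintro rfl
    rcases mem_Bi.1 hG with h | h
    · exact hG0 h
    · omega
  obtain ⟨D', rfl⟩ := Nat.exists_eq_succ_of_ne_zero hD
  obtain ⟨D1', hD1'⟩ : ∃ D1', D1' = S + max (dX H) (dY H) := ⟨_, rfl⟩
  obtain ⟨a, ha⟩ : ∃ a, D1' + 1 = dX H + a := ⟨D1' + 1 - dX H, by omega⟩
  obtain ⟨b, hb⟩ : ∃ b, D1' + 1 = dY H + b := ⟨D1' + 1 - dY H, by omega⟩
  have hprime : Prime H := hH.prime
  haveI f1 : FiniteDimensional k (Bi k (D' + 1 + (D1' + 1)) (D' + 1 + (D1' + 1))) := Bi_fin _ _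
  haveI f2 : FiniteDimensional k (Bi k (D1' + 1) (D1' + 1)) := Bi_fin _ _
  set μ : k[X][X] →ₗ[k] k[X][X] := LinearMap.mulLeft k G with hμ
  have hμi : Function.Injective μ := by
    intro x y hxy
    exact mul_left_cancel₀ hG0 hxy
  set A := (Bi k (D1' + 1) (D1' + 1)).map μ with hA
  set B := Bd H (D' + 1 + (D1' + 1)) (D' + 1 + (D1' + 1)) with hB
  have hAU : A ≤ Bi k (D' + 1 + (D1' + 1)) (D' + 1 + (D1' + 1)) := by
    rintro x ⟨F, hF, rfl⟩
    have := Bi_mul hG hF
    exact Bi_mono (by omega) (by omega) this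
  have hBU : B ≤ Bi k (D' + 1 + (D1' + 1)) (D' + 1 + (D1' + 1)) := fun x hx => (mem_Bd.1 hx).1
  haveI f3 : FiniteDimensional k A := Submodule.finiteDimensional_of_le hAU
  haveI f4 : FiniteDimensional k B := Submodule.finiteDimensional_of_le hBU
  have hfA : Module.finrank k A = (D1' + 1) * (D1' + 1) := by
    rw [← Bi_finrank (k := k)]
    exact (Submodule.equivMapOfInjective μ hμi _).symm.finrank_eq
  have hfB : Module.finrank k B = (D' + 1 + a) * (D' + 1 + b) := by
    rw [hB, Bd_finrank hH.ne_zero]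
    congr 1 <;> omega
  have hinf : Module.finrank k (A ⊓ B : Submodule k (k[X][X])) ≤ a * b := by
    have h3 : A ⊓ B ≤ (Bd H (D1' + 1) (D1' + 1)).map μ := by
      rintro x ⟨⟨F, hF, rfl⟩, hx⟩
      have h4 : H ∣ G * F := (mem_Bd.1 hx).2
      refine ⟨F, mem_Bd.2 ⟨hF, ?_⟩, rfl⟩
      exact (hprime.dvd_or_dvd h4).resolve_left hHG
    haveI f5 : FiniteDimensional k (Bd H (D1' + 1) (D1' + 1)) :=
      Submodule.finiteDimensional_of_le (fun x hx => (mem_Bd.1 hx).1 : Bd H (D1' + 1) (D1' + 1) ≤ Bi k (D1' + 1) (D1' + 1))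
    have h5 := Submodule.finrank_mono h3
    have h6 : Module.finrank k ((Bd H (D1' + 1) (D1' + 1)).map μ) = a * b := by
      rw [← (Submodule.equivMapOfInjective μ hμi _).finrank_eq, Bd_finrank hH.ne_zero]
      congr 1 <;> omega
    omega
  have hsup := Submodule.finrank_sup_add_finrank_inf_eq A B
  have hW := rnk_aux φ (Bi k (D' + 1 + (D1' + 1)) (D' + 1 + (D1' + 1))) (A ⊔ B) (sup_le hAU hBU) (by
    intro x hx
    obtain ⟨y, ⟨F, -, rfl⟩, z, hz, rfl⟩ := Submodule.mem_sup.1 hx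
    obtain ⟨F', hF'⟩ := (mem_Bd.1 hz).2
    rw [map_add, hF', h2, add_zero]
    exact h1 F)
  rw [Bi_finrank] at hW
  have hmono : Module.finrank k ((Bi k S S).map φ) ≤
      Module.finrank k ((Bi k (D' + 1 + (D1' + 1)) (D' + 1 + (D1' + 1))).map φ) := by
    apply Submodule.finrank_mono
    exact Submodule.map_mono (Bi_mono (by omega) (by omega))
  refine hmono.trans ?_
  have e1 : (D' + 1) * (D1' + 1) = (D' + 1) * (dX H + a) := by rw [ha]
  have e2 : (D' + 1) * (D1' + 1) = (D' + 1) * (dY H + b) := by rw [hb]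
  rw [hfA, hfB] at hsup
  nlinarith

end GPC
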