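import Pool.Agent.Lib.MP_56e792_co.S.Defs
import Pool.Agent.Lib.MP_56e792_co.S.Rnk

/-!
# MP_56e792_co, all prime powers, module Bez

`rnk` with `φ = ` evaluation at the points of `Z` (`V = Z → k`), `S = Z.card`: the evaluation `Bi k S S → (Z → k)` is onto: for `z ∈ Z` the product over `z' ∈ Z \ {z}` of `vv z'.1` or `uu z'.2` (one of them is nonzero at `z`) is in `Bi k S S`,
nonzero at `z` and zero at the other points. `bez_fin`: the number of common zeros in the whole plane is finite: for the first coordinates.
-/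

set_option autoImplicit false
set_option linter.unusedVariables false

namespace GPC

open Polynomial
open Pool.Agent.Lib.MP_56e792_co (J mem_J GP)

private theorem bez_pt_mul {k : Type} [Field k] (a b : k) (F G : k[X][X]) :
    pt a b (F * G) = pt a b F * pt a b G := by
  simp [pt, evalEval]

private theorem bez_pt_prod {k : Type} [Field k] (a b : k) {ι : Type} (T : Finset ι)
    (F : ι → k[X][X]) : pt a b (∏ i ∈ T, F i) = ∏ i ∈ T, pt a b (F i) := by
  simp only [pt]
  exact map_prod (evalEvalRingHom a b) F T

private theorem bez_pt_vv {k : Type} [Field k] (a b c : k) : pt a b (vv c) = a - c := by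
  simp [pt, vv, evalEval]

private theorem bez_pt_uu {k : Type} [Field k] (a b c : k) : pt a b (uu c) = b - c := by
  simp [pt, uu, evalEval]

/-- evaluation at the points of `Z` -/
private noncomputable def bez_ev {k : Type} [Field k] (Z : Finset (k × k)) :
    k[X][X] →ₗ[k] (Z → k) where
  toFun F z := pt z.1.1 z.1.2 F
  map_add' F G := by
    funext z
    simp [pt, evalEval]
  map_smul' c F := by
    funext z
    have : c • F = C (C c) * F := by
      ext i j
      rw [coeff_smul, coeff_smul, coeff_C_mul, coeff_C_mul, smul_eq_mul]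
    simp [pt, evalEval, this]

private theorem bez_prod_mem {k : Type} [Field k] {ι : Type} [DecidableEq ι] (T : Finset ι)
    (F : ι → k[X][X]) (h : ∀ i, F i ∈ Bi k 2 2) :
    (∏ i ∈ T, F i) ∈ Bi k (T.card + 1) (T.card + 1) := by
  induction T using Finset.induction_on with
  | empty =>
    simpa using (Bi_one (k := k))
  | insert a T ha ih =>
    rw [Finset.prod_insert ha, Finset.card_insert_of_notMem ha]
    have h1 := Bi_mul (D := 1) (E := 1) (D' := T.card) (E' := T.card) (h a) ih
    rw [show T.card + 1 + 1 = 1 + T.card + 1 by ring]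
    exact h1

theorem bez {k : Type} [Field k] {H G : k[X][X]} (hH : Irreducible H) {D : ℕ}
    (hG : G ∈ Bi k D D) (hHG : ¬ H ∣ G) (Z : Finset (k × k))
    (h1 : ∀ z ∈ Z, pt z.1 z.2 H = 0) (h2 : ∀ z ∈ Z, pt z.1 z.2 G = 0) :
    Z.card ≤ (dX H + dY H) * D := by
  classical
  have h3 : ∀ F, bez_ev Z (G * F) = 0 := by
    intro F
    funext z
    change pt z.1.1 z.1.2 (G * F) = 0
    rw [bez_pt_mul, h2 _ z.2, zero_mul]
  have h4 : ∀ F, bez_ev Z (H * F) = 0 := by
    intro F
    funext z
    change pt z.1.1 z.1.2 (H * F) = 0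
    rw [bez_pt_mul, h1 _ z.2, zero_mul]
  have h5 := rnk hH hG hHG (bez_ev Z) h3 h4 Z.card
  have h6 : (Bi k Z.card Z.card).map (bez_ev Z) = ⊤ := by
    rw [eq_top_iff]
    intro v _
    have h7 : ∀ z : Z, (Pi.single z (1 : k) : Z → k) ∈ (Bi k Z.card Z.card).map (bez_ev Z) := by
      intro z
      let F : k × k → k[X][X] := fun z' => if z.1.1 = z'.1 then uu z'.2 else vv z'.1
      have hF : ∀ z', F z' ∈ Bi k 2 2 := by
        intro z'
        by_cases h : z.1.1 = z'.1
        · simp only [F, if_pos h]
          exact Bi_mono (by norm_num) le_rfl (Bi_uu z'.2)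
        · simp only [F, if_neg h]
          exact Bi_mono le_rfl (by norm_num) (Bi_vv z'.1)
      have hP := bez_prod_mem (Z.erase z.1) F hF
      have hc : (Z.erase z.1).card + 1 = Z.card := Finset.card_erase_add_one z.2
      rw [hc] at hP
      have hne : pt z.1.1 z.1.2 (∏ z' ∈ Z.erase z.1, F z') ≠ 0 := by
        rw [bez_pt_prod, Finset.prod_ne_zero_iff]
        intro z' hz'
        rw [Finset.mem_erase] at hz'
        by_cases h : z.1.1 = z'.1
        · simp only [F, if_pos h]
          rw [bez_pt_uu, sub_ne_zero]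
          intro h'
          exact hz'.1 (Prod.ext h.symm h'.symm)
        · simp only [F, if_neg h]
          rw [bez_pt_vv, sub_ne_zero]
          exact h
      have hz : ∀ w : Z, w ≠ z → pt w.1.1 w.1.2 (∏ z' ∈ Z.erase z.1, F z') = 0 := by
        intro w hw
        rw [bez_pt_prod]
        apply Finset.prod_eq_zero (i := w.1)
        · rw [Finset.mem_erase]
          exact ⟨fun h => hw (Subtype.ext h), w.2⟩
        · by_cases h : z.1.1 = w.1.1
          · simp only [F, if_pos h]
            rw [bez_pt_uu, sub_self]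
          · simp only [F, if_neg h]
            rw [bez_pt_vv, sub_self]
      have h8 : (Pi.single z (1 : k) : Z → k) =
          (pt z.1.1 z.1.2 (∏ z' ∈ Z.erase z.1, F z'))⁻¹ • bez_ev Z (∏ z' ∈ Z.erase z.1, F z') := by
        funext w
        rw [Pi.smul_apply]
        change _ = _ • pt w.1.1 w.1.2 _
        by_cases hw : w = z
        · subst hw
          rw [Pi.single_eq_same, smul_eq_mul, inv_mul_cancel₀ hne]
        · rw [Pi.single_eq_of_ne hw, hz w hw, smul_zero]
      rw [h8]
      exact Submodule.smul_mem _ _ (Submodule.mem_map_of_mem hP)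
    have h9 : v = ∑ z : Z, v z • (Pi.single z (1 : k) : Z → k) := by
      funext w
      rw [Finset.sum_apply]
      simp [Pi.single_apply]
    rw [h9]
    exact Submodule.sum_mem _ fun z _ => Submodule.smul_mem _ _ (h7 z)
  rw [h6, finrank_top, Module.finrank_fintype_fun_eq_card, Fintype.card_coe] at h5
  exact h5

/-- the same for points `(c, c ^ q)` -/
theorem bez_frob {k : Type} [Field k] {H G : k[X][X]} (hH : Irreducible H) {D : ℕ}
    (hG : G ∈ Bi k D D) (hHG : ¬ H ∣ G) (q : ℕ) (C : Finset k)
    (h1 : ∀ c ∈ C, pt c (c ^ q) H = 0) (h2 : ∀ c ∈ C, pt c (c ^ q) G = 0) :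
    C.card ≤ (dX H + dY H) * D := by
  classical
  have hinj : Function.Injective (fun c : k => (c, c ^ q)) := by
    intro a b h
    exact (Prod.ext_iff.1 h).1
  have h3 := bez hH hG hHG (C.map ⟨fun c : k => (c, c ^ q), hinj⟩)
    (by
      intro z hz
      rw [Finset.mem_map] at hz
      obtain ⟨c, hc, rfl⟩ := hz
      exact h1 c hc)
    (by
      intro z hz
      rw [Finset.mem_map] at hz
      obtain ⟨c, hc, rfl⟩ := hz
      exact h2 c hc)
  rwa [Finset.card_map] at h3

end GPC
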