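import Pool.Agent.Lib.MP_56e792_co.S.Defs
import Pool.Agent.Lib.MP_56e792_co.S.Bez

/-!
# MP_56e792_co, all prime powers, module Goo

* `good_high`: `a` is not good only if the leading coefficient of `H` (in `k[X]`, degree `≤ dX H`) vanishes at `a`, or `a` is the first coordinate of a common zero of `H` and `H_Y` (`bez`, `H` does not divide `H_Y`: at most `(α+β)(α+β+1)`; only finitely many: apply `bez` to a finset of common zeros): otherwise
  `H(a, Y)` has degree `dY H ≥ 2` and only simple roots, so at least two roots (`k` algebraically closed; `card_roots`, `nodup_roots`), one of them is not `a^q`. Total `α + (α+β)(α+β+1) ≤ (α+β+1)^2`.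
* `good_one`: `H = h1(X) Y + h0(X)`, `h1` of degree `≤ 1`, `h1 ≠ 0`: if `h1(a) ≠ 0` take `b = -h0(a)/h1(a)`; `H_Y(a,b) = h1(a)`, `b ≠ a^q` since `H(a,a^q) ≠ 0`.
-/

set_option autoImplicit false
set_option linter.unusedVariables false

namespace GPC

open Polynomial
open Pool.Agent.Lib.MP_56e792_co (J mem_J GP)

private theorem goo_coeff {k : Type} [Field k] {H : k[X][X]} (hH : H ≠ 0) {i : ℕ} (hi : dX H < i) (j : ℕ) :
    (H.coeff j).coeff i = 0 := by
  have h1 : H ∈ Bi k (dX H + 1) (dY H + 1) := mem_Bi.2 (Or.inr ⟨by omega, by omega⟩)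
  exact h1 i j (Or.inl (by omega))

private theorem goo_natDegree {k : Type} [Field k] {H : k[X][X]} (hH : H ≠ 0) (j : ℕ) :
    (H.coeff j).natDegree ≤ dX H := by
  rw [natDegree_le_iff_coeff_eq_zero]
  intro i hi
  exact goo_coeff hH hi j

open Classical in
private theorem goo_roots {k : Type} [Field k] {f : k[X]} (hf : f ≠ 0) (C : Finset k) :
    (C.filter (fun a => f.eval a = 0)).card ≤ f.natDegree := by
  refine le_trans (Finset.card_le_card ?_) (f.card_roots' |> (Multiset.toFinset_card_le f.roots).trans)
  intro a ha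
  rw [Finset.mem_filter] at ha
  rw [Multiset.mem_toFinset, mem_roots hf]
  exact ha.2

open Classical in
theorem good_high {k : Type} [Field k] [IsAlgClosed k] {H : k[X][X]} (hH : Irreducible H)
    (h2 : 2 ≤ dY H) (hd : derivative H ≠ 0) (q : ℕ) (C : Finset k) :
    (C.filter (fun a => ¬ Good q H a)).card ≤ (dX H + dY H + 1) ^ 2 := by
  have hH0 := hH.ne_zero
  set f := H.leadingCoeff with hf
  have hf0 : f ≠ 0 := leadingCoeff_ne_zero.2 hH0
  have hfd : f.natDegree ≤ dX H := goo_natDegree hH0 _
  -- the derivative
  have hdiv : ¬ H ∣ derivative H := by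
    intro h
    have h1 := natDegree_le_of_dvd h hd
    have h3 : (derivative H).natDegree < H.natDegree := natDegree_derivative_lt (by unfold dY at h2; omega)
    omega
  have hBi : derivative H ∈ Bi k (dX H + dY H) (dX H + dY H) := by
    intro i j hij
    rw [coeff_derivative]
    have h1 : H ∈ Bi k (dX H + 1) (dY H + 1) := mem_Bi.2 (Or.inr ⟨by omega, by omega⟩)
    have h3 : (H.coeff (j + 1)).coeff i = 0 := by
      rcases hij with h | h
      · exact h1 i (j + 1) (Or.inl (by omega))
      · exact h1 i (j + 1) (Or.inr (by omega))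
    have h4 : ((j : k[X]) + 1) = Polynomial.C ((j : k) + 1) := by simp
    rw [h4, coeff_mul_C, h3, zero_mul]
  -- the bad points with nonvanishing leading coefficient
  have key : ∀ a : k, f.eval a ≠ 0 → ¬ Good q H a → ∃ b : k, pt a b H = 0 ∧ pt a b (derivative H) = 0 := by
    intro a ha hbad
    by_contra hne
    push Not at hne
    set g : k[X] := H.map (evalRingHom a) with hg
    have hgd : g.natDegree = dY H := by
      rw [hg]
      exact natDegree_map_of_leadingCoeff_ne_zero _ (by simpa using ha)
    have hpt : ∀ b : k, g.eval b = pt a b H := fun b => map_evalRingHom_eval a b H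
    have hptd : ∀ b : k, (derivative g).eval b = pt a b (derivative H) := by
      intro b
      rw [hg, derivative_map]
      exact map_evalRingHom_eval a b (derivative H)
    have hg0 : g ≠ 0 := by
      intro h
      rw [h, natDegree_zero] at hgd
      omega
    have hroot : ∀ b ∈ g.roots, b = a ^ q := by
      intro b hb
      rw [mem_roots hg0, IsRoot.def, hpt] at hb
      by_contra hbq
      exact hbad ⟨b, hb, hne b hb, hbq⟩
    have hcard : g.roots.card = dY H := by
      rw [← hgd]
      exact (splits_iff_card_roots.1 (IsAlgClosed.splits g))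
    have hrep : g.roots = Multiset.replicate (dY H) (a ^ q) := by
      rw [Multiset.eq_replicate]
      exact ⟨hcard, hroot⟩
    have hmul : 1 < rootMultiplicity (a ^ q) g := by
      rw [← count_roots, hrep, Multiset.count_replicate_self]
      omega
    have h5 := (one_lt_rootMultiplicity_iff_isRoot hg0).1 hmul
    have h6 : pt a (a ^ q) H = 0 := by
      rw [← hpt]
      exact h5.1
    have h7 : pt a (a ^ q) (derivative H) = 0 := by
      rw [← hptd]
      exact h5.2
    exact hne _ h6 h7
  choose! b hb1 hb2 using key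
  set B := C.filter (fun a => f.eval a ≠ 0 ∧ ¬ Good q H a) with hB
  have hBc : B.card ≤ (dX H + dY H) * (dX H + dY H) := by
    have h1 := bez hH hBi hdiv (B.image (fun a => (a, b a))) (by
      intro z hz
      rw [Finset.mem_image] at hz
      obtain ⟨a, ha, rfl⟩ := hz
      rw [hB, Finset.mem_filter] at ha
      exact hb1 a ha.2.1 ha.2.2) (by
      intro z hz
      rw [Finset.mem_image] at hz
      obtain ⟨a, ha, rfl⟩ := hz
      rw [hB, Finset.mem_filter] at ha
      exact hb2 a ha.2.1 ha.2.2)
    rwa [Finset.card_image_of_injective _ (fun x y hxy => (Prod.mk.inj hxy).1)] at h1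
  have hsub : C.filter (fun a => ¬ Good q H a) ⊆ C.filter (fun a => f.eval a = 0) ∪ B := by
    intro a ha
    rw [Finset.mem_filter] at ha
    rw [Finset.mem_union, Finset.mem_filter, hB, Finset.mem_filter]
    by_cases h : f.eval a = 0
    · exact Or.inl ⟨ha.1, h⟩
    · exact Or.inr ⟨ha.1, h, ha.2⟩
  have h1 := Finset.card_le_card hsub
  have h3 := Finset.card_union_le (C.filter (fun a => f.eval a = 0)) B
  have h4 := (goo_roots hf0 C).trans hfd
  nlinarith

open Classical in
theorem good_one {k : Type} [Field k] {H : k[X][X]} (h1 : dX H = 1)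
    (h2 : dY H = 1) (q : ℕ) (C : Finset k) (hC : ∀ a ∈ C, pt a (a ^ q) H ≠ 0) :
    (C.filter (fun a => ¬ Good q H a)).card ≤ 1 := by
  have hH0 : H ≠ 0 := by
    rintro rfl
    simp [dY] at h2
  have hlc : H.coeff 1 ≠ 0 := by
    have : H.leadingCoeff ≠ 0 := leadingCoeff_ne_zero.2 hH0
    rw [leadingCoeff, show H.natDegree = 1 from h2] at this
    exact this
  have hdeg : (H.coeff 1).natDegree ≤ 1 := h1 ▸ goo_natDegree hH0 1
  have hform : H = Polynomial.C (H.coeff 1) * X + Polynomial.C (H.coeff 0) :=
    eq_X_add_C_of_natDegree_le_one (le_of_eq h2)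
  have hpt : ∀ a b : k, pt a b H = (H.coeff 1).eval a * b + (H.coeff 0).eval a := by
    intro a b
    unfold pt
    conv_lhs => rw [hform]
    simp [evalEval]
  have hptd : ∀ a b : k, pt a b (derivative H) = (H.coeff 1).eval a := by
    intro a b
    unfold pt
    conv_lhs => rw [hform]
    simp [evalEval]
  refine le_trans (Finset.card_le_card ?_) ((goo_roots hlc C).trans hdeg)
  intro a ha
  rw [Finset.mem_filter] at ha ⊢
  refine ⟨ha.1, ?_⟩
  by_contra hne
  refine ha.2 ⟨-((H.coeff 0).eval a) / (H.coeff 1).eval a, ?_, ?_, ?_⟩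
  · rw [hpt]
    field_simp
    ring
  · rw [hptd]
    exact hne
  · intro h
    apply hC a ha.1
    rw [← h, hpt]
    field_simp
    ring

end GPC
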