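import Pool.Agent.Lib.MP_56e792_co.S.Defs

/-!
# MP_56e792_co, all prime powers, module Pic

Greedy choice, induction on the number of points already chosen (`Fin.snoc`, or choose a function on `ℕ` by strong recursion). Having chosen `(a i, b i)`, `i < j < K`, exclude from `Gd`: the `a i`; the `a` with `a^q = b i` (at most one each, `x ↦ x^(p^n)` is injective); the `a` with `pt a (a i ^ q) H = 0` (at most `dX H` each: `H(X, a i^q)` is a nonzero
polynomial in `X` of degree `≤ dX H`: if it were zero, `uu (a i^q) ∣ H`, so `H` is associated to it, against `1 ≤ dX H`): in all at most `K (dX H + 2)` elements. For the new point `b j` from `Good`: `b j ≠ (a j)^q`; `b j ≠ (a i)^q` since `H(a j, a i^q) ≠ 0`; `b i ≠ (a j)^q`.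
-/

set_option autoImplicit false
set_option linter.unusedVariables false

namespace GPC

open Polynomial
open Pool.Agent.Lib.MP_56e792_co (J mem_J GP)

private theorem pic_eval {k : Type} [Field k] (H : k[X][X]) (c : k) :
    H.eval (C c) = (Bivariate.swap H).map (evalRingHom c) := by
  induction H using Polynomial.induction_on' with
  | add f g hf hg => rw [eval_add, map_add, Polynomial.map_add, hf, hg]
  | monomial n a =>
    have h1 : (evalRingHom c).comp C = RingHom.id k := by
      ext r
      simp
    rw [eval_monomial, Bivariate.swap_monomial, Polynomial.map_mul, Polynomial.map_map, map_C, h1,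
      Polynomial.map_id]
    simp

private theorem pic_deg {k : Type} [Field k] (H : k[X][X]) (c : k) : (H.eval (C c)).natDegree ≤ dX H := by
  rw [pic_eval]
  exact natDegree_map_le

private theorem pic_ne {k : Type} [Field k] {H : k[X][X]} (hH : Irreducible H) (h1 : 1 ≤ dX H) (c : k) :
    H.eval (C c) ≠ 0 := by
  intro h0
  obtain ⟨u, hu⟩ := dvd_iff_isRoot.2 (show IsRoot H (C c) from h0)
  rcases hH.isUnit_or_isUnit hu with h2 | h2
  · exact not_isUnit_X_sub_C _ h2
  · have h3 : IsUnit (Bivariate.swap u) := h2.map (Bivariate.swap (R := k))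
    have h4 : Bivariate.swap (X - C (C c) : k[X][X]) = C (X - C c) := by
      rw [map_sub, Bivariate.swap_Y, Bivariate.swap_C_C, C_sub]
    have h5 : dX H ≤ 0 := by
      unfold dX
      rw [hu, map_mul, h4]
      refine natDegree_mul_le.trans ?_
      rw [natDegree_C, natDegree_eq_zero_of_isUnit h3]
    omega

private theorem pic_step {k : Type} [Field k] {p : ℕ} [Fact p.Prime] [CharP k p] {n K : ℕ}
    {H : k[X][X]} (hH : Irreducible H) (h1 : 1 ≤ dX H)
    (Gd : Finset k) (hG : ∀ a ∈ Gd, Good (p ^ n) H a) (hcard : K * (dX H + 2) < Gd.card) :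
    ∀ j : ℕ, j ≤ K → ∃ a b : Fin j → k, (∀ i, a i ∈ Gd) ∧ (∀ i i', i ≠ i' → a i ≠ a i') ∧
      (∀ i, pt (a i) (b i) H = 0) ∧ (∀ i, pt (a i) (b i) (derivative H) ≠ 0) ∧
      ∀ i i', b i ≠ a i' ^ p ^ n := by
  classical
  intro j
  induction j with
  | zero =>
    intro _
    exact ⟨Fin.elim0, Fin.elim0, fun i => i.elim0, fun i => i.elim0, fun i => i.elim0, fun i => i.elim0,
      fun i => i.elim0⟩
  | succ j ih =>
    intro hj
    obtain ⟨a, b, ha, hinj, hon, hsm, hoff⟩ := ih (by omega)
    set E1 : Finset k := Finset.univ.image a with hE1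
    set E2 : Finset k := Finset.univ.biUnion fun i : Fin j => Gd.filter fun x => x ^ p ^ n = b i with hE2
    set E3 : Finset k := Finset.univ.biUnion fun i : Fin j => (H.eval (C (a i ^ p ^ n))).roots.toFinset with hE3
    have c1 : E1.card ≤ j := by
      refine Finset.card_image_le.trans ?_
      simp
    have c2 : E2.card ≤ j := by
      have : E2.card ≤ (Finset.univ : Finset (Fin j)).card * 1 := by
        refine Finset.card_biUnion_le_card_mul _ _ _ fun i _ => ?_
        rw [Finset.card_le_one]
        intro x hx y hy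
        rw [Finset.mem_filter] at hx hy
        have h2 : (x - y) ^ p ^ n = 0 := by
          rw [sub_pow_char_pow, hx.2, hy.2, sub_self]
        exact sub_eq_zero.1 (pow_eq_zero_iff (pow_pos (Fact.out : p.Prime).pos n).ne' |>.1 h2)
      simpa using this
    have c3 : E3.card ≤ j * dX H := by
      have : E3.card ≤ (Finset.univ : Finset (Fin j)).card * dX H := by
        refine Finset.card_biUnion_le_card_mul _ _ _ fun i _ => ?_
        exact (Multiset.toFinset_card_le _).trans ((card_roots' _).trans (pic_deg _ _))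
      simpa using this
    have c4 : (E1 ∪ E2 ∪ E3).card < Gd.card := by
      have h2 : (E1 ∪ E2 ∪ E3).card ≤ E1.card + E2.card + E3.card :=
        (Finset.card_union_le _ _).trans (Nat.add_le_add_right (Finset.card_union_le _ _) _)
      have h3 : j * (dX H + 2) ≤ K * (dX H + 2) := Nat.mul_le_mul_right _ (by omega)
      have h4 : j * (dX H + 2) = j * dX H + j * 2 := by ring
      omega
    obtain ⟨x, hx, hxE⟩ := Finset.exists_mem_notMem_of_card_lt_card c4
    rw [Finset.mem_union, Finset.mem_union, not_or, not_or] at hxE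
    obtain ⟨⟨e1, e2⟩, e3⟩ := hxE
    have f1 : ∀ i, a i ≠ x := by
      intro i h
      exact e1 (Finset.mem_image.2 ⟨i, Finset.mem_univ _, h⟩)
    have f2 : ∀ i, b i ≠ x ^ p ^ n := by
      intro i h
      exact e2 (Finset.mem_biUnion.2 ⟨i, Finset.mem_univ _, Finset.mem_filter.2 ⟨hx, h.symm⟩⟩)
    have f3 : ∀ i, pt x (a i ^ p ^ n) H ≠ 0 := by
      intro i h
      refine e3 (Finset.mem_biUnion.2 ⟨i, Finset.mem_univ _, ?_⟩)
      rw [Multiset.mem_toFinset, mem_roots (pic_ne hH h1 _)]
      exact h
    obtain ⟨y, y1, y2, y3⟩ := hG x hx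
    refine ⟨Fin.snoc a x, Fin.snoc b y, ?_, ?_, ?_, ?_, ?_⟩
    · intro i
      refine Fin.lastCases ?_ (fun i => ?_) i
      · rw [Fin.snoc_last]
        exact hx
      · rw [Fin.snoc_castSucc]
        exact ha i
    · intro i i'
      refine Fin.lastCases ?_ (fun i => ?_) i
      · refine Fin.lastCases ?_ (fun i' => ?_) i'
        · intro h
          exact absurd rfl h
        · intro _
          rw [Fin.snoc_last, Fin.snoc_castSucc]
          exact (f1 i').symm
      · refine Fin.lastCases ?_ (fun i' => ?_) i'
        · intro _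
          rw [Fin.snoc_last, Fin.snoc_castSucc]
          exact f1 i
        · intro h
          rw [Fin.snoc_castSucc, Fin.snoc_castSucc]
          exact hinj i i' fun h' => h (by rw [h'])
    · intro i
      refine Fin.lastCases ?_ (fun i => ?_) i
      · rw [Fin.snoc_last, Fin.snoc_last]
        exact y1
      · rw [Fin.snoc_castSucc, Fin.snoc_castSucc]
        exact hon i
    · intro i
      refine Fin.lastCases ?_ (fun i => ?_) i
      · rw [Fin.snoc_last, Fin.snoc_last]
        exact y2
      · rw [Fin.snoc_castSucc, Fin.snoc_castSucc]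
        exact hsm i
    · intro i i'
      refine Fin.lastCases ?_ (fun i => ?_) i
      · refine Fin.lastCases ?_ (fun i' => ?_) i'
        · rw [Fin.snoc_last, Fin.snoc_last]
          exact y3
        · rw [Fin.snoc_last, Fin.snoc_castSucc]
          intro h
          rw [h] at y1
          exact f3 i' y1
      · refine Fin.lastCases ?_ (fun i' => ?_) i'
        · rw [Fin.snoc_last, Fin.snoc_castSucc]
          exact f2 i
        · rw [Fin.snoc_castSucc, Fin.snoc_castSucc]
          exact hoff i i'

theorem pick {k : Type} [Field k] {p : ℕ} [Fact p.Prime] [CharP k p] {n l K : ℕ}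
    (hl : l.Prime) (hlk : (l : k) ≠ 0) {H : k[X][X]} (hH : Irreducible H) (h1 : 1 ≤ dX H)
    (Gd : Finset k) (hG : ∀ a ∈ Gd, Good (p ^ n) H a) (hcard : K * (dX H + 2) < Gd.card) :
    ∃ a b : Fin K → k, (∀ j, a j ∈ Gd) ∧ Kum H l K a (fun j => a j ^ p ^ n) b := by
  obtain ⟨a, b, ha, hinj, hon, hsm, hoff⟩ := pic_step (p := p) (n := n) hH h1 Gd hG hcard K le_rfl
  exact ⟨a, b, ha, ⟨hH, hl, hlk, hinj, hon, hsm, hoff⟩⟩

end GPC
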