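import Pool.Agent.Lib.MP_56e792_co.S.Defs

/-!
# MP_56e792_co, all prime powers, module PaC

Real analysis only. `δ = α + β`, `M = p^μ`, `q = p^n`. Choose `μ` (depending on all but `n`) with `M` large:
`4 (1 + δ E + δ K) ≤ ε M`, `E = αβ + 1 + α + β`, `B := (M+1) / (2^K δ) + E` (natural division):
`2^K (δB - αβ) ≥ M+1`, and `δ B ≤ (M+1)/2^K + δ E`. `c ≤ M` with `M ∣ M1 + c`. `R := ⌊ε' q⌋` with
`ε' = min (ε/(4 δ)) (1/(4 l^K δ M))`.
-/

set_option autoImplicit false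
set_option linter.unusedVariables false

namespace GPC

open Polynomial
open Pool.Agent.Lib.MP_56e792_co (J mem_J GP)

theorem parC (p l K α β : ℕ) (hp : p.Prime) (hl : l.Prime) (hK : 1 ≤ K) (hα : 1 ≤ α) (hβ : 1 ≤ β)
    (ε : ℝ) (hε : 0 < ε) :
    ∃ n1 : ℕ, ∀ n ≥ n1, ∀ M1 : ℕ, l * M1 = p ^ n + 1 → ∃ μ c R B : ℕ, μ ≤ n ∧
      p ^ μ ∣ M1 + c ∧ α ≤ R ∧ β ≤ R ∧ α ≤ B ∧ β ≤ B ∧
      (α + β) * (p ^ μ * R + K * c + B) <
        2 ^ K * (((α + β) * R - α * β) * ((α + β) * B - α * β)) ∧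
      l ^ K * ((α + β) * (p ^ μ * R + K * c + K + K * l)) < p ^ n ∧
      (((α + β) * (p ^ μ * R + K * (M1 + c) + B * p ^ n) : ℕ) : ℝ) ≤
        (1 / 2 ^ K + ε) * (p : ℝ) ^ n * (p : ℝ) ^ μ := by
  have hp1 : (1 : ℝ) < (p : ℝ) := by exact_mod_cast hp.one_lt
  have hl2 : 2 ≤ l := hl.two_le
  obtain ⟨δ, hδ⟩ : ∃ δ, δ = α + β := ⟨_, rfl⟩
  obtain ⟨E, hE⟩ : ∃ E, E = α * β + 1 + α + β := ⟨_, rfl⟩
  have hδ1 : 1 ≤ δ := by omega
  obtain ⟨μ, hμ⟩ := pow_unbounded_of_one_lt (4 * (1 + δ * E + δ * K : ℝ) / ε) hp1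
  obtain ⟨M, hM⟩ : ∃ M, M = p ^ μ := ⟨_, rfl⟩
  have hM0 : 0 < M := by rw [hM]; exact pow_pos hp.pos _
  have hMr : (M : ℝ) = (p : ℝ) ^ μ := by rw [hM]; push_cast; rfl
  rw [← hMr, div_lt_iff₀ hε] at hμ
  have h2K : 0 < 2 ^ K := by positivity
  obtain ⟨B, hB⟩ : ∃ B, B = (M + 1) / (2 ^ K * δ) + E := ⟨_, rfl⟩
  have hD0 : 0 < 2 ^ K * δ := Nat.mul_pos h2K (by omega)
  have hB1 : M + 1 ≤ 2 ^ K * (δ * B - α * β) := by
    have h1 : M + 1 < 2 ^ K * δ * ((M + 1) / (2 ^ K * δ) + 1) :=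
      Nat.lt_mul_div_succ _ hD0
    have h2 : δ * ((M + 1) / (2 ^ K * δ) + 1) ≤ δ * B - α * β := by
      have h3 : δ * B = δ * ((M + 1) / (2 ^ K * δ) + 1) + δ * (α * β + α + β) := by
        rw [hB, hE]; ring
      have h4 : α * β ≤ δ * (α * β + α + β) := by nlinarith [Nat.zero_le (α * β)]
      omega
    calc M + 1 ≤ 2 ^ K * δ * ((M + 1) / (2 ^ K * δ) + 1) := h1.le
      _ = 2 ^ K * (δ * ((M + 1) / (2 ^ K * δ) + 1)) := by ring
      _ ≤ 2 ^ K * (δ * B - α * β) := Nat.mul_le_mul_left _ h2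
  have hB2 : 2 ^ K * (δ * B) ≤ (M + 1) + 2 ^ K * (δ * E) := by
    have h1 : 2 ^ K * δ * ((M + 1) / (2 ^ K * δ)) ≤ M + 1 := Nat.mul_div_le _ _
    calc 2 ^ K * (δ * B) = 2 ^ K * δ * ((M + 1) / (2 ^ K * δ)) + 2 ^ K * (δ * E) := by
          rw [hB]; ring
      _ ≤ (M + 1) + 2 ^ K * (δ * E) := Nat.add_le_add_right h1 _
  have hBE : E ≤ B := by rw [hB]; exact Nat.le_add_left _ _
  obtain ⟨R0, hR0⟩ : ∃ R0, R0 = α * β * (M + 1) + K * M + B + α + β + 1 := ⟨_, rfl⟩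
  have hδr : (0 : ℝ) < (δ : ℝ) := by exact_mod_cast hδ1
  have hMr0 : (0 : ℝ) < (M : ℝ) := by exact_mod_cast hM0
  have hlr : (0 : ℝ) < (l : ℝ) ^ K := by
    have : (0 : ℝ) < (l : ℝ) := by exact_mod_cast (show 0 < l by omega)
    positivity
  obtain ⟨ε', hε'⟩ : ∃ e : ℝ, e = min (ε / (4 * δ)) (1 / (4 * ((l : ℝ) ^ K * (δ * M)))) := ⟨_, rfl⟩
  have hε'0 : 0 < ε' := by rw [hε']; positivity
  obtain ⟨N1, hN1⟩ := exists_nat_ge ((R0 + 1 : ℝ) / ε')
  obtain ⟨N2, hN2⟩ := exists_nat_ge (4 * ((δ : ℝ) * K) / ε)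
  refine ⟨μ + N1 + N2 + 2 * (l ^ K * (δ * (K * M + K + K * l))) + 1, fun n hn M1 hM1 => ?_⟩
  have hnq : n < p ^ n := Nat.lt_pow_self hp.one_lt
  obtain ⟨q, hq⟩ : ∃ q, q = p ^ n := ⟨_, rfl⟩
  have hqr : (q : ℝ) = (p : ℝ) ^ n := by rw [hq]; push_cast; rfl
  rw [← hq] at hnq hM1
  have hq0 : (0 : ℝ) < (q : ℝ) := by exact_mod_cast (show 0 < q by omega)
  obtain ⟨c, hc⟩ : ∃ c, c = M - M1 % M := ⟨_, rfl⟩
  have hcM : c ≤ M := by rw [hc]; exact Nat.sub_le _ _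
  have hdvd : M ∣ M1 + c := by
    refine ⟨M1 / M + 1, ?_⟩
    have h1 := Nat.div_add_mod M1 M
    have h2 := Nat.mod_lt M1 hM0
    have h3 : M * (M1 / M + 1) = M * (M1 / M) + M := by ring
    omega
  obtain ⟨R, hR⟩ : ∃ R, R = ⌊ε' * q⌋₊ := ⟨_, rfl⟩
  have hR1 : (R : ℝ) ≤ ε' * q := by rw [hR]; exact Nat.floor_le (by positivity)
  have hR2 : R0 ≤ R := by
    rw [hR]
    refine Nat.le_floor ?_
    have h1 : (N1 : ℝ) ≤ (q : ℝ) := by exact_mod_cast (show N1 ≤ q by omega)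
    have h2 : (R0 + 1 : ℝ) / ε' ≤ q := hN1.trans h1
    rw [div_le_iff₀ hε'0] at h2
    linarith
  have hM1q : M1 ≤ q := by
    have h1 : 2 * M1 ≤ l * M1 := Nat.mul_le_mul_right _ hl2
    omega
  refine ⟨μ, c, R, B, by omega, ?_, by omega, by omega, by omega, by omega, ?_, ?_, ?_⟩
  · rw [← hM]; exact hdvd
  · rw [← hM, ← hδ]
    have hαR : α * β ≤ δ * R := by
      have h1 : α * β ≤ α * β * (M + 1) := Nat.le_mul_of_pos_right _ (by omega)
      have h2 : R ≤ δ * R := Nat.le_mul_of_pos_left _ (by omega)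
      omega
    obtain ⟨X, hX⟩ : ∃ X, X = δ * R - α * β := ⟨_, rfl⟩
    have hX1 : X + α * β = δ * R := by rw [hX]; exact Nat.sub_add_cancel hαR
    rw [← hX]
    have h1 : X * (M + 1) ≤ 2 ^ K * (X * (δ * B - α * β)) := by
      calc X * (M + 1) ≤ X * (2 ^ K * (δ * B - α * β)) := Nat.mul_le_mul_left _ hB1
        _ = 2 ^ K * (X * (δ * B - α * β)) := by ring
    refine lt_of_lt_of_le ?_ h1
    have h2 : (X + α * β) * (M + 1) = δ * (M * R) + δ * R := by rw [hX1]; ring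
    have h3 : δ * (α * β * (M + 1) + K * c + B + 1) ≤ δ * R := by
      refine Nat.mul_le_mul_left _ ?_
      have h4 : K * c ≤ K * M := Nat.mul_le_mul_left _ hcM
      omega
    have h5 : α * β * (M + 1) ≤ δ * (α * β * (M + 1)) := Nat.le_mul_of_pos_left _ (by omega)
    have h6 : δ * (α * β * (M + 1) + K * c + B + 1) =
        δ * (α * β * (M + 1)) + δ * (K * c + B) + δ := by ring
    have h7 : (X + α * β) * (M + 1) = X * (M + 1) + α * β * (M + 1) := by ring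
    have h8 : δ * (M * R + K * c + B) = δ * (M * R) + δ * (K * c + B) := by ring
    omega
  · rw [← hM, ← hδ, ← hq]
    have h1 : ((l ^ K * (δ * (M * R + K * c + K + K * l)) : ℕ) : ℝ) < (q : ℝ) := by
      have h2 : l ^ K * (δ * (M * R + K * c + K + K * l)) ≤
          l ^ K * (δ * (M * R)) + l ^ K * (δ * (K * M + K + K * l)) := by
        have h4 : K * c ≤ K * M := Nat.mul_le_mul_left _ hcM
        calc l ^ K * (δ * (M * R + K * c + K + K * l))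
            ≤ l ^ K * (δ * (M * R + K * M + K + K * l)) := by
              refine Nat.mul_le_mul_left _ (Nat.mul_le_mul_left _ ?_)
              omega
          _ = _ := by ring
      have h3 : ((l ^ K * (δ * (M * R)) : ℕ) : ℝ) ≤ q / 4 := by
        push_cast
        have h5 : (R : ℝ) ≤ 1 / (4 * ((l : ℝ) ^ K * (δ * M))) * q := by
          refine hR1.trans (mul_le_mul_of_nonneg_right ?_ hq0.le)
          rw [hε']; exact min_le_right _ _
        calc (l : ℝ) ^ K * (δ * (M * R)) ≤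
            (l : ℝ) ^ K * (δ * (M * (1 / (4 * ((l : ℝ) ^ K * (δ * M))) * q))) := by gcongr
          _ = q / 4 := by field_simp
      have h6 : ((l ^ K * (δ * (K * M + K + K * l)) : ℕ) : ℝ) ≤ q / 2 := by
        have h7 : 2 * (l ^ K * (δ * (K * M + K + K * l))) ≤ q := by omega
        have h8 : (2 : ℝ) * ((l ^ K * (δ * (K * M + K + K * l)) : ℕ) : ℝ) ≤ q := by
          exact_mod_cast h7
        linarith
      have h9 : ((l ^ K * (δ * (M * R + K * c + K + K * l)) : ℕ) : ℝ) ≤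
          ((l ^ K * (δ * (M * R)) : ℕ) : ℝ) + ((l ^ K * (δ * (K * M + K + K * l)) : ℕ) : ℝ) := by
        exact_mod_cast h2
      linarith
    exact_mod_cast h1
  · rw [← hM, ← hδ, ← hq, ← hqr, ← hMr]
    push_cast
    have hMq : (M : ℝ) * ε ≥ 4 * (1 + δ * E + δ * K) := by rw [mul_comm] at hμ; rw [mul_comm]; linarith
    have a1 : (δ : ℝ) * (M * R) ≤ ε / 4 * (q * M) := by
      have h5 : (R : ℝ) ≤ ε / (4 * δ) * q := by
        refine hR1.trans (mul_le_mul_of_nonneg_right ?_ hq0.le)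
        rw [hε']; exact min_le_left _ _
      calc (δ : ℝ) * (M * R) ≤ δ * (M * (ε / (4 * δ) * q)) := by gcongr
        _ = ε / 4 * (q * M) := by field_simp
    have a2 : (δ : ℝ) * (K * (M1 + c)) ≤ δ * K * q + ε / 4 * (q * M) := by
      have h1 : (M1 : ℝ) ≤ q := by exact_mod_cast hM1q
      have h2 : (c : ℝ) ≤ M := by exact_mod_cast hcM
      have h3 : (N2 : ℝ) ≤ q := by exact_mod_cast (show N2 ≤ q by omega)
      have h4 : 4 * ((δ : ℝ) * K) / ε ≤ q := hN2.trans h3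
      rw [div_le_iff₀ hε] at h4
      have h5 : (δ : ℝ) * (K * c) ≤ ε / 4 * (q * M) := by
        calc (δ : ℝ) * (K * c) ≤ δ * (K * M) := by gcongr
          _ = (4 * (δ * K)) * (M / 4) := by ring
          _ ≤ (q * ε) * (M / 4) := by gcongr
          _ = ε / 4 * (q * M) := by ring
      have h6 : (δ : ℝ) * (K * M1) ≤ δ * K * q := by
        calc (δ : ℝ) * (K * M1) ≤ δ * (K * q) := by gcongr
          _ = δ * K * q := by ring
      nlinarith
    have a3 : (δ : ℝ) * (B * q) ≤ 1 / 2 ^ K * (q * M) + (1 + δ * E) * q := by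
      have h1 : (2 : ℝ) ^ K * (δ * B) ≤ (M + 1) + 2 ^ K * (δ * E) := by exact_mod_cast hB2
      have h2 : (0 : ℝ) < 2 ^ K := by positivity
      have h3 : (δ : ℝ) * B ≤ 1 / 2 ^ K * M + (1 / 2 ^ K + δ * E) := by
        have h4 : (δ : ℝ) * B ≤ ((M + 1) + 2 ^ K * (δ * E)) / 2 ^ K := by
          rw [le_div_iff₀ h2]; linarith
        calc (δ : ℝ) * B ≤ ((M + 1) + 2 ^ K * (δ * E)) / 2 ^ K := h4
          _ = 1 / 2 ^ K * M + (1 / 2 ^ K + δ * E) := by field_simp; ring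
      have h5 : (1 : ℝ) / 2 ^ K ≤ 1 := by
        rw [div_le_one h2]
        exact one_le_pow₀ (by norm_num)
      calc (δ : ℝ) * (B * q) = (δ * B) * q := by ring
        _ ≤ (1 / 2 ^ K * M + (1 / 2 ^ K + δ * E)) * q := by gcongr
        _ ≤ (1 / 2 ^ K * M + (1 + δ * E)) * q := by gcongr
        _ = _ := by ring
    have a4 : (δ : ℝ) * K * q + (1 + δ * E) * q ≤ ε / 4 * (q * M) := by
      calc (δ : ℝ) * K * q + (1 + δ * E) * q = (4 * (1 + δ * E + δ * K)) * (q / 4) := by ring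
        _ ≤ (M * ε) * (q / 4) := by gcongr
        _ = ε / 4 * (q * M) := by ring
    have a5 : (0 : ℝ) ≤ ε / 4 * (q * M) := by positivity
    calc (δ : ℝ) * (M * R + K * (M1 + c) + B * q)
        = δ * (M * R) + δ * (K * (M1 + c)) + δ * (B * q) := by ring
      _ ≤ 1 / 2 ^ K * (q * M) + ε * (q * M) := by linarith
      _ = (1 / 2 ^ K + ε) * q * M := by ring

end GPC
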