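import Pool.Agent.Lib.MP_56e792_co.S.Defs
import Pool.Agent.Lib.MP_56e792_co.S.Bez

/-!
# MP_56e792_co, all prime powers, module Gen

A point `(x, y)` of the curve `H` where `H_Y ≠ 0`, `x` is none of the `a j` and `y` none of the `a' j`. `H` does not divide `H_Y` (smaller degree in `Y`, nonzero by `hK.sm` and `1 ≤ K`), so the set of first coordinates of common zeros is finite (`bez`); `dY H ≥ 1`; the leading coefficient
(in `k[X]`) of `H` has finitely many zeros; `H` is not associated to `uu (a' j)` (otherwise `b i = a' j`, against `hK.off`), so `H(x, a' j)` is a nonzero polynomial in `x` (if it vanished, `uu (a' j) ∣ H`). `k` is infinite: choose `x` outside of these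
finite sets, then `y` a root of `H(x, Y)`, which has positive degree (`IsAlgClosed.exists_root`).
-/

set_option autoImplicit false
set_option linter.unusedVariables false

namespace GPC

open Polynomial
open Pool.Agent.Lib.MP_56e792_co (J mem_J GP)

/-- every bivariate polynomial is in some `Bi` -/
private theorem gen_mem_Bi {k : Type} [Field k] (G : k[X][X]) : ∃ D : ℕ, G ∈ Bi k D D := by
  refine ⟨G.natDegree + 1 + (Finset.range (G.natDegree + 1)).sup (fun j => (G.coeff j).natDegree),
    ?_⟩
  intro i j hij
  by_cases hj : j ≤ G.natDegree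
  · have h1 : (G.coeff j).natDegree ≤
        (Finset.range (G.natDegree + 1)).sup (fun j => (G.coeff j).natDegree) :=
      Finset.le_sup (f := fun j => (G.coeff j).natDegree) (Finset.mem_range.2 (by omega))
    rcases hij with h | h
    · exact coeff_eq_zero_of_natDegree_lt (by omega)
    · omega
  · rw [coeff_eq_zero_of_natDegree_lt (by omega : G.natDegree < j), coeff_zero]

theorem generic {k : Type} [Field k] [IsAlgClosed k] {H : k[X][X]} {l K : ℕ}
    {a a' b : Fin K → k} (hK : Kum H l K a a' b) (hK1 : 1 ≤ K) :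
    ∃ x y : k, pt x y H = 0 ∧ pt x y (derivative H) ≠ 0 ∧ (∀ j, x ≠ a j) ∧ ∀ j, y ≠ a' j := by
  classical
  haveI : Infinite k := IsAlgClosed.instInfinite
  have hH : Irreducible H := hK.irr
  have hd : derivative H ≠ 0 := by
    intro h0
    have := hK.sm ⟨0, hK1⟩
    rw [h0] at this
    exact this (by simp [pt])
  have hdeg : 1 ≤ H.natDegree := by
    by_contra hcon
    have h0 : H.natDegree = 0 := by omega
    rw [eq_C_of_natDegree_eq_zero h0, derivative_C] at hd
    exact hd rfl
  have hnd : ¬ H ∣ derivative H := by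
    intro h
    have h1 := natDegree_le_of_dvd h hd
    have h2 := natDegree_derivative_lt (p := H) (by omega)
    omega
  obtain ⟨D, hD⟩ := gen_mem_Bi (derivative H)
  -- first coordinates of singular points
  have hfin1 : {x : k | ∃ y, pt x y H = 0 ∧ pt x y (derivative H) = 0}.Finite := by
    by_contra hcon
    obtain ⟨T, hT, hTc⟩ := Set.Infinite.exists_subset_card_eq hcon ((dX H + dY H) * D + 1)
    have hch : ∀ x : T, ∃ y, pt x.1 y H = 0 ∧ pt x.1 y (derivative H) = 0 := fun x =>
      hT (Finset.mem_coe.2 x.2)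
    choose y hy1 hy2 using hch
    have hb := bez hH hD hnd (T.attach.image (fun x => (x.1, y x)))
      (by
        intro z hz
        obtain ⟨x, _, rfl⟩ := Finset.mem_image.1 hz
        exact hy1 x)
      (by
        intro z hz
        obtain ⟨x, _, rfl⟩ := Finset.mem_image.1 hz
        exact hy2 x)
    rw [Finset.card_image_of_injective _ (fun x x' h => Subtype.ext (Prod.mk.inj h).1),
      Finset.card_attach, hTc] at hb
    omega
  -- zeros of the leading coefficient
  have hfin2 : {x : k | eval x H.leadingCoeff = 0}.Finite :=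
    finite_setOfPred_isRoot (leadingCoeff_ne_zero.2 hH.ne_zero)
  -- points over `a' j`
  have hP : ∀ j, eval (C (a' j)) H ≠ 0 := by
    intro j h0
    have h1 : (X - C (C (a' j)) : k[X][X]) ∣ H := dvd_iff_isRoot.2 h0
    have h2 : Associated (X - C (C (a' j)) : k[X][X]) H :=
      (irreducible_X_sub_C _).associated_of_dvd hH h1
    obtain ⟨u, hu⟩ := h2.symm
    have h3 := hK.on ⟨0, hK1⟩
    have h4 : pt (a ⟨0, hK1⟩) (b ⟨0, hK1⟩) (X - C (C (a' j))) = 0 := by
      rw [← hu]
      unfold pt at h3 ⊢
      rw [evalEval_mul, h3, zero_mul]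
    unfold pt at h4
    rw [evalEval_sub, evalEval_X, evalEval_C, eval_C] at h4
    exact hK.off ⟨0, hK1⟩ j (sub_eq_zero.1 h4)
  have hfin3 : (⋃ j : Fin K, {x : k | eval x (eval (C (a' j)) H) = 0}).Finite :=
    Set.finite_iUnion fun j => finite_setOfPred_isRoot (hP j)
  have hfin4 : (Set.range a).Finite := Set.finite_range a
  obtain ⟨x, hx⟩ := (((hfin1.union hfin2).union hfin3).union hfin4).infinite_compl.nonempty
  simp only [Set.mem_compl_iff, Set.mem_union, Set.mem_iUnion, Set.mem_ofPred_eq, Set.mem_range,
    not_or, not_exists] at hx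
  obtain ⟨⟨⟨x1, x2⟩, x3⟩, x4⟩ := hx
  have hmap : (H.map (evalRingHom x)).natDegree = H.natDegree :=
    natDegree_map_of_leadingCoeff_ne_zero _ x2
  obtain ⟨y, hy⟩ := IsAlgClosed.exists_root (H.map (evalRingHom x)) (by
    intro h0
    have h1 : (H.map (evalRingHom x)).natDegree = 0 := natDegree_eq_of_degree_eq_some h0
    omega)
  have hy' : pt x y H = 0 := by
    unfold pt
    rw [← map_evalRingHom_eval]
    exact hy
  refine ⟨x, y, hy', fun h => x1 y ⟨hy', h⟩, fun j h => x4 j h.symm, fun j h => x3 j ?_⟩
  rw [← h]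
  exact hy'

end GPC
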