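import Pool.Agent.Lib.MP_56e792_co.S.Defs
import Pool.Agent.Lib.MP_56e792_co.S.BiM

/-!
# MP_56e792_co, all prime powers, module LaM

`w^e w^e' = w^e'' ∏_{j ∈ J} ψ (uu (a' j) * vv (a j)^(l-1))`, `e'' = (e + e') mod l`, `J = {j | l ≤ e j + e' j}`; degrees: `(D-1) + (D'-1) + K (l-1) < D + D' + K l` (treat `D = 0` or `D' = 0` separately: `Lam = {0}`).
`Lam_add`, `Lam_zero`, `Lam_smul`, `Lam_sum` : closure.
-/

set_option autoImplicit false
set_option linter.unusedVariables false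

namespace GPC

open Polynomial
open Pool.Agent.Lib.MP_56e792_co (J mem_J GP)

theorem Lam_zero {k : Type} [Field k] {l K : ℕ} (ψ : k[X][X] →ₐ[k] PowerSeries k)
    (w : Fin K → PowerSeries k) (D : ℕ) : (0 : PowerSeries k) ∈ Lam ψ w l D := by
  refine ⟨fun _ => 0, fun _ => Submodule.zero_mem _, ?_⟩
  simp

theorem Lam_sum {k : Type} [Field k] {l K : ℕ} (ψ : k[X][X] →ₐ[k] PowerSeries k)
    (w : Fin K → PowerSeries k) (D : ℕ) {ι : Type} (s : Finset ι) (c : ι → k)
    (B : ι → PowerSeries k) (h : ∀ i ∈ s, B i ∈ Lam ψ w l D) :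
    ∑ i ∈ s, c i • B i ∈ Lam ψ w l D := by
  classical
  choose! G hG hB using h
  refine ⟨fun e => ∑ i ∈ s, c i • G i e, fun e => Submodule.sum_mem _ fun i hi =>
    Submodule.smul_mem _ _ (hG i hi e), ?_⟩
  have h1 : ∀ e : Fin K → Fin l, ψ (∑ i ∈ s, c i • G i e) * ∏ j, w j ^ (e j : ℕ) =
      ∑ i ∈ s, c i • (ψ (G i e) * ∏ j, w j ^ (e j : ℕ)) := by
    intro e
    rw [map_sum, Finset.sum_mul]
    refine Finset.sum_congr rfl fun i _ => ?_
    rw [map_smul, smul_mul_assoc]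
  simp_rw [h1]
  rw [Finset.sum_comm]
  refine Finset.sum_congr rfl fun i hi => ?_
  rw [hB i hi, Finset.smul_sum]

private theorem lam_mono {k : Type} [Field k] {D E D' E' : ℕ} (h : D ≤ D') (h' : E ≤ E') {G : k[X][X]}
    (hG : G ∈ Bi k D E) : G ∈ Bi k D' E' := by
  intro i j hij
  refine hG i j ?_
  rcases hij with h1 | h1
  · exact Or.inl (h.trans h1)
  · exact Or.inr (h'.trans h1)

private theorem lam_single {k : Type} [Field k] {l K : ℕ} (ψ : k[X][X] →ₐ[k] PowerSeries k)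
    (w : Fin K → PowerSeries k) (D : ℕ) {P : k[X][X]} (hP : P ∈ Bi k D D) (e : Fin K → Fin l) :
    ψ P * ∏ j, w j ^ (e j : ℕ) ∈ Lam ψ w l D := by
  classical
  refine ⟨fun e' => if e' = e then P else 0, fun e' => ?_, ?_⟩
  · dsimp only
    split_ifs
    · exact hP
    · exact Submodule.zero_mem _
  · rw [Finset.sum_eq_single e]
    · simp
    · intro e' _ he
      simp [he]
    · intro h
      exact absurd (Finset.mem_univ e) h

private theorem lam_prod {k : Type} [Field k] {ι : Type} (s : Finset ι) (P : ι → k[X][X]) {A B : ℕ}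
    (h : ∀ i ∈ s, P i ∈ Bi k (A + 1) (B + 1)) : ∏ i ∈ s, P i ∈ Bi k (s.card * A + 1) (s.card * B + 1) := by
  classical
  induction s using Finset.induction_on with
  | empty =>
    simp only [Finset.prod_empty, Finset.card_empty, zero_mul, zero_add]
    exact Bi_one
  | insert a s ha ih =>
    rw [Finset.prod_insert ha, Finset.card_insert_of_notMem ha]
    have h1 := Bi_mul (h a (Finset.mem_insert_self a s)) (ih fun i hi => h i (Finset.mem_insert_of_mem hi))
    have e1 : (s.card + 1) * A + 1 = A + s.card * A + 1 := by ring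
    have e2 : (s.card + 1) * B + 1 = B + s.card * B + 1 := by ring
    rw [e1, e2]
    exact h1

theorem Lam_mul {k : Type} [Field k] {l K : ℕ} (hl : 1 ≤ l) {a a' : Fin K → k}
    {ψ : k[X][X] →ₐ[k] PowerSeries k} (w : Fin K → PowerSeries k)
    (hw : ∀ j, w j ^ l = ψ (uu (a' j) * vv (a j) ^ (l - 1))) {D D' : ℕ} {B B' : PowerSeries k}
    (h : B ∈ Lam ψ w l D) (h' : B' ∈ Lam ψ w l D') : B * B' ∈ Lam ψ w l (D + D' + K * l) := by
  classical
  obtain ⟨G, hG, hB⟩ := h
  obtain ⟨G', hG', hB'⟩ := h'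
  have hl0 : 0 < l := hl
  -- the factor
  have hM : ∀ j, uu (a' j) * vv (a j) ^ (l - 1) ∈ Bi k ((l - 1) + 1) (1 + 1) := by
    intro j
    have h1 : uu (a' j) ∈ Bi k (0 + 1) (1 + 1) := Bi_uu (a' j)
    have h2 : vv (a j) ∈ Bi k (1 + 1) (0 + 1) := Bi_vv (a j)
    have h3 := Bi_mul h1 (Bi_pow h2 (l - 1))
    have e1 : 0 + (l - 1) * 1 + 1 = (l - 1) + 1 := by ring
    have e2 : 1 + (l - 1) * 0 + 1 = 1 + 1 := by ring
    rw [e1, e2] at h3
    exact h3
  have key : ∀ e e' : Fin K → Fin l, (ψ (G e) * ∏ j, w j ^ (e j : ℕ)) * (ψ (G' e') * ∏ j, w j ^ (e' j : ℕ)) ∈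
      Lam ψ w l (D + D' + K * l) := by
    intro e e'
    set S : Finset (Fin K) := Finset.univ.filter fun j => l ≤ (e j : ℕ) + e' j with hS
    set e2 : Fin K → Fin l := fun j => ⟨((e j : ℕ) + e' j) % l, Nat.mod_lt _ hl0⟩ with he2
    have h1 : ∀ j, w j ^ (e j : ℕ) * w j ^ (e' j : ℕ) =
        (if j ∈ S then ψ (uu (a' j) * vv (a j) ^ (l - 1)) else 1) * w j ^ (e2 j : ℕ) := by
      intro j
      rw [← pow_add]
      by_cases hj : l ≤ (e j : ℕ) + e' j
      · have hjS : j ∈ S := by simp [hS, hj]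
        rw [if_pos hjS, ← hw j, ← pow_add]
        congr 1
        simp only [he2]
        rw [Nat.mod_eq_sub_mod hj, Nat.mod_eq_of_lt (by have := (e j).2; have := (e' j).2; omega)]
        omega
      · have hjS : j ∉ S := by simp [hS]; omega
        rw [if_neg hjS, one_mul]
        congr 1
        simp only [he2]
        rw [Nat.mod_eq_of_lt (not_le.1 hj)]
    have h2 : (ψ (G e) * ∏ j, w j ^ (e j : ℕ)) * (ψ (G' e') * ∏ j, w j ^ (e' j : ℕ)) =
        ψ (G e * G' e' * ∏ j ∈ S, (uu (a' j) * vv (a j) ^ (l - 1))) * ∏ j, w j ^ (e2 j : ℕ) := by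
      have h3 : (∏ j, w j ^ (e j : ℕ)) * ∏ j, w j ^ (e' j : ℕ) =
          ψ (∏ j ∈ S, (uu (a' j) * vv (a j) ^ (l - 1))) * ∏ j, w j ^ (e2 j : ℕ) := by
        rw [← Finset.prod_mul_distrib, Finset.prod_congr rfl fun j _ => h1 j, Finset.prod_mul_distrib,
          Finset.prod_ite_mem, Finset.univ_inter, map_prod]
      rw [map_mul, map_mul]
      calc (ψ (G e) * ∏ j, w j ^ (e j : ℕ)) * (ψ (G' e') * ∏ j, w j ^ (e' j : ℕ))
          = ψ (G e) * ψ (G' e') * ((∏ j, w j ^ (e j : ℕ)) * ∏ j, w j ^ (e' j : ℕ)) := by ring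
        _ = _ := by rw [h3]; ring
    rw [h2]
    refine lam_single ψ w _ ?_ e2
    rcases Nat.eq_zero_or_pos D with hD | hD
    · have h4 : G e = 0 := by
        ext j i
        have := hG e i j (Or.inl (by omega))
        simpa using this
      rw [h4]
      simp
    rcases Nat.eq_zero_or_pos D' with hD' | hD'
    · have h4 : G' e' = 0 := by
        ext j i
        have := hG' e' i j (Or.inl (by omega))
        simpa using this
      rw [h4]
      simp
    obtain ⟨D1, rfl⟩ : ∃ D1, D = D1 + 1 := ⟨D - 1, by omega⟩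
    obtain ⟨D1', rfl⟩ : ∃ D1', D' = D1' + 1 := ⟨D' - 1, by omega⟩
    have h5 := Bi_mul (Bi_mul (hG e) (hG' e')) (lam_prod S (fun j => uu (a' j) * vv (a j) ^ (l - 1)) fun j _ => hM j)
    have hc : S.card ≤ K := by
      have := Finset.card_le_univ S
      rwa [Fintype.card_fin] at this
    have hc1 : S.card * (l - 1) ≤ K * (l - 1) := Nat.mul_le_mul_right _ hc
    have hKl : K * (l - 1) + K = K * l := by
      have : l = (l - 1) + 1 := by omega
      conv_rhs => rw [this]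
      ring
    have hKl2 : K ≤ K * l := Nat.le_mul_of_pos_right K hl0
    exact lam_mono (by omega) (by omega) h5
  have h6 : B * B' = ∑ x : (Fin K → Fin l) × (Fin K → Fin l), (1 : k) •
      ((ψ (G x.1) * ∏ j, w j ^ (x.1 j : ℕ)) * (ψ (G' x.2) * ∏ j, w j ^ (x.2 j : ℕ))) := by
    rw [hB, hB', Finset.sum_mul_sum, Fintype.sum_prod_type]
    simp_rw [one_smul]
  rw [h6]
  exact Lam_sum ψ w _ Finset.univ (fun _ => (1 : k)) _ fun x _ => key x.1 x.2

end GPC
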