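import Pool.Agent.Lib.MP_56e792_co.S.Defs

/-!
# MP_56e792_co, all prime powers, module NoA

Product over `j`: for `j ∈ S`: `U^(M1+c) V^(q+1-M1) = U^c w^(q+1)` since `w^(q+1) = (w^l)^M1 = U^M1 V^((l-1) M1)` and `(l-1) M1 = q+1-M1`; for `j ∉ S`: `V^(M1+c) V^(q+1-M1) = V^c V^(q+1)`. (`U = ψ (uu (a' j))`, `V = ψ (vv (a j))`; `q` any number with `l M1 = q+1`.)
-/

set_option autoImplicit false
set_option linter.unusedVariables false

namespace GPC

open Polynomial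
open Pool.Agent.Lib.MP_56e792_co (J mem_J GP)

theorem non_id {k : Type} [Field k] {l K M1 q : ℕ} (hl : 1 ≤ l) (hM1 : l * M1 = q + 1)
    {a a' : Fin K → k} {ψ : k[X][X] →ₐ[k] PowerSeries k} (w : Fin K → PowerSeries k)
    (hw : ∀ j, w j ^ l = ψ (uu (a' j) * vv (a j) ^ (l - 1))) (S : Finset (Fin K)) (c : ℕ) :
    ψ (UV a a' S) ^ (M1 + c) * ∏ j, ψ (vv (a j)) ^ (q + 1 - M1) =
      ψ (UV a a' S) ^ c * zz ψ w a S * zz ψ w a S ^ q := by
  have hM : M1 + (q + 1 - M1) = q + 1 := by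
    have h1 : M1 ≤ q + 1 := by
      rw [← hM1]
      exact Nat.le_mul_of_pos_left _ hl
    omega
  have hM' : q + 1 - M1 = (l - 1) * M1 := by
    rw [← hM1, Nat.sub_mul, one_mul]
  have e1 : ∀ j, ψ (uu (a' j)) ^ M1 * ψ (vv (a j)) ^ (q + 1 - M1) = w j ^ (q + 1) := by
    intro j
    rw [← hM1, pow_mul, hw j, map_mul, map_pow, mul_pow, ← pow_mul, hM1, hM']
  have e2 : ∀ j, ψ (vv (a j)) ^ M1 * ψ (vv (a j)) ^ (q + 1 - M1) = ψ (vv (a j)) ^ (q + 1) := by
    intro j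
    rw [← pow_add, hM]
  have key : ψ (UV a a' S) ^ M1 * ∏ j, ψ (vv (a j)) ^ (q + 1 - M1) = zz ψ w a S ^ (q + 1) := by
    unfold UV zz
    rw [map_mul, map_prod, map_prod, mul_pow, mul_pow, ← Finset.prod_pow, ← Finset.prod_pow,
      ← Finset.prod_pow, ← Finset.prod_pow,
      ← Finset.prod_mul_prod_compl S (fun j => ψ (vv (a j)) ^ (q + 1 - M1)),
      mul_mul_mul_comm, ← Finset.prod_mul_distrib, ← Finset.prod_mul_distrib,
      Finset.prod_congr rfl (fun j _ => e1 j), Finset.prod_congr rfl (fun j _ => e2 j)]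
  rw [pow_add, mul_right_comm, key, pow_succ]
  ring

end GPC
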