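import Pool.Agent.Lib.MP_56e792_co.S.Defs
import Pool.Agent.Lib.MP_56e792_co.S.BiM

/-!
# MP_56e792_co, all prime powers, module NoB

The exponent `e` is the indicator of `S` (`2 ≤ l`), `G e = ρ^M * UV^c * ∏_{j ∉ S} vv (a j)`, all other `G = 0`. Degrees: `R = R' + 1`, `Bi_pow`, `Bi_mul`, `Bi_UV`, `Bi_prodvv`: `M R' + K c + K + 1 ≤ M R + K c + K`.
-/

set_option autoImplicit false
set_option linter.unusedVariables false

namespace GPC

open Polynomial
open Pool.Agent.Lib.MP_56e792_co (J mem_J GP)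

theorem non_mem {k : Type} [Field k] {l K M R c : ℕ} (hl : 2 ≤ l) (hM : 1 ≤ M) (hR : 1 ≤ R)
    {a a' : Fin K → k} {ψ : k[X][X] →ₐ[k] PowerSeries k} (w : Fin K → PowerSeries k)
    (S : Finset (Fin K)) {ρ : k[X][X]} (hρ : ρ ∈ Bi k R R) :
    ψ (ρ ^ M * UV a a' S ^ c) * zz ψ w a S ∈ Lam ψ w l (M * R + K * c + K) := by
  classical
  obtain ⟨R', rfl⟩ : ∃ R', R = R' + 1 := ⟨R - 1, by omega⟩
  set e0 : Fin K → Fin l := fun j => if j ∈ S then ⟨1, by omega⟩ else ⟨0, by omega⟩ with he0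
  set G0 : k[X][X] := ρ ^ M * UV a a' S ^ c * ∏ j ∈ Sᶜ, vv (a j) with hG0
  have hG0m : G0 ∈ Bi k (M * (R' + 1) + K * c + K) (M * (R' + 1) + K * c + K) := by
    have h1 : ρ ^ M ∈ Bi k (M * R' + 1) (M * R' + 1) := Bi_pow hρ M
    have h2 : UV a a' S ^ c ∈ Bi k (c * K + 1) (c * K + 1) := Bi_pow (Bi_UV a a' S) c
    have h3 : (∏ j ∈ Sᶜ, vv (a j)) ∈ Bi k (K + 1) (0 + 1) := Bi_prodvv a Sᶜ
    have h4 := Bi_mul (Bi_mul h1 h2) h3
    have hle : M * R' + c * K + K + 1 ≤ M * (R' + 1) + K * c + K := by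
      have : M * (R' + 1) = M * R' + M := by ring
      have : c * K = K * c := by ring
      omega
    exact Bi_mono hle (le_trans (by omega) hle) h4
  refine ⟨fun e => if e = e0 then G0 else 0, fun e => ?_, ?_⟩
  · dsimp only
    split_ifs
    · exact hG0m
    · exact Submodule.zero_mem _
  · rw [Finset.sum_eq_single e0]
    · dsimp only
      rw [if_pos rfl, hG0, map_mul ψ _ (∏ j ∈ Sᶜ, vv (a j)), map_prod]
      have hprod : ∏ j, w j ^ (e0 j : ℕ) = ∏ j ∈ S, w j := by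
        rw [← Finset.prod_subset (Finset.subset_univ S)]
        · refine Finset.prod_congr rfl fun j hj => ?_
          simp [he0, hj]
        · intro j _ hj
          simp [he0, hj]
      rw [hprod, zz]
      ring
    · intro e _ hne
      simp [hne]
    · intro h
      exact absurd (Finset.mem_univ _) h

end GPC
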