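import Pool.Agent.Lib.MP_56e792_co.S.Defs

/-!
# MP_56e792_co, all prime powers, module Hen

Hensel for `k[[t]]`. Mathlib: `IsAdicComplete (Ideal.span {X}) (PowerSeries k)` (RingTheory/AdicCompletion/Completeness) and `IsAdicComplete.henselianRing` (monic polynomials). Reduction to monic: `Y = b + c Z`, `c = -f(b)/f'(b)` (`f'(b)` is a unit, `f(b) ∈ (t)`):
`f(b + c Z) = f(b) (1 - Z + f(b) Z^2 G(Z))`; the reversed polynomial `V^N - V^(N-1) + f(b) (..)` is monic with simple root `1` mod `t`; `Z = 1/V`. Or prove it directly by Newton iteration / successive coefficients.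
-/

set_option autoImplicit false
set_option linter.unusedVariables false

namespace GPC

open Polynomial
open Pool.Agent.Lib.MP_56e792_co (J mem_J GP)

/-- Newton iteration -/
private noncomputable def hen_seq {k : Type} [Field k] (f : Polynomial (PowerSeries k)) (b : k) :
    ℕ → PowerSeries k
  | 0 => PowerSeries.C b
  | n + 1 => hen_seq f b n - f.eval (hen_seq f b n) * (f.derivative.eval (hen_seq f b n))⁻¹

private theorem hen_const {k : Type} [Field k] (f : Polynomial (PowerSeries k)) {a c : PowerSeries k}
    (h : PowerSeries.constantCoeff a = PowerSeries.constantCoeff c) :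
    PowerSeries.constantCoeff (f.eval a) = PowerSeries.constantCoeff (f.eval c) := by
  obtain ⟨g, hg⟩ := Polynomial.sub_dvd_eval_sub a c f
  have h1 : PowerSeries.constantCoeff (f.eval a - f.eval c) = 0 := by
    rw [hg, map_mul, map_sub, h, sub_self, zero_mul]
  rw [map_sub] at h1
  exact sub_eq_zero.1 h1

private theorem hen_inv {k : Type} [Field k] (f : Polynomial (PowerSeries k)) (b : k)
    (h0 : PowerSeries.constantCoeff (f.eval (PowerSeries.C b)) = 0)
    (h1 : PowerSeries.constantCoeff (f.derivative.eval (PowerSeries.C b)) ≠ 0) (n : ℕ) :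
    PowerSeries.constantCoeff (hen_seq f b n) = b ∧
      (PowerSeries.X : PowerSeries k) ^ (n + 1) ∣ f.eval (hen_seq f b n) := by
  induction n with
  | zero =>
    refine ⟨by simp [hen_seq], ?_⟩
    rw [zero_add, pow_one, PowerSeries.X_dvd_iff]
    exact h0
  | succ n ih =>
    obtain ⟨i1, i2⟩ := ih
    have hd : PowerSeries.constantCoeff (f.derivative.eval (hen_seq f b n)) ≠ 0 := by
      rw [hen_const f.derivative (c := PowerSeries.C b) (by rw [i1]; simp)]
      exact h1
    have hinv := PowerSeries.mul_inv_cancel _ hd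
    have hz : PowerSeries.constantCoeff (f.eval (hen_seq f b n)) = 0 := by
      rw [← PowerSeries.X_dvd_iff]
      exact (dvd_pow_self _ (Nat.succ_ne_zero n)).trans i2
    refine ⟨?_, ?_⟩
    · rw [hen_seq, map_sub, map_mul, hz, zero_mul, sub_zero, i1]
    · obtain ⟨c, hc⟩ := f.binomExpansion (hen_seq f b n)
        (-(f.eval (hen_seq f b n) * (f.derivative.eval (hen_seq f b n))⁻¹))
      rw [hen_seq, sub_eq_add_neg, hc]
      have e1 : f.eval (hen_seq f b n) + f.derivative.eval (hen_seq f b n) *
          -(f.eval (hen_seq f b n) * (f.derivative.eval (hen_seq f b n))⁻¹) = 0 := by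
        have : f.derivative.eval (hen_seq f b n) *
          -(f.eval (hen_seq f b n) * (f.derivative.eval (hen_seq f b n))⁻¹) =
          -(f.eval (hen_seq f b n) * (f.derivative.eval (hen_seq f b n) *
            (f.derivative.eval (hen_seq f b n))⁻¹)) := by ring
        rw [this, hinv, mul_one, add_neg_cancel]
      rw [e1, zero_add]
      refine Dvd.dvd.mul_left ?_ c
      rw [neg_sq, mul_pow]
      refine Dvd.dvd.mul_right ?_ _
      have h2 := pow_dvd_pow_of_dvd i2 2
      rw [← pow_mul] at h2
      exact (pow_dvd_pow _ (by omega)).trans h2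

private theorem hen_step {k : Type} [Field k] (f : Polynomial (PowerSeries k)) (b : k)
    (h0 : PowerSeries.constantCoeff (f.eval (PowerSeries.C b)) = 0)
    (h1 : PowerSeries.constantCoeff (f.derivative.eval (PowerSeries.C b)) ≠ 0) {i n : ℕ}
    (hi : i ≤ n) : PowerSeries.coeff i (hen_seq f b n) = PowerSeries.coeff i (hen_seq f b i) := by
  induction n, hi using Nat.le_induction with
  | base => rfl
  | succ n hn ih =>
    rw [← ih, hen_seq, map_sub]
    have h2 := (hen_inv f b h0 h1 n).2
    have h3 := PowerSeries.X_pow_dvd_iff.1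
      (h2.mul_right (f.derivative.eval (hen_seq f b n))⁻¹) i (by omega)
    rw [h3, sub_zero]

theorem hensel {k : Type} [Field k] (f : Polynomial (PowerSeries k)) (b : k)
    (h0 : PowerSeries.constantCoeff (f.eval (PowerSeries.C b)) = 0)
    (h1 : PowerSeries.constantCoeff (f.derivative.eval (PowerSeries.C b)) ≠ 0) :
    ∃ η : PowerSeries k, PowerSeries.constantCoeff η = b ∧ f.eval η = 0 := by
  refine ⟨PowerSeries.mk fun n => PowerSeries.coeff n (hen_seq f b n), ?_, ?_⟩
  · rw [← PowerSeries.coeff_zero_eq_constantCoeff_apply, PowerSeries.coeff_mk,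
      PowerSeries.coeff_zero_eq_constantCoeff_apply]
    exact (hen_inv f b h0 h1 0).1
  · ext m
    rw [map_zero]
    have e1 : (PowerSeries.X : PowerSeries k) ^ (m + 1) ∣
        (PowerSeries.mk fun n => PowerSeries.coeff n (hen_seq f b n)) - hen_seq f b m := by
      rw [PowerSeries.X_pow_dvd_iff]
      intro i hi
      rw [map_sub, PowerSeries.coeff_mk, hen_step f b h0 h1 (show i ≤ m by omega), sub_self]
    have e2 := e1.trans (Polynomial.sub_dvd_eval_sub
      (PowerSeries.mk fun n => PowerSeries.coeff n (hen_seq f b n)) (hen_seq f b m) f)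
    have e3 := (hen_inv f b h0 h1 m).2
    have e4 := dvd_add e2 e3
    rw [sub_add_cancel] at e4
    exact PowerSeries.X_pow_dvd_iff.1 e4 m (Nat.lt_succ_self m)

end GPC
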