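import Pool.Agent.Lib.MP_56e792_co.S.Defs
import Pool.Agent.Lib.MP_56e792_co.S.Hen
import Pool.Agent.Lib.MP_56e792_co.S.Rnk

/-!
# MP_56e792_co, all prime powers, module Plc

`ψ := aevalAeval (C a + X) η` where `η` is the root with constant coefficient `b` of the polynomial `H(a + t, Y) ∈ k[[t]][Y]` (`hensel`). Kernel: `H ∣ G → ψ G = 0` is clear. Conversely if `ψ G = 0` and `H` does not divide `G`: `rnk` with `φ = ψ`
(`G ∈ Bi k D D` for some `D`) bounds the rank of `ψ` on `Bi k S S` by a constant, but the elements `C (X - C a)^i ↦ t^i`, `i < S`, are independent: contradiction for large `S`.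
-/

set_option autoImplicit false
set_option linter.unusedVariables false

namespace GPC

open Polynomial
open Pool.Agent.Lib.MP_56e792_co (J mem_J GP)

private theorem plc_cc {k : Type} [Field k] {a b : k} (ψ : k[X][X] →ₐ[k] PowerSeries k)
    (hX : PowerSeries.constantCoeff (ψ (C X)) = a) (hY : PowerSeries.constantCoeff (ψ X) = b) (G : k[X][X]) :
    PowerSeries.constantCoeff (ψ G) = pt a b G := by
  have h : (PowerSeries.constantCoeff (R := k)).comp (ψ : k[X][X] →+* PowerSeries k) = evalEvalRingHom a b := by
    refine Polynomial.ringHom_ext' (Polynomial.ringHom_ext' ?_ ?_) ?_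
    · refine RingHom.ext fun r => ?_
      have h1 : ψ (C (C r)) = algebraMap k (PowerSeries k) r := by
        have h2 : (C (C r) : k[X][X]) = algebraMap k k[X][X] r := rfl
        rw [h2, AlgHom.commutes]
      simp only [RingHom.comp_apply, RingHom.coe_coe]
      rw [h1]
      simp
    · simp only [RingHom.comp_apply, RingHom.coe_coe]
      rw [hX]
      simp
    · simp only [RingHom.comp_apply, RingHom.coe_coe]
      rw [hY]
      simp
  have h2 := RingHom.congr_fun h G
  simpa [pt] using h2

private theorem plc_eval {k : Type} [Field k] (x y : PowerSeries k) (G : k[X][X]) :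
    (G.map (aeval x : k[X] →ₐ[k] PowerSeries k).toRingHom).eval y = aevalAeval x y G := by
  have h : (Polynomial.evalRingHom y).comp (Polynomial.mapRingHom (aeval x : k[X] →ₐ[k] PowerSeries k).toRingHom) =
      (aevalAeval x y : k[X][X] →ₐ[k] PowerSeries k).toRingHom := by
    refine Polynomial.ringHom_ext' (Polynomial.ringHom_ext' ?_ ?_) ?_
    · refine RingHom.ext fun r => ?_
      simp
    · simp
    · simp
  exact RingHom.congr_fun h G

private theorem plc_D {k : Type} [Field k] (G : k[X][X]) : ∃ D, G ∈ Bi k D D := by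
  refine ⟨G.natDegree + 1 + ∑ j ∈ Finset.range (G.natDegree + 1), (G.coeff j).natDegree, fun i j h => ?_⟩
  by_cases hj : G.natDegree < j
  · rw [coeff_eq_zero_of_natDegree_lt hj, coeff_zero]
  · have h1 : (G.coeff j).natDegree ≤ ∑ j ∈ Finset.range (G.natDegree + 1), (G.coeff j).natDegree :=
      Finset.single_le_sum (f := fun j => (G.coeff j).natDegree) (fun _ _ => Nat.zero_le _)
        (Finset.mem_range.mpr (by omega))
    refine coeff_eq_zero_of_natDegree_lt ?_
    rcases h with h | h
    · omega
    · omega

private theorem plc_pow {k : Type} [Field k] (a : k) {i S : ℕ} (hi : i < S) :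
    (C ((X - C a) ^ i) : k[X][X]) ∈ Bi k S S := by
  intro n j h
  rw [coeff_C]
  split_ifs with hj
  · refine coeff_eq_zero_of_natDegree_lt ?_
    rw [natDegree_pow, natDegree_X_sub_C, mul_one]
    rcases h with h | h
    · omega
    · omega
  · simp

theorem place {k : Type} [Field k] {H : k[X][X]} (hH : Irreducible H) {a b : k}
    (h0 : pt a b H = 0) (h1 : pt a b (derivative H) ≠ 0) :
    ∃ ψ : k[X][X] →ₐ[k] PowerSeries k, Plac H ψ a ∧ PowerSeries.constantCoeff (ψ X) = b := by
  classical
  set x : PowerSeries k := PowerSeries.C a + PowerSeries.X with hx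
  have hxa : PowerSeries.constantCoeff x = a := by simp [hx]
  have hcc : ∀ (y : PowerSeries k) (G : k[X][X]), PowerSeries.constantCoeff y = b →
      PowerSeries.constantCoeff (aevalAeval x y G) = pt a b G := by
    intro y G hy
    refine plc_cc _ ?_ ?_ G
    · rw [aevalAeval_X]
      exact hxa
    · rw [aevalAeval_Y]
      exact hy
  obtain ⟨η, hη, hη0⟩ := hensel (H.map (aeval x : k[X] →ₐ[k] PowerSeries k).toRingHom) b
    (by rw [plc_eval, hcc _ _ (by simp)]; exact h0)
    (by rw [derivative_map, plc_eval, hcc _ _ (by simp)]; exact h1)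
  rw [plc_eval] at hη0
  refine ⟨aevalAeval x η, ⟨?_, ?_⟩, ?_⟩
  · rw [aevalAeval_X]
  · intro G
    constructor
    · intro hG
      by_contra hHG
      obtain ⟨D, hD⟩ := plc_D G
      set S := (dX H + dY H) * D + 1 with hS
      let co : PowerSeries k →ₗ[k] (Fin S → k) := LinearMap.pi fun i => PowerSeries.coeff (R := k) (i : ℕ)
      have hr := rnk hH hD hHG (co.comp (aevalAeval x η : k[X][X] →ₐ[k] PowerSeries k).toLinearMap)
        (fun F => by
          simp only [LinearMap.comp_apply, AlgHom.toLinearMap_apply]
          rw [map_mul, hG, zero_mul, map_zero])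
        (fun F => by
          simp only [LinearMap.comp_apply, AlgHom.toLinearMap_apply]
          rw [map_mul, hη0, zero_mul, map_zero]) S
      have htop : (Bi k S S).map (co.comp (aevalAeval x η : k[X][X] →ₐ[k] PowerSeries k).toLinearMap) = ⊤ := by
        rw [eq_top_iff]
        rw [← (Pi.basisFun k (Fin S)).span_eq, Submodule.span_le]
        rintro _ ⟨i, rfl⟩
        refine ⟨C ((X - C a) ^ (i : ℕ)), plc_pow a i.2, ?_⟩
        simp only [LinearMap.comp_apply, AlgHom.toLinearMap_apply]
        have e1 : (aevalAeval x η) (C ((X - C a) ^ (i : ℕ)) : k[X][X]) = PowerSeries.X ^ (i : ℕ) := by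
          rw [aevalAeval_C, map_pow, map_sub, aeval_X, aeval_C, hx]
          have e2 : algebraMap k (PowerSeries k) a = PowerSeries.C a := rfl
          rw [e2, add_sub_cancel_left]
        rw [e1, Pi.basisFun_apply]
        ext n
        simp only [co, LinearMap.pi_apply, PowerSeries.coeff_X_pow, Pi.single_apply]
        by_cases hn : n = i
        · rw [if_pos hn, if_pos (by rw [hn])]
        · rw [if_neg hn, if_neg (fun h => hn (Fin.ext h))]
      rw [htop, finrank_top, Module.finrank_fin_fun] at hr
      omega
    · rintro ⟨F, rfl⟩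
      rw [map_mul, hη0, zero_mul]
  · rw [aevalAeval_Y]
    exact hη

/-- the constant coefficient of the image is the value at the center -/
theorem place_coeff {k : Type} [Field k] {H : k[X][X]} {a b : k}
    {ψ : k[X][X] →ₐ[k] PowerSeries k} (hψ : Plac H ψ a)
    (hb : PowerSeries.constantCoeff (ψ X) = b) (G : k[X][X]) :
    PowerSeries.constantCoeff (ψ G) = pt a b G := by
  refine plc_cc ψ ?_ hb G
  rw [hψ.hX]
  simp

end GPC
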