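import Pool.Agent.Lib.MP_56e792_co.S.Defs
import Pool.Agent.Lib.MP_56e792_co.S.Hen

/-!
# MP_56e792_co, all prime powers, module Rot

`hensel` for `Y^l - u`, `b^l = constantCoeff u` (`IsAlgClosed.exists_pow_nat_eq`), derivative `l b^(l-1) ≠ 0`.
`laurent_split`: `u = v^l`, and `X^l - v^l = ∏ (X - ζ v)` over the `l`-th roots of unity of `k` (`X_pow_sub_C_splits...`, or `IsPrimitiveRoot` and `X_pow_sub_one_eq_prod`). `laurent_not_pow`: the order of `z^l` is a multiple of `l` (`HahnSeries.order_pow` or `orderTop`), the order of `u X^(l-1)` is `l - 1`.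
-/

set_option autoImplicit false
set_option linter.unusedVariables false

namespace GPC

open Polynomial
open Pool.Agent.Lib.MP_56e792_co (J mem_J GP)

theorem root_unit {k : Type} [Field k] [IsAlgClosed k] {l : ℕ} (hl : (l : k) ≠ 0)
    (u : PowerSeries k) (hu : PowerSeries.constantCoeff u ≠ 0) :
    ∃ v : PowerSeries k, v ^ l = u := by
  have hl0 : 0 < l := by
    rcases Nat.eq_zero_or_pos l with h | h
    · exact absurd (by simp [h]) hl
    · exact h
  obtain ⟨b, hb⟩ := IsAlgClosed.exists_pow_nat_eq (PowerSeries.constantCoeff u) hl0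
  have hb0 : b ≠ 0 := by
    rintro rfl
    rw [zero_pow hl0.ne'] at hb
    exact hu hb.symm
  obtain ⟨η, -, h2⟩ := hensel (X ^ l - C u) b (by simp [hb]) (by
    rw [derivative_sub, derivative_X_pow, derivative_C, sub_zero, eval_mul, eval_pow, eval_X]
    simp only [map_mul, map_pow, eval_C, eval_natCast, map_natCast,
      PowerSeries.constantCoeff_C]
    exact mul_ne_zero hl (pow_ne_zero _ hb0))
  refine ⟨η, ?_⟩
  rw [eval_sub, eval_pow, eval_X, eval_C] at h2
  exact sub_eq_zero.mp h2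

theorem laurent_split {k : Type} [Field k] [IsAlgClosed k] {l : ℕ} (hl : (l : k) ≠ 0)
    (u : PowerSeries k) (hu : PowerSeries.constantCoeff u ≠ 0) :
    (X ^ l - C (HahnSeries.ofPowerSeries ℤ k u) : (LaurentSeries k)[X]).Splits := by
  obtain ⟨v, hv⟩ := root_unit hl u hu
  haveI : NeZero (l : k) := ⟨hl⟩
  obtain ⟨ζ, hζ⟩ := HasEnoughRootsOfUnity.exists_primitiveRoot k l
  have hζ' : IsPrimitiveRoot (HahnSeries.C ζ : LaurentSeries k) l :=
    hζ.map_of_injective HahnSeries.C_injective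
  exact X_pow_sub_C_splits_of_isPrimitiveRoot hζ'
    (α := HahnSeries.ofPowerSeries ℤ k v) (by rw [← map_pow, hv])

private theorem rot_nonneg {k : Type} [Field k] (u : PowerSeries k) :
    0 ≤ (HahnSeries.ofPowerSeries ℤ k u).order := by
  by_contra h
  push Not at h
  have h0 : HahnSeries.ofPowerSeries ℤ k u ≠ 0 := by
    intro h1
    rw [h1, HahnSeries.order_zero] at h
    exact lt_irrefl _ h
  have h2 := HahnSeries.coeff_order_eq_zero.not.mpr h0
  apply h2
  rw [PowerSeries.coeff_coe, if_pos h]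

theorem laurent_not_pow {k : Type} [Field k] {l : ℕ} (hl : l.Prime)
    (u : PowerSeries k) (hu : PowerSeries.constantCoeff u ≠ 0) (z : LaurentSeries k) :
    z ^ l ≠ HahnSeries.ofPowerSeries ℤ k (u * PowerSeries.X ^ (l - 1)) := by
  intro h
  have hu1 : HahnSeries.ofPowerSeries ℤ k u * HahnSeries.ofPowerSeries ℤ k u⁻¹ = 1 := by
    rw [← map_mul, PowerSeries.mul_inv_cancel _ hu, map_one]
  have hu0 : HahnSeries.ofPowerSeries ℤ k u ≠ 0 := left_ne_zero_of_mul_eq_one hu1
  have hu2 : HahnSeries.ofPowerSeries ℤ k u⁻¹ ≠ 0 := right_ne_zero_of_mul_eq_one hu1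
  have h1 := HahnSeries.order_mul hu0 hu2
  rw [hu1, HahnSeries.order_one] at h1
  have h2 := rot_nonneg u
  have h3 := rot_nonneg u⁻¹
  have h4 : (HahnSeries.ofPowerSeries ℤ k u).order = 0 := by omega
  have h5 := congrArg HahnSeries.order h
  rw [HahnSeries.order_pow, map_mul, HahnSeries.ofPowerSeries_X_pow, HahnSeries.order_mul hu0
    (by simp), h4, HahnSeries.order_single one_ne_zero, zero_add, nsmul_eq_mul] at h5
  have h6 := hl.two_le
  have h7 : ((l - 1 : ℕ) : ℤ) = (l : ℤ) - 1 := by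
    push_cast [Nat.cast_sub (by omega : 1 ≤ l)]
    ring
  rw [h7] at h5
  have h8 : (l : ℤ) ∣ 1 := ⟨1 - z.order, by linarith⟩
  have h9 := Int.le_of_dvd one_pos h8
  omega

end GPC
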