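import Pool.Agent.Lib.MP_56e792_co.S.Defs

/-!
# MP_56e792_co, all prime powers, module Tow

Kummer tower. For each `j`, `X^l - C (w j ^ l)` is irreducible over `E_j := IntermediateField.adjoin F {w i | i < j}`: otherwise (`X_pow_sub_C_irreducible_iff_of_prime`) `g^l = f j` for some `g ∈ E_j`; `IntermediateField.nonempty_algHom_adjoin_of_splits`
(the minimal polynomial of `w i` divides `X^l - f i`, which splits in `L`) gives an `F`-embedding `E_j → L`, and the image `z` of `g` has `z^l = f j`: contradiction. So `1, w j, .., w j^(l-1)` are independent over `E_j`; induction on the number of the `w`'s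
(`Fin.snoc`, tower law for linear independence: if `∑_e c_e w^e = 0`, group by the last exponent).
-/

set_option autoImplicit false
set_option linter.unusedVariables false

namespace GPC

open Polynomial
open Pool.Agent.Lib.MP_56e792_co (J mem_J GP)

theorem tower {F Ω : Type} [Field F] [Field Ω] [Algebra F Ω] {l : ℕ} (hl : l.Prime) {K : ℕ}
    (f : Fin K → F) (w : Fin K → Ω) (hw : ∀ j, w j ^ l = algebraMap F Ω (f j))
    (hL : ∀ j, ∃ (L : Type) (_ : Field L) (_ : Algebra F L),
      (∀ i, i < j → ((X ^ l - C (f i) : F[X]).map (algebraMap F L)).Splits) ∧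
      ∀ z : L, z ^ l ≠ algebraMap F L (f j)) :
    LinearIndependent F (fun e : Fin K → Fin l => ∏ j, w j ^ (e j : ℕ)) := by
  induction K with
  | zero =>
    refine LinearIndependent.of_subsingleton default ?_
    simp
  | succ K ih =>
    have hl0 : l ≠ 0 := hl.ne_zero
    have ih' := ih (fun i => f i.castSucc) (fun i => w i.castSucc) (fun j => hw j.castSucc)
      (fun j => by
        obtain ⟨L, i1, i2, h1, h2⟩ := hL j.castSucc
        exact ⟨L, i1, i2, fun i hi => h1 i.castSucc (by simpa using hi), h2⟩)
    set S : Set Ω := Set.range (fun i : Fin K => w i.castSucc) with hS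
    set E := IntermediateField.adjoin F S with hE
    have hmem : ∀ i : Fin K, w i.castSucc ∈ E := fun i =>
      IntermediateField.subset_adjoin F S ⟨i, rfl⟩
    obtain ⟨L, i1, i2, h1, h2⟩ := hL (Fin.last K)
    have hemb : Nonempty (E →ₐ[F] L) := by
      refine IntermediateField.nonempty_algHom_adjoin_of_splits ?_
      rintro s ⟨i, rfl⟩
      have hroot : aeval (w i.castSucc) (X ^ l - C (f i.castSucc) : F[X]) = 0 := by
        simp [hw]
      have hne : (X ^ l - C (f i.castSucc) : F[X]) ≠ 0 := X_pow_sub_C_ne_zero hl.pos _
      have hmon : (X ^ l - C (f i.castSucc) : F[X]).Monic := monic_X_pow_sub_C _ hl0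
      refine ⟨⟨_, hmon, hroot⟩, ?_⟩
      refine (h1 i.castSucc (Fin.castSucc_lt_last i)).of_dvd ?_ ?_
      · exact Polynomial.map_ne_zero hne
      · exact Polynomial.map_dvd _ (minpoly.dvd F _ hroot)
    obtain ⟨φ⟩ := hemb
    -- irreducibility
    have hirr : Irreducible (X ^ l - C (algebraMap F E (f (Fin.last K))) : E[X]) := by
      rw [X_pow_sub_C_irreducible_iff_of_prime hl]
      intro g hg
      apply h2 (φ g)
      rw [← map_pow, hg, φ.commutes]
    have hmin : minpoly E (w (Fin.last K)) = X ^ l - C (algebraMap F E (f (Fin.last K))) := by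
      symm
      apply minpoly.eq_of_irreducible_of_monic hirr
      · simp only [map_sub, map_pow, aeval_X, aeval_C]
        rw [hw, ← IsScalarTower.algebraMap_apply, sub_self]
      · exact monic_X_pow_sub_C _ hl0
    have hdeg : (minpoly E (w (Fin.last K))).natDegree = l := by
      rw [hmin, natDegree_X_pow_sub_C]
    have hpow : LinearIndependent E (fun i : Fin l => w (Fin.last K) ^ (i : ℕ)) := by
      have := linearIndependent_pow (K := E) (w (Fin.last K))
      rw [hdeg] at this
      exact this
    -- independence of the old products in E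
    have hold : LinearIndependent F (fun e : Fin K → Fin l =>
        (∏ j, (⟨w j.castSucc, hmem j⟩ : E) ^ (e j : ℕ))) := by
      apply LinearIndependent.of_comp (E.val.toLinearMap)
      have : (E.val.toLinearMap ∘ fun e : Fin K → Fin l =>
          (∏ j, (⟨w j.castSucc, hmem j⟩ : E) ^ (e j : ℕ))) =
          fun e : Fin K → Fin l => ∏ j, w j.castSucc ^ (e j : ℕ) := by
        funext e
        simp
      rw [this]
      exact ih'
    have hprod := linearIndependent_smul hold hpow
    have hinj : Function.Injective (fun e : Fin (K + 1) → Fin l =>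
        ((fun i : Fin K => e i.castSucc), e (Fin.last K))) := by
      intro e e' h
      simp only [Prod.mk.injEq] at h
      funext j
      refine Fin.lastCases ?_ (fun i => ?_) j
      · exact h.2
      · exact congrFun h.1 i
    have := hprod.comp _ hinj
    have heq : ((fun p : (Fin K → Fin l) × Fin l =>
        (∏ j, (⟨w j.castSucc, hmem j⟩ : E) ^ (p.1 j : ℕ)) • w (Fin.last K) ^ (p.2 : ℕ)) ∘
        fun e : Fin (K + 1) → Fin l => ((fun i : Fin K => e i.castSucc), e (Fin.last K))) =
        fun e : Fin (K + 1) → Fin l => ∏ j, w j ^ (e j : ℕ) := by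
      funext e
      simp only [Function.comp_apply]
      rw [Fin.prod_univ_castSucc, Algebra.smul_def, map_prod]
      rfl
    rw [heq] at this
    exact this

end GPC
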