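import Pool.Agent.Lib.MP_56e792_co.S.Defs
import Pool.Agent.Lib.MP_56e792_co.S.Plc
import Pool.Agent.Lib.MP_56e792_co.S.Tow
import Pool.Agent.Lib.MP_56e792_co.S.Rot

/-!
# MP_56e792_co, all prime powers, module TwZ

`F := FractionRing (k[X][X] ⧸ Ideal.span {H})` (`H` prime, so a domain), `Ω := LaurentSeries k` with the map induced by `ψ` (injective on the quotient by `hψ.ker`; `IsFractionRing.lift`). `f j := ` class of `uu (a' j) * vv (a j)^(l-1)`.
For `hL j`: `L := LaurentSeries k` with the map induced by the place at `(a j, b j)` (`place`, `hK.on`, `hK.sm`). For `i ≠ j` the image of `uu (a' i) * vv (a i)^(l-1)` is a unit of `k[[t]]` (`place_coeff`: `b j - a' i ≠ 0`, `a j - a i ≠ 0`), so `X^l - C` splits in `LaurentSeries k` (`laurent_split`). For `i = j` the image is (unit) * `t^(l-1)`: not an `l`-th power (`laurent_not_pow`). Then `tower`; a relation `∑ ψ(G e) w^e = 0` gives all classes of `G e` zero.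
-/

set_option autoImplicit false
set_option linter.unusedVariables false

namespace GPC

open Polynomial
open Pool.Agent.Lib.MP_56e792_co (J mem_J GP)

private theorem twz_gen {R : Type} [CommRing R] {P : Ideal R} (hP : P.IsPrime) :
    ∃ (F : Type) (_ : Field F) (π : R →+* F), (∀ G, π G = 0 ↔ G ∈ P) ∧
      ∀ (L : Type) [Field L] (ψ : R →+* L), (∀ G, ψ G = 0 ↔ G ∈ P) →
        ∃ g : F →+* L, ∀ G, g (π G) = ψ G := by
  have hdom : IsDomain (R ⧸ P) := Ideal.Quotient.isDomain P
  refine ⟨FractionRing (R ⧸ P), inferInstance,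
    (algebraMap (R ⧸ P) (FractionRing (R ⧸ P))).comp (Ideal.Quotient.mk P), ?_, ?_⟩
  · intro G
    rw [RingHom.comp_apply, FaithfulSMul.algebraMap_eq_zero_iff, Ideal.Quotient.eq_zero_iff_mem]
  · intro L _ ψ hψ
    have hinj : Function.Injective (Ideal.Quotient.lift P ψ (fun G hG => (hψ G).mpr hG)) := by
      rw [injective_iff_map_eq_zero]
      intro z
      obtain ⟨G, rfl⟩ := Ideal.Quotient.mk_surjective z
      intro hz
      rw [Ideal.Quotient.lift_mk] at hz
      rw [Ideal.Quotient.eq_zero_iff_mem]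
      exact (hψ G).mp hz
    refine ⟨IsFractionRing.lift hinj, fun G => ?_⟩
    rw [RingHom.comp_apply, IsFractionRing.lift_algebraMap, Ideal.Quotient.lift_mk]

private theorem twz_funfield {k : Type} [Field k] {H : k[X][X]} (hH : Irreducible H) :
    ∃ (F : Type) (_ : Field F) (π : k[X][X] →+* F), (∀ G, π G = 0 ↔ H ∣ G) ∧
      ∀ (ψ : k[X][X] →ₐ[k] PowerSeries k) (x : k), Plac H ψ x →
        ∃ g : F →+* LaurentSeries k, ∀ G, g (π G) = HahnSeries.ofPowerSeries ℤ k (ψ G) := by
  have hI : (Ideal.span {H} : Ideal k[X][X]).IsPrime :=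
    (Ideal.span_singleton_prime hH.ne_zero).mpr hH.prime
  obtain ⟨F, instF, π, hπ, hg⟩ := twz_gen hI
  refine ⟨F, instF, π, fun G => by rw [hπ, Ideal.mem_span_singleton], fun ψ x hψ => ?_⟩
  obtain ⟨g, hg'⟩ := hg (LaurentSeries k) ((HahnSeries.ofPowerSeries ℤ k).comp
    (ψ : k[X][X] →+* PowerSeries k)) (fun G => by
      rw [Ideal.mem_span_singleton, ← hψ.ker, RingHom.comp_apply]
      constructor
      · intro h
        apply HahnSeries.ofPowerSeries_injective (Γ := ℤ) (R := k)
        rw [map_zero]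
        exact h
      · intro h
        have h2 : (ψ : k[X][X] →+* PowerSeries k) G = 0 := h
        rw [h2, map_zero])
  exact ⟨g, fun G => hg' G⟩

private theorem twz_vv {k : Type} [Field k] {H : k[X][X]} {ψ : k[X][X] →ₐ[k] PowerSeries k}
    {a : k} (hψ : Plac H ψ a) : ψ (vv a) = PowerSeries.X := by
  have h1 : ψ (C (C a)) = PowerSeries.C a := by
    have := ψ.commutes a
    simpa using this
  rw [vv, map_sub, map_sub, hψ.hX, h1]
  ring

private theorem twz_pt {k : Type} [Field k] (x y a a' : k) (l : ℕ) :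
    pt x y (uu a' * vv a ^ (l - 1)) = (y - a') * (x - a) ^ (l - 1) := by
  have h1 : evalEval x y (C (X : k[X])) = x := by simp [evalEval]
  simp [pt, uu, vv, evalEval_mul, evalEval_pow, h1]

theorem tower_poly {k : Type} [Field k] [IsAlgClosed k] {H : k[X][X]} {l K : ℕ}
    {a a' b : Fin K → k} (hK : Kum H l K a a' b) {ψ : k[X][X] →ₐ[k] PowerSeries k} {x₀ : k}
    (hψ : Plac H ψ x₀) (w : Fin K → PowerSeries k)
    (hw : ∀ j, w j ^ l = ψ (uu (a' j) * vv (a j) ^ (l - 1)))
    (G : (Fin K → Fin l) → k[X][X])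
    (h : ∑ e, ψ (G e) * ∏ j, w j ^ (e j : ℕ) = 0) : ∀ e, H ∣ G e := by
  classical
  obtain ⟨F, instF, π, hπ, hlift⟩ := twz_funfield hK.irr
  obtain ⟨g, hg⟩ := hlift ψ x₀ hψ
  let _ : Algebra F (LaurentSeries k) := g.toAlgebra
  have halg : ∀ z : F, algebraMap F (LaurentSeries k) z = g z := fun z => rfl
  have hind := tower (F := F) (Ω := LaurentSeries k) hK.pr
    (fun j => π (uu (a' j) * vv (a j) ^ (l - 1)))
    (fun j => HahnSeries.ofPowerSeries ℤ k (w j)) (fun j => by
      rw [halg, hg, ← map_pow, hw]) (fun j => by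
      obtain ⟨ψj, hψj, hbj⟩ := place hK.irr (hK.on j) (hK.sm j)
      obtain ⟨gj, hgj⟩ := hlift ψj (a j) hψj
      refine ⟨LaurentSeries k, inferInstance, gj.toAlgebra, fun i hi => ?_, fun z => ?_⟩
      · have h1 : (((X : F[X]) ^ l - C (π (uu (a' i) * vv (a i) ^ (l - 1)))).map
            (@algebraMap F (LaurentSeries k) _ _ gj.toAlgebra)) =
            X ^ l - C (HahnSeries.ofPowerSeries ℤ k (ψj (uu (a' i) * vv (a i) ^ (l - 1)))) := by
          rw [Polynomial.map_sub, Polynomial.map_pow, Polynomial.map_X, Polynomial.map_C]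
          congr 2
          exact hgj _
        rw [h1]
        refine laurent_split hK.ne _ ?_
        rw [place_coeff hψj hbj, twz_pt]
        exact mul_ne_zero (sub_ne_zero.mpr (hK.off j i))
          (pow_ne_zero _ (sub_ne_zero.mpr (hK.inj j i (ne_of_gt hi))))
      · have h2 : (@algebraMap F (LaurentSeries k) _ _ gj.toAlgebra)
            (π (uu (a' j) * vv (a j) ^ (l - 1))) =
            HahnSeries.ofPowerSeries ℤ k (ψj (uu (a' j)) * PowerSeries.X ^ (l - 1)) := by
          have h3 := hgj (uu (a' j) * vv (a j) ^ (l - 1))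
          rw [map_mul ψj, map_pow ψj, twz_vv hψj] at h3
          exact h3
        rw [h2]
        refine laurent_not_pow hK.pr _ ?_ z
        rw [place_coeff hψj hbj]
        have h4 : pt (a j) (b j) (uu (a' j)) = b j - a' j := by simp [pt, uu]
        rw [h4]
        exact sub_ne_zero.mpr (hK.off j j))
  rw [Fintype.linearIndependent_iff] at hind
  intro e
  rw [← hπ]
  refine hind (fun e => π (G e)) ?_ e
  have h5 := congrArg (HahnSeries.ofPowerSeries ℤ k) h
  rw [map_sum, map_zero] at h5
  rw [← h5]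
  refine Finset.sum_congr rfl fun e _ => ?_
  rw [Algebra.smul_def, halg, hg, map_mul, map_prod]
  simp only [map_pow]

end GPC
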