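import Pool.Agent.Lib.MP_56e792_co.S.Defs
import Pool.Agent.Lib.MP_56e792_co.S.TwZ

/-!
# MP_56e792_co, all prime powers, module NoC

Group by `S`: the exponents (indicators of `S`) are different, so `tower_poly` gives `H ∣ (∑_i c (S,i) • ρ i^M) * UV S^c0 * ∏_{j ∉ S} vv (a j)` for every `S`. `H` is prime and does not divide the `uu`, `vv` (`ψ` of them is not `0`, `hψ.ker`), so `H ∣ ∑_i c (S,i) • ρ i^M = (∑_i c' • ρ i)^M`,
`c'^M = c (S,i)` (perfect field, `sum_pow_char_pow`), so `H ∣ ∑ c' • ρ i` and `hρi`.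
-/

set_option autoImplicit false
set_option linter.unusedVariables false

namespace GPC

open Polynomial
open Pool.Agent.Lib.MP_56e792_co (J mem_J GP)

theorem non_ind {k : Type} [Field k] [IsAlgClosed k] {p : ℕ} [Fact p.Prime] [CharP k p]
    {H : k[X][X]} {l K : ℕ} {a a' b : Fin K → k} (hK : Kum H l K a a' b)
    {ψ : k[X][X] →ₐ[k] PowerSeries k} {x₀ : k} (hψ : Plac H ψ x₀) (w : Fin K → PowerSeries k)
    (hw : ∀ j, w j ^ l = ψ (uu (a' j) * vv (a j) ^ (l - 1))) (hu : ∀ j, ψ (uu (a' j)) ≠ 0)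
    (hv : ∀ j, ψ (vv (a j)) ≠ 0) {μ c0 : ℕ} {ι : Type} [Fintype ι] (ρ : ι → k[X][X])
    (hρi : ∀ c : ι → k, H ∣ ∑ i, c i • ρ i → c = 0) (c : Finset (Fin K) × ι → k)
    (h : ∑ x, c x • (ψ (ρ x.2 ^ (p ^ μ) * UV a a' x.1 ^ c0) * zz ψ w a x.1) = 0) : c = 0 := by
  classical
  have hl : 1 < l := hK.pr.one_lt
  have hp : p.Prime := Fact.out
  -- the exponents
  let ind : Finset (Fin K) → (Fin K → Fin l) := fun S j =>
    if j ∈ S then ⟨1, hl⟩ else ⟨0, by omega⟩
  have hind : ∀ S j, (ind S j : ℕ) = if j ∈ S then 1 else 0 := by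
    intro S j
    simp only [ind]
    split_ifs <;> rfl
  have hinj : Function.Injective ind := by
    intro S S' hSS
    ext j
    have h1 : (ind S j : ℕ) = (ind S' j : ℕ) := by rw [hSS]
    rw [hind, hind] at h1
    by_cases h2 : j ∈ S <;> by_cases h3 : j ∈ S' <;> simp_all
  have hprod : ∀ S, ∏ j, w j ^ (ind S j : ℕ) = ∏ j ∈ S, w j := by
    intro S
    rw [← Finset.prod_subset (Finset.subset_univ S)]
    · refine Finset.prod_congr rfl fun j hj => ?_
      rw [hind, if_pos hj, pow_one]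
    · intro j _ hj
      rw [hind, if_neg hj, pow_zero]
  let T : Finset (Fin K) → k[X][X] := fun S =>
    (∑ i, c (S, i) • ρ i ^ (p ^ μ)) * UV a a' S ^ c0 * ∏ j ∈ Sᶜ, vv (a j)
  let G : (Fin K → Fin l) → k[X][X] := fun e => ∑ S, if ind S = e then T S else 0
  have hG : ∀ S, G (ind S) = T S := by
    intro S
    simp only [G]
    rw [Finset.sum_eq_single S]
    · rw [if_pos rfl]
    · intro S' _ hS'
      rw [if_neg]
      intro h1
      exact hS' (hinj h1)
    · intro h1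
      exact absurd (Finset.mem_univ S) h1
  have hT : ∀ S, ψ (T S) * ∏ j ∈ S, w j =
      ∑ i, c (S, i) • (ψ (ρ i ^ (p ^ μ) * UV a a' S ^ c0) * zz ψ w a S) := by
    intro S
    simp only [T, zz, map_mul, map_sum, map_smul, map_prod]
    rw [Finset.sum_mul, Finset.sum_mul, Finset.sum_mul]
    refine Finset.sum_congr rfl fun i _ => ?_
    simp only [smul_mul_assoc]
    congr 1
    ring
  have hsum : ∑ e, ψ (G e) * ∏ j, w j ^ (e j : ℕ) = 0 := by
    have h1 : ∀ e, ψ (G e) * ∏ j, w j ^ (e j : ℕ) =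
        ∑ S, if ind S = e then ψ (T S) * ∏ j ∈ S, w j else 0 := by
      intro e
      simp only [G]
      rw [map_sum, Finset.sum_mul]
      refine Finset.sum_congr rfl fun S _ => ?_
      split_ifs with h2
      · rw [← h2, hprod]
      · rw [map_zero, zero_mul]
    rw [Finset.sum_congr rfl fun e _ => h1 e, Finset.sum_comm]
    have h2 : ∀ S : Finset (Fin K), (∑ e : Fin K → Fin l, if ind S = e then ψ (T S) * ∏ j ∈ S, w j else 0) =
        ∑ i, c (S, i) • (ψ (ρ i ^ (p ^ μ) * UV a a' S ^ c0) * zz ψ w a S) := by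
      intro S
      rw [Finset.sum_ite_eq, if_pos (Finset.mem_univ _), hT]
    rw [Finset.sum_congr rfl fun S _ => h2 S, ← h, Fintype.sum_prod_type]
  have hdiv := tower_poly hK hψ w hw G hsum
  -- the factors which are not divisible by `H`
  have hUV : ∀ S, ψ (UV a a' S) ≠ 0 := by
    intro S
    rw [UV, map_mul, map_prod, map_prod]
    exact mul_ne_zero (Finset.prod_ne_zero_iff.2 fun j _ => hu j)
      (Finset.prod_ne_zero_iff.2 fun j _ => hv j)
  funext x
  obtain ⟨S, i0⟩ := x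
  have h1 : ψ (T S) = 0 := by
    rw [hψ.ker, ← hG S]
    exact hdiv _
  have h2 : ψ (∑ i, c (S, i) • ρ i ^ (p ^ μ)) = 0 := by
    simp only [T] at h1
    rw [map_mul, map_mul, map_pow, map_prod] at h1
    rcases mul_eq_zero.1 h1 with h3 | h3
    · rcases mul_eq_zero.1 h3 with h4 | h4
      · exact h4
      · exact absurd h4 (pow_ne_zero _ (hUV S))
    · exact absurd h3 (Finset.prod_ne_zero_iff.2 fun j _ => hv j)
  have hM : 0 < p ^ μ := pow_pos hp.pos _
  choose c' hc' using fun i => IsAlgClosed.exists_pow_nat_eq (c (S, i)) hM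
  have h3 : ∑ i, c (S, i) • ρ i ^ (p ^ μ) = (∑ i, c' i • ρ i) ^ (p ^ μ) := by
    rw [sum_pow_char_pow]
    refine Finset.sum_congr rfl fun i _ => ?_
    rw [_root_.smul_pow, hc']
  rw [h3, map_pow] at h2
  have h4 : ψ (∑ i, c' i • ρ i) = 0 := pow_eq_zero_iff hM.ne' |>.1 h2
  have h5 := hρi c' ((hψ.ker _).1 h4)
  have h6 := hc' i0
  rw [h5] at h6
  simp only [Pi.zero_apply] at h6 ⊢
  rw [← h6, zero_pow hM.ne']

end GPC
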