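import Pool.Agent.Lib.MP_56e792_co.S.Defs

/-!
# MP_56e792_co, all prime powers, module Nvn

`q = p^n`. Suppose some `G i ≠ 0`; let `s` be the least order of the `G i`, `G i = t^s G' i` (`PowerSeries.X_pow_dvd_iff` / `order`), so `∑ A i * (G' i)^q = 0` (cancel `t^(s q)`, domain), and the constants `g i = constantCoeff (G' i)` are not all `0`.
`(G' i)^q = C (g i ^ q) + t^q (..)` (characteristic `p`: `G' i = C g + t F`, `add_pow_char_pow`). So `∑ g i^q • A i` is divisible by `t^q`: its order is `≥ q`, contradicting `hA` for `c i = g i ^ q`.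
-/

set_option autoImplicit false
set_option linter.unusedVariables false

namespace GPC

open Polynomial
open Pool.Agent.Lib.MP_56e792_co (J mem_J GP)

theorem nv {k : Type} [Field k] {p n : ℕ} [Fact p.Prime] [CharP k p] {ι : Type} [Fintype ι]
    (A G : ι → PowerSeries k)
    (hA : ∀ c : ι → k, c ≠ 0 → (∑ i, c i • A i).order < ((p ^ n : ℕ) : ℕ∞))
    (h : ∑ i, A i * G i ^ (p ^ n) = 0) : ∀ i, G i = 0 := by
  classical
  by_contra hcon
  push Not at hcon
  haveI : CharP (PowerSeries k) p := charP_of_injective_ringHom (PowerSeries.C_injective (R := k)) p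
  -- the least order
  have hex : ∃ s : ℕ, ∃ i, G i ≠ 0 ∧ (G i).order = (s : ℕ∞) := by
    obtain ⟨i, hi⟩ := hcon
    have h1 : (G i).order ≠ ⊤ := by
      intro h0
      exact hi (PowerSeries.order_eq_top.1 h0)
    exact ⟨(G i).order.toNat, i, hi, (ENat.natCast_toNat h1).symm⟩
  obtain ⟨i0, hi0, hs⟩ := Nat.find_spec hex
  set s := Nat.find hex with hsdef
  have hdvd : ∀ i, (PowerSeries.X : PowerSeries k) ^ s ∣ G i := by
    intro i
    by_cases hi : G i = 0
    · rw [hi]; exact dvd_zero _
    · have h1 : (G i).order ≠ ⊤ := fun h0 => hi (PowerSeries.order_eq_top.1 h0)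
      have h2 : s ≤ (G i).order.toNat := Nat.find_min' hex ⟨i, hi, (ENat.natCast_toNat h1).symm⟩
      rw [PowerSeries.X_pow_dvd_iff]
      intro m hm
      apply PowerSeries.coeff_of_lt_order
      rw [← ENat.natCast_toNat h1]
      exact_mod_cast hm.trans_le h2
  choose G' hG' using hdvd
  have hX : (PowerSeries.X : PowerSeries k) ≠ 0 := PowerSeries.X_ne_zero
  have hsum : ∑ i, A i * G' i ^ (p ^ n) = 0 := by
    have h1 : (PowerSeries.X : PowerSeries k) ^ (s * p ^ n) * ∑ i, A i * G' i ^ (p ^ n) = 0 := by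
      rw [← h, Finset.mul_sum]
      refine Finset.sum_congr rfl fun i _ => ?_
      rw [hG' i, mul_pow, ← pow_mul]
      ring
    rcases mul_eq_zero.1 h1 with h2 | h2
    · exact (pow_ne_zero _ hX h2).elim
    · exact h2
  have hg0 : PowerSeries.constantCoeff (G' i0) ≠ 0 := by
    intro h0
    obtain ⟨F, hF⟩ := PowerSeries.X_dvd_iff.2 h0
    have h1 : (PowerSeries.X : PowerSeries k) ^ (s + 1) ∣ G i0 := by
      refine ⟨F, ?_⟩
      rw [hG' i0, hF]
      ring
    rw [PowerSeries.X_pow_dvd_iff] at h1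
    have h2 : ((s + 1 : ℕ) : ℕ∞) ≤ (G i0).order := PowerSeries.nat_le_order _ _ h1
    rw [hs] at h2
    have h3 : s + 1 ≤ s := by exact_mod_cast h2
    omega
  have hc : (fun i => PowerSeries.constantCoeff (G' i) ^ (p ^ n)) ≠ 0 := by
    intro h0
    have := congrFun h0 i0
    simp only [Pi.zero_apply] at this
    exact hg0 (pow_eq_zero_iff (pow_ne_zero _ (Fact.out : p.Prime).ne_zero) |>.1 this)
  have hlt := hA _ hc
  have hkey : (PowerSeries.X : PowerSeries k) ^ (p ^ n) ∣
      ∑ i, (PowerSeries.constantCoeff (G' i) ^ (p ^ n)) • A i := by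
    have h1 : ∑ i, (PowerSeries.constantCoeff (G' i) ^ (p ^ n)) • A i =
        ∑ i, A i * (PowerSeries.C (PowerSeries.constantCoeff (G' i)) - G' i) ^ (p ^ n) := by
      have h2 : ∑ i, A i * (PowerSeries.C (PowerSeries.constantCoeff (G' i)) - G' i) ^ (p ^ n) =
          ∑ i, A i * PowerSeries.C (PowerSeries.constantCoeff (G' i)) ^ (p ^ n) -
            ∑ i, A i * G' i ^ (p ^ n) := by
        rw [← Finset.sum_sub_distrib]
        refine Finset.sum_congr rfl fun i _ => ?_
        rw [sub_pow_char_pow, mul_sub]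
      rw [h2, hsum, sub_zero]
      refine Finset.sum_congr rfl fun i _ => ?_
      rw [PowerSeries.smul_eq_C_mul, map_pow, mul_comm]
    rw [h1]
    refine Finset.dvd_sum fun i _ => Dvd.dvd.mul_left (pow_dvd_pow_of_dvd ?_ _) _
    rw [PowerSeries.X_dvd_iff, map_sub, PowerSeries.constantCoeff_C, sub_self]
  rw [PowerSeries.X_pow_dvd_iff] at hkey
  exact absurd hlt (not_lt.2 (PowerSeries.nat_le_order _ _ hkey))

end GPC
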