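import Pool.Agent.Lib.MP_56e792_co.S.Defs
import Pool.Agent.Lib.MP_56e792_co.S.TwZ
import Pool.Agent.Lib.MP_56e792_co.S.BiD

/-!
# MP_56e792_co, all prime powers, module LaA

`Lam ψ w l D` (Defs.lean) is the image of `(Fin K → Fin l) → Bi k D D`; `LamS` is the same set as a submodule.
* `LamS_finrank`: the kernel of this linear map is `(Fin K → Fin l) → Bd H D D` (`tower_poly`, `hψ.ker`), rank-nullity, `Bi_finrank`.
-/

set_option autoImplicit false
set_option linter.unusedVariables false

namespace GPC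

open Polynomial
open Pool.Agent.Lib.MP_56e792_co (J mem_J GP)

/-- `Lam` as a submodule -/
noncomputable def LamS {k : Type} [Field k] (ψ : k[X][X] →ₐ[k] PowerSeries k) {K : ℕ}
    (w : Fin K → PowerSeries k) (l D : ℕ) : Submodule k (PowerSeries k) :=
  Submodule.span k (Lam ψ w l D)

/-- the linear map with image `Lam` -/
noncomputable def laa_map {k : Type} [Field k] (ψ : k[X][X] →ₐ[k] PowerSeries k) {K : ℕ}
    (w : Fin K → PowerSeries k) (l D : ℕ) : ((Fin K → Fin l) → Bi k D D) →ₗ[k] PowerSeries k where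
  toFun G := ∑ e, ψ (G e : k[X][X]) * ∏ j, w j ^ (e j : ℕ)
  map_add' G G' := by
    rw [← Finset.sum_add_distrib]
    refine Finset.sum_congr rfl fun e _ => ?_
    rw [Pi.add_apply, Submodule.coe_add, map_add, add_mul]
  map_smul' c G := by
    rw [RingHom.id_apply, Finset.smul_sum]
    refine Finset.sum_congr rfl fun e _ => ?_
    rw [Pi.smul_apply, Submodule.coe_smul, map_smul, smul_mul_assoc]

theorem laa_range {k : Type} [Field k] (ψ : k[X][X] →ₐ[k] PowerSeries k) {K : ℕ}
    (w : Fin K → PowerSeries k) (l D : ℕ) :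
    Lam ψ w l D = (LinearMap.range (laa_map ψ w l D) : Set (PowerSeries k)) := by
  ext B
  constructor
  · rintro ⟨G, hG, rfl⟩
    exact ⟨fun e => ⟨G e, hG e⟩, rfl⟩
  · rintro ⟨G, rfl⟩
    exact ⟨fun e => (G e : k[X][X]), fun e => (G e).2, rfl⟩

theorem laa_LamS {k : Type} [Field k] (ψ : k[X][X] →ₐ[k] PowerSeries k) {K : ℕ}
    (w : Fin K → PowerSeries k) (l D : ℕ) : LamS ψ w l D = LinearMap.range (laa_map ψ w l D) := by
  rw [LamS, laa_range, Submodule.span_eq]

theorem mem_LamS {k : Type} [Field k] (ψ : k[X][X] →ₐ[k] PowerSeries k) {K : ℕ}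
    (w : Fin K → PowerSeries k) (l D : ℕ) (B : PowerSeries k) :
    B ∈ LamS ψ w l D ↔ B ∈ Lam ψ w l D := by
  rw [laa_LamS, laa_range, SetLike.mem_coe]

theorem LamS_fin {k : Type} [Field k] (ψ : k[X][X] →ₐ[k] PowerSeries k) {K : ℕ}
    (w : Fin K → PowerSeries k) (l D : ℕ) : FiniteDimensional k (LamS ψ w l D) := by
  have : FiniteDimensional k (Bi k D D) := Bi_fin D D
  rw [laa_LamS]
  infer_instance

theorem LamS_finrank {k : Type} [Field k] [IsAlgClosed k] {H : k[X][X]} {l K : ℕ}
    {a a' b : Fin K → k} (hK : Kum H l K a a' b) {ψ : k[X][X] →ₐ[k] PowerSeries k} {x₀ : k}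
    (hψ : Plac H ψ x₀) (w : Fin K → PowerSeries k)
    (hw : ∀ j, w j ^ l = ψ (uu (a' j) * vv (a j) ^ (l - 1))) (D : ℕ) :
    Module.finrank k (LamS ψ w l D) + l ^ K * Module.finrank k (Bd H D D) = l ^ K * (D * D) := by
  have h1 : FiniteDimensional k (Bi k D D) := Bi_fin D D
  have hle : Bd H D D ≤ Bi k D D := inf_le_left
  have h2 : FiniteDimensional k (Bd H D D) := Submodule.finiteDimensional_of_le hle
  have hrn := LinearMap.finrank_range_add_finrank_ker (K := k)
    (V := (Fin K → Fin l) → Bi k D D) (V₂ := PowerSeries k) (laa_map ψ w l D)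
  rw [← laa_LamS] at hrn
  have f1 : Module.Free k (Bi k D D) := Module.Free.of_divisionRing k (Bi k D D)
  have f2 : Module.Free k (Bd H D D) := Module.Free.of_divisionRing k (Bd H D D)
  have hdom : Module.finrank k ((Fin K → Fin l) → Bi k D D) = l ^ K * (D * D) := by
    rw [Module.finrank_pi_fintype]
    simp [Bi_finrank]
  have hinj : Function.Injective
      ((Submodule.inclusion hle).compLeft (Fin K → Fin l) :
        ((Fin K → Fin l) → Bd H D D) →ₗ[k] ((Fin K → Fin l) → Bi k D D)) := by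
    intro G G' h
    funext e
    have := congrFun h e
    exact Submodule.inclusion_injective hle this
  have hker : LinearMap.ker (laa_map ψ w l D) = LinearMap.range
      ((Submodule.inclusion hle).compLeft (Fin K → Fin l) :
        ((Fin K → Fin l) → Bd H D D) →ₗ[k] ((Fin K → Fin l) → Bi k D D)) := by
    ext G
    rw [LinearMap.mem_ker, LinearMap.mem_range]
    constructor
    · intro h
      have hd := tower_poly hK hψ w hw (fun e => (G e : k[X][X])) h
      exact ⟨fun e => ⟨(G e : k[X][X]), mem_Bd.2 ⟨(G e).2, hd e⟩⟩, rfl⟩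
    · rintro ⟨G', rfl⟩
      show ∑ e, ψ ((G' e : k[X][X])) * ∏ j, w j ^ (e j : ℕ) = 0
      refine Finset.sum_eq_zero fun e _ => ?_
      rw [(hψ.ker _).2 (mem_Bd.1 (G' e).2).2, zero_mul]
  have hkr : Module.finrank k (LinearMap.ker (laa_map ψ w l D)) =
      l ^ K * Module.finrank k (Bd H D D) := by
    rw [hker, LinearMap.finrank_range_of_inj hinj, Module.finrank_pi_fintype]
    simp
  rw [hkr, hdom] at hrn
  exact hrn

end GPC
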