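import Pool.Agent.Lib.MP_56e792_co.S.Defs
import Pool.Agent.Lib.MP_56e792_co.S.LaA
import Pool.Agent.Lib.MP_56e792_co.S.LaM

/-!
# MP_56e792_co, all prime powers, module Zer

The zero estimate. Let `T = order B` (finite as `B ≠ 0`), `D1 := max T (max (dX H) (dY H))`, `D2 := D + D1 + K l`. In `LamS ψ w l D2` lie `B * LamS ψ w l D1` (`Lam_mul`; dimension of `LamS ψ w l D1`, multiplication by `B ≠ 0` is injective; all elements have order `≥ T`)
and the powers `t^i`, `i < T` (`t = ψ (C (X - C x₀))`, exponent `e = 0`); every nonzero combination of these has order `< T`, so the two subspaces meet in `0`. Hence `T + dim LamS D1 ≤ dim LamS D2`; `LamS_finrank`, `Bd_codim_eq`: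
`dim LamS D' = l^K ((α+β) D' - α β)` for `D' ≥ α, β`; so `T ≤ l^K (α+β) (D + K l)`.
-/

set_option autoImplicit false
set_option linter.unusedVariables false

namespace GPC

open Polynomial
open Pool.Agent.Lib.MP_56e792_co (J mem_J GP)

/-- `t = ψ (C (X - C x₀))` is the variable -/
private theorem zer_t {k : Type} [Field k] {H : k[X][X]} {ψ : k[X][X] →ₐ[k] PowerSeries k} {x₀ : k}
    (hψ : Plac H ψ x₀) : ψ (C (X - C x₀)) = PowerSeries.X := by
  have h1 : ψ (C (C x₀)) = PowerSeries.C x₀ := by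
    have h2 : (C (C x₀) : k[X][X]) = algebraMap k (k[X][X]) x₀ := rfl
    rw [h2, AlgHom.commutes]
    rfl
  rw [C_sub, map_sub, hψ.hX, h1]
  ring

private theorem zer_pow {k : Type} [Field k] {H : k[X][X]} {ψ : k[X][X] →ₐ[k] PowerSeries k} {x₀ : k}
    (hψ : Plac H ψ x₀) {K l : ℕ} (hl : 1 ≤ l) (w : Fin K → PowerSeries k) {D i : ℕ} (hi : i < D) :
    (PowerSeries.X ^ i : PowerSeries k) ∈ Lam ψ w l D := by
  classical
  let e0 : Fin K → Fin l := fun _ => ⟨0, hl⟩
  refine ⟨fun e => if e = e0 then C ((X - C x₀) ^ i) else 0, fun e => ?_, ?_⟩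
  · dsimp only
    split_ifs with h
    · intro a b hab
      rcases Nat.eq_zero_or_pos b with hb | hb
      · subst hb
        rw [coeff_C_zero]
        refine coeff_eq_zero_of_natDegree_lt ?_
        have h1 : ((X - C x₀ : k[X]) ^ i).natDegree ≤ i := by
          refine natDegree_pow_le.trans ?_
          rw [natDegree_X_sub_C, mul_one]
        omega
      · rw [coeff_C, if_neg hb.ne', coeff_zero]
    · exact (Bi k D D).zero_mem
  · rw [Finset.sum_eq_single e0]
    · dsimp only
      rw [if_pos rfl, C_pow, map_pow, zer_t hψ]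
      simp [e0]
    · intro e _ he
      dsimp only
      rw [if_neg he, map_zero, zero_mul]
    · intro h
      exact absurd (Finset.mem_univ _) h

theorem zero_est {k : Type} [Field k] [IsAlgClosed k] {H : k[X][X]} {l K : ℕ}
    {a a' b : Fin K → k} (hK : Kum H l K a a' b) {ψ : k[X][X] →ₐ[k] PowerSeries k} {x₀ : k}
    (hψ : Plac H ψ x₀) (w : Fin K → PowerSeries k)
    (hw : ∀ j, w j ^ l = ψ (uu (a' j) * vv (a j) ^ (l - 1))) {D : ℕ} {B : PowerSeries k}
    (hB : B ∈ Lam ψ w l D) (hB0 : B ≠ 0) :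
    B.order ≤ ((l ^ K * ((dX H + dY H) * (D + K * l)) : ℕ) : ℕ∞) := by
  classical
  have hl : 1 ≤ l := hK.pr.one_lt.le
  set T : ℕ := B.order.toNat with hT
  have hTo : B.order = (T : ℕ∞) := (PowerSeries.coe_toNat_order hB0).symm
  rw [hTo, Nat.cast_le]
  set D1 : ℕ := max T (max (dX H) (dY H)) with hD1
  have hT1 : T ≤ D1 := le_max_left _ _
  have hX1 : dX H ≤ D1 := (le_max_left _ _).trans (le_max_right _ _)
  have hY1 : dY H ≤ D1 := (le_max_right _ _).trans (le_max_right _ _)
  set D2 : ℕ := D + D1 + K * l with hD2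
  have hD12 : D1 ≤ D2 := by omega
  have hdvd : (PowerSeries.X : PowerSeries k) ^ T ∣ B := PowerSeries.X_pow_order_dvd
  haveI := LamS_fin ψ w l D1
  haveI := LamS_fin ψ w l D2
  let Φ : LamS ψ w l D2 →ₗ[k] (Fin T → k) :=
    LinearMap.pi fun i => (PowerSeries.coeff (R := k) (i : ℕ)).comp (LamS ψ w l D2).subtype
  have hmem : ∀ v : LamS ψ w l D1, B * (v : PowerSeries k) ∈ LamS ψ w l D2 := by
    intro v
    rw [mem_LamS]
    exact Lam_mul hl w hw hB ((mem_LamS ψ w l D1 _).1 v.2)
  let m1 : LamS ψ w l D1 →ₗ[k] LamS ψ w l D2 :=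
    ((LinearMap.mulLeft k B).comp (LamS ψ w l D1).subtype).codRestrict (LamS ψ w l D2) hmem
  have hker : ∀ v : LamS ψ w l D1, m1 v ∈ LinearMap.ker Φ := by
    intro v
    rw [LinearMap.mem_ker]
    funext i
    change PowerSeries.coeff (R := k) (i : ℕ) (B * (v : PowerSeries k)) = 0
    exact PowerSeries.X_pow_dvd_iff.1 (hdvd.mul_right _) i i.2
  let m2 : LamS ψ w l D1 →ₗ[k] LinearMap.ker Φ := m1.codRestrict (LinearMap.ker Φ) hker
  have hinj : Function.Injective m2 := by
    intro v v' h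
    have h1 : B * (v : PowerSeries k) = B * (v' : PowerSeries k) :=
      congrArg (fun x : LinearMap.ker Φ => ((x : LamS ψ w l D2) : PowerSeries k)) h
    exact Subtype.ext (mul_left_cancel₀ hB0 h1)
  have h1 : Module.finrank k (LamS ψ w l D1) ≤ Module.finrank k (LinearMap.ker Φ) :=
    LinearMap.finrank_le_finrank_of_injective hinj
  have hsurj : Function.Surjective Φ := by
    intro c
    have hX : ∀ i : Fin T, (PowerSeries.X ^ (i : ℕ) : PowerSeries k) ∈ LamS ψ w l D2 := by
      intro i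
      rw [mem_LamS]
      have := i.2
      exact zer_pow hψ hl w (by omega)
    refine ⟨⟨∑ i : Fin T, c i • (PowerSeries.X ^ (i : ℕ) : PowerSeries k),
      Submodule.sum_mem _ fun i _ => Submodule.smul_mem _ _ (hX i)⟩, ?_⟩
    funext j
    change PowerSeries.coeff (R := k) (j : ℕ) (∑ i : Fin T, c i • (PowerSeries.X ^ (i : ℕ) : PowerSeries k)) = c j
    rw [map_sum, Finset.sum_eq_single j]
    · rw [map_smul, PowerSeries.coeff_X_pow, if_pos rfl, smul_eq_mul, mul_one]
    · intro i _ hi
      rw [map_smul, PowerSeries.coeff_X_pow, if_neg (fun h => hi (Fin.ext h.symm)), smul_zero]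
    · intro h
      exact absurd (Finset.mem_univ _) h
  have h2 := LinearMap.finrank_range_add_finrank_ker Φ
  rw [LinearMap.range_eq_top.2 hsurj, finrank_top, Module.finrank_fin_fun] at h2
  have h3 := LamS_finrank hK hψ w hw D1
  have h4 := LamS_finrank hK hψ w hw D2
  have hH : H ≠ 0 := hK.irr.ne_zero
  have h5 := Bd_codim_eq hH hX1 hY1
  have h6 := Bd_codim_eq hH (hX1.trans hD12) (hY1.trans hD12)
  -- arithmetic
  set f1 := Module.finrank k (Bd H D1 D1) with hf1
  set f2 := Module.finrank k (Bd H D2 D2) with hf2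
  set L := l ^ K with hL
  set s := dX H + dY H with hs
  have h7 : L * (D1 * D1) + L * (dX H * dY H) = L * f1 + L * (s * D1) := by
    rw [← mul_add, ← mul_add, h5]
  have h8 : L * (D2 * D2) + L * (dX H * dY H) = L * f2 + L * (s * D2) := by
    rw [← mul_add, ← mul_add, h6]
  have h9 : L * (s * D2) = L * (s * D1) + L * (s * (D + K * l)) := by
    rw [hD2]
    ring
  omega

end GPC
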