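import Pool.Agent.Lib.MP_56e792_co.S.Defs
import Pool.Agent.Lib.MP_56e792_co.S.Zer
import Pool.Agent.Lib.MP_56e792_co.S.Nvn
import Pool.Agent.Lib.MP_56e792_co.S.Gen
import Pool.Agent.Lib.MP_56e792_co.S.NoA
import Pool.Agent.Lib.MP_56e792_co.S.NoB
import Pool.Agent.Lib.MP_56e792_co.S.NoC
import Pool.Agent.Lib.MP_56e792_co.S.Plc
import Pool.Agent.Lib.MP_56e792_co.S.Rot
import Pool.Agent.Lib.MP_56e792_co.S.LaM

/-!
# MP_56e792_co, all prime powers, module Non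

NONVANISHING in GPC.md. `generic`, `place`, `place_coeff`: `ψ (vv (a j))`, `ψ (uu (a' j))` have nonzero constant coefficients; `w j` with `w j ^ l = ψ (uu (a' j) * vv (a j)^(l-1))` (`root_unit`). Write `q = p^n`, `M = p^μ`. Multiply `ψ Φ = 0` by `∏_j ψ (vv (a j))^(q+1-M1)` and use `non_id`:
`∑_{S,i} A (S,i) * (zz S * ψ (∑_j lam' (S,i,j) • σ j))^q = 0`, `A (S,i) = ψ (ρ i ^ M * UV S^c) * zz S`, `lam'^q = lam` (perfect field). Hypothesis `hA` of `nv`: `non_ind` (the combination is not `0`), `non_mem`, `Lam_sum`, `zero_est` with `D = M R + K c + K`, and `hq`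
(`R ≥ 1` if there is an `i`, since `ρ i ≠ 0` by `hρi`). So `zz S * ψ (∑_j lam' σ j) = 0`; `zz S ≠ 0` (units; `w j ≠ 0`), so `H ∣ ∑_j lam' σ j`, and `hσi` gives `lam = 0`.
-/

set_option autoImplicit false
set_option linter.unusedVariables false

namespace GPC

open Polynomial
open Pool.Agent.Lib.MP_56e792_co (J mem_J GP)

private theorem non_pt_uu {k : Type} [Field k] (x y a : k) : pt x y (uu a) = y - a := by
  unfold pt uu
  simp [Polynomial.evalEval]

private theorem non_pt_vv {k : Type} [Field k] (x y a : k) : pt x y (vv a) = x - a := by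
  unfold pt vv
  simp [Polynomial.evalEval]

private theorem non_Bi_zero {k : Type} [Field k] {G : k[X][X]} (h : G ∈ Bi k 0 0) : G = 0 := by
  ext j i
  simpa using h i j (Or.inl (Nat.zero_le _))

theorem nonvan {k : Type} [Field k] [IsAlgClosed k] {p : ℕ} [Fact p.Prime] [CharP k p]
    {H : k[X][X]} {l K : ℕ} {a a' b : Fin K → k} (hK : Kum H l K a a' b) (hK1 : 1 ≤ K)
    {μ n M1 c R : ℕ} (hM1 : l * M1 = p ^ n + 1) {ι κ : Type} [Fintype ι] [Fintype κ]
    (ρ : ι → k[X][X]) (hρ : ∀ i, ρ i ∈ Bi k R R)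
    (hρi : ∀ c : ι → k, H ∣ ∑ i, c i • ρ i → c = 0)
    (σ : κ → k[X][X]) (hσi : ∀ c : κ → k, H ∣ ∑ i, c i • σ i → c = 0)
    (hq : l ^ K * ((dX H + dY H) * (p ^ μ * R + K * c + K + K * l)) < p ^ n)
    (lam : Finset (Fin K) × ι × κ → k)
    (h : H ∣ ∑ x : Finset (Fin K) × ι × κ,
      lam x • (ρ x.2.1 ^ (p ^ μ) * UV a a' x.1 ^ (M1 + c) * σ x.2.2 ^ (p ^ n))) : lam = 0 := by
  classical
  have hp : p.Prime := Fact.out
  obtain ⟨x₀, y₀, hxy, hxy', hxa, hya⟩ := generic hK hK1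
  obtain ⟨ψ, hψ, hb⟩ := place hK.irr hxy hxy'
  have hl2 : 2 ≤ l := hK.pr.two_le
  have hu0 : ∀ j, PowerSeries.constantCoeff (ψ (uu (a' j))) ≠ 0 := by
    intro j
    rw [place_coeff hψ hb, non_pt_uu]
    exact sub_ne_zero.mpr (hya j)
  have hv0 : ∀ j, PowerSeries.constantCoeff (ψ (vv (a j))) ≠ 0 := by
    intro j
    rw [place_coeff hψ hb, non_pt_vv]
    exact sub_ne_zero.mpr (hxa j)
  have hu : ∀ j, ψ (uu (a' j)) ≠ 0 := fun j h0 => hu0 j (by rw [h0, map_zero])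
  have hv : ∀ j, ψ (vv (a j)) ≠ 0 := fun j h0 => hv0 j (by rw [h0, map_zero])
  have hex : ∀ j, ∃ v : PowerSeries k, v ^ l = ψ (uu (a' j) * vv (a j) ^ (l - 1)) := by
    intro j
    refine root_unit hK.ne _ ?_
    rw [map_mul, map_pow, map_mul, map_pow]
    exact mul_ne_zero (hu0 j) (pow_ne_zero _ (hv0 j))
  choose w hw using hex
  have hw0 : ∀ j, w j ≠ 0 := by
    intro j h0
    have h1 := hw j
    rw [h0, zero_pow (by omega), map_mul, map_pow] at h1
    exact mul_ne_zero (hu j) (pow_ne_zero _ (hv j)) h1.symm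
  have hzz : ∀ S, zz ψ w a S ≠ 0 := by
    intro S
    unfold zz
    exact mul_ne_zero (Finset.prod_ne_zero_iff.mpr fun j _ => hw0 j)
      (Finset.prod_ne_zero_iff.mpr fun j _ => hv j)
  -- the roots of the coefficients
  have hroot : ∀ x, ∃ z : k, z ^ (p ^ n) = lam x := fun x =>
    IsAlgClosed.exists_pow_nat_eq (lam x) (pow_pos hp.pos n)
  choose lam' hlam' using hroot
  -- the coefficients `A` and the unknowns `G`
  let A : Finset (Fin K) × ι → PowerSeries k := fun x =>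
    ψ (ρ x.2 ^ (p ^ μ) * UV a a' x.1 ^ c) * zz ψ w a x.1
  let G : Finset (Fin K) × ι → PowerSeries k := fun x =>
    zz ψ w a x.1 * ψ (∑ j, lam' (x.1, x.2, j) • σ j)
  have : CharP (PowerSeries k) p :=
    charP_of_injective_algebraMap (algebraMap k (PowerSeries k)).injective p
  have hsum : ∑ x, A x * G x ^ (p ^ n) = 0 := by
    have h1 := (hψ.ker _).2 h
    rw [map_sum] at h1
    have h2 : ∀ x : Finset (Fin K) × ι × κ,
        ψ (lam x • (ρ x.2.1 ^ (p ^ μ) * UV a a' x.1 ^ (M1 + c) * σ x.2.2 ^ (p ^ n))) *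
          ∏ j, ψ (vv (a j)) ^ (p ^ n + 1 - M1) =
        A (x.1, x.2.1) * (zz ψ w a x.1 * ψ (lam' (x.1, x.2.1, x.2.2) • σ x.2.2)) ^ (p ^ n) := by
      intro x
      have h3 := non_id (S := x.1) (by omega : 1 ≤ l) hM1 w hw c
      have e1 : ψ (lam x • (ρ x.2.1 ^ (p ^ μ) * UV a a' x.1 ^ (M1 + c) * σ x.2.2 ^ (p ^ n))) =
          lam x • (ψ (ρ x.2.1) ^ (p ^ μ) * ψ (UV a a' x.1) ^ (M1 + c) * ψ (σ x.2.2) ^ (p ^ n)) := by
        rw [map_smul, map_mul, map_mul, map_pow, map_pow, map_pow]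
      have e2 : A (x.1, x.2.1) = ψ (ρ x.2.1) ^ (p ^ μ) * ψ (UV a a' x.1) ^ c * zz ψ w a x.1 := by
        change ψ (ρ x.2.1 ^ (p ^ μ) * UV a a' x.1 ^ c) * zz ψ w a x.1 = _
        rw [map_mul, map_pow, map_pow]
      have e3 : (zz ψ w a x.1 * ψ (lam' (x.1, x.2.1, x.2.2) • σ x.2.2)) ^ (p ^ n) =
          lam x • (zz ψ w a x.1 ^ (p ^ n) * ψ (σ x.2.2) ^ (p ^ n)) := by
        rw [map_smul, mul_smul_comm, _root_.smul_pow, hlam', mul_pow]
      rw [e1, e2, e3, smul_mul_assoc, mul_smul_comm]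
      congr 1
      calc ψ (ρ x.2.1) ^ (p ^ μ) * ψ (UV a a' x.1) ^ (M1 + c) * ψ (σ x.2.2) ^ (p ^ n) *
            ∏ j, ψ (vv (a j)) ^ (p ^ n + 1 - M1)
          = ψ (ρ x.2.1) ^ (p ^ μ) * ψ (σ x.2.2) ^ (p ^ n) * (ψ (UV a a' x.1) ^ (M1 + c) *
            ∏ j, ψ (vv (a j)) ^ (p ^ n + 1 - M1)) := by ring
        _ = ψ (ρ x.2.1) ^ (p ^ μ) * ψ (σ x.2.2) ^ (p ^ n) *
              (ψ (UV a a' x.1) ^ c * zz ψ w a x.1 * zz ψ w a x.1 ^ (p ^ n)) := by rw [h3]
        _ = _ := by ring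
    have h4 : ∑ x : Finset (Fin K) × ι × κ,
        A (x.1, x.2.1) * (zz ψ w a x.1 * ψ (lam' (x.1, x.2.1, x.2.2) • σ x.2.2)) ^ (p ^ n) = 0 := by
      rw [← Finset.sum_congr rfl fun x _ => h2 x, ← Finset.sum_mul, h1, zero_mul]
    rw [Fintype.sum_prod_type] at h4
    rw [Fintype.sum_prod_type, ← h4]
    refine Finset.sum_congr rfl fun S _ => ?_
    rw [Fintype.sum_prod_type]
    refine Finset.sum_congr rfl fun i _ => ?_
    change A (S, i) * (zz ψ w a S * ψ (∑ j, lam' (S, i, j) • σ j)) ^ (p ^ n) =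
      ∑ y, A (S, i) * (zz ψ w a S * ψ (lam' (S, i, y) • σ y)) ^ (p ^ n)
    rw [← Finset.mul_sum, map_sum, Finset.mul_sum, sum_pow_char_pow]
  have hA : ∀ c' : Finset (Fin K) × ι → k, c' ≠ 0 → (∑ x, c' x • A x).order < ((p ^ n : ℕ) : ℕ∞) := by
    intro c' hc'
    obtain ⟨x, hx⟩ := Function.ne_iff.mp hc'
    have hR : 1 ≤ R := by
      by_contra hR
      have hR0 : R = 0 := by omega
      subst hR0
      have h1 := non_Bi_zero (hρ x.2)
      have h2 := hρi (Pi.single x.2 1) (by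
        rw [Finset.sum_eq_single x.2]
        · rw [h1, smul_zero]
          exact dvd_zero _
        · intro i _ hi
          rw [Pi.single_eq_of_ne hi, zero_smul]
        · intro h0
          exact absurd (Finset.mem_univ _) h0)
      have h3 := congrFun h2 x.2
      rw [Pi.single_eq_same] at h3
      exact one_ne_zero h3
    have hne : ∑ x, c' x • A x ≠ 0 := by
      intro h0
      exact hc' (non_ind hK hψ w hw hu hv ρ hρi c' h0)
    have hmem : ∑ x, c' x • A x ∈ Lam ψ w l (p ^ μ * R + K * c + K) := by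
      refine Lam_sum ψ w _ Finset.univ c' A fun x _ => ?_
      exact non_mem hl2 (Nat.one_le_pow _ _ hp.pos) hR w x.1 (hρ x.2)
    refine lt_of_le_of_lt (zero_est hK hψ w hw hmem hne) ?_
    exact_mod_cast hq
  have hG := nv A G hA hsum
  funext x
  have h5 := hG (x.1, x.2.1)
  change zz ψ w a x.1 * ψ (∑ j, lam' (x.1, x.2.1, j) • σ j) = 0 at h5
  have h6 := (mul_eq_zero.mp h5).resolve_left (hzz x.1)
  have h7 := hσi _ ((hψ.ker _).1 h6)
  have h8 := congrFun h7 x.2.2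
  change lam' (x.1, x.2.1, x.2.2) = 0 at h8
  rw [← hlam' x]
  change lam' (x.1, x.2.1, x.2.2) ^ (p ^ n) = 0
  rw [h8, zero_pow (pow_pos hp.pos n).ne']

end GPC
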