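import Pool.Agent.Lib.MP_56e792_co.S.Defs
import Pool.Agent.Lib.MP_56e792_co.S.BiD

/-!
# MP_56e792_co, all prime powers, module Pig

`pig`: the quotient of `Bi k D D` by `Bd H D D` has dimension `≤ (α+β) D < card ι` (`Bd_codim`), so the classes of the `P i` are dependent.
`bas`: a basis of a complement of `Bd H R R` in `Bi k R R` (its dimension is `(α+β) R - αβ` by `Bd_codim_eq`), or lift a basis of the quotient.
-/

set_option autoImplicit false
set_option linter.unusedVariables false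

namespace GPC

open Polynomial
open Pool.Agent.Lib.MP_56e792_co (J mem_J GP)

section gen

variable {k V : Type} [Field k] [AddCommGroup V] [Module k V] (A B : Submodule k V)

theorem pig_quot [FiniteDimensional k A] (h : B ≤ A) :
    Module.finrank k (A ⧸ B.comap A.subtype) + Module.finrank k B = Module.finrank k A := by
  have h1 := Submodule.finrank_quotient_add_finrank (B.comap A.subtype)
  have h2 := LinearEquiv.finrank_eq (Submodule.comapSubtypeEquivOfLe h)
  rw [h2] at h1
  exact h1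

theorem pig_zero (x : A) :
    Submodule.Quotient.mk (p := B.comap A.subtype) x = 0 ↔ (x : V) ∈ B := by
  rw [Submodule.Quotient.mk_eq_zero, Submodule.mem_comap, Submodule.subtype_apply]

theorem pig_gen [FiniteDimensional k A] (h : B ≤ A) {ι : Type} [Fintype ι] (P : ι → V)
    (hP : ∀ i, P i ∈ A) (hc : Module.finrank k A < Module.finrank k B + Fintype.card ι) :
    ∃ lam : ι → k, lam ≠ 0 ∧ ∑ i, lam i • P i ∈ B := by
  set f : (ι → k) →ₗ[k] (A ⧸ B.comap A.subtype) :=
    (Submodule.mkQ _) ∘ₗ (Fintype.linearCombination k (fun i => (⟨P i, hP i⟩ : A))) with hf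
  have h1 := pig_quot A B h
  have h3 : Module.finrank k (A ⧸ B.comap A.subtype) < Module.finrank k (ι → k) := by
    rw [Module.finrank_fintype_fun_eq_card]
    omega
  have h4 : LinearMap.ker f ≠ ⊥ := LinearMap.ker_ne_bot_of_finrank_lt h3
  obtain ⟨lam, hl, hl0⟩ := (Submodule.ne_bot_iff _).1 h4
  refine ⟨lam, hl0, ?_⟩
  rw [LinearMap.mem_ker, hf, LinearMap.comp_apply, Submodule.mkQ_apply, pig_zero,
    Fintype.linearCombination_apply] at hl
  simpa using hl

theorem pig_bas [FiniteDimensional k A] (h : B ≤ A) {n : ℕ}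
    (hn : n + Module.finrank k B = Module.finrank k A) :
    ∃ ρ : Fin n → V, (∀ i, ρ i ∈ A) ∧ ∀ c : Fin n → k, ∑ i, c i • ρ i ∈ B → c = 0 := by
  have h3 := pig_quot A B h
  have h5 : Module.finrank k (A ⧸ B.comap A.subtype) = n := by omega
  let b := Module.finBasisOfFinrankEq k (A ⧸ B.comap A.subtype) h5
  have h6 : ∀ i, ∃ x : A, Submodule.Quotient.mk (p := B.comap A.subtype) x = b i :=
    fun i => Submodule.Quotient.mk_surjective _ (b i)
  choose ρ hρ using h6
  refine ⟨fun i => (ρ i : V), fun i => (ρ i).2, ?_⟩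
  intro c hc
  have h7 : ((∑ i, c i • ρ i : A) : V) ∈ B := by
    simpa using hc
  rw [← pig_zero, ← Submodule.mkQ_apply, map_sum] at h7
  have h8 : ∑ i, c i • b i = 0 := by
    rw [← h7]
    refine Finset.sum_congr rfl fun i _ => ?_
    rw [map_smul, Submodule.mkQ_apply, hρ i]
  have h9 := Fintype.linearIndependent_iff.1 b.linearIndependent c h8
  exact funext h9

end gen

theorem pig {k : Type} [Field k] {H : k[X][X]} (hH : H ≠ 0) {D : ℕ} {ι : Type} [Fintype ι]
    (P : ι → k[X][X]) (hP : ∀ i, P i ∈ Bi k D D) (hc : (dX H + dY H) * D < Fintype.card ι) :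
    ∃ lam : ι → k, lam ≠ 0 ∧ H ∣ ∑ i, lam i • P i := by
  have h0 := Bi_fin (k := k) D D
  have h1 := Bi_finrank (k := k) D D
  have h2 := Bd_codim hH D
  obtain ⟨lam, h3, h4⟩ := pig_gen (Bi k D D) (Bd H D D) inf_le_left P hP (by rw [h1]; omega)
  exact ⟨lam, h3, (mem_Bd.1 h4).2⟩

theorem bas {k : Type} [Field k] {H : k[X][X]} (hH : H ≠ 0) {R : ℕ} (h1 : dX H ≤ R)
    (h2 : dY H ≤ R) :
    ∃ ρ : Fin ((dX H + dY H) * R - dX H * dY H) → k[X][X], (∀ i, ρ i ∈ Bi k R R) ∧
      ∀ c : Fin ((dX H + dY H) * R - dX H * dY H) → k, H ∣ ∑ i, c i • ρ i → c = 0 := by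
  have h0 := Bi_fin (k := k) R R
  have h3 := Bi_finrank (k := k) R R
  have h4 := Bd_codim_eq hH h1 h2
  have h5 : dX H * dY H ≤ (dX H + dY H) * R := by nlinarith
  obtain ⟨ρ, h6, h7⟩ := pig_bas (Bi k R R) (Bd H R R) inf_le_left
    (n := (dX H + dY H) * R - dX H * dY H) (by rw [h3]; omega)
  refine ⟨ρ, h6, fun c hc => h7 c ?_⟩
  refine mem_Bd.2 ⟨?_, hc⟩
  exact Submodule.sum_mem _ fun i _ => Submodule.smul_mem _ _ (h6 i)

end GPC
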