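import Pool.Agent.Lib.MP_56e792_co.S.Defs
import Pool.Agent.Lib.MP_56e792_co.S.BiM

/-!
# MP_56e792_co, all prime powers, module StA

`Ψ = ∑ lam x ^ (1/p^μ) • (ρ * UV^e * σ^(p^(n-μ)))` (perfect field: `frobeniusEquiv`/`IsAlgClosed.exists_pow_nat_eq`; `sum_pow_char_pow`, `ExpChar (k[X][X]) p`). Degrees: `(R-1) + K e + (B-1) p^(n-μ)` (`Bi_mul`, `Bi_pow`, `Bi_UV`).
-/

set_option autoImplicit false
set_option linter.unusedVariables false

namespace GPC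

open Polynomial
open Pool.Agent.Lib.MP_56e792_co (J mem_J GP)

theorem ste_psi {k : Type} [Field k] [IsAlgClosed k] {p : ℕ} [Fact p.Prime] [CharP k p]
    {K R B n μ M e : ℕ} (a a' : Fin K → k) (hR : 1 ≤ R) (hB : 1 ≤ B) (hμ : μ ≤ n)
    (he : M = p ^ μ * e) {ι κ : Type} [Fintype ι] [Fintype κ]
    (ρ : ι → k[X][X]) (hρ : ∀ i, ρ i ∈ Bi k R R) (σ : κ → k[X][X]) (hσ : ∀ i, σ i ∈ Bi k B B)
    (lam : Finset (Fin K) × ι × κ → k) :
    ∃ Ψ ∈ Bi k (R + K * e + (B - 1) * p ^ (n - μ)) (R + K * e + (B - 1) * p ^ (n - μ)),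
      Ψ ^ (p ^ μ) = ∑ x : Finset (Fin K) × ι × κ,
        lam x • (ρ x.2.1 ^ (p ^ μ) * UV a a' x.1 ^ M * σ x.2.2 ^ (p ^ n)) := by
  classical
  have hp : 0 < p ^ μ := pow_pos (Fact.out : p.Prime).pos _
  choose r hr using fun x : Finset (Fin K) × ι × κ => IsAlgClosed.exists_pow_nat_eq (lam x) hp
  refine ⟨∑ x : Finset (Fin K) × ι × κ, r x • (ρ x.2.1 * UV a a' x.1 ^ e * σ x.2.2 ^ (p ^ (n - μ))),
    ?_, ?_⟩
  · refine Submodule.sum_mem _ fun x _ => Submodule.smul_mem _ _ ?_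
    obtain ⟨R', rfl⟩ : ∃ R', R = R' + 1 := ⟨R - 1, by omega⟩
    obtain ⟨B', rfl⟩ : ∃ B', B = B' + 1 := ⟨B - 1, by omega⟩
    have h1 := Bi_mul (Bi_mul (hρ x.2.1) (Bi_pow (Bi_UV a a' x.1) e))
      (Bi_pow (hσ x.2.2) (p ^ (n - μ)))
    have h2 : R' + e * K + p ^ (n - μ) * B' + 1 = R' + 1 + K * e + (B' + 1 - 1) * p ^ (n - μ) := by
      rw [Nat.add_sub_cancel]
      ring
    rw [h2] at h1
    exact h1
  · have : CharP (k[X][X]) p := inferInstance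
    rw [sum_pow_char_pow]
    refine Finset.sum_congr rfl fun x _ => ?_
    rw [_root_.smul_pow, hr x, mul_pow, mul_pow, ← pow_mul, ← pow_mul, ← pow_add, he]
    have h3 : n - μ + μ = n := by omega
    rw [h3, mul_comm e]

end GPC
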