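import Pool.Agent.Lib.MP_56e792_co.S.Defs
import Pool.Agent.Lib.MP_56e792_co.S.BiA

/-!
# MP_56e792_co, all prime powers, module Twi

The twist `tw p n G = swap (G with coefficients raised to p^n)`. It is a ring isomorphism of `k[X][X]` for perfect `k` (`Polynomial.mapEquiv`, `iterateFrobeniusEquiv`), so it preserves irreducibility. Coefficients: `((tw p n G).coeff i).coeff j = ((G.coeff i').coeff ..) ^ (p^n)` with exchanged indices (`swap_coeff`).
-/

set_option autoImplicit false
set_option linter.unusedVariables false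

namespace GPC

open Polynomial
open Pool.Agent.Lib.MP_56e792_co (J mem_J GP)

private theorem twi_coeff {k : Type} [Field k] (p n : ℕ) [ExpChar k p] (G : k[X][X])
    (i j : ℕ) : ((tw p n G).coeff i).coeff j = ((G.coeff j).coeff i) ^ p ^ n := by
  rw [tw, swap_coeff, coeff_map, coe_mapRingHom, coeff_map, iterateFrobenius_def]

private theorem twi_swap_map {k : Type} [Field k] (f : k →+* k) (G : k[X][X]) :
    Bivariate.swap (G.map (mapRingHom f)) = (Bivariate.swap G).map (mapRingHom f) := by
  ext i j
  rw [swap_coeff, coeff_map, coe_mapRingHom, coeff_map, coeff_map, coe_mapRingHom, coeff_map,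
    swap_coeff]

theorem tw_mem {k : Type} [Field k] {p : ℕ} [Fact p.Prime] [CharP k p] (n : ℕ) {D E : ℕ}
    {G : k[X][X]} (h : G ∈ Bi k D E) : tw p n G ∈ Bi k E D := by
  intro i j hij
  rw [twi_coeff, h j i hij.symm, zero_pow]
  exact pow_ne_zero _ (Fact.out (p := p.Prime)).ne_zero

theorem tw_pt {k : Type} [Field k] {p : ℕ} [Fact p.Prime] [CharP k p] (n : ℕ) (G : k[X][X])
    {c : k} (hc : (c ^ p ^ n) ^ p ^ n = c) :
    pt c (c ^ p ^ n) (tw p n G) = (pt c (c ^ p ^ n) G) ^ p ^ n := by
  have h1 := map_mapRingHom_evalEval (iterateFrobenius k p n) (p := G) (x := c) (y := c ^ p ^ n)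
  rw [iterateFrobenius_def, iterateFrobenius_def, iterateFrobenius_def, hc] at h1
  have h2 := Bivariate.aevalAeval_swap c (c ^ p ^ n) (G.map (mapRingHom (iterateFrobenius k p n)))
  rw [coe_aevalAeval_eq_evalEval, coe_aevalAeval_eq_evalEval] at h2
  rw [pt, pt, ← h1, tw]
  exact h2

theorem tw_dX {k : Type} [Field k] {p : ℕ} [Fact p.Prime] [CharP k p] (n : ℕ) (G : k[X][X]) :
    dX (tw p n G) = dY G ∧ dY (tw p n G) = dX G := by
  have hinj : Function.Injective (mapRingHom (iterateFrobenius k p n)) := by
    rw [coe_mapRingHom]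
    exact map_injective _ (iterateFrobenius k p n).injective
  constructor
  · rw [dX, dY, tw, Bivariate.swap_swap_apply, natDegree_map_eq_of_injective hinj]
  · rw [dX, dY, tw, twi_swap_map, natDegree_map_eq_of_injective hinj]

theorem tw_irr {k : Type} [Field k] {p : ℕ} [Fact p.Prime] [CharP k p] [PerfectRing k p] (n : ℕ)
    {G : k[X][X]} (h : Irreducible G) : Irreducible (tw p n G) := by
  have h1 : tw p n G = (Bivariate.swap (R := k))
      (mapEquiv (mapEquiv (iterateFrobeniusEquiv k p n)) G) := by
    rw [tw]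
    rfl
  rw [h1]
  refine (MulEquiv.irreducible_iff (Bivariate.swap (R := k))).2 ?_
  exact (MulEquiv.irreducible_iff (mapEquiv (mapEquiv (iterateFrobeniusEquiv k p n)))).2 h

end GPC
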