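import Pool.Agent.Lib.MP_56e792_co.S.Defs
import Pool.Agent.Lib.MP_56e792_co.S.Twi

/-!
# MP_56e792_co, all prime powers, module StB

For a point `x` with `(x^q)^q = x`, `q = p^n`: `pt x (x^q) (UV a a' S) = ∏_{j ∈ S} (x^q - a j^q) * ∏_{j ∉ S} (x - a j)` (here `a' j = a j^q`), so its `M1`-th power is `∏_j (x - a j)^M1` (`hrel`); `pt (tw p n (σ j)) = (pt (σ j))^q` (`tw_pt`). `pt x y` is an algebra homomorphism (`evalEval_*`).
-/

set_option autoImplicit false
set_option linter.unusedVariables false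

namespace GPC

open Polynomial
open Pool.Agent.Lib.MP_56e792_co (J mem_J GP)

private theorem stb_uv {k : Type} [Field k] {K M1 q : ℕ} (a : Fin K → k) {x : k}
    (hrel : ∀ j, (x ^ q - a j ^ q) ^ M1 = (x - a j) ^ M1) (S : Finset (Fin K)) :
    (UV a (fun j => a j ^ q) S).evalEval x (x ^ q) ^ M1 = (∏ j, (x - a j)) ^ M1 := by
  unfold UV
  rw [evalEval_mul, evalEval_prod, evalEval_prod, mul_pow,
    ← Finset.prod_mul_prod_compl S (fun j => x - a j), mul_pow]
  congr 1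
  · rw [← Finset.prod_pow, ← Finset.prod_pow]
    refine Finset.prod_congr rfl (fun j _ => ?_)
    rw [← hrel j]
    simp [uu, evalEval_sub]
  · rw [← Finset.prod_pow, ← Finset.prod_pow]
    refine Finset.prod_congr rfl (fun j _ => ?_)
    simp [vv, evalEval_C]

theorem ste_van {k : Type} [Field k] {p : ℕ} [Fact p.Prime] [CharP k p]
    {K n μ M1 c : ℕ} (a : Fin K → k) {ι κ : Type} [Fintype ι] [Fintype κ]
    (ρ : ι → k[X][X]) (σ : κ → k[X][X]) (lam : Finset (Fin K) × ι × κ → k) {x : k}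
    (hfix : (x ^ p ^ n) ^ p ^ n = x)
    (hrel : ∀ j, (x ^ p ^ n - a j ^ p ^ n) ^ M1 = (x - a j) ^ M1) :
    pt x (x ^ p ^ n) (∑ y : Finset (Fin K) × ι × κ, lam y • (ρ y.2.1 ^ (p ^ μ) *
        UV a (fun j => a j ^ p ^ n) y.1 ^ (M1 + c) * σ y.2.2 ^ (p ^ n))) =
      (∏ j, (x - a j)) ^ M1 * pt x (x ^ p ^ n) (∑ y : Finset (Fin K) × ι × κ,
        lam y • (ρ y.2.1 ^ (p ^ μ) * UV a (fun j => a j ^ p ^ n) y.1 ^ c *
          tw p n (σ y.2.2))) := by
  have hσ : ∀ j : κ, (tw p n (σ j)).evalEval x (x ^ p ^ n) =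
      ((σ j).evalEval x (x ^ p ^ n)) ^ p ^ n := fun j => tw_pt n (σ j) hfix
  unfold pt
  rw [evalEval_finsetSum, evalEval_finsetSum, Finset.mul_sum]
  refine Finset.sum_congr rfl (fun y _ => ?_)
  rw [evalEval_smul, evalEval_smul, evalEval_mul, evalEval_mul, evalEval_mul, evalEval_mul,
    evalEval_pow, evalEval_pow, evalEval_pow, evalEval_pow, hσ, pow_add, stb_uv a hrel,
    smul_eq_mul, smul_eq_mul]
  ring

end GPC
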