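import Pool.Agent.Lib.MP_56e792_co.S.Defs
import Pool.Agent.Lib.MP_56e792_co.S.Non
import Pool.Agent.Lib.MP_56e792_co.S.StA
import Pool.Agent.Lib.MP_56e792_co.S.StB
import Pool.Agent.Lib.MP_56e792_co.S.Pig
import Pool.Agent.Lib.MP_56e792_co.S.Bez

/-!
# MP_56e792_co, all prime powers, module Ste

Stepanov. `bas` gives `ρ : Fin r → ..` in `Bi k R R`, `σ : Fin b' → ..` in `Bi k B B`, `r = δ R - αβ`, `b' = δ B - αβ`. `M = p^μ`, `q = p^n`. `pig` for the family `ρ i^M * UV S^c * tw p n (σ j) ∈ Bi k D1 D1`, `D1 = M R + K c + B` (degrees `M (R-1) + K c + (B-1)`; `R, B ≥ 1`, `tw_mem`), indexed by `Finset (Fin K) × Fin r × Fin b'`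
(cardinality `2^K r b'`, `h1`): `lam ≠ 0` with `H ∣ Φ0`. `Φ := ∑ lam x • (ρ^M UV^(M1+c) σ^q)` vanishes on `C` (`ste_van`). `Φ = Ψ^M` (`ste_psi`), so `pt Ψ = 0` on `C`; `H` does not divide `Ψ` (otherwise it divides `Φ` and `nonvan` gives `lam = 0`).
`bez_frob`: `C.card ≤ δ D2`, `D2 = R + K e + (B-1) p^(n-μ)`, `p^μ e = M1 + c`; multiply by `p^μ`.
-/

set_option autoImplicit false
set_option linter.unusedVariables false

namespace GPC

open Polynomial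
open Pool.Agent.Lib.MP_56e792_co (J mem_J GP)

theorem stepanov {k : Type} [Field k] [IsAlgClosed k] {p : ℕ} [Fact p.Prime] [CharP k p]
    {H : k[X][X]} {l K n μ M1 c R B : ℕ} {a b : Fin K → k}
    (hK : Kum H l K a (fun j => a j ^ p ^ n) b) (hK1 : 1 ≤ K) (hM1 : l * M1 = p ^ n + 1)
    (hμ : μ ≤ n) (hdvd : p ^ μ ∣ M1 + c) (hR1 : dX H ≤ R) (hR2 : dY H ≤ R) (hB1 : dX H ≤ B)
    (hB2 : dY H ≤ B)
    (h1 : (dX H + dY H) * (p ^ μ * R + K * c + B) <
      2 ^ K * (((dX H + dY H) * R - dX H * dY H) * ((dX H + dY H) * B - dX H * dY H)))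
    (h2 : l ^ K * ((dX H + dY H) * (p ^ μ * R + K * c + K + K * l)) < p ^ n)
    (C : Finset k) (hfix : ∀ c ∈ C, (c ^ p ^ n) ^ p ^ n = c)
    (hH : ∀ c ∈ C, pt c (c ^ p ^ n) H = 0)
    (hrel : ∀ c ∈ C, ∀ j, (c ^ p ^ n - a j ^ p ^ n) ^ M1 = (c - a j) ^ M1) :
    C.card * p ^ μ ≤ (dX H + dY H) * (p ^ μ * R + K * (M1 + c) + B * p ^ n) := by
  classical
  have hp : p.Prime := Fact.out
  have hH0 : H ≠ 0 := hK.irr.ne_zero
  have hR0 : 1 ≤ R := by
    rcases Nat.eq_zero_or_pos R with h | h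
    · subst h
      simp at h1
    · exact h
  have hB0 : 1 ≤ B := by
    rcases Nat.eq_zero_or_pos B with h | h
    · subst h
      simp at h1
    · exact h
  have hbas1 := bas hH0 hR1 hR2
  have hbas2 := bas hH0 hB1 hB2
  generalize hr : (dX H + dY H) * R - dX H * dY H = r at hbas1 h1
  generalize hb' : (dX H + dY H) * B - dX H * dY H = b' at hbas2 h1
  obtain ⟨ρ, hρ, hρi⟩ := hbas1
  obtain ⟨σ, hσ, hσi⟩ := hbas2
  set a' : Fin K → k := fun j => a j ^ p ^ n with ha'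
  obtain ⟨R', hR'⟩ : ∃ R', R = R' + 1 := ⟨R - 1, by omega⟩
  obtain ⟨B', hB'⟩ : ∃ B', B = B' + 1 := ⟨B - 1, by omega⟩
  -- the family
  set P : Finset (Fin K) × Fin r × Fin b' → k[X][X] := fun x =>
    ρ x.2.1 ^ (p ^ μ) * UV a a' x.1 ^ c * tw p n (σ x.2.2) with hP
  have hPm : ∀ x, P x ∈ Bi k (p ^ μ * R + K * c + B) (p ^ μ * R + K * c + B) := by
    intro x
    have e1 : ρ x.2.1 ^ (p ^ μ) ∈ Bi k (p ^ μ * R' + 1) (p ^ μ * R' + 1) := by
      refine Bi_pow ?_ _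
      rw [← hR']; exact hρ _
    have e2 : UV a a' x.1 ^ c ∈ Bi k (c * K + 1) (c * K + 1) := Bi_pow (Bi_UV a a' x.1) c
    have e3 : tw p n (σ x.2.2) ∈ Bi k (B' + 1) (B' + 1) := by
      refine tw_mem n ?_
      rw [← hB']; exact hσ _
    have e4 := Bi_mul (Bi_mul e1 e2) e3
    have hle : p ^ μ * R' + c * K + B' + 1 ≤ p ^ μ * R + K * c + B := by
      have h3 : p ^ μ * R = p ^ μ * R' + p ^ μ := by rw [hR']; ring
      have h4 : c * K = K * c := by ring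
      omega
    exact Bi_mono hle hle e4
  have hcard : (dX H + dY H) * (p ^ μ * R + K * c + B) <
      Fintype.card (Finset (Fin K) × Fin r × Fin b') := by
    simpa using h1
  obtain ⟨lam, hlam, hdiv⟩ := pig hH0 P hPm hcard
  obtain ⟨e, he⟩ := hdvd
  obtain ⟨Ψ, hΨm, hΨ⟩ := ste_psi (p := p) (μ := μ) (n := n) a a' hR0 hB0 hμ he ρ hρ σ hσ lam
  have hnd : ¬ H ∣ Ψ := by
    intro hd
    apply hlam
    refine nonvan hK hK1 (μ := μ) (n := n) (M1 := M1) (c := c) (R := R) hM1 ρ hρ hρi σ hσi h2 lam ?_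
    rw [← hΨ]
    exact dvd_pow hd (pow_pos hp.pos _).ne'
  have hzero : ∀ x ∈ C, pt x (x ^ p ^ n) Ψ = 0 := by
    intro x hx
    have h3 : pt x (x ^ p ^ n) Ψ ^ (p ^ μ) = 0 := by
      have h4 : pt x (x ^ p ^ n) Ψ ^ (p ^ μ) = pt x (x ^ p ^ n) (Ψ ^ (p ^ μ)) := by
        simp only [pt]
        simp [evalEval_pow]
      rw [h4, hΨ, ste_van a ρ σ lam (hfix x hx) (hrel x hx)]
      have h5 : pt x (x ^ p ^ n) (∑ y : Finset (Fin K) × Fin r × Fin b',
          lam y • (ρ y.2.1 ^ (p ^ μ) * UV a (fun j => a j ^ p ^ n) y.1 ^ c *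
            tw p n (σ y.2.2))) = 0 := by
        obtain ⟨Q, hQ⟩ := hdiv
        have h6 : (∑ y : Finset (Fin K) × Fin r × Fin b',
          lam y • (ρ y.2.1 ^ (p ^ μ) * UV a (fun j => a j ^ p ^ n) y.1 ^ c *
            tw p n (σ y.2.2))) = H * Q := hQ
        rw [h6]
        have h7 : pt x (x ^ p ^ n) (H * Q) = pt x (x ^ p ^ n) H * pt x (x ^ p ^ n) Q := by
          simp only [pt]
          simp [evalEval_mul]
        rw [h7, hH x hx, zero_mul]
      rw [h5, mul_zero]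
    exact pow_eq_zero_iff (pow_pos hp.pos _).ne' |>.mp h3
  have hbez := bez_frob hK.irr hΨm hnd (p ^ n) C hH hzero
  calc C.card * p ^ μ ≤ (dX H + dY H) * (R + K * e + (B - 1) * p ^ (n - μ)) * p ^ μ :=
        Nat.mul_le_mul_right _ hbez
    _ = (dX H + dY H) * (p ^ μ * R + K * (p ^ μ * e) + (B - 1) * (p ^ (n - μ) * p ^ μ)) := by ring
    _ = (dX H + dY H) * (p ^ μ * R + K * (M1 + c) + (B - 1) * p ^ n) := by
        rw [← he, ← pow_add, Nat.sub_add_cancel hμ]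
    _ ≤ (dX H + dY H) * (p ^ μ * R + K * (M1 + c) + B * p ^ n) := by
        gcongr
        omega

end GPC
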