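import Pool.Agent.Lib.MP_56e792_co.S.Defs
import Pool.Agent.Lib.MP_56e792_co.S.Ste
import Pool.Agent.Lib.MP_56e792_co.S.PaC

/-!
# MP_56e792_co, all prime powers, module PrC

Maximum of the `n1` of `parC` over `1 ≤ α, β ≤ A0`, then `stepanov`.
-/

set_option autoImplicit false
set_option linter.unusedVariables false

namespace GPC

open Polynomial
open Pool.Agent.Lib.MP_56e792_co (J mem_J GP)

theorem propC (p l K A0 : ℕ) (hp : p.Prime) (hl : l.Prime) (hK : 1 ≤ K) (ε : ℝ) (hε : 0 < ε) :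
    ∃ n1 : ℕ, ∀ n ≥ n1, ∀ M1 : ℕ, l * M1 = p ^ n + 1 →
      ∀ (k : Type) [Field k] [IsAlgClosed k] [CharP k p] (H : k[X][X]) (a b : Fin K → k),
        Kum H l K a (fun j => a j ^ p ^ n) b → 1 ≤ dX H → 1 ≤ dY H → dX H ≤ A0 → dY H ≤ A0 →
        ∀ C : Finset k, (∀ c ∈ C, (c ^ p ^ n) ^ p ^ n = c) → (∀ c ∈ C, pt c (c ^ p ^ n) H = 0) →
          (∀ c ∈ C, ∀ j, (c ^ p ^ n - a j ^ p ^ n) ^ M1 = (c - a j) ^ M1) →
          (C.card : ℝ) ≤ (1 / 2 ^ K + ε) * (p : ℝ) ^ n := by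
  have key : ∀ x : ℕ × ℕ, ∃ n1 : ℕ, 1 ≤ x.1 → 1 ≤ x.2 →
      ∀ n ≥ n1, ∀ M1 : ℕ, l * M1 = p ^ n + 1 → ∃ μ c R B : ℕ, μ ≤ n ∧
      p ^ μ ∣ M1 + c ∧ x.1 ≤ R ∧ x.2 ≤ R ∧ x.1 ≤ B ∧ x.2 ≤ B ∧
      (x.1 + x.2) * (p ^ μ * R + K * c + B) <
        2 ^ K * (((x.1 + x.2) * R - x.1 * x.2) * ((x.1 + x.2) * B - x.1 * x.2)) ∧
      l ^ K * ((x.1 + x.2) * (p ^ μ * R + K * c + K + K * l)) < p ^ n ∧
      (((x.1 + x.2) * (p ^ μ * R + K * (M1 + c) + B * p ^ n) : ℕ) : ℝ) ≤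
        (1 / 2 ^ K + ε) * (p : ℝ) ^ n * (p : ℝ) ^ μ := by
    intro x
    by_cases h : 1 ≤ x.1 ∧ 1 ≤ x.2
    · obtain ⟨n1, h1⟩ := parC p l K x.1 x.2 hp hl hK h.1 h.2 ε hε
      exact ⟨n1, fun _ _ => h1⟩
    · exact ⟨0, fun h1 h2 => absurd ⟨h1, h2⟩ h⟩
  choose f hf using key
  refine ⟨(Finset.range (A0 + 1) ×ˢ Finset.range (A0 + 1)).sup f, ?_⟩
  intro n hn M1 hM1 k _ _ _ H a b hKum hX hY hXA hYA C hfix hH hrel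
  have hmem : ((dX H, dY H) : ℕ × ℕ) ∈ Finset.range (A0 + 1) ×ˢ Finset.range (A0 + 1) := by
    rw [Finset.mem_product, Finset.mem_range, Finset.mem_range]
    exact ⟨Nat.lt_succ_of_le hXA, Nat.lt_succ_of_le hYA⟩
  have hle : f (dX H, dY H) ≤ n := (Finset.le_sup (f := f) hmem).trans hn
  obtain ⟨μ, c, R, B, g1, g2, g3, g4, g5, g6, g7, g8, g9⟩ := hf (dX H, dY H) hX hY n hle M1 hM1
  have : Fact p.Prime := ⟨hp⟩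
  have h1 := stepanov hKum hK hM1 g1 g2 g3 g4 g5 g6 g7 g8 C hfix hH hrel
  have h2 : ((C.card * p ^ μ : ℕ) : ℝ) ≤ (1 / 2 ^ K + ε) * (p : ℝ) ^ n * (p : ℝ) ^ μ :=
    le_trans (by exact_mod_cast h1) g9
  have h3 : (0 : ℝ) < (p : ℝ) ^ μ := pow_pos (by exact_mod_cast hp.pos) _
  push_cast at h2
  exact le_of_mul_le_mul_right h2 h3

end GPC
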