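import Pool.Agent.Lib.MP_56e792_co.S.Defs
import Pool.Agent.Lib.MP_56e792_co.S.Bez
import Pool.Agent.Lib.MP_56e792_co.S.Twi

/-!
# MP_56e792_co, all prime powers, module Sym

`tw p n H` vanishes at the points `(c, c^q)`, `c ∈ C` (`tw_pt`), it lies in `Bi k D D` for `D = dX H + dY H + 1`, so `H ∣ tw p n H` (`bez_frob`, `hbig`); both are irreducible (`tw_irr`), so associated, and `dX H = dX (tw p n H) = dY H` (`tw_dX`).
If `dY H = 0 = dX H` then `H` would be constant, a unit or `0`. `derivative H ≠ 0`: otherwise `H = Hs (X, Y^p)`; `tw p n H` is associated to `H` (a constant times `H`), so the derivative of `H` with respect to the inner variable is `0` too: all exponents of `H` are multiples of `p` in both variables,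
coefficients are `p`-th powers (perfect field), so `H` is a `p`-th power: not irreducible.
-/

set_option autoImplicit false
set_option linter.unusedVariables false

namespace GPC

open Polynomial
open Pool.Agent.Lib.MP_56e792_co (J mem_J GP)

private theorem sym_tw_coeff {k : Type} [Field k] {p : ℕ} [Fact p.Prime] [CharP k p] (n : ℕ) (G : k[X][X]) (i j : ℕ) :
    ((tw p n G).coeff i).coeff j = ((G.coeff j).coeff i) ^ p ^ n := by
  unfold tw
  rw [swap_coeff, coeff_map, coe_mapRingHom, coeff_map, iterateFrobenius_def]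

/-- a polynomial with zero derivative over a perfect field is a `p`-th power -/
private theorem sym_root {k : Type} [Field k] [IsAlgClosed k] {p : ℕ} [Fact p.Prime] [CharP k p] {g : k[X]}
    (hg : derivative g = 0) : ∃ g' : k[X], g' ^ p = g := by
  have hp : p ≠ 0 := (Fact.out : p.Prime).ne_zero
  have h1 : ∃ f : k[X], f.map (frobenius k p) = contract p g := by
    have h2 : contract p g ∈ (mapRingHom (frobenius k p)).range := by
      rw [mem_map_range]
      intro m
      obtain ⟨z, hz⟩ := IsAlgClosed.exists_pow_nat_eq ((contract p g).coeff m) (Nat.pos_of_ne_zero hp)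
      exact ⟨z, by rw [frobenius_def, hz]⟩
    obtain ⟨f, hf⟩ := h2
    exact ⟨f, hf⟩
  obtain ⟨f, hf⟩ := h1
  refine ⟨f, ?_⟩
  rw [← map_frobenius_expand, map_expand, hf, expand_contract p hg hp]

private theorem sym_root2 {k : Type} [Field k] [IsAlgClosed k] {p : ℕ} [Fact p.Prime] [CharP k p] {H : k[X][X]}
    (hH : derivative H = 0) (h : ∀ j, derivative (H.coeff j) = 0) : ∃ G : k[X][X], G ^ p = H := by
  have hp : p ≠ 0 := (Fact.out : p.Prime).ne_zero
  have h1 : ∃ f : k[X][X], f.map (frobenius k[X] p) = contract p H := by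
    have h2 : contract p H ∈ (mapRingHom (frobenius k[X] p)).range := by
      rw [mem_map_range]
      intro m
      rw [coeff_contract hp]
      obtain ⟨z, hz⟩ := sym_root (p := p) (h (m * p))
      exact ⟨z, by rw [frobenius_def, hz]⟩
    obtain ⟨f, hf⟩ := h2
    exact ⟨f, hf⟩
  obtain ⟨f, hf⟩ := h1
  refine ⟨f, ?_⟩
  rw [← map_frobenius_expand, map_expand, hf, expand_contract p hH hp]

/-- exponents of a polynomial with zero derivative -/
private theorem sym_dvd {R : Type} [CommRing R] [IsDomain R] {p : ℕ} [Fact p.Prime] [CharP R p] {f : R[X]}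
    (hf : derivative f = 0) {j : ℕ} (hj : f.coeff j ≠ 0) : p ∣ j := by
  by_contra hc
  have h1 : j ≠ 0 := fun h => hc (h ▸ dvd_zero p)
  obtain ⟨i, rfl⟩ := Nat.exists_eq_succ_of_ne_zero h1
  have h2 := congrArg (fun g => g.coeff i) hf
  simp only [coeff_derivative, coeff_zero] at h2
  have h3 : ((i : R) + 1) ≠ 0 := by
    intro h4
    have h5 : ((i.succ : ℕ) : R) = 0 := by push_cast; exact h4
    exact hc ((CharP.cast_eq_zero_iff R p _).1 h5)
  exact (mul_ne_zero hj h3) h2

theorem symm {k : Type} [Field k] [IsAlgClosed k] {p : ℕ} [Fact p.Prime] [CharP k p] {n : ℕ}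
    {H : k[X][X]} (hH : Irreducible H) (C : Finset k) (hfix : ∀ c ∈ C, (c ^ p ^ n) ^ p ^ n = c)
    (hC : ∀ c ∈ C, pt c (c ^ p ^ n) H = 0)
    (hbig : (dX H + dY H) * (dX H + dY H + 1) < C.card) :
    dX H = dY H ∧ 1 ≤ dY H ∧ derivative H ≠ 0 := by
  have hpp : p.Prime := Fact.out
  have hq : p ^ n ≠ 0 := pow_ne_zero _ hpp.ne_zero
  have : PerfectRing k p := PerfectField.toPerfectRing p
  have hH0 : H ≠ 0 := hH.ne_zero
  have h1 : H ∈ Bi k (dX H + dY H + 1) (dX H + dY H + 1) :=
    mem_Bi.2 (Or.inr ⟨by omega, by omega⟩)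
  have h2 := tw_mem (p := p) n h1
  have h3 : H ∣ tw p n H := by
    by_contra hc
    have := bez_frob hH h2 hc (p ^ n) C hC fun c hc' => by
      rw [tw_pt n H (hfix c hc'), hC c hc', zero_pow hq]
    omega
  have h4 : Irreducible (tw p n H) := tw_irr n hH
  obtain ⟨u, hu⟩ := (h4.dvd_iff.1 h3).resolve_left hH.not_isUnit
  -- `tw H * u = H`
  obtain ⟨c1, hc1, hc2⟩ := Polynomial.isUnit_iff.1 u.isUnit
  obtain ⟨c, hc3, hc4⟩ := Polynomial.isUnit_iff.1 hc1
  have hc0 : c ≠ 0 := hc3.ne_zero
  have hu2 : H = tw p n H * Polynomial.C (Polynomial.C c) := by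
    rw [hc4, hc2, hu]
  have hco : ∀ i j, (H.coeff i).coeff j = ((H.coeff j).coeff i) ^ p ^ n * c := by
    intro i j
    conv_lhs => rw [hu2]
    rw [coeff_mul_C, coeff_mul_C, sym_tw_coeff]
  have hsym : ∀ i j, (H.coeff i).coeff j ≠ 0 → (H.coeff j).coeff i ≠ 0 := by
    intro i j h h'
    refine h ?_
    rw [hco i j, h', zero_pow hq, zero_mul]
  have hdd : dX H = dY H := by
    have e1 := (tw_dX (p := p) n H).2
    have e2 : dY H = dY (tw p n H) := by
      unfold dY
      conv_lhs => rw [hu2]
      rw [natDegree_mul_C (by rw [Ne, C_eq_zero]; exact hc0)]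
    rw [← e1, ← e2]
  refine ⟨hdd, ?_, ?_⟩
  · by_contra hc5
    have e1 : dY H = 0 := by omega
    have e2 : dX H = 0 := by omega
    have e3 : H ∈ Bi k 1 1 := mem_Bi.2 (Or.inr ⟨by omega, by omega⟩)
    have e4 : H = Polynomial.C (Polynomial.C ((H.coeff 0).coeff 0)) := by
      ext j i
      by_cases h5 : j = 0 ∧ i = 0
      · rw [h5.1, h5.2]
        simp
      · have h6 : (H.coeff j).coeff i = 0 := e3 i j (by omega)
        rw [h6]
        by_cases h7 : j = 0
        · subst h7
          have h8 : i ≠ 0 := fun h => h5 ⟨rfl, h⟩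
          rw [coeff_C_zero, coeff_C, if_neg h8]
        · rw [coeff_C, if_neg h7, coeff_zero]
    have e5 : (H.coeff 0).coeff 0 ≠ 0 := by
      intro h5
      rw [h5] at e4
      exact hH0 (by rw [e4]; simp)
    refine hH.not_isUnit ?_
    rw [e4]
    exact (isUnit_C.2 (isUnit_C.2 (isUnit_iff_ne_zero.2 e5)))
  · intro hd
    have e1 : ∀ i j, (H.coeff j).coeff i ≠ 0 → p ∣ i := by
      intro i j h5
      have h6 := hsym j i h5
      exact sym_dvd (p := p) hd (fun h7 => h6 (by rw [h7, coeff_zero]))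
    have e2 : ∀ j, derivative (H.coeff j) = 0 := by
      intro j
      ext i
      rw [coeff_derivative, coeff_zero]
      by_cases h5 : (H.coeff j).coeff (i + 1) = 0
      · rw [h5, zero_mul]
      · have h6 := e1 _ _ h5
        have h7 : (((i + 1 : ℕ)) : k) = 0 := (CharP.cast_eq_zero_iff k p _).2 h6
        push_cast at h7
        rw [h7, mul_zero]
    obtain ⟨G, hG⟩ := sym_root2 (p := p) hd e2
    rw [← hG] at hH
    exact not_irreducible_pow hpp.one_lt.ne' hH

end GPC
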