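import Pool.Agent.Lib.MP_56e792_co.S.Defs
import Pool.Agent.Lib.MP_56e792_co.S.PrC
import Pool.Agent.Lib.MP_56e792_co.S.Sym
import Pool.Agent.Lib.MP_56e792_co.S.Goo
import Pool.Agent.Lib.MP_56e792_co.S.Pic

/-!
# MP_56e792_co, all prime powers, module Apc

`l := d.minFac` (prime, `l ∣ d`, `l ≠ p` as `l ∣ p^n + 1`, `n ≥ 1`), `K ≥ 1` with `1/2^K ≤ γ/4`, `ε = γ/4`, `n1` from `propC p l K A0`. `M1 := m * (d/l)`: `l * M1 = p^n + 1` and the relations of `Clq` give `(c^q - a^q)^M1 = (c - a)^M1`. Take `n2` with `n2 ≥ n1, 1` and `γ p^n > (A0+1)^2 + (A0+1)(A0+2) + K (A0+2)` for `n ≥ n2`, `K0 := K * 3 + 2`.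
`C1 := C.filter (H = 0)`, `γ p^n ≤ C1.card`: `symm` gives `α = β ≥ 1`, `H_Y ≠ 0`. If `β ≥ 2`: `good_high` for `C1`, `pick` from the good points of `C1`, `propC` for `C1`: `C1.card ≤ (γ/2) p^n`, contradiction. So `α = β = 1`. If `C2 := C.filter (H ≠ 0)` had more than `K0` points: `good_one`, `pick` from the good points of `C2`, `propC` for `C1`: contradiction.
-/

set_option autoImplicit false
set_option linter.unusedVariables false

namespace GPC

open Polynomial
open Pool.Agent.Lib.MP_56e792_co (J mem_J GP)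

open Classical in
theorem appC (p d A0 : ℕ) (hp : p.Prime) (hd : 2 ≤ d) (γ : ℝ) (hγ : 0 < γ) :
    ∃ n2 K0 : ℕ, ∀ n ≥ n2, ∀ m : ℕ, m * d = p ^ n + 1 →
      ∀ (k : Type) [Field k] [IsAlgClosed k] [CharP k p] (C : Finset k), Clq (p ^ n) m C →
        ∀ H : k[X][X], Irreducible H → dX H + dY H ≤ A0 →
          γ * (p : ℝ) ^ n ≤ ((C.filter (fun c => pt c (c ^ p ^ n) H = 0)).card : ℝ) →
          dX H = 1 ∧ dY H = 1 ∧ (C.filter (fun c => pt c (c ^ p ^ n) H ≠ 0)).card ≤ K0 := by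
  set l := d.minFac with hl
  have hlp : l.Prime := Nat.minFac_prime (by omega)
  have hld : l ∣ d := Nat.minFac_dvd d
  obtain ⟨K', hK'⟩ := exists_pow_lt_of_lt_one (show 0 < γ / 4 by positivity) (show (1 / 2 : ℝ) < 1 by norm_num)
  set K := K' + 1 with hK
  have hKγ : (1 : ℝ) / 2 ^ K ≤ γ / 4 := by
    have h1 : (1 : ℝ) / 2 ^ K = (1 / 2) ^ K := by rw [div_pow, one_pow]
    have h2 : (1 / 2 : ℝ) ^ K ≤ (1 / 2) ^ K' := pow_le_pow_of_le_one (by norm_num) (by norm_num) (by omega)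
    rw [h1]
    exact h2.trans hK'.le
  obtain ⟨n1, hn1⟩ := propC p l K A0 hp hlp (by omega) (γ / 4) (by positivity)
  set B : ℕ := (A0 + 1) ^ 2 + (A0 + 1) * (A0 + 2) + K * (A0 + 2) with hB
  obtain ⟨N, hN⟩ := exists_nat_gt ((B : ℝ) / γ)
  refine ⟨max (max n1 1) N, K * 3 + 2, ?_⟩
  intro n hn m hm k _ _ _ C hC H hH hA hcard
  haveI : Fact p.Prime := ⟨hp⟩
  have hnn1 : n ≥ n1 := ((le_max_left _ _).trans (le_max_left _ _)).trans hn
  have hn1' : 1 ≤ n := ((le_max_right _ _).trans (le_max_left _ _)).trans hn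
  have hnN : N ≤ n := (le_max_right _ _).trans hn
  -- the size of `p ^ n`
  have hpn : (n : ℝ) < (p : ℝ) ^ n := by
    have h1 : n < p ^ n := (Nat.lt_two_pow_self).trans_le (Nat.pow_le_pow_left hp.two_le n)
    exact_mod_cast h1
  have hBq : (B : ℝ) < γ * (p : ℝ) ^ n := by
    rw [div_lt_iff₀ hγ] at hN
    have h1 : (N : ℝ) ≤ n := by exact_mod_cast hnN
    calc (B : ℝ) < N * γ := hN
      _ ≤ (p : ℝ) ^ n * γ := mul_le_mul_of_nonneg_right (h1.trans hpn.le) hγ.le
      _ = γ * (p : ℝ) ^ n := mul_comm _ _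
  -- the prime `l`
  set M1 := m * (d / l) with hM1
  have hlM : l * M1 = p ^ n + 1 := by
    rw [← hm, hM1]
    calc l * (m * (d / l)) = m * (l * (d / l)) := by ring
      _ = m * d := by rw [Nat.mul_div_cancel' hld]
  have hlk : (l : k) ≠ 0 := by
    intro h0
    rw [CharP.cast_eq_zero_iff k p l] at h0
    have h1 : p ∣ p ^ n + 1 := by
      rw [← hlM]
      exact h0.mul_right M1
    have h2 : p ∣ p ^ n := dvd_pow_self p (by omega)
    have h3 : p ∣ 1 := (Nat.dvd_add_right h2).1 h1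
    exact hp.one_lt.ne' (Nat.dvd_one.1 h3)
  have hrel : ∀ c ∈ C, ∀ a ∈ C, (c ^ p ^ n - a ^ p ^ n) ^ M1 = (c - a) ^ M1 := by
    intro c hc a ha
    rw [hM1, pow_mul, pow_mul, hC.rel c hc a ha]
  set C1 := C.filter (fun c => pt c (c ^ p ^ n) H = 0) with hC1
  set C2 := C.filter (fun c => pt c (c ^ p ^ n) H ≠ 0) with hC2
  have hfix1 : ∀ c ∈ C1, (c ^ p ^ n) ^ p ^ n = c := fun c hc => hC.fix c (Finset.mem_filter.1 hc).1
  have hz1 : ∀ c ∈ C1, pt c (c ^ p ^ n) H = 0 := fun c hc => (Finset.mem_filter.1 hc).2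
  have hBC : B < C1.card := by
    have : (B : ℝ) < C1.card := hBq.trans_le hcard
    exact_mod_cast this
  have hbig : (dX H + dY H) * (dX H + dY H + 1) < C1.card := by
    have h1 : (dX H + dY H) * (dX H + dY H + 1) ≤ (A0 + 1) * (A0 + 2) := Nat.mul_le_mul (by omega) (by omega)
    omega
  obtain ⟨hs1, hs2, hs3⟩ := symm hH C1 hfix1 hz1 hbig
  -- the contradiction from many good points
  have key : ∀ Gd : Finset k, (∀ a ∈ Gd, a ∈ C) → (∀ a ∈ Gd, Good (p ^ n) H a) → K * (dX H + 2) < Gd.card → False := by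
    intro Gd hGC hG hGc
    obtain ⟨a, b, ha, hKum⟩ := pick hlp hlk hH (by omega) Gd hG hGc
    have h1 := hn1 n hnn1 M1 hlM k H a b hKum (by omega) hs2 (by omega) (by omega) C1 hfix1 hz1
      (fun c hc j => hrel c (Finset.mem_filter.1 hc).1 (a j) (hGC _ (ha j)))
    have hq0 : (0 : ℝ) < (p : ℝ) ^ n := by
      have : (0 : ℝ) < p := by exact_mod_cast hp.pos
      positivity
    have h2 : (1 / 2 ^ K + γ / 4) * (p : ℝ) ^ n ≤ (γ / 4 + γ / 4) * (p : ℝ) ^ n :=
      mul_le_mul_of_nonneg_right (by linarith) hq0.le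
    have h3 : 0 < γ * (p : ℝ) ^ n := by positivity
    have h4 : (γ / 4 + γ / 4) * (p : ℝ) ^ n = γ * (p : ℝ) ^ n / 2 := by ring
    linarith
  have hβ : dY H = 1 := by
    by_contra hne
    have h2 : 2 ≤ dY H := by omega
    have hgood := good_high hH h2 hs3 (p ^ n) C1
    refine key (C1.filter (fun a => Good (p ^ n) H a)) (fun a ha => ?_) (fun a ha => (Finset.mem_filter.1 ha).2) ?_
    · exact (Finset.mem_filter.1 (Finset.mem_filter.1 ha).1).1
    · have h3 := Finset.card_filter_add_card_filter_not (s := C1) (fun a => Good (p ^ n) H a)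
      have h4 : (dX H + dY H + 1) ^ 2 ≤ (A0 + 1) ^ 2 := Nat.pow_le_pow_left (by omega) 2
      have h5 : K * (dX H + 2) ≤ K * (A0 + 2) := Nat.mul_le_mul_left K (by omega)
      have h6 : 0 < (A0 + 1) * (A0 + 2) := by positivity
      omega
  refine ⟨by omega, hβ, ?_⟩
  by_contra hlt
  have hgood := good_one (H := H) (by omega) hβ (p ^ n) C2 (fun a ha => (Finset.mem_filter.1 ha).2)
  refine key (C2.filter (fun a => Good (p ^ n) H a)) (fun a ha => ?_) (fun a ha => (Finset.mem_filter.1 ha).2) ?_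
  · exact (Finset.mem_filter.1 (Finset.mem_filter.1 ha).1).1
  · have h3 := Finset.card_filter_add_card_filter_not (s := C2) (fun a => Good (p ^ n) H a)
    have h4 : dX H = 1 := by omega
    rw [h4]
    omega

end GPC
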