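import Pool.Agent.Lib.MP_56e792_co.S.Defs
import Pool.Agent.Lib.MP_56e792_co.S.BiA

/-!
# MP_56e792_co, all prime powers, module BiP

`Bi k D E` is the span of the monomials `C (X^a) * X^b`, `a < D`, `b < E`; `aevalAeval x y` sends it to `x^a y^b`.
-/

set_option autoImplicit false
set_option linter.unusedVariables false

namespace GPC

open Polynomial
open Pool.Agent.Lib.MP_56e792_co (J mem_J GP)

private theorem bip_coeff {k : Type} [Field k] (a b i j : ℕ) :
    ((C (X ^ a) * X ^ b : k[X][X]).coeff j).coeff i = if j = b ∧ i = a then 1 else 0 := by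
  rw [coeff_C_mul_X_pow]
  by_cases h : j = b
  · rw [if_pos h, coeff_X_pow]
    by_cases h' : i = a
    · rw [if_pos h', if_pos ⟨h, h'⟩]
    · rw [if_neg h', if_neg (fun h'' => h' h''.2)]
  · rw [if_neg h, coeff_zero, if_neg (fun h'' => h h''.1)]

theorem Bi_span {k : Type} [Field k] (D E : ℕ) :
    Bi k D E = Submodule.span k {z | ∃ a b, a < D ∧ b < E ∧ z = C (X ^ a) * X ^ b} := by
  apply le_antisymm
  · intro G hG
    have h1 : G = ∑ b ∈ Finset.range E, ∑ a ∈ Finset.range D,
        ((G.coeff b).coeff a) • (C (X ^ a) * X ^ b : k[X][X]) := by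
      ext j i
      rw [finsetSum_coeff, finsetSum_coeff]
      have h2 : ∀ b ∈ Finset.range E, ((∑ a ∈ Finset.range D,
          ((G.coeff b).coeff a) • (C (X ^ a) * X ^ b : k[X][X])).coeff j).coeff i =
          if j = b then (if i < D then (G.coeff j).coeff i else 0) else 0 := by
        intro b _
        rw [finsetSum_coeff, finsetSum_coeff]
        have h3 : ∀ a ∈ Finset.range D, ((((G.coeff b).coeff a) • (C (X ^ a) * X ^ b : k[X][X])).coeff j).coeff i =
            if i = a then (if j = b then (G.coeff j).coeff i else 0) else 0 := by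
          intro a _
          rw [coeff_smul, coeff_smul, bip_coeff, smul_eq_mul]
          by_cases h : j = b
          · by_cases h' : i = a
            · rw [if_pos ⟨h, h'⟩, if_pos h', if_pos h, h, h', mul_one]
            · rw [if_neg (fun h'' => h' h''.2), if_neg h', mul_zero]
          · rw [if_neg (fun h'' => h h''.1), mul_zero, if_neg h]
            split_ifs <;> rfl
        rw [Finset.sum_congr rfl h3, Finset.sum_ite_eq]
        by_cases h : j = b
        · simp only [if_pos h, Finset.mem_range]
        · simp only [if_neg h, ite_self]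
      rw [Finset.sum_congr rfl h2, Finset.sum_ite_eq]
      by_cases h : j ∈ Finset.range E
      · rw [if_pos h]
        by_cases h' : i < D
        · rw [if_pos h']
        · rw [if_neg h']
          exact hG i j (Or.inl (not_lt.1 h'))
      · rw [if_neg h]
        rw [Finset.mem_range, not_lt] at h
        exact hG i j (Or.inr h)
    rw [h1]
    refine Submodule.sum_mem _ fun b hb => Submodule.sum_mem _ fun a ha => Submodule.smul_mem _ _ ?_
    exact Submodule.subset_span ⟨a, b, Finset.mem_range.1 ha, Finset.mem_range.1 hb, rfl⟩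
  · rw [Submodule.span_le]
    rintro z ⟨a, b, ha, hb, rfl⟩ i j hij
    rw [bip_coeff, if_neg]
    rintro ⟨rfl, rfl⟩
    omega

theorem Bi_map {k A : Type} [Field k] [CommRing A] [Algebra k A] (x y : A) (D E : ℕ) :
    (Bi k D E).map (aevalAeval x y : k[X][X] →ₐ[k] A).toLinearMap =
      Submodule.span k {z | ∃ a b, a < D ∧ b < E ∧ z = x ^ a * y ^ b} := by
  rw [Bi_span, Submodule.map_span]
  congr 1
  have hv : ∀ a b : ℕ, (aevalAeval x y : k[X][X] →ₐ[k] A).toLinearMap (C (X ^ a) * X ^ b) = x ^ a * y ^ b := by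
    intro a b
    rw [AlgHom.toLinearMap_apply]
    simp
  ext z
  constructor
  · rintro ⟨w, ⟨a, b, ha, hb, rfl⟩, rfl⟩
    exact ⟨a, b, ha, hb, hv a b⟩
  · rintro ⟨a, b, ha, hb, rfl⟩
    exact ⟨C (X ^ a) * X ^ b, ⟨a, b, ha, hb, rfl⟩, hv a b⟩

end GPC
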