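import Pool.Agent.Lib.MP_56e792_co.S.Defs2

/-!
# MP_56e792_co, phase 2 (fixed characteristic), module Pa1

Real analysis only. `M = p^μ` large, fixed (`(d K + 3) / M ≤ ε/2`; note `d m = q + 1`), `B := (M+1)/d^K + 1` (natural division), so `d^K B ≥ M + 1`, `B ≤ (M+1)/d^K + 1`; `c < M` with `M ∣ m + c`; `R := ⌊ε' q⌋`, `ε' = min (ε/8) (1/(8 d^K M))`: `h1`: `d^K R B ≥ (M+1) R > M R + K d c + B` for large `q`, `h2` for large `q`;
the last inequality: divide by `M q`: `R/q + K d (m+c)/(M q) + B/M ≤ 1/d^K + ε`.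
-/

set_option autoImplicit false
set_option linter.unusedVariables false

namespace GPC

open Polynomial
open Pool.Agent.Lib.MP_56e792_co (J mem_J GP)

theorem parU (p d K : ℕ) (hp : p.Prime) (hd : 2 ≤ d) (ε : ℝ) (hε : 0 < ε) :
    ∃ n1 : ℕ, ∀ n ≥ n1, ∀ m : ℕ, d * m = p ^ n + 1 → ∃ μ c R B : ℕ, μ ≤ n ∧ p ^ μ ∣ m + c ∧
      p ^ μ * R + K * d * c + B < d ^ K * (R * B) ∧
      d ^ K * (p ^ μ * R + K * d * c + K * d + K * d) < p ^ n ∧
      ((p ^ μ * R + K * d * (m + c) + B * p ^ n : ℕ) : ℝ) ≤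
        (1 / (d : ℝ) ^ K + ε) * (p : ℝ) ^ n * (p : ℝ) ^ μ := by
  have hp1 : (1 : ℝ) < (p : ℝ) := by exact_mod_cast hp.one_lt
  obtain ⟨μ, hμ⟩ := pow_unbounded_of_one_lt (4 * (2 + 2 * K : ℝ) / ε) hp1
  obtain ⟨M, hM⟩ : ∃ M, M = p ^ μ := ⟨_, rfl⟩
  have hM0 : 0 < M := by rw [hM]; exact pow_pos hp.pos _
  have hMr : (M : ℝ) = (p : ℝ) ^ μ := by rw [hM]; push_cast; rfl
  rw [← hMr, div_lt_iff₀ hε] at hμ
  have hD0 : 0 < d ^ K := pow_pos (by omega) _
  obtain ⟨B, hB⟩ : ∃ B, B = (M + 1) / d ^ K + 1 := ⟨_, rfl⟩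
  have hB1 : M + 1 ≤ d ^ K * B := by
    have h1 : M + 1 < d ^ K * ((M + 1) / d ^ K + 1) := Nat.lt_mul_div_succ _ hD0
    rw [hB]
    exact h1.le
  have hB2 : d ^ K * B ≤ (M + 1) + d ^ K := by
    have h1 : d ^ K * ((M + 1) / d ^ K) ≤ M + 1 := Nat.mul_div_le _ _
    calc d ^ K * B = d ^ K * ((M + 1) / d ^ K) + d ^ K := by rw [hB]; ring
      _ ≤ (M + 1) + d ^ K := Nat.add_le_add_right h1 _
  obtain ⟨R0, hR0⟩ : ∃ R0, R0 = K * d * M + B + 1 := ⟨_, rfl⟩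
  have hMr0 : (0 : ℝ) < (M : ℝ) := by exact_mod_cast hM0
  have hdr : (0 : ℝ) < (d : ℝ) := by exact_mod_cast (show 0 < d by omega)
  have hlr : (0 : ℝ) < (d : ℝ) ^ K := by positivity
  obtain ⟨ε', hε'⟩ : ∃ e : ℝ, e = min (ε / 4) (1 / (4 * ((d : ℝ) ^ K * M))) := ⟨_, rfl⟩
  have hε'0 : 0 < ε' := by rw [hε']; positivity
  obtain ⟨N1, hN1⟩ := exists_nat_ge ((R0 + 1 : ℝ) / ε')
  obtain ⟨N2, hN2⟩ := exists_nat_ge (4 * ((K : ℝ) * d) / ε)
  refine ⟨μ + N1 + N2 + 2 * (d ^ K * (K * d * M + K * d + K * d)) + 1, fun n hn m hm => ?_⟩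
  have hnq : n < p ^ n := Nat.lt_pow_self hp.one_lt
  obtain ⟨q, hq⟩ : ∃ q, q = p ^ n := ⟨_, rfl⟩
  have hqr : (q : ℝ) = (p : ℝ) ^ n := by rw [hq]; push_cast; rfl
  rw [← hq] at hnq hm
  have hq0 : (0 : ℝ) < (q : ℝ) := by exact_mod_cast (show 0 < q by omega)
  obtain ⟨c, hc⟩ : ∃ c, c = M - m % M := ⟨_, rfl⟩
  have hcM : c ≤ M := by rw [hc]; exact Nat.sub_le _ _
  have hdvd : M ∣ m + c := by
    refine ⟨m / M + 1, ?_⟩
    have h1 := Nat.div_add_mod m M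
    have h2 := Nat.mod_lt m hM0
    have h3 : M * (m / M + 1) = M * (m / M) + M := by ring
    omega
  obtain ⟨R, hR⟩ : ∃ R, R = ⌊ε' * q⌋₊ := ⟨_, rfl⟩
  have hR1 : (R : ℝ) ≤ ε' * q := by rw [hR]; exact Nat.floor_le (by positivity)
  have hR2 : R0 ≤ R := by
    rw [hR]
    refine Nat.le_floor ?_
    have h1 : (N1 : ℝ) ≤ (q : ℝ) := by exact_mod_cast (show N1 ≤ q by omega)
    have h2 : (R0 + 1 : ℝ) / ε' ≤ q := hN1.trans h1
    rw [div_le_iff₀ hε'0] at h2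
    linarith
  have hKc : K * d * c ≤ K * d * M := Nat.mul_le_mul_left _ hcM
  refine ⟨μ, c, R, B, by omega, ?_, ?_, ?_, ?_⟩
  · rw [← hM]; exact hdvd
  · rw [← hM]
    have h1 : R * (M + 1) ≤ d ^ K * (R * B) := by
      calc R * (M + 1) ≤ R * (d ^ K * B) := Nat.mul_le_mul_left _ hB1
        _ = d ^ K * (R * B) := by ring
    refine lt_of_lt_of_le ?_ h1
    have h2 : R * (M + 1) = M * R + R := by ring
    omega
  · rw [← hM, ← hq]
    have h1 : ((d ^ K * (M * R + K * d * c + K * d + K * d) : ℕ) : ℝ) < (q : ℝ) := by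
      have h2 : d ^ K * (M * R + K * d * c + K * d + K * d) ≤
          d ^ K * (M * R) + d ^ K * (K * d * M + K * d + K * d) := by
        calc d ^ K * (M * R + K * d * c + K * d + K * d)
            ≤ d ^ K * (M * R + K * d * M + K * d + K * d) := by
              refine Nat.mul_le_mul_left _ ?_
              omega
          _ = _ := by ring
      have h3 : ((d ^ K * (M * R) : ℕ) : ℝ) ≤ q / 4 := by
        push_cast
        have h5 : (R : ℝ) ≤ 1 / (4 * ((d : ℝ) ^ K * M)) * q := by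
          refine hR1.trans (mul_le_mul_of_nonneg_right ?_ hq0.le)
          rw [hε']; exact min_le_right _ _
        calc (d : ℝ) ^ K * (M * R) ≤
            (d : ℝ) ^ K * (M * (1 / (4 * ((d : ℝ) ^ K * M)) * q)) := by gcongr
          _ = q / 4 := by field_simp
      have h6 : ((d ^ K * (K * d * M + K * d + K * d) : ℕ) : ℝ) ≤ q / 2 := by
        have h7 : 2 * (d ^ K * (K * d * M + K * d + K * d)) ≤ q := by omega
        have h8 : (2 : ℝ) * ((d ^ K * (K * d * M + K * d + K * d) : ℕ) : ℝ) ≤ q := by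
          exact_mod_cast h7
        linarith
      have h9 : ((d ^ K * (M * R + K * d * c + K * d + K * d) : ℕ) : ℝ) ≤
          ((d ^ K * (M * R) : ℕ) : ℝ) + ((d ^ K * (K * d * M + K * d + K * d) : ℕ) : ℝ) := by
        exact_mod_cast h2
      linarith
    exact_mod_cast h1
  · rw [← hM, ← hq, ← hqr, ← hMr]
    push_cast
    have hMq : (M : ℝ) * ε ≥ 4 * (2 + 2 * K) := by rw [mul_comm] at hμ; rw [mul_comm]; linarith
    have a1 : (M : ℝ) * R ≤ ε / 4 * (q * M) := by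
      have h5 : (R : ℝ) ≤ ε / 4 * q := by
        refine hR1.trans (mul_le_mul_of_nonneg_right ?_ hq0.le)
        rw [hε']; exact min_le_left _ _
      calc (M : ℝ) * R ≤ M * (ε / 4 * q) := by gcongr
        _ = ε / 4 * (q * M) := by ring
    have a2 : (K : ℝ) * d * (m + c) ≤ 2 * K * q + ε / 4 * (q * M) := by
      have h1 : (d : ℝ) * m ≤ 2 * q := by
        have h10 : (d : ℝ) * m = q + 1 := by exact_mod_cast hm
        have h11 : (1 : ℝ) ≤ q := by exact_mod_cast (show 1 ≤ q by omega)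
        linarith
      have h2 : (c : ℝ) ≤ M := by exact_mod_cast hcM
      have h3 : (N2 : ℝ) ≤ q := by exact_mod_cast (show N2 ≤ q by omega)
      have h4 : 4 * ((K : ℝ) * d) / ε ≤ q := hN2.trans h3
      rw [div_le_iff₀ hε] at h4
      have h5 : (K : ℝ) * d * c ≤ ε / 4 * (q * M) := by
        calc (K : ℝ) * d * c ≤ K * d * M := by gcongr
          _ = (4 * (K * d)) * (M / 4) := by ring
          _ ≤ (q * ε) * (M / 4) := by gcongr
          _ = ε / 4 * (q * M) := by ring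
      have h6 : (K : ℝ) * (d * m) ≤ 2 * K * q := by
        calc (K : ℝ) * (d * m) ≤ K * (2 * q) := by gcongr
          _ = 2 * K * q := by ring
      linarith
    have a3 : (B : ℝ) * q ≤ 1 / (d : ℝ) ^ K * (q * M) + 2 * q := by
      have h1 : (d : ℝ) ^ K * B ≤ (M + 1) + (d : ℝ) ^ K := by exact_mod_cast hB2
      have h3 : (B : ℝ) ≤ 1 / (d : ℝ) ^ K * M + (1 / (d : ℝ) ^ K + 1) := by
        have h4 : (B : ℝ) ≤ ((M + 1) + (d : ℝ) ^ K) / (d : ℝ) ^ K := by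
          rw [le_div_iff₀ hlr]; linarith
        calc (B : ℝ) ≤ ((M + 1) + (d : ℝ) ^ K) / (d : ℝ) ^ K := h4
          _ = 1 / (d : ℝ) ^ K * M + (1 / (d : ℝ) ^ K + 1) := by field_simp; ring
      have h5 : (1 : ℝ) / (d : ℝ) ^ K ≤ 1 := by
        rw [div_le_one hlr]
        exact one_le_pow₀ (by exact_mod_cast (show 1 ≤ d by omega))
      calc (B : ℝ) * q ≤ (1 / (d : ℝ) ^ K * M + (1 / (d : ℝ) ^ K + 1)) * q := by gcongr
        _ ≤ (1 / (d : ℝ) ^ K * M + (1 + 1)) * q := by gcongr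
        _ = _ := by ring
    have a4 : 2 * (K : ℝ) * q + 2 * q ≤ ε / 4 * (q * M) := by
      calc 2 * (K : ℝ) * q + 2 * q = (4 * (2 + 2 * K)) * (q / 4) := by ring
        _ ≤ (M * ε) * (q / 4) := by gcongr
        _ = ε / 4 * (q * M) := by ring
    have a5 : (0 : ℝ) ≤ ε / 4 * (q * M) := by positivity
    calc (M : ℝ) * R + K * d * (m + c) + B * q
        ≤ 1 / (d : ℝ) ^ K * (q * M) + ε * (q * M) := by linarith
      _ = (1 / (d : ℝ) ^ K + ε) * q * M := by ring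

end GPC
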