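import Pool.Agent.Lib.MP_56e792_co.S.Defs2

/-!
# MP_56e792_co, phase 2 (fixed characteristic), module N1a

Factor by factor: `(x-r)^(e(m+c)) (x-s)^((d-1-e)(m+c)) (x-s)^((d-1)^2 m) = (x-r)^(e c) (x-s)^((d-1-e) c) (w^e (x-s)^(d-1-e))^(q+1)`, because `w^(e(q+1)) = w^(d e m) = ((x-r)(x-s)^(d-1))^(e m)` and `(d-1) e m + (d-1-e) d m = (d-1-e) m + (d-1)^2 m` (natural numbers, `e ≤ d-1`).
-/

set_option autoImplicit false
set_option linter.unusedVariables false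

namespace GPC

open Polynomial
open Pool.Agent.Lib.MP_56e792_co (J mem_J GP)

/-- one factor -/
private theorem n1a_factor {A : Type} [CommRing A] (a b w : A) (d e m q c : ℕ) (he : e ≤ d - 1) (hd : 1 ≤ d)
    (hm : d * m = q + 1) (hw : w ^ d = a * b ^ (d - 1)) :
    a ^ (e * (m + c)) * b ^ ((d - 1 - e) * (m + c)) * b ^ ((d - 1) ^ 2 * m) =
      a ^ (e * c) * b ^ ((d - 1 - e) * c) * (w ^ e * b ^ (d - 1 - e)) * (w ^ e * b ^ (d - 1 - e)) ^ q := by
  obtain ⟨f, hf⟩ : ∃ f, d - 1 - e = f := ⟨_, rfl⟩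
  have hd1 : d - 1 = e + f := by omega
  have hd2 : d = e + f + 1 := by omega
  rw [hf, hd1]
  rw [hd1] at hw
  have h1 : a ^ (e * c) * b ^ (f * c) * (w ^ e * b ^ f) * (w ^ e * b ^ f) ^ q =
      a ^ (e * c) * b ^ (f * c) * (w ^ e * b ^ f) ^ (q + 1) := by
    rw [pow_succ]
    ring
  rw [h1, ← hm]
  have h2 : (w ^ e * b ^ f) ^ (d * m) = (a * b ^ (e + f)) ^ (e * m) * b ^ (f * (d * m)) := by
    rw [mul_pow, ← pow_mul, ← pow_mul, ← hw, ← pow_mul]
    congr 2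
    ring
  rw [h2, mul_pow, ← pow_mul]
  have h3 : a ^ (e * (m + c)) = a ^ (e * c) * a ^ (e * m) := by
    rw [← pow_add]
    congr 1
    ring
  have h4 : b ^ (f * (m + c)) * b ^ ((e + f) ^ 2 * m) = b ^ (f * c) * (b ^ ((e + f) * (e * m)) * b ^ (f * (d * m))) := by
    rw [← pow_add, ← pow_add, ← pow_add]
    congr 1
    rw [hd2]
    ring
  rw [h3, mul_assoc, h4]
  ring

theorem non1_id {k : Type} [Field k] {d K m q : ℕ} (hd : 1 ≤ d) (hm : d * m = q + 1)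
    {r s : Fin K → k} {x₀ : k} (w : Fin K → PowerSeries k)
    (hw : ∀ j, w j ^ d = sb x₀ (ff d (r j) (s j))) (e : Fin K → Fin d) (c : ℕ) :
    sb x₀ (RS d r s e (m + c)) * ∏ j, sb x₀ (X - C (s j)) ^ ((d - 1) ^ 2 * m) =
      sb x₀ (RS d r s e c) * zz1 x₀ d w s e * zz1 x₀ d w s e ^ q := by
  unfold RS zz1
  rw [map_prod, map_prod, ← Finset.prod_pow, ← Finset.prod_mul_distrib, ← Finset.prod_mul_distrib,
    ← Finset.prod_mul_distrib]
  refine Finset.prod_congr rfl fun j _ => ?_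
  rw [map_mul, map_mul, map_pow, map_pow, map_pow, map_pow]
  refine n1a_factor _ _ _ d (e j : ℕ) m q c (by have := (e j).2; omega) hd hm ?_
  rw [hw j]
  unfold ff
  rw [map_mul, map_pow]

end GPC
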