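import Pool.Agent.Lib.MP_56e792_co.S.Defs2
import Pool.Agent.Lib.MP_56e792_co.S.Rot

/-!
# MP_56e792_co, phase 2 (fixed characteristic), module Lau

The place `x = s + τ^d`. `φ g = g(s + τ^d)` (`eval₂` with `τ = HahnSeries.single 1 1`), `L0` = the Laurent series in `τ^d` (range of `HahnSeries.embDomain` along `n ↦ d n`, or `{z | ∀ n, z.coeff n ≠ 0 → (d:ℤ) ∣ n}` as a subfield). If `g(s) ≠ 0`, `φ g` is a power series in `τ^d` with nonzero constant term, so it has a
`d`-th root `v` in `k[[τ^d]]` (`root_unit`, substitute `t = τ^d`), all roots are `ζ v`, `ζ^d = 1`, `ζ ∈ k`: in `L0`. `φ (g (X-s)^(d-1)) = φ g * τ^(d (d-1))`: the roots are `z = ζ v τ^(d-1)`; `z^a = (ζ v)^a τ^((d-1) a)`, and the exponents `(d-1) a = -a mod d` are distinct mod `d` for `a < d`: independent over `L0`.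
Splitting: `X^d - z^d = ∏ (X - ζ z)`.
-/

set_option autoImplicit false
set_option linter.unusedVariables false

namespace GPC

open Polynomial
open Pool.Agent.Lib.MP_56e792_co (J mem_J GP)

private theorem Lau_sb_eq {k : Type} [Field k] (s : k) (g : k[X]) :
    sb s g = ((taylor s g : k[X]) : PowerSeries k) := by
  rw [taylor_apply]
  have h1 : (sb s : k[X] →ₐ[k] PowerSeries k) =
      (Polynomial.coeToPowerSeries.algHom k).comp (aeval (X + C s : k[X])) := by
    refine Polynomial.algHom_ext ?_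
    simp [sb, Polynomial.coeToPowerSeries.algHom_apply, add_comm]
  rw [h1]
  simp [Polynomial.coeToPowerSeries.algHom_apply, comp, aeval_def]

private theorem Lau_sb_inj {k : Type} [Field k] (s : k) : Function.Injective (sb s) := by
  intro g h e
  rw [Lau_sb_eq, Lau_sb_eq] at e
  exact taylor_injective s (Polynomial.coe_injective k e)

private theorem Lau_sb_const {k : Type} [Field k] (s : k) (g : k[X]) :
    PowerSeries.constantCoeff (sb s g) = g.eval s := by
  rw [Lau_sb_eq, ← PowerSeries.coeff_zero_eq_constantCoeff_apply, Polynomial.coeff_coe,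
    taylor_coeff_zero]

private theorem Lau_sb_X {k : Type} [Field k] (s : k) :
    sb s (X - C s) = PowerSeries.X := by
  have h1 : sb s (C s) = PowerSeries.C s := by
    rw [← Polynomial.algebraMap_eq, AlgHom.commutes]
    rfl
  rw [map_sub, h1]
  simp [sb]

/-- The multiplication by `d` on the exponents. -/
private def Lau_mul (d : ℕ) : ℤ →+ ℤ := AddMonoidHom.mulLeft (d : ℤ)

/-- The substitution `t ↦ t ^ d`. -/
private noncomputable def Lau_psi {k : Type} [Field k] (d : ℕ) (hd : 1 ≤ d) :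
    LaurentSeries k →+* LaurentSeries k :=
  HahnSeries.embDomainRingHom (Lau_mul d)
    (fun a b h => by
      have h' : (d : ℤ) * a = (d : ℤ) * b := h
      exact mul_left_cancel₀ (by positivity) h')
    (fun a b => by
      show (d : ℤ) * a ≤ (d : ℤ) * b ↔ a ≤ b
      exact mul_le_mul_iff_right₀ (by positivity))

private theorem Lau_psi_coeff {k : Type} [Field k] {d : ℕ} (hd : 1 ≤ d) (x : LaurentSeries k) (n : ℤ)
    (hn : ¬ (d : ℤ) ∣ n) : (Lau_psi d hd x).coeff n = 0 := by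
  refine HahnSeries.embDomain_of_notMem_range ?_
  rintro ⟨m, hm⟩
  exact hn ⟨m, hm.symm⟩

private theorem Lau_psi_single {k : Type} [Field k] {d : ℕ} (hd : 1 ≤ d) (n : ℤ) (a : k) :
    Lau_psi d hd (HahnSeries.single n a) = HahnSeries.single ((d : ℤ) * n) a :=
  HahnSeries.embDomain_single

/-- Independence of the powers of `t⁻¹` over the series in `t ^ d`. -/
private theorem Lau_indep {k : Type} [Field k] {d : ℕ} (hd : 1 ≤ d) (b : Fin d → LaurentSeries k)
    (hb : ∀ a, ∀ n : ℤ, ¬ (d : ℤ) ∣ n → (b a).coeff n = 0)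
    (h : ∑ a, b a * HahnSeries.single (-((a : ℕ) : ℤ)) (1 : k) = 0) (a : Fin d) : b a = 0 := by
  ext n
  by_cases hn : (d : ℤ) ∣ n
  · have h1 := congrArg (fun x : LaurentSeries k => x.coeff (n - (a : ℕ))) h
    simp only [HahnSeries.coeff_sum, HahnSeries.coeff_mul_single, HahnSeries.coeff_zero, mul_one] at h1
    rw [Finset.sum_eq_single a] at h1
    · have e : n - ((a : ℕ) : ℤ) - -((a : ℕ) : ℤ) = n := by ring
      rw [e] at h1
      rw [h1]
      rfl
    · intro a' _ hne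
      refine hb a' _ (fun hdvd => hne ?_)
      have h2 : (d : ℤ) ∣ ((a' : ℕ) : ℤ) - ((a : ℕ) : ℤ) := by
        have h3 := dvd_sub hdvd hn
        have e : n - ((a : ℕ) : ℤ) - -((a' : ℕ) : ℤ) - n = ((a' : ℕ) : ℤ) - ((a : ℕ) : ℤ) := by ring
        rwa [e] at h3
      have h4 := a.2
      have h5 := a'.2
      have h6 : ((a' : ℕ) : ℤ) - ((a : ℕ) : ℤ) = 0 := by
        refine Int.eq_zero_of_abs_lt_dvd h2 ?_
        rw [abs_lt]
        constructor <;> omega
      exact Fin.ext (by omega)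
    · intro h2
      exact absurd (Finset.mem_univ a) h2
  · rw [hb a n hn]
    rfl

theorem lau_exists {k : Type} [Field k] [IsAlgClosed k] {d : ℕ} (hd : 1 ≤ d) (hdk : (d : k) ≠ 0)
    (s : k) :
    ∃ (L0 : Subfield (LaurentSeries k)) (φ : k[X] →+* LaurentSeries k), Function.Injective φ ∧
      (∀ g, φ g ∈ L0) ∧
      (∀ g : k[X], g.eval s ≠ 0 →
        (X ^ d - C (φ g) : (LaurentSeries k)[X]).Splits ∧ ∀ z, z ^ d = φ g → z ∈ L0) ∧
      ∀ g : k[X], g.eval s ≠ 0 →
        (X ^ d - C (φ (g * (X - C s) ^ (d - 1))) : (LaurentSeries k)[X]).Splits ∧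
          ∀ z, z ^ d = φ (g * (X - C s) ^ (d - 1)) → ∀ c : Fin d → LaurentSeries k,
            (∀ a, c a ∈ L0) → ∑ a, c a * z ^ (a : ℕ) = 0 → ∀ a, c a = 0 := by
  set ψ : LaurentSeries k →+* LaurentSeries k := Lau_psi d hd with hψ
  set φ : k[X] →+* LaurentSeries k :=
    (ψ.comp (HahnSeries.ofPowerSeries ℤ k)).comp ((sb s : k[X] →ₐ[k] PowerSeries k) : k[X] →+* PowerSeries k)
    with hφ
  have hφa : ∀ g, φ g = ψ (HahnSeries.ofPowerSeries ℤ k (sb s g)) := fun g => rfl
  have hmem : ∀ x, ψ x ∈ ψ.fieldRange := fun x => ⟨x, rfl⟩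
  have hinj : Function.Injective φ := by
    intro g h e
    rw [hφa, hφa] at e
    exact Lau_sb_inj s (HahnSeries.ofPowerSeries_injective (ψ.injective e))
  have : NeZero (d : k) := ⟨hdk⟩
  have hd0 : NeZero d := ⟨by omega⟩
  obtain ⟨ζ, hζ⟩ := HasEnoughRootsOfUnity.exists_primitiveRoot k d
  have hζ' : IsPrimitiveRoot (HahnSeries.C ζ : LaurentSeries k) d :=
    hζ.map_of_injective HahnSeries.C_injective
  -- roots
  have hroot : ∀ (α : LaurentSeries k), α ≠ 0 → ∀ z, z ^ d = α ^ d → ∃ c ∈ ψ.fieldRange, c ≠ 0 ∧ z = c * α := by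
    intro α hα z hz
    have h1 : (z / α) ^ d = 1 := by
      rw [div_pow, hz, div_self (pow_ne_zero _ hα)]
    obtain ⟨i, hi, h2⟩ := hζ'.eq_pow_of_pow_eq_one h1
    refine ⟨z / α, ?_, ?_, ?_⟩
    · rw [← h2]
      have h3 : (HahnSeries.C ζ : LaurentSeries k) ∈ ψ.fieldRange :=
        ⟨HahnSeries.C ζ, HahnSeries.embDomainRingHom_C⟩
      exact Subfield.pow_mem _ h3 i
    · intro h3
      rw [h3, zero_pow (by omega)] at h1
      exact zero_ne_one h1
    · rw [div_mul_cancel₀ _ hα]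
  have hV : ∀ g : k[X], g.eval s ≠ 0 → ∃ V ∈ ψ.fieldRange, V ≠ 0 ∧ V ^ d = φ g := by
    intro g hg
    obtain ⟨v, hv⟩ := root_unit hdk (sb s g) (by rw [Lau_sb_const]; exact hg)
    have h1 : (ψ (HahnSeries.ofPowerSeries ℤ k v)) ^ d = φ g := by
      rw [← map_pow, ← map_pow, hv]
      rfl
    refine ⟨ψ (HahnSeries.ofPowerSeries ℤ k v), hmem _, ?_, h1⟩
    intro h2
    rw [h2, zero_pow (by omega)] at h1
    have h3 : g = 0 := hinj (by rw [← h1, map_zero])
    rw [h3, eval_zero] at hg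
    exact hg rfl
  refine ⟨ψ.fieldRange, φ, hinj, fun g => hmem _, ?_, ?_⟩
  · intro g hg
    obtain ⟨V, hV1, hV2, hV3⟩ := hV g hg
    refine ⟨X_pow_sub_C_splits_of_isPrimitiveRoot hζ' hV3, fun z hz => ?_⟩
    obtain ⟨c, hc, -, rfl⟩ := hroot V hV2 z (by rw [hz, hV3])
    exact Subfield.mul_mem _ hc hV1
  · intro g hg
    obtain ⟨V, hV1, hV2, hV3⟩ := hV g hg
    -- `T ^ d = φ (X - C s)`
    have hT : (HahnSeries.single (1 : ℤ) (1 : k) : LaurentSeries k) ^ d = φ (X - C s) := by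
      rw [hφa, Lau_sb_X, HahnSeries.ofPowerSeries_X, hψ, Lau_psi_single, HahnSeries.single_pow]
      simp
    set τ : LaurentSeries k := HahnSeries.single (1 : ℤ) (1 : k) with hτ
    have hτ0 : τ ≠ 0 := by
      rw [hτ]
      exact HahnSeries.single_ne_zero one_ne_zero
    have hα : (V * τ ^ (d - 1)) ^ d = φ (g * (X - C s) ^ (d - 1)) := by
      rw [mul_pow, hV3, ← pow_mul, mul_comm (d - 1) d, pow_mul, hT, map_mul, map_pow]
    refine ⟨X_pow_sub_C_splits_of_isPrimitiveRoot hζ' hα, fun z hz c hc hsum => ?_⟩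
    have hα0 : V * τ ^ (d - 1) ≠ 0 := mul_ne_zero hV2 (pow_ne_zero _ hτ0)
    obtain ⟨e, he, he0, rfl⟩ := hroot _ hα0 z (by rw [hz, hα])
    -- the independent form
    have hneg : ∀ a : ℕ, τ ^ a * HahnSeries.single (-(a : ℤ)) (1 : k) = 1 := by
      intro a
      rw [hτ, HahnSeries.single_pow, HahnSeries.single_mul_single]
      simp
    have hpow : ∀ a : ℕ, (e * (V * τ ^ (d - 1))) ^ a =
        (e * (V * τ ^ d)) ^ a * HahnSeries.single (-(a : ℤ)) (1 : k) := by
      intro a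
      have h1 : e * (V * τ ^ d) = (e * (V * τ ^ (d - 1))) * τ := by
        have h2 : τ ^ d = τ ^ (d - 1) * τ := by rw [← pow_succ, Nat.sub_add_cancel hd]
        rw [h2]
        ring
      rw [h1, mul_pow _ τ, mul_assoc, hneg, mul_one]
    set Y := e * (V * τ ^ d) with hY
    have hY1 : Y ∈ ψ.fieldRange := by
      refine Subfield.mul_mem _ he (Subfield.mul_mem _ hV1 ?_)
      rw [hT]
      exact hmem _
    have hY0 : Y ≠ 0 := mul_ne_zero he0 (mul_ne_zero hV2 (pow_ne_zero _ hτ0))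
    have hb := Lau_indep hd (fun a => c a * Y ^ (a : ℕ)) (fun a n hn => by
      obtain ⟨x, hx⟩ : c a * Y ^ (a : ℕ) ∈ ψ.fieldRange :=
        Subfield.mul_mem _ (hc a) (Subfield.pow_mem _ hY1 _)
      show (c a * Y ^ (a : ℕ)).coeff n = 0
      rw [← hx]
      exact Lau_psi_coeff hd x n hn) (by
      rw [← hsum]
      refine Finset.sum_congr rfl (fun a _ => ?_)
      rw [hpow, mul_assoc])
    intro a
    have h1 : c a * Y ^ (a : ℕ) = 0 := hb a
    exact (mul_eq_zero.1 h1).resolve_right (pow_ne_zero _ hY0)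

end GPC
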