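import Pool.Agent.Lib.MP_56e792_co.S.Defs2

/-!
# MP_56e792_co, phase 2 (fixed characteristic), module TwG

Independence of the `d^K` monomials, any `d`. `E := IntermediateField.adjoin F (Set.range w)`; for each `j` there is an `F`-embedding `φ : E → L` (`IntermediateField.nonempty_algHom_adjoin_of_splits`; the minimal polynomial of `w i` divides `X^d - f i`). If `∑_e c_e w^e = 0` then, applying `φ` and grouping by `a = e j`:
`∑_a (φ w_j)^a * (∑_{e j = a} c_e ∏_{i ≠ j} (φ w_i)^(e i)) = 0` with inner sums in `L0`, so all inner sums vanish, and (`φ` injective) `∑_{e j = a} c_e ∏_{i ≠ j} w_i^(e i) = 0` for all `a`. Do this for one `j` after the other (induction on a finset of processed indices: for every choice of the processed exponents the sum over the others vanishes);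
at the end `c_e = 0`.
-/

set_option autoImplicit false
set_option linter.unusedVariables false

namespace GPC

open Polynomial
open Pool.Agent.Lib.MP_56e792_co (J mem_J GP)

open Classical in
/-- the sum over the exponents which agree with `e0` on `s` -/
private noncomputable def twgSum {F E : Type} [Field F] [Field E] [Algebra F E] {d K : ℕ}
    (w : Fin K → E) (c : (Fin K → Fin d) → F) (s : Finset (Fin K)) (e0 : Fin K → Fin d) : E :=
  ∑ e ∈ Finset.univ.filter (fun e : Fin K → Fin d => ∀ i ∈ s, e i = e0 i),
    algebraMap F E (c e) * ∏ i ∈ Finset.univ \ s, w i ^ (e i : ℕ)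

private theorem twgSum_step {F E : Type} [Field F] [Field E] [Algebra F E] {d K : ℕ}
    (w : Fin K → E) (c : (Fin K → Fin d) → F) (s : Finset (Fin K)) (e0 : Fin K → Fin d)
    (j : Fin K) (hj : j ∉ s) :
    twgSum w c s e0 = ∑ a : Fin d, twgSum w c (insert j s) (Function.update e0 j a) * w j ^ (a : ℕ) := by
  classical
  unfold twgSum
  rw [← Finset.sum_fiberwise (Finset.univ.filter (fun e : Fin K → Fin d => ∀ i ∈ s, e i = e0 i))
    (fun e => e j)]
  refine Finset.sum_congr rfl fun a _ => ?_
  rw [Finset.sum_mul]
  refine Finset.sum_congr ?_ ?_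
  · ext e
    simp only [Finset.mem_filter, Finset.mem_univ, true_and, Finset.mem_insert]
    constructor
    · rintro ⟨h1, h2⟩ i hi
      by_cases hij : i = j
      · subst hij
        rw [Function.update_self, h2]
      · rw [Function.update_of_ne hij]
        exact h1 i (hi.resolve_left hij)
    · intro h
      refine ⟨fun i hi => ?_, ?_⟩
      · have hij : i ≠ j := fun h => hj (h ▸ hi)
        have := h i (Or.inr hi)
        rwa [Function.update_of_ne hij] at this
      · have := h j (Or.inl rfl)
        rwa [Function.update_self] at this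
  · intro e he
    have hej : e j = a := by
      have := (Finset.mem_filter.1 he).2 j (Finset.mem_insert_self _ _)
      rwa [Function.update_self] at this
    have h1 : Finset.univ \ s = insert j (Finset.univ \ insert j s) := by
      ext i
      simp only [Finset.mem_sdiff, Finset.mem_univ, true_and, Finset.mem_insert]
      by_cases hij : i = j
      · subst hij
        simp [hj]
      · simp [hij]
    have h2 : j ∉ Finset.univ \ insert j s := by simp
    rw [h1, Finset.prod_insert h2, hej]
    ring

private theorem twg_key {F E : Type} [Field F] [Field E] [Algebra F E] {d K : ℕ}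
    (w : Fin K → E)
    (hL : ∀ j, ∃ (L : Type) (_ : Field L) (_ : Algebra F L) (φ : E →ₐ[F] L) (L0 : Subfield L),
      (∀ c : F, algebraMap F L c ∈ L0) ∧ (∀ i, i ≠ j → φ (w i) ∈ L0) ∧
      ∀ c : Fin d → L, (∀ a, c a ∈ L0) →
        ∑ a, c a * φ (w j) ^ (a : ℕ) = 0 → ∀ a, c a = 0) :
    LinearIndependent F (fun e : Fin K → Fin d => ∏ j, w j ^ (e j : ℕ)) := by
  classical
  rw [Fintype.linearIndependent_iff]
  intro c hc
  have main : ∀ s : Finset (Fin K), ∀ e0 : Fin K → Fin d, twgSum w c s e0 = 0 := by
    intro s
    induction s using Finset.induction_on with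
    | empty =>
      intro e0
      unfold twgSum
      simp only [Finset.notMem_empty, false_imp_iff, implies_true, Finset.filter_true,
        Finset.sdiff_empty]
      rw [← hc]
      exact Finset.sum_congr rfl fun e _ => (Algebra.smul_def _ _).symm
    | insert j s hj ih =>
      intro e0
      obtain ⟨L, i1, i2, φ, L0, h1, h2, h3⟩ := hL j
      have h4 := ih e0
      rw [twgSum_step w c s e0 j hj] at h4
      have h5 : ∑ a : Fin d, φ (twgSum w c (insert j s) (Function.update e0 j a)) * φ (w j) ^ (a : ℕ)
          = 0 := by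
        have := congrArg φ h4
        rw [map_zero, map_sum] at this
        rw [← this]
        exact Finset.sum_congr rfl fun a _ => by rw [map_mul, map_pow]
      have h6 := h3 (fun a => φ (twgSum w c (insert j s) (Function.update e0 j a))) (fun a => by
        show φ (twgSum w c (insert j s) (Function.update e0 j a)) ∈ L0
        unfold twgSum
        rw [map_sum]
        refine Subfield.sum_mem _ fun e _ => ?_
        rw [map_mul, map_prod, φ.commutes]
        refine L0.mul_mem (h1 _) (Subfield.prod_mem _ fun i hi => ?_)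
        rw [map_pow]
        refine L0.pow_mem (h2 i ?_) _
        rintro rfl
        exact (Finset.mem_sdiff.1 hi).2 (Finset.mem_insert_self _ _)) h5 (e0 j)
      have h7 : φ (twgSum w c (insert j s) e0) = 0 := by
        have h8 := h6
        simp only [Function.update_eq_self] at h8
        exact h8
      exact (map_eq_zero φ).1 h7
  intro e
  have h1 := main Finset.univ e
  unfold twgSum at h1
  have h2 : (Finset.univ.filter fun e' : Fin K → Fin d => ∀ i ∈ Finset.univ, e' i = e i) = {e} := by
    ext e'
    simp only [Finset.mem_filter, Finset.mem_univ, true_and, Finset.mem_singleton, true_imp_iff]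
    exact ⟨fun h => funext h, fun h i => by rw [h]⟩
  rw [h2, Finset.sum_singleton, Finset.sdiff_self, Finset.prod_empty, mul_one] at h1
  exact (map_eq_zero (algebraMap F E)).1 h1

theorem tower_gen {F Ω : Type} [Field F] [Field Ω] [Algebra F Ω] {d : ℕ} (hd : 1 ≤ d) {K : ℕ}
    (f : Fin K → F) (w : Fin K → Ω) (hw : ∀ j, w j ^ d = algebraMap F Ω (f j))
    (hw0 : ∀ j, w j ≠ 0)
    (hL : ∀ j, ∃ (L : Type) (_ : Field L) (_ : Algebra F L) (L0 : Subfield L),
      (∀ c : F, algebraMap F L c ∈ L0) ∧
      (∀ i, ((X ^ d - C (f i) : F[X]).map (algebraMap F L)).Splits) ∧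
      (∀ i, i ≠ j → ∀ z : L, z ^ d = algebraMap F L (f i) → z ∈ L0) ∧
      ∀ z : L, z ^ d = algebraMap F L (f j) → ∀ c : Fin d → L, (∀ a, c a ∈ L0) →
        ∑ a, c a * z ^ (a : ℕ) = 0 → ∀ a, c a = 0) :
    LinearIndependent F (fun e : Fin K → Fin d => ∏ j, w j ^ (e j : ℕ)) := by
  have hd0 : d ≠ 0 := by omega
  set E := IntermediateField.adjoin F (Set.range w) with hE
  have hmem : ∀ i : Fin K, w i ∈ E := fun i => IntermediateField.subset_adjoin F _ ⟨i, rfl⟩
  have key := twg_key (F := F) (E := E) (d := d) (fun i => (⟨w i, hmem i⟩ : E)) (fun j => by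
    obtain ⟨L, i1, i2, L0, h1, h2, h3, h4⟩ := hL j
    have hemb : Nonempty (E →ₐ[F] L) := by
      refine IntermediateField.nonempty_algHom_adjoin_of_splits ?_
      rintro s ⟨i, rfl⟩
      have hroot : aeval (w i) (X ^ d - C (f i) : F[X]) = 0 := by
        simp [hw]
      have hne : (X ^ d - C (f i) : F[X]) ≠ 0 := X_pow_sub_C_ne_zero (by omega) _
      have hmon : (X ^ d - C (f i) : F[X]).Monic := monic_X_pow_sub_C _ hd0
      refine ⟨⟨_, hmon, hroot⟩, ?_⟩
      refine (h2 i).of_dvd ?_ ?_
      · exact Polynomial.map_ne_zero hne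
      · exact Polynomial.map_dvd _ (minpoly.dvd F _ hroot)
    obtain ⟨φ⟩ := hemb
    have hφ : ∀ i, φ (⟨w i, hmem i⟩ : E) ^ d = algebraMap F L (f i) := by
      intro i
      rw [← map_pow, ← φ.commutes]
      congr 1
      apply Subtype.ext
      exact hw i
    exact ⟨L, i1, i2, φ, L0, h1, fun i hi => h3 i hi _ (hφ i), fun c hc hs => h4 _ (hφ j) c hc hs⟩)
  have h5 := key.map' E.val.toLinearMap (LinearMap.ker_eq_bot.2 E.val.injective)
  have heq : (E.val.toLinearMap ∘ fun e : Fin K → Fin d =>
      (∏ j, (⟨w j, hmem j⟩ : E) ^ (e j : ℕ))) = fun e : Fin K → Fin d => ∏ j, w j ^ (e j : ℕ) := by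
    funext e
    simp
  rw [heq] at h5
  exact h5

end GPC
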