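import Pool.Agent.Lib.MP_56e792_co.S.Defs2
import Pool.Agent.Lib.MP_56e792_co.S.TwG
import Pool.Agent.Lib.MP_56e792_co.S.Lau

/-!
# MP_56e792_co, phase 2 (fixed characteristic), module Tw1

`tower_gen` with `F = FractionRing k[X]` (or `RatFunc k`), `Ω = LaurentSeries k` through `sb x₀` (injective: `x₀ + t` is transcendental), `f j = ff d (r j) (s j)`; for `hL j`: `L = LaurentSeries k` with `lau_exists` for `s j`; `φ` extends to `F`, `L0` is a subfield so it contains the image of `F`;
`f i (s j) ≠ 0` for `i ≠ j` (`hD.inj`, `hD.off`), `f j = (X - r j) (X - s j)^(d-1)`.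
-/

set_option autoImplicit false
set_option linter.unusedVariables false

namespace GPC

open Polynomial
open Pool.Agent.Lib.MP_56e792_co (J mem_J GP)

private theorem Tw1_sb_eq {k : Type} [Field k] (s : k) (g : k[X]) :
    sb s g = ((taylor s g : k[X]) : PowerSeries k) := by
  rw [taylor_apply]
  have h1 : (sb s : k[X] →ₐ[k] PowerSeries k) =
      (Polynomial.coeToPowerSeries.algHom k).comp (aeval (X + C s : k[X])) := by
    refine Polynomial.algHom_ext ?_
    simp [sb, Polynomial.coeToPowerSeries.algHom_apply, add_comm]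
  rw [h1]
  simp [Polynomial.coeToPowerSeries.algHom_apply, comp, aeval_def]

private theorem Tw1_sb_inj {k : Type} [Field k] (s : k) : Function.Injective (sb s) := by
  intro g h e
  rw [Tw1_sb_eq, Tw1_sb_eq] at e
  exact taylor_injective s (Polynomial.coe_injective k e)

private theorem Tw1_eval {k : Type} [Field k] {d K : ℕ} {r s : Fin K → k} (hD : Dat d K r s)
    {i j : Fin K} (hij : i ≠ j) : (ff d (r i) (s i)).eval (s j) ≠ 0 := by
  unfold ff
  rw [eval_mul, eval_pow, eval_sub, eval_sub, eval_X, eval_C, eval_C]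
  exact mul_ne_zero (sub_ne_zero.2 (hD.off j i)) (pow_ne_zero _ (sub_ne_zero.2 (hD.inj j i hij.symm)))

theorem tower_uni {k : Type} [Field k] [IsAlgClosed k] {d K : ℕ} {r s : Fin K → k}
    (hD : Dat d K r s) {x₀ : k} (w : Fin K → PowerSeries k)
    (hw : ∀ j, w j ^ d = sb x₀ (ff d (r j) (s j))) (G : (Fin K → Fin d) → k[X])
    (h : ∑ e, sb x₀ (G e) * ∏ j, w j ^ (e j : ℕ) = 0) : ∀ e, G e = 0 := by
  have hd1 : 1 ≤ d := by have := hD.hd; omega
  have hd0 : d ≠ 0 := by omega
  have hff : ∀ j, ff d (r j) (s j) ≠ 0 := by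
    intro j
    unfold ff
    exact mul_ne_zero (X_sub_C_ne_zero _) (pow_ne_zero _ (X_sub_C_ne_zero _))
  let F : Type := FractionRing k[X]
  let ρ : k[X] →+* LaurentSeries k :=
    (HahnSeries.ofPowerSeries ℤ k).comp ((sb x₀ : k[X] →ₐ[k] PowerSeries k) : k[X] →+* PowerSeries k)
  have hρ : Function.Injective ρ := by
    intro g g' e
    exact Tw1_sb_inj x₀ (HahnSeries.ofPowerSeries_injective e)
  let aΩ : Algebra F (LaurentSeries k) := (IsFractionRing.lift (K := F) hρ).toAlgebra
  have haΩ : ∀ g : k[X], @algebraMap F (LaurentSeries k) _ _ aΩ (algebraMap k[X] F g) =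
      HahnSeries.ofPowerSeries ℤ k (sb x₀ g) := fun g => IsFractionRing.lift_algebraMap hρ g
  have hL : ∀ j, ∃ (L : Type) (_ : Field L) (_ : Algebra F L) (L0 : Subfield L),
      (∀ c : F, algebraMap F L c ∈ L0) ∧
      (∀ i, ((X ^ d - C (algebraMap k[X] F (ff d (r i) (s i))) : F[X]).map (algebraMap F L)).Splits) ∧
      (∀ i, i ≠ j → ∀ z : L, z ^ d = algebraMap F L (algebraMap k[X] F (ff d (r i) (s i))) → z ∈ L0) ∧
      ∀ z : L, z ^ d = algebraMap F L (algebraMap k[X] F (ff d (r j) (s j))) →
        ∀ c : Fin d → L, (∀ a, c a ∈ L0) → ∑ a, c a * z ^ (a : ℕ) = 0 → ∀ a, c a = 0 := by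
    intro j
    obtain ⟨L0, φ, hφ, hφL, h1, h2⟩ := lau_exists hd1 hD.hk (s j)
    let aL : Algebra F (LaurentSeries k) := (IsFractionRing.lift (K := F) hφ).toAlgebra
    have haL : ∀ g : k[X], @algebraMap F (LaurentSeries k) _ _ aL (algebraMap k[X] F g) = φ g :=
      fun g => IsFractionRing.lift_algebraMap hφ g
    have hmap : ∀ i, ((X ^ d - C (algebraMap k[X] F (ff d (r i) (s i))) : F[X]).map
        (@algebraMap F (LaurentSeries k) _ _ aL)) = X ^ d - C (φ (ff d (r i) (s i))) := by
      intro i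
      rw [Polynomial.map_sub, Polynomial.map_pow, map_X, map_C, haL]
    have hj : (X - C (r j) : k[X]).eval (s j) ≠ 0 := by
      rw [eval_sub, eval_X, eval_C]
      exact sub_ne_zero.2 (hD.off j j)
    refine ⟨LaurentSeries k, inferInstance, aL, L0, ?_, ?_, ?_, ?_⟩
    · intro c
      obtain ⟨a, b, -, hab⟩ := IsFractionRing.div_surjective (A := k[X]) c
      rw [← hab, map_div₀, haL, haL]
      exact L0.div_mem (hφL a) (hφL b)
    · intro i
      rw [hmap]
      by_cases hij : i = j
      · subst hij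
        exact (h2 _ hj).1
      · exact (h1 _ (Tw1_eval hD hij)).1
    · intro i hij z hz
      rw [haL] at hz
      exact (h1 _ (Tw1_eval hD hij)).2 z hz
    · intro z hz
      rw [haL] at hz
      exact (h2 _ hj).2 z hz
  have key := @tower_gen F (LaurentSeries k) _ _ aΩ d hd1 K
    (fun j => algebraMap k[X] F (ff d (r j) (s j)))
    (fun j => HahnSeries.ofPowerSeries ℤ k (w j)) (fun j => by
      rw [haΩ, ← hw, map_pow]) (fun j h0 => by
      have h1 : w j = 0 := HahnSeries.ofPowerSeries_injective (by rw [h0, map_zero])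
      have h2 := hw j
      rw [h1, zero_pow hd0] at h2
      exact hff j (Tw1_sb_inj x₀ (by rw [← h2, map_zero]))) hL
  rw [Fintype.linearIndependent_iff] at key
  intro e
  have h3 := key (fun e => algebraMap k[X] F (G e)) (by
    have h4 := congrArg (HahnSeries.ofPowerSeries ℤ k) h
    rw [map_zero, map_sum] at h4
    rw [← h4]
    refine Finset.sum_congr rfl fun e _ => ?_
    rw [Algebra.smul_def, haΩ, map_mul, map_prod]
    congr 1
    exact Finset.prod_congr rfl fun j _ => (map_pow _ _ _).symm) e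
  exact (IsFractionRing.injective k[X] F) (by rw [h3, map_zero])

end GPC
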