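import Pool.Agent.Lib.MP_56e792_co.S.Defs2
import Pool.Agent.Lib.MP_56e792_co.S.Tw1

/-!
# MP_56e792_co, phase 2 (fixed characteristic), module N1b

`non1_mem`: the exponent is `e`, coefficient `ρ * RS e c * ∏_j (X - s j)^(d-1-e j)`, of degree `≤ (D-1) + K (d-1) c + K (d-1)`. `non1_ind`: `tower_uni` (different `e`): for every `e`: `(∑_i c (e,i) • X^(i M)) * RS e c0 * ∏ (X - s j)^(..) = 0`, so `∑_i c (e,i) X^(i M) = 0`, `M = p^μ ≥ 1`: all coefficients vanish.
-/

set_option autoImplicit false
set_option linter.unusedVariables false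

namespace GPC

open Polynomial
open Pool.Agent.Lib.MP_56e792_co (J mem_J GP)

/-- the product of the powers of `X - s j` -/
private noncomputable def n1b_T {k : Type} [Field k] {K : ℕ} (d : ℕ) (s : Fin K → k) (e : Fin K → Fin d) : k[X] :=
  ∏ j, (X - C (s j)) ^ (d - 1 - (e j : ℕ))

private theorem n1b_zz {k : Type} [Field k] (x₀ : k) {K d : ℕ} (w : Fin K → PowerSeries k) (s : Fin K → k)
    (e : Fin K → Fin d) : zz1 x₀ d w s e = sb x₀ (n1b_T d s e) * ∏ j, w j ^ (e j : ℕ) := by
  unfold zz1 n1b_T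
  rw [map_prod, ← Finset.prod_mul_distrib]
  refine Finset.prod_congr rfl fun j _ => ?_
  rw [map_pow, mul_comm]

private theorem n1b_T_ne {k : Type} [Field k] {K : ℕ} (d : ℕ) (s : Fin K → k) (e : Fin K → Fin d) : n1b_T d s e ≠ 0 := by
  unfold n1b_T
  exact Finset.prod_ne_zero_iff.2 fun j _ => pow_ne_zero _ (X_sub_C_ne_zero _)

private theorem n1b_RS_ne {k : Type} [Field k] {K : ℕ} (d : ℕ) (r s : Fin K → k) (e : Fin K → Fin d) (n : ℕ) :
    RS d r s e n ≠ 0 := by
  unfold RS
  exact Finset.prod_ne_zero_iff.2 fun j _ =>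
    mul_ne_zero (pow_ne_zero _ (X_sub_C_ne_zero _)) (pow_ne_zero _ (X_sub_C_ne_zero _))

private theorem n1b_T_deg {k : Type} [Field k] {K : ℕ} (d : ℕ) (s : Fin K → k) (e : Fin K → Fin d) :
    (n1b_T d s e).natDegree ≤ K * d := by
  unfold n1b_T
  refine (natDegree_prod_le _ _).trans ?_
  calc ∑ j : Fin K, ((X - C (s j)) ^ (d - 1 - (e j : ℕ)) : k[X]).natDegree ≤ ∑ j : Fin K, d := by
        refine Finset.sum_le_sum fun j _ => ?_
        refine natDegree_pow_le.trans ?_
        rw [natDegree_X_sub_C]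
        omega
    _ = K * d := by rw [Finset.sum_const, Finset.card_univ, Fintype.card_fin, smul_eq_mul]

private theorem n1b_RS_deg {k : Type} [Field k] {K : ℕ} (d : ℕ) (r s : Fin K → k) (e : Fin K → Fin d) (n : ℕ) :
    (RS d r s e n).natDegree ≤ K * d * n := by
  unfold RS
  refine (natDegree_prod_le _ _).trans ?_
  calc ∑ j : Fin K, ((X - C (r j)) ^ ((e j : ℕ) * n) * (X - C (s j)) ^ ((d - 1 - (e j : ℕ)) * n) : k[X]).natDegree ≤
        ∑ j : Fin K, d * n := by
        refine Finset.sum_le_sum fun j _ => ?_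
        refine natDegree_mul_le.trans ?_
        have h1 : ((X - C (r j)) ^ ((e j : ℕ) * n) : k[X]).natDegree ≤ (e j : ℕ) * n := by
          refine natDegree_pow_le.trans ?_
          rw [natDegree_X_sub_C, mul_one]
        have h2 : ((X - C (s j)) ^ ((d - 1 - (e j : ℕ)) * n) : k[X]).natDegree ≤ (d - 1 - (e j : ℕ)) * n := by
          refine natDegree_pow_le.trans ?_
          rw [natDegree_X_sub_C, mul_one]
        refine (add_le_add h1 h2).trans ?_
        rw [← add_mul]
        refine Nat.mul_le_mul_right n ?_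
        have := (e j).2
        omega
    _ = K * d * n := by rw [Finset.sum_const, Finset.card_univ, Fintype.card_fin, smul_eq_mul]; ring

theorem non1_mem {k : Type} [Field k] {d K D c : ℕ} (hD1 : 1 ≤ D) {r s : Fin K → k} {x₀ : k}
    (w : Fin K → PowerSeries k) (e : Fin K → Fin d) {ρ : k[X]} (hρ : ρ ∈ degreeLT k D) :
    sb x₀ (ρ * RS d r s e c) * zz1 x₀ d w s e ∈ La1 x₀ w d (D + K * d * c + K * d) := by
  classical
  refine ⟨fun e' => if e' = e then ρ * RS d r s e c * n1b_T d s e else 0, fun e' => ?_, ?_⟩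
  · simp only
    split_ifs
    · rw [mem_degreeLT]
      by_cases h0 : ρ = 0
      · rw [h0, zero_mul, zero_mul, degree_zero]
        exact WithBot.bot_lt_coe _
      · have h1 : ρ.natDegree < D := by
          rw [mem_degreeLT] at hρ
          exact (natDegree_lt_iff_degree_lt h0).2 hρ
        have h2 : ρ * RS d r s e c * n1b_T d s e ≠ 0 :=
          mul_ne_zero (mul_ne_zero h0 (n1b_RS_ne d r s e c)) (n1b_T_ne d s e)
        rw [← natDegree_lt_iff_degree_lt h2]
        have h3 := natDegree_mul_le (p := ρ * RS d r s e c) (q := n1b_T d s e)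
        have h4 := natDegree_mul_le (p := ρ) (q := RS d r s e c)
        have h5 := n1b_T_deg d s e
        have h6 := n1b_RS_deg d r s e c
        omega
    · exact Submodule.zero_mem _
  · rw [Finset.sum_eq_single e]
    · simp only [if_true]
      rw [n1b_zz, map_mul (sb x₀) (ρ * RS d r s e c), mul_assoc]
    · intro e' _ he'
      simp only [if_neg he', map_zero, zero_mul]
    · intro h
      exact absurd (Finset.mem_univ e) h

theorem non1_ind {k : Type} [Field k] [IsAlgClosed k] {d K : ℕ} {r s : Fin K → k}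
    (hD : Dat d K r s) {x₀ : k} (w : Fin K → PowerSeries k)
    (hw : ∀ j, w j ^ d = sb x₀ (ff d (r j) (s j))) {M c0 R : ℕ} (hM : 1 ≤ M)
    (c : (Fin K → Fin d) × Fin R → k)
    (h : ∑ x, c x • (sb x₀ (X ^ ((x.2 : ℕ) * M) * RS d r s x.1 c0) * zz1 x₀ d w s x.1) = 0) :
    c = 0 := by
  classical
  have h1 := tower_uni hD w hw
    (fun e => (∑ i : Fin R, c (e, i) • (X : k[X]) ^ ((i : ℕ) * M)) * RS d r s e c0 * n1b_T d s e) (by
      rw [← h, Fintype.sum_prod_type]
      refine Finset.sum_congr rfl fun e _ => ?_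
      rw [map_mul, map_mul, map_sum, Finset.sum_mul, Finset.sum_mul, Finset.sum_mul]
      refine Finset.sum_congr rfl fun i _ => ?_
      rw [map_smul, map_mul, n1b_zz]
      simp only [smul_mul_assoc]
      congr 1
      ring)
  funext x
  obtain ⟨e, i⟩ := x
  have h2 := h1 e
  have h3 : (∑ i : Fin R, c (e, i) • (X : k[X]) ^ ((i : ℕ) * M)) = 0 := by
    rcases mul_eq_zero.1 h2 with h4 | h4
    · rcases mul_eq_zero.1 h4 with h5 | h5
      · exact h5
      · exact absurd h5 (n1b_RS_ne d r s e c0)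
    · exact absurd h4 (n1b_T_ne d s e)
  have h4 := congrArg (fun f : k[X] => f.coeff ((i : ℕ) * M)) h3
  simp only [finsetSum_coeff, coeff_smul, coeff_X_pow, coeff_zero, smul_eq_mul] at h4
  rw [Finset.sum_eq_single i] at h4
  · rw [if_pos rfl, mul_one] at h4
    rw [Pi.zero_apply]
    exact h4
  · intro j _ hj
    rw [if_neg, mul_zero]
    intro h5
    have h6 := Nat.eq_of_mul_eq_mul_right (by omega) h5
    exact hj (Fin.ext h6.symm)
  · intro h5
    exact absurd (Finset.mem_univ i) h5

end GPC
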