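import Pool.Agent.Lib.MP_56e792_co.S.Defs2
import Pool.Agent.Lib.MP_56e792_co.S.Tw1

/-!
# MP_56e792_co, phase 2 (fixed characteristic), module L1a

`La1 x₀ w d D` is the image of `(Fin K → Fin d) → degreeLT k D` under an injective linear map (`tower_uni`). `La1_mul`: `w^e w^e' = w^e'' ∏_{j ∈ S} sb (ff d (r j) (s j))`, `e'' = (e + e') mod d`, each `ff` of degree `d`: `(D-1) + (D'-1) + K d < D + D' + K d` (`D = 0` or `D' = 0`: trivial).
-/

set_option autoImplicit false
set_option linter.unusedVariables false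

namespace GPC

open Polynomial
open Pool.Agent.Lib.MP_56e792_co (J mem_J GP)

/-- the parametrisation of `La1` -/
private noncomputable def L1aMap {k : Type} [Field k] (x₀ : k) {K : ℕ} (w : Fin K → PowerSeries k) (d D : ℕ) :
    ((Fin K → Fin d) → degreeLT k D) →ₗ[k] PowerSeries k where
  toFun := fun G => ∑ e, sb x₀ (G e : k[X]) * ∏ j, w j ^ (e j : ℕ)
  map_add' := by
    intro G G'
    simp only [Pi.add_apply, Submodule.coe_add, map_add, add_mul, Finset.sum_add_distrib]
  map_smul' := by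
    intro c G
    simp only [Pi.smul_apply, Submodule.coe_smul, map_smul, smul_mul_assoc, Finset.smul_sum, RingHom.id_apply]

private theorem L1a_range {k : Type} [Field k] (x₀ : k) {K : ℕ} (w : Fin K → PowerSeries k) (d D : ℕ) :
    LinearMap.range (L1aMap x₀ w d D) = La1 x₀ w d D := by
  ext B
  constructor
  · rintro ⟨G, rfl⟩
    exact ⟨fun e => (G e : k[X]), fun e => (G e).2, rfl⟩
  · rintro ⟨G, hG, rfl⟩
    exact ⟨fun e => ⟨G e, hG e⟩, rfl⟩

private theorem L1a_fd (k : Type) [Field k] (D : ℕ) : FiniteDimensional k (degreeLT k D) :=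
  Module.Finite.equiv (degreeLTEquiv k D).symm

theorem La1_fin {k : Type} [Field k] (x₀ : k) {K : ℕ} (w : Fin K → PowerSeries k) (d D : ℕ) :
    FiniteDimensional k (La1 x₀ w d D) := by
  have := L1a_fd k D
  rw [← L1a_range]
  exact Module.Finite.range _

theorem La1_finrank {k : Type} [Field k] [IsAlgClosed k] {d K : ℕ} {r s : Fin K → k}
    (hD : Dat d K r s) {x₀ : k} (w : Fin K → PowerSeries k)
    (hw : ∀ j, w j ^ d = sb x₀ (ff d (r j) (s j))) (D : ℕ) :
    Module.finrank k (La1 x₀ w d D) = d ^ K * D := by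
  have := L1a_fd k D
  have hinj : Function.Injective (L1aMap x₀ w d D) := by
    rw [← LinearMap.ker_eq_bot, LinearMap.ker_eq_bot']
    intro G hG
    have h1 := tower_uni hD w hw (fun e => (G e : k[X])) hG
    funext e
    exact Subtype.ext (h1 e)
  rw [← L1a_range, LinearMap.finrank_range_of_inj hinj, Module.finrank_pi_fintype]
  have h1 : Module.finrank k (degreeLT k D) = D := by
    rw [(degreeLTEquiv k D).finrank_eq, Module.finrank_fin_fun]
  simp only [h1, Finset.sum_const, Finset.card_univ, Fintype.card_fun, Fintype.card_fin, smul_eq_mul]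

private theorem L1a_single {k : Type} [Field k] {d K : ℕ} {x₀ : k} (w : Fin K → PowerSeries k) {D : ℕ}
    (P : k[X]) (hP : P ∈ degreeLT k D) (e : Fin K → Fin d) :
    sb x₀ P * ∏ j, w j ^ (e j : ℕ) ∈ La1 x₀ w d D := by
  classical
  refine ⟨Pi.single e P, ?_, ?_⟩
  · intro e'
    by_cases h : e' = e
    · subst h
      rw [Pi.single_eq_same]
      exact hP
    · rw [Pi.single_eq_of_ne h]
      exact Submodule.zero_mem _
  · rw [Finset.sum_eq_single e]
    · rw [Pi.single_eq_same]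
    · intro e' _ h
      rw [Pi.single_eq_of_ne h, map_zero, zero_mul]
    · intro h
      exact absurd (Finset.mem_univ e) h

private theorem L1a_deg {k : Type} [Field k] {D D' n : ℕ} {P P' H : k[X]} (hP : P ∈ degreeLT k D)
    (hP' : P' ∈ degreeLT k D') (hH : H.natDegree ≤ n) : P * P' * H ∈ degreeLT k (D + D' + n) := by
  rw [mem_degreeLT] at hP hP' ⊢
  by_cases h0 : P = 0
  · rw [h0, zero_mul, zero_mul, degree_zero]
    exact WithBot.bot_lt_coe _
  by_cases h0' : P' = 0
  · rw [h0', mul_zero, zero_mul, degree_zero]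
    exact WithBot.bot_lt_coe _
  have h1 : P.natDegree < D := (natDegree_lt_iff_degree_lt h0).2 hP
  have h2 : P'.natDegree < D' := (natDegree_lt_iff_degree_lt h0').2 hP'
  refine lt_of_le_of_lt degree_le_natDegree ?_
  rw [Nat.cast_lt]
  have h3 : (P * P' * H).natDegree ≤ (P * P').natDegree + H.natDegree := natDegree_mul_le
  have h4 : (P * P').natDegree ≤ P.natDegree + P'.natDegree := natDegree_mul_le
  omega

private theorem L1a_ff {k : Type} [Field k] {d : ℕ} (hd : 1 ≤ d) (r s : k) : (ff d r s).natDegree ≤ d := by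
  unfold ff
  have h1 : ((X - C r) * (X - C s) ^ (d - 1) : k[X]).natDegree ≤
      (X - C r : k[X]).natDegree + ((X - C s) ^ (d - 1) : k[X]).natDegree := natDegree_mul_le
  have h2 : ((X - C s) ^ (d - 1) : k[X]).natDegree ≤ (d - 1) * (X - C s : k[X]).natDegree := natDegree_pow_le
  rw [natDegree_X_sub_C] at h1 h2
  omega

theorem La1_mul {k : Type} [Field k] {d K : ℕ} (hd : 1 ≤ d) {r s : Fin K → k} {x₀ : k}
    (w : Fin K → PowerSeries k) (hw : ∀ j, w j ^ d = sb x₀ (ff d (r j) (s j))) {D D' : ℕ}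
    {B B' : PowerSeries k} (h : B ∈ La1 x₀ w d D) (h' : B' ∈ La1 x₀ w d D') :
    B * B' ∈ La1 x₀ w d (D + D' + K * d) := by
  classical
  obtain ⟨G, hG, rfl⟩ := h
  obtain ⟨G', hG', rfl⟩ := h'
  rw [Finset.sum_mul_sum]
  refine Submodule.sum_mem _ fun e _ => Submodule.sum_mem _ fun e' _ => ?_
  set e'' : Fin K → Fin d := fun j => ⟨((e j : ℕ) + (e' j : ℕ)) % d, Nat.mod_lt _ hd⟩ with he''
  set H : k[X] := ∏ j, (if d ≤ (e j : ℕ) + (e' j : ℕ) then ff d (r j) (s j) else 1) with hH
  have h1 : (∏ j, w j ^ (e j : ℕ)) * ∏ j, w j ^ (e' j : ℕ) = sb x₀ H * ∏ j, w j ^ (e'' j : ℕ) := by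
    rw [hH, map_prod, ← Finset.prod_mul_distrib, ← Finset.prod_mul_distrib]
    refine Finset.prod_congr rfl fun j _ => ?_
    have hj := (e j).2
    have hj' := (e' j).2
    rw [← pow_add]
    by_cases hc : d ≤ (e j : ℕ) + (e' j : ℕ)
    · rw [if_pos hc, ← hw j, ← pow_add]
      congr 1
      show (e j : ℕ) + (e' j : ℕ) = d + ((e j : ℕ) + (e' j : ℕ)) % d
      rw [Nat.mod_eq_sub_mod hc, Nat.mod_eq_of_lt (by omega)]
      omega
    · rw [if_neg hc, map_one, one_mul]
      congr 1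
      show (e j : ℕ) + (e' j : ℕ) = ((e j : ℕ) + (e' j : ℕ)) % d
      rw [Nat.mod_eq_of_lt (by omega)]
  have h2 : sb x₀ (G e) * (∏ j, w j ^ (e j : ℕ)) * (sb x₀ (G' e') * ∏ j, w j ^ (e' j : ℕ)) =
      sb x₀ (G e * G' e' * H) * ∏ j, w j ^ (e'' j : ℕ) := by
    rw [map_mul, map_mul]
    calc sb x₀ (G e) * (∏ j, w j ^ (e j : ℕ)) * (sb x₀ (G' e') * ∏ j, w j ^ (e' j : ℕ))
        = sb x₀ (G e) * sb x₀ (G' e') * ((∏ j, w j ^ (e j : ℕ)) * ∏ j, w j ^ (e' j : ℕ)) := by ring
      _ = _ := by rw [h1]; ring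
  rw [h2]
  refine L1a_single w _ (L1a_deg (hG e) (hG' e') ?_) e''
  rw [hH]
  refine (natDegree_prod_le _ _).trans ?_
  calc ∑ j : Fin K, (if d ≤ (e j : ℕ) + (e' j : ℕ) then ff d (r j) (s j) else 1).natDegree
      ≤ ∑ j : Fin K, d := by
        refine Finset.sum_le_sum fun j _ => ?_
        split_ifs
        · exact L1a_ff hd _ _
        · rw [natDegree_one]
          exact Nat.zero_le _
    _ = K * d := by rw [Finset.sum_const, Finset.card_univ, Fintype.card_fin, smul_eq_mul]

end GPC
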