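import Pool.Agent.Lib.MP_56e792_co.S.Defs2
import Pool.Agent.Lib.MP_56e792_co.S.L1a

/-!
# MP_56e792_co, phase 2 (fixed characteristic), module Ze1

Copy of Zer (zero_est). `T = order B`, `D1 := T`: `B * La1 D1` and `t^i`, `i < T`, are independent in `La1 (D + D1 + K d)`: `T + d^K D1 ≤ d^K (D + D1 + K d)`.
-/

set_option autoImplicit false
set_option linter.unusedVariables false

namespace GPC

open Polynomial
open Pool.Agent.Lib.MP_56e792_co (J mem_J GP)

/-- `sb x₀ (X - C x₀)` is the variable -/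
private theorem ze1_t {k : Type} [Field k] (x₀ : k) : sb x₀ (X - C x₀) = PowerSeries.X := by
  rw [sb, map_sub, aeval_X, aeval_C]
  have h2 : algebraMap k (PowerSeries k) x₀ = PowerSeries.C x₀ := rfl
  rw [h2]
  ring

private theorem ze1_pow {k : Type} [Field k] (x₀ : k) {K d : ℕ} (hd : 1 ≤ d)
    (w : Fin K → PowerSeries k) {D i : ℕ} (hi : i < D) :
    (PowerSeries.X ^ i : PowerSeries k) ∈ La1 x₀ w d D := by
  classical
  let e0 : Fin K → Fin d := fun _ => ⟨0, hd⟩
  refine ⟨fun e => if e = e0 then (X - C x₀) ^ i else 0, fun e => ?_, ?_⟩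
  · dsimp only
    split_ifs with h
    · rw [mem_degreeLT]
      have h1 : ((X - C x₀ : k[X]) ^ i).degree ≤ (i : WithBot ℕ) := by
        rw [degree_pow, degree_X_sub_C, nsmul_one]
      exact lt_of_le_of_lt h1 (by exact_mod_cast hi)
    · exact (degreeLT k D).zero_mem
  · rw [Finset.sum_eq_single e0]
    · dsimp only
      rw [if_pos rfl, map_pow, ze1_t]
      simp [e0]
    · intro e _ he
      dsimp only
      rw [if_neg he, map_zero, zero_mul]
    · intro h
      exact absurd (Finset.mem_univ _) h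

theorem zero_est1 {k : Type} [Field k] [IsAlgClosed k] {d K : ℕ} {r s : Fin K → k}
    (hD : Dat d K r s) {x₀ : k} (w : Fin K → PowerSeries k)
    (hw : ∀ j, w j ^ d = sb x₀ (ff d (r j) (s j))) {D : ℕ} {B : PowerSeries k}
    (hB : B ∈ La1 x₀ w d D) (hB0 : B ≠ 0) :
    B.order ≤ ((d ^ K * (D + K * d) : ℕ) : ℕ∞) := by
  classical
  have hl : 1 ≤ d := le_trans one_le_two hD.hd
  set T : ℕ := B.order.toNat with hT
  have hTo : B.order = (T : ℕ∞) := (PowerSeries.coe_toNat_order hB0).symm
  rw [hTo, Nat.cast_le]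
  set D2 : ℕ := D + T + K * d with hD2
  have hdvd : (PowerSeries.X : PowerSeries k) ^ T ∣ B := PowerSeries.X_pow_order_dvd
  have := La1_fin x₀ w d T
  have := La1_fin x₀ w d D2
  let Φ : La1 x₀ w d D2 →ₗ[k] (Fin T → k) :=
    LinearMap.pi fun i => (PowerSeries.coeff (R := k) (i : ℕ)).comp (La1 x₀ w d D2).subtype
  have hmem : ∀ v : La1 x₀ w d T, B * (v : PowerSeries k) ∈ La1 x₀ w d D2 := by
    intro v
    exact La1_mul hl w hw hB v.2
  let m1 : La1 x₀ w d T →ₗ[k] La1 x₀ w d D2 :=
    ((LinearMap.mulLeft k B).comp (La1 x₀ w d T).subtype).codRestrict (La1 x₀ w d D2) hmem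
  have hker : ∀ v : La1 x₀ w d T, m1 v ∈ LinearMap.ker Φ := by
    intro v
    rw [LinearMap.mem_ker]
    funext i
    change PowerSeries.coeff (R := k) (i : ℕ) (B * (v : PowerSeries k)) = 0
    exact PowerSeries.X_pow_dvd_iff.1 (hdvd.mul_right _) i i.2
  let m2 : La1 x₀ w d T →ₗ[k] LinearMap.ker Φ := m1.codRestrict (LinearMap.ker Φ) hker
  have hinj : Function.Injective m2 := by
    intro v v' h
    have h1 : B * (v : PowerSeries k) = B * (v' : PowerSeries k) :=
      congrArg (fun x : LinearMap.ker Φ => ((x : La1 x₀ w d D2) : PowerSeries k)) h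
    exact Subtype.ext (mul_left_cancel₀ hB0 h1)
  have h1 : Module.finrank k (La1 x₀ w d T) ≤ Module.finrank k (LinearMap.ker Φ) :=
    LinearMap.finrank_le_finrank_of_injective hinj
  have hsurj : Function.Surjective Φ := by
    intro c
    have hX : ∀ i : Fin T, (PowerSeries.X ^ (i : ℕ) : PowerSeries k) ∈ La1 x₀ w d D2 := by
      intro i
      have := i.2
      exact ze1_pow x₀ hl w (by omega)
    refine ⟨⟨∑ i : Fin T, c i • (PowerSeries.X ^ (i : ℕ) : PowerSeries k),
      Submodule.sum_mem _ fun i _ => Submodule.smul_mem _ _ (hX i)⟩, ?_⟩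
    funext j
    change PowerSeries.coeff (R := k) (j : ℕ) (∑ i : Fin T, c i • (PowerSeries.X ^ (i : ℕ) : PowerSeries k)) = c j
    rw [map_sum, Finset.sum_eq_single j]
    · rw [map_smul, PowerSeries.coeff_X_pow, if_pos rfl, smul_eq_mul, mul_one]
    · intro i _ hi
      rw [map_smul, PowerSeries.coeff_X_pow, if_neg (fun h => hi (Fin.ext h.symm)), smul_zero]
    · intro h
      exact absurd (Finset.mem_univ _) h
  have h2 := LinearMap.finrank_range_add_finrank_ker Φ
  rw [LinearMap.range_eq_top.2 hsurj, finrank_top, Module.finrank_fin_fun] at h2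
  have h3 := La1_finrank hD w hw T
  have h4 := La1_finrank hD w hw D2
  -- arithmetic
  have h5 : d ^ K * D2 = d ^ K * T + d ^ K * (D + K * d) := by
    rw [hD2]
    ring
  omega

end GPC
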