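import Pool.Agent.Lib.MP_56e792_co.S.Defs2
import Pool.Agent.Lib.MP_56e792_co.S.Ze1
import Pool.Agent.Lib.MP_56e792_co.S.Nvn
import Pool.Agent.Lib.MP_56e792_co.S.N1a
import Pool.Agent.Lib.MP_56e792_co.S.N1b
import Pool.Agent.Lib.MP_56e792_co.S.Rot

/-!
# MP_56e792_co, phase 2 (fixed characteristic), module Nv1

Copy of Non (nonvan). `x₀` different from all `r j`, `s j` (`k` infinite); `w j` with `w j ^ d = sb x₀ (ff ..)` (`root_unit`). `q = p^n`, `M = p^μ`. Multiply by `∏ sb (X - s j)^((d-1)^2 m)`, `non1_id`: `∑_{e,i} A (e,i) * (zz1 e * ∑_b lam' (e,i,b) • sb X^b)^q = 0`, `A (e,i) = sb (X^(i M) * RS e c) * zz1 e`, `lam'^q = lam`.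
`nv` with `non1_ind`, `non1_mem` (`D = M R`; `i M < M R`), `zero_est1`, `hq`; `zz1 e ≠ 0`.
-/

set_option autoImplicit false
set_option linter.unusedVariables false

namespace GPC

open Polynomial
open Pool.Agent.Lib.MP_56e792_co (J mem_J GP)

private theorem nv1_sb_lin {k : Type} [Field k] (x₀ a : k) :
    PowerSeries.constantCoeff (sb x₀ (X - C a)) = x₀ - a := by
  unfold sb
  rw [map_sub, aeval_X, aeval_C, PowerSeries.algebraMap_apply]
  simp

private theorem nv1_sb_eq {k : Type} [Field k] (x₀ : k) (P : k[X]) :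
    sb x₀ P = ((P.comp (X + C x₀) : k[X]) : PowerSeries k) := by
  induction P using Polynomial.induction_on' with
  | add p q hp hq => rw [map_add, hp, hq, add_comp, Polynomial.coe_add]
  | monomial n a =>
    unfold sb
    rw [aeval_monomial, monomial_comp, Polynomial.coe_mul, Polynomial.coe_pow, Polynomial.coe_add,
      Polynomial.coe_X, Polynomial.coe_C, Polynomial.coe_C, PowerSeries.algebraMap_apply,
      add_comm PowerSeries.X]
    rfl

private theorem nv1_sb_inj {k : Type} [Field k] (x₀ : k) {P : k[X]} (h : sb x₀ P = 0) : P = 0 := by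
  rw [nv1_sb_eq] at h
  have h1 : P.comp (X + C x₀) = 0 := by
    apply Polynomial.coe_injective k
    rw [h, Polynomial.coe_zero]
  have h2 : Polynomial.taylor x₀ P = 0 := by
    rw [Polynomial.taylor_apply, h1]
  exact (Polynomial.taylor_injective x₀) (by rw [h2, map_zero])

theorem nonvan1 {k : Type} [Field k] [IsAlgClosed k] {p : ℕ} [Fact p.Prime] [CharP k p]
    {d K : ℕ} {r s : Fin K → k} (hD : Dat d K r s) {μ n m c R B : ℕ} (hm : d * m = p ^ n + 1)
    (hq : d ^ K * (p ^ μ * R + K * d * c + K * d + K * d) < p ^ n)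
    (lam : (Fin K → Fin d) × Fin R × Fin B → k)
    (h : ∑ x : (Fin K → Fin d) × Fin R × Fin B, lam x • (X ^ ((x.2.1 : ℕ) * p ^ μ) *
      RS d r s x.1 (m + c) * X ^ ((x.2.2 : ℕ) * p ^ n)) = 0) : lam = 0 := by
  classical
  have hp : p.Prime := Fact.out
  have hd2 := hD.hd
  have : Infinite k := IsAlgClosed.instInfinite
  obtain ⟨x₀, hx₀⟩ := Infinite.exists_notMem_finset
    (Finset.univ.image r ∪ Finset.univ.image s)
  have hxr : ∀ j, x₀ - r j ≠ 0 := by
    intro j h0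
    apply hx₀
    rw [Finset.mem_union]
    left
    rw [sub_eq_zero.mp h0]
    exact Finset.mem_image_of_mem r (Finset.mem_univ j)
  have hxs : ∀ j, x₀ - s j ≠ 0 := by
    intro j h0
    apply hx₀
    rw [Finset.mem_union]
    right
    rw [sub_eq_zero.mp h0]
    exact Finset.mem_image_of_mem s (Finset.mem_univ j)
  have hf0 : ∀ j, PowerSeries.constantCoeff (sb x₀ (ff d (r j) (s j))) ≠ 0 := by
    intro j
    unfold ff
    rw [map_mul, map_pow, map_mul, map_pow, nv1_sb_lin, nv1_sb_lin]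
    exact mul_ne_zero (hxr j) (pow_ne_zero _ (hxs j))
  have hs0 : ∀ j, sb x₀ (X - C (s j)) ≠ 0 := by
    intro j h0
    have := nv1_sb_lin x₀ (s j)
    rw [h0, map_zero] at this
    exact hxs j this.symm
  have hex : ∀ j, ∃ v : PowerSeries k, v ^ d = sb x₀ (ff d (r j) (s j)) := fun j =>
    root_unit hD.hk _ (hf0 j)
  choose w hw using hex
  have hw0 : ∀ j, w j ≠ 0 := by
    intro j h0
    have h1 := hw j
    rw [h0, zero_pow (by omega)] at h1
    exact hf0 j (by rw [← h1, map_zero])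
  have hzz : ∀ e, zz1 x₀ d w s e ≠ 0 := by
    intro e
    unfold zz1
    exact Finset.prod_ne_zero_iff.mpr fun j _ =>
      mul_ne_zero (pow_ne_zero _ (hw0 j)) (pow_ne_zero _ (hs0 j))
  -- the roots of the coefficients
  have hroot : ∀ x, ∃ z : k, z ^ (p ^ n) = lam x := fun x =>
    IsAlgClosed.exists_pow_nat_eq (lam x) (pow_pos hp.pos n)
  choose lam' hlam' using hroot
  let A : (Fin K → Fin d) × Fin R → PowerSeries k := fun x =>
    sb x₀ (X ^ ((x.2 : ℕ) * p ^ μ) * RS d r s x.1 c) * zz1 x₀ d w s x.1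
  let G : (Fin K → Fin d) × Fin R → PowerSeries k := fun x =>
    zz1 x₀ d w s x.1 * ∑ b : Fin B, lam' (x.1, x.2, b) • sb x₀ (X ^ (b : ℕ))
  have : CharP (PowerSeries k) p :=
    charP_of_injective_algebraMap (algebraMap k (PowerSeries k)).injective p
  have hsum : ∑ x, A x * G x ^ (p ^ n) = 0 := by
    have h1 := congrArg (sb x₀) h
    rw [map_sum, map_zero] at h1
    have h2 : ∀ x : (Fin K → Fin d) × Fin R × Fin B,
        sb x₀ (lam x • (X ^ ((x.2.1 : ℕ) * p ^ μ) *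
          RS d r s x.1 (m + c) * X ^ ((x.2.2 : ℕ) * p ^ n))) *
          ∏ j, sb x₀ (X - C (s j)) ^ ((d - 1) ^ 2 * m) =
        A (x.1, x.2.1) * (zz1 x₀ d w s x.1 *
          (lam' (x.1, x.2.1, x.2.2) • sb x₀ (X ^ (x.2.2 : ℕ)))) ^ (p ^ n) := by
      intro x
      have h3 := non1_id (by omega : 1 ≤ d) hm w hw x.1 c
      have e1 : sb x₀ (lam x • (X ^ ((x.2.1 : ℕ) * p ^ μ) *
          RS d r s x.1 (m + c) * X ^ ((x.2.2 : ℕ) * p ^ n))) =
          lam x • (sb x₀ (X ^ ((x.2.1 : ℕ) * p ^ μ)) * sb x₀ (RS d r s x.1 (m + c)) *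
            sb x₀ (X ^ (x.2.2 : ℕ)) ^ (p ^ n)) := by
        rw [map_smul, map_mul, map_mul, ← map_pow (sb x₀) (X ^ (x.2.2 : ℕ)), ← pow_mul]
      have e2 : A (x.1, x.2.1) = sb x₀ (X ^ ((x.2.1 : ℕ) * p ^ μ)) * sb x₀ (RS d r s x.1 c) *
          zz1 x₀ d w s x.1 := by
        change sb x₀ (X ^ ((x.2.1 : ℕ) * p ^ μ) * RS d r s x.1 c) * zz1 x₀ d w s x.1 = _
        rw [map_mul]
      have e3 : (zz1 x₀ d w s x.1 *
          (lam' (x.1, x.2.1, x.2.2) • sb x₀ (X ^ (x.2.2 : ℕ)))) ^ (p ^ n) =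
          lam x • (zz1 x₀ d w s x.1 ^ (p ^ n) * sb x₀ (X ^ (x.2.2 : ℕ)) ^ (p ^ n)) := by
        rw [mul_smul_comm, _root_.smul_pow, hlam', mul_pow]
      rw [e1, e2, e3, smul_mul_assoc, mul_smul_comm]
      congr 1
      calc sb x₀ (X ^ ((x.2.1 : ℕ) * p ^ μ)) * sb x₀ (RS d r s x.1 (m + c)) *
            sb x₀ (X ^ (x.2.2 : ℕ)) ^ (p ^ n) * ∏ j, sb x₀ (X - C (s j)) ^ ((d - 1) ^ 2 * m)
          = sb x₀ (X ^ ((x.2.1 : ℕ) * p ^ μ)) * sb x₀ (X ^ (x.2.2 : ℕ)) ^ (p ^ n) *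
              (sb x₀ (RS d r s x.1 (m + c)) *
                ∏ j, sb x₀ (X - C (s j)) ^ ((d - 1) ^ 2 * m)) := by ring
        _ = sb x₀ (X ^ ((x.2.1 : ℕ) * p ^ μ)) * sb x₀ (X ^ (x.2.2 : ℕ)) ^ (p ^ n) *
              (sb x₀ (RS d r s x.1 c) * zz1 x₀ d w s x.1 *
                zz1 x₀ d w s x.1 ^ (p ^ n)) := by rw [h3]
        _ = _ := by ring
    have h4 : ∑ x : (Fin K → Fin d) × Fin R × Fin B,
        A (x.1, x.2.1) * (zz1 x₀ d w s x.1 *
          (lam' (x.1, x.2.1, x.2.2) • sb x₀ (X ^ (x.2.2 : ℕ)))) ^ (p ^ n) = 0 := by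
      rw [← Finset.sum_congr rfl fun x _ => h2 x, ← Finset.sum_mul, h1, zero_mul]
    rw [Fintype.sum_prod_type] at h4
    rw [Fintype.sum_prod_type, ← h4]
    refine Finset.sum_congr rfl fun S _ => ?_
    rw [Fintype.sum_prod_type]
    refine Finset.sum_congr rfl fun i _ => ?_
    change A (S, i) * (zz1 x₀ d w s S *
        ∑ b : Fin B, lam' (S, i, b) • sb x₀ (X ^ (b : ℕ))) ^ (p ^ n) =
      ∑ y : Fin B, A (S, i) * (zz1 x₀ d w s S * (lam' (S, i, y) • sb x₀ (X ^ (y : ℕ)))) ^ (p ^ n)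
    rw [← Finset.mul_sum, Finset.mul_sum, sum_pow_char_pow]
  have hA : ∀ c' : (Fin K → Fin d) × Fin R → k, c' ≠ 0 →
      (∑ x, c' x • A x).order < ((p ^ n : ℕ) : ℕ∞) := by
    intro c' hc'
    obtain ⟨x, hx⟩ := Function.ne_iff.mp hc'
    have hR : 1 ≤ R := by
      have := x.2.2
      omega
    have hM : 1 ≤ p ^ μ := Nat.one_le_pow _ _ hp.pos
    have hne : ∑ x, c' x • A x ≠ 0 := by
      intro h0
      exact hc' (non1_ind hD w hw hM c' h0)
    have hmem : ∑ x, c' x • A x ∈ La1 x₀ w d (p ^ μ * R + K * d * c + K * d) := by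
      refine Submodule.sum_mem _ fun x _ => Submodule.smul_mem _ _ ?_
      refine non1_mem (Nat.mul_pos hM hR) w x.1 ?_
      rw [mem_degreeLT, degree_X_pow]
      have : (x.2 : ℕ) * p ^ μ < p ^ μ * R := by
        rw [mul_comm]
        exact Nat.mul_lt_mul_of_pos_left x.2.2 hM
      exact_mod_cast this
    refine lt_of_le_of_lt (zero_est1 hD w hw hmem hne) ?_
    exact_mod_cast hq
  have hG := nv A G hA hsum
  funext x
  have h5 := hG (x.1, x.2.1)
  change zz1 x₀ d w s x.1 * ∑ b : Fin B, lam' (x.1, x.2.1, b) • sb x₀ (X ^ (b : ℕ)) = 0 at h5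
  have h6 := (mul_eq_zero.mp h5).resolve_left (hzz x.1)
  have h7 : sb x₀ (∑ b : Fin B, lam' (x.1, x.2.1, b) • X ^ (b : ℕ)) = 0 := by
    rw [map_sum, ← h6]
    exact Finset.sum_congr rfl fun b _ => map_smul _ _ _
  have h8 := nv1_sb_inj x₀ h7
  have h9 := congrArg (fun P => Polynomial.coeff P (x.2.2 : ℕ)) h8
  have h10 : lam' (x.1, x.2.1, x.2.2) = 0 := by
    simp only [finsetSum_coeff, coeff_smul, coeff_X_pow, coeff_zero, smul_eq_mul, mul_ite, mul_one,
      mul_zero] at h9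
    rw [Finset.sum_eq_single x.2.2] at h9
    · simpa using h9
    · intro b _ hb
      rw [if_neg]
      intro h0
      exact hb (Fin.ext h0.symm)
    · intro h0
      exact absurd (Finset.mem_univ _) h0
  rw [← hlam' x]
  change lam' (x.1, x.2.1, x.2.2) ^ (p ^ n) = 0
  rw [h10, zero_pow (pow_pos hp.pos n).ne']

end GPC
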