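import Pool.Agent.Lib.MP_56e792_co.S.Defs2
import Pool.Agent.Lib.MP_56e792_co.S.Nv1

/-!
# MP_56e792_co, phase 2 (fixed characteristic), module St1

Univariate Stepanov (GPC2.md). `Φ0 lam := ∑ lam x * ∏_j ζ j^(e j) • (X^(i M) * RS e c * (al X + be)^b * (ga X + de)^(B-1-b))`, of degree `< M R + K d c + B`; the number of unknowns is `d^K R B`, so there is `lam ≠ 0` with `Φ0 = 0` (`h1`). `Φ := ∑ lam x • (X^(i M) * RS e (m+c) * X^(b q))`; for `x ∈ T`:
`(ga x + de)^(B-1) Φ(x) = ∏_j (x - s j)^((d-1) m) Φ0(x) = 0`, so `Φ(x) = 0`. `Φ = Ψ^M`, `Ψ = ∑ lam^(1/M) X^i RS e ((m+c)/M) X^(b q/M)` of degree `≤ (R-1) + K (d-1) (m+c)/M + (B-1) q/M`, `Ψ ≠ 0` by `nonvan1`, `Ψ = 0` on `T`: `T.card ≤ natDegree Ψ` (`card_roots'`). Multiply by `M`.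
-/

set_option autoImplicit false
set_option linter.unusedVariables false

namespace GPC

open Polynomial
open Pool.Agent.Lib.MP_56e792_co (J mem_J GP)

private theorem st1_deg {k : Type} [Field k] {K : ℕ} (d : ℕ) (r s : Fin K → k)
    (e : Fin K → Fin d) (n : ℕ) : (RS d r s e n).natDegree ≤ K * ((d - 1) * n) := by
  unfold RS
  refine (natDegree_prod_le _ _).trans ?_
  have h : ∀ j ∈ (Finset.univ : Finset (Fin K)),
      ((X - C (r j)) ^ ((e j : ℕ) * n) * (X - C (s j)) ^ ((d - 1 - (e j : ℕ)) * n) : k[X]).natDegree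
        ≤ (d - 1) * n := by
    intro j _
    refine natDegree_mul_le.trans ?_
    have h1 : ((X - C (r j) : k[X]) ^ ((e j : ℕ) * n)).natDegree ≤ (e j : ℕ) * n := by
      refine natDegree_pow_le.trans ?_
      rw [natDegree_X_sub_C, mul_one]
    have h2 : ((X - C (s j) : k[X]) ^ ((d - 1 - (e j : ℕ)) * n)).natDegree ≤
        (d - 1 - (e j : ℕ)) * n := by
      refine natDegree_pow_le.trans ?_
      rw [natDegree_X_sub_C, mul_one]
    have h3 : (e j : ℕ) * n + (d - 1 - (e j : ℕ)) * n = (d - 1) * n := by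
      rw [← add_mul]
      congr 1
      have := (e j).isLt
      omega
    omega
  refine (Finset.sum_le_sum h).trans ?_
  rw [Finset.sum_const, Finset.card_univ, Fintype.card_fin, smul_eq_mul]

private theorem st1_eval {k : Type} [Field k] {K : ℕ} (d : ℕ) (r s : Fin K → k)
    (e : Fin K → Fin d) (m c : ℕ) (ζ : Fin K → k) (x : k)
    (hζ : ∀ j, (x - r j) ^ m = ζ j * (x - s j) ^ m) :
    eval x (RS d r s e (m + c)) =
      (∏ j, (x - s j) ^ ((d - 1) * m)) * ((∏ j, ζ j ^ (e j : ℕ)) * eval x (RS d r s e c)) := by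
  unfold RS
  rw [eval_prod, eval_prod, ← Finset.prod_mul_distrib, ← Finset.prod_mul_distrib]
  refine Finset.prod_congr rfl fun j _ => ?_
  simp only [eval_mul, eval_pow, eval_sub, eval_X, eval_C]
  have h3 : (d - 1) * m = (e j : ℕ) * m + (d - 1 - (e j : ℕ)) * m := by
    rw [← add_mul]
    congr 1
    have := (e j).isLt
    omega
  have h4 : (x - r j) ^ ((e j : ℕ) * m) = ζ j ^ (e j : ℕ) * (x - s j) ^ ((e j : ℕ) * m) := by
    rw [mul_comm (e j : ℕ) m, pow_mul, hζ j, mul_pow, ← pow_mul]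
  rw [h3, mul_add, mul_add, pow_add, pow_add, pow_add, h4]
  ring

private theorem st1_pig {k : Type} [Field k] {ι : Type} [Fintype ι] (D : ℕ) (v : ι → k[X])
    (hv : ∀ x, (v x).natDegree < D) (hc : D < Fintype.card ι) :
    ∃ lam : ι → k, lam ≠ 0 ∧ ∑ x, lam x • v x = 0 := by
  classical
  have hD : 0 < D := by
    by_contra h
    have h0 : D = 0 := by omega
    subst h0
    obtain ⟨x⟩ : Nonempty ι := Fintype.card_pos_iff.1 hc
    exact absurd (hv x) (by omega)
  have hmem : ∀ x, v x ∈ degreeLT k D := by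
    intro x
    rw [mem_degreeLT]
    exact (degree_le_natDegree).trans_lt (by exact_mod_cast hv x)
  let v' : ι → degreeLT k D := fun x => ⟨v x, hmem x⟩
  have hfin : Module.finrank k (degreeLT k D) = D := by
    rw [(degreeLTEquiv k D).finrank_eq, Module.finrank_fin_fun]
  have : Module.Finite k (degreeLT k D) := Module.Finite.equiv (degreeLTEquiv k D).symm
  have hnot : ¬ LinearIndependent k v' := by
    intro hli
    have := hli.fintype_card_le_finrank
    omega
  rw [Fintype.not_linearIndependent_iff] at hnot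
  obtain ⟨g, hg, i, hi⟩ := hnot
  refine ⟨g, fun h => hi (by rw [h]; rfl), ?_⟩
  have := congrArg (Subtype.val) hg
  simpa [v'] using this

theorem stepanov1 {k : Type} [Field k] [IsAlgClosed k] {p : ℕ} [Fact p.Prime] [CharP k p]
    {d K : ℕ} {r s : Fin K → k} (hD : Dat d K r s) {μ n m c R B : ℕ} (hm : d * m = p ^ n + 1)
    (hμ : μ ≤ n) (hdvd : p ^ μ ∣ m + c)
    (h1 : p ^ μ * R + K * d * c + B < d ^ K * (R * B))
    (h2 : d ^ K * (p ^ μ * R + K * d * c + K * d + K * d) < p ^ n)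
    (T : Finset k) (al be ga de : k)
    (hT : ∀ x ∈ T, x ^ p ^ n * (ga * x + de) = al * x + be ∧ ga * x + de ≠ 0)
    (ζ : Fin K → k) (hζ : ∀ x ∈ T, ∀ j, (x - r j) ^ m = ζ j * (x - s j) ^ m) :
    T.card * p ^ μ ≤ p ^ μ * R + K * d * (m + c) + B * p ^ n := by
  classical
  have hp : p.Prime := Fact.out
  have hM : 0 < p ^ μ := pow_pos hp.pos _
  have hR0 : 1 ≤ R := by
    rcases Nat.eq_zero_or_pos R with h | h
    · subst h
      simp at h1
    · exact h
  have hB0 : 1 ≤ B := by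
    rcases Nat.eq_zero_or_pos B with h | h
    · subst h
      simp at h1
    · exact h
  -- the family
  let P : (Fin K → Fin d) × Fin R × Fin B → k[X] := fun x =>
    C (∏ j, ζ j ^ (x.1 j : ℕ)) * (X ^ ((x.2.1 : ℕ) * p ^ μ) * RS d r s x.1 c *
      (C al * X + C be) ^ (x.2.2 : ℕ) * (C ga * X + C de) ^ (B - 1 - (x.2.2 : ℕ)))
  have hPdeg : ∀ x, (P x).natDegree < p ^ μ * R + K * d * c + B := by
    rintro ⟨e, i, b⟩
    have hi := i.isLt
    have hb := b.isLt
    have a0 : (P (e, i, b)).natDegree ≤ (X ^ ((i : ℕ) * p ^ μ) * RS d r s e c *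
      (C al * X + C be) ^ (b : ℕ) * (C ga * X + C de) ^ (B - 1 - (b : ℕ)) : k[X]).natDegree :=
      natDegree_C_mul_le _ _
    have a1 : (X ^ ((i : ℕ) * p ^ μ) * RS d r s e c *
      (C al * X + C be) ^ (b : ℕ) * (C ga * X + C de) ^ (B - 1 - (b : ℕ)) : k[X]).natDegree ≤
        (i : ℕ) * p ^ μ + K * ((d - 1) * c) + (b : ℕ) + (B - 1 - (b : ℕ)) := by
      refine natDegree_mul_le.trans (add_le_add (natDegree_mul_le.trans (add_le_add
        (natDegree_mul_le.trans (add_le_add (natDegree_X_pow _).le (st1_deg d r s e c))) ?_)) ?_)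
      · refine natDegree_pow_le.trans ?_
        have := natDegree_linear_le (a := al) (b := be)
        calc (b : ℕ) * _ ≤ (b : ℕ) * 1 := Nat.mul_le_mul_left _ this
          _ = b := mul_one _
      · refine natDegree_pow_le.trans ?_
        have := natDegree_linear_le (a := ga) (b := de)
        calc (B - 1 - (b : ℕ)) * _ ≤ (B - 1 - (b : ℕ)) * 1 := Nat.mul_le_mul_left _ this
          _ = _ := mul_one _
    have a2 : (i : ℕ) * p ^ μ ≤ p ^ μ * R := by
      rw [mul_comm]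
      exact Nat.mul_le_mul_left _ hi.le
    have a3 : K * ((d - 1) * c) ≤ K * d * c := by
      rw [← mul_assoc]
      exact Nat.mul_le_mul_right _ (Nat.mul_le_mul_left _ (Nat.sub_le _ _))
    omega
  obtain ⟨lam, hlam, hlam0⟩ := st1_pig _ P hPdeg (by simpa using h1)
  set Φ : k[X] := ∑ x : (Fin K → Fin d) × Fin R × Fin B, lam x • (X ^ ((x.2.1 : ℕ) * p ^ μ) *
      RS d r s x.1 (m + c) * X ^ ((x.2.2 : ℕ) * p ^ n)) with hΦ
  have hΦ0 : Φ ≠ 0 := fun h => hlam (nonvan1 hD hm h2 lam h)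
  -- the zeros
  have hzero : ∀ x ∈ T, eval x Φ = 0 := by
    intro x hx
    obtain ⟨t1, t2⟩ := hT x hx
    have e1 : (ga * x + de) ^ (B - 1) * eval x Φ = (∏ j, (x - s j) ^ ((d - 1) * m)) *
        eval x (∑ y, lam y • P y) := by
      rw [hΦ, eval_finsetSum, eval_finsetSum, Finset.mul_sum, Finset.mul_sum]
      refine Finset.sum_congr rfl fun y _ => ?_
      obtain ⟨e, i, b⟩ := y
      simp only [P, eval_smul, eval_mul, eval_pow, eval_add, eval_X, eval_C, smul_eq_mul]
      rw [st1_eval d r s e m c ζ x (hζ x hx)]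
      have e2 : (ga * x + de) ^ (B - 1) * x ^ ((b : ℕ) * p ^ n) =
          (al * x + be) ^ (b : ℕ) * (ga * x + de) ^ (B - 1 - (b : ℕ)) := by
        have e3 : B - 1 = b + (B - 1 - b) := by
          have := b.isLt
          omega
        have e4 : x ^ ((b : ℕ) * p ^ n) = (x ^ p ^ n) ^ (b : ℕ) := by
          rw [mul_comm, pow_mul]
        rw [← t1, e4]
        conv_lhs => rw [e3, pow_add]
        rw [mul_pow]
        ring
      linear_combination (lam (e, i, b) * x ^ ((i : ℕ) * p ^ μ) *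
        ((∏ j, (x - s j) ^ ((d - 1) * m)) * ((∏ j, ζ j ^ (e j : ℕ)) * eval x (RS d r s e c)))) * e2
    rw [hlam0, eval_zero, mul_zero] at e1
    exact (mul_eq_zero.1 e1).resolve_left (pow_ne_zero _ t2)
  -- the root
  obtain ⟨e', he'⟩ := hdvd
  have hroot : ∀ x, ∃ y : k, y ^ p ^ μ = lam x := fun x => IsAlgClosed.exists_pow_nat_eq _ hM
  choose lam' hlam' using hroot
  set Ψ : k[X] := ∑ x : (Fin K → Fin d) × Fin R × Fin B, C (lam' x) * (X ^ (x.2.1 : ℕ) *
      RS d r s x.1 e' * X ^ ((x.2.2 : ℕ) * p ^ (n - μ))) with hΨ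
  have hΨΦ : Ψ ^ p ^ μ = Φ := by
    rw [hΨ, hΦ, sum_pow_char_pow]
    refine Finset.sum_congr rfl fun x _ => ?_
    obtain ⟨e, i, b⟩ := x
    have f1 : RS d r s e (m + c) = RS d r s e e' ^ p ^ μ := by
      unfold RS
      rw [he', ← Finset.prod_pow]
      refine Finset.prod_congr rfl fun j _ => ?_
      rw [mul_pow, ← pow_mul, ← pow_mul]
      congr 2 <;> ring
    have f2 : p ^ n = p ^ (n - μ) * p ^ μ := by rw [← pow_add, Nat.sub_add_cancel hμ]
    rw [mul_pow, ← C_pow, hlam', mul_pow, mul_pow, ← pow_mul, ← pow_mul, f1, smul_eq_C_mul]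
    congr 3
    rw [f2]
    ring
  have hΨ0 : Ψ ≠ 0 := by
    intro h
    apply hΦ0
    rw [← hΨΦ, h, zero_pow hM.ne']
  have hdeg : Ψ.natDegree ≤ (R - 1) + K * ((d - 1) * e') + (B - 1) * p ^ (n - μ) := by
    rw [hΨ]
    refine natDegree_sum_le_of_forall_le _ _ fun x _ => ?_
    obtain ⟨e, i, b⟩ := x
    refine (natDegree_C_mul_le _ _).trans ?_
    refine natDegree_mul_le.trans (add_le_add (natDegree_mul_le.trans (add_le_add ?_
      (st1_deg d r s e e'))) ?_)
    · rw [natDegree_X_pow]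
      have := i.isLt
      show (i : ℕ) ≤ R - 1
      omega
    · rw [natDegree_X_pow]
      refine Nat.mul_le_mul_right _ ?_
      have := b.isLt
      show (b : ℕ) ≤ B - 1
      omega
  have hsub : T ⊆ Ψ.roots.toFinset := by
    intro x hx
    rw [Multiset.mem_toFinset, mem_roots hΨ0, IsRoot.def]
    have h3 : eval x Ψ ^ p ^ μ = 0 := by
      rw [← eval_pow, hΨΦ, hzero x hx]
    exact (pow_eq_zero_iff hM.ne').1 h3
  have hcard : T.card ≤ Ψ.natDegree :=
    (Finset.card_le_card hsub).trans ((Multiset.toFinset_card_le _).trans (card_roots' _))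
  have f2 : p ^ n = p ^ (n - μ) * p ^ μ := by rw [← pow_add, Nat.sub_add_cancel hμ]
  calc T.card * p ^ μ ≤ ((R - 1) + K * ((d - 1) * e') + (B - 1) * p ^ (n - μ)) * p ^ μ :=
        Nat.mul_le_mul_right _ (hcard.trans hdeg)
    _ = p ^ μ * (R - 1) + K * (d - 1) * (p ^ μ * e') + (B - 1) * (p ^ (n - μ) * p ^ μ) := by ring
    _ = p ^ μ * (R - 1) + K * (d - 1) * (m + c) + (B - 1) * p ^ n := by rw [← he', ← f2]
    _ ≤ p ^ μ * R + K * d * (m + c) + B * p ^ n := by
        gcongr <;> omega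

end GPC
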