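import Pool.Agent.Lib.MP_56e792_co.S.Defs2
import Pool.Agent.Lib.MP_56e792_co.S.St1
import Pool.Agent.Lib.MP_56e792_co.S.Pa1

/-!
# MP_56e792_co, phase 2 (fixed characteristic), module Eq1

`parU` and `stepanov1`.
-/

set_option autoImplicit false
set_option linter.unusedVariables false

namespace GPC

open Polynomial
open Pool.Agent.Lib.MP_56e792_co (J mem_J GP)

theorem eq1 (p d K : ℕ) (hp : p.Prime) (hd : 2 ≤ d) (ε : ℝ) (hε : 0 < ε) :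
    ∃ n1 : ℕ, ∀ n ≥ n1, ∀ m : ℕ, d * m = p ^ n + 1 →
      ∀ (k : Type) [Field k] [IsAlgClosed k] [CharP k p] (r s : Fin K → k), Dat d K r s →
        ∀ (T : Finset k) (al be ga de : k),
          (∀ x ∈ T, x ^ p ^ n * (ga * x + de) = al * x + be ∧ ga * x + de ≠ 0) →
          ∀ ζ : Fin K → k, (∀ x ∈ T, ∀ j, (x - r j) ^ m = ζ j * (x - s j) ^ m) →
            (T.card : ℝ) ≤ (1 / (d : ℝ) ^ K + ε) * (p : ℝ) ^ n := by
  obtain ⟨n1, h⟩ := parU p d K hp hd ε hε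
  refine ⟨n1, fun n hn m hm k _ _ _ r s hD T al be ga de hT ζ hζ => ?_⟩
  have : Fact p.Prime := ⟨hp⟩
  obtain ⟨μ, c, R, B, hμ, hdvd, h1, h2, h3⟩ := h n hn m hm
  have h4 := stepanov1 hD hm hμ hdvd h1 h2 T al be ga de hT ζ hζ
  have h5 : ((T.card * p ^ μ : ℕ) : ℝ) ≤
      ((p ^ μ * R + K * d * (m + c) + B * p ^ n : ℕ) : ℝ) := Nat.cast_le.2 h4
  have h6 : (T.card : ℝ) * (p : ℝ) ^ μ ≤ (1 / (d : ℝ) ^ K + ε) * (p : ℝ) ^ n * (p : ℝ) ^ μ := by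
    refine le_trans (le_of_eq ?_) (h5.trans h3)
    push_cast
    ring
  have hp0 : (0 : ℝ) < (p : ℝ) ^ μ := pow_pos (Nat.cast_pos.2 hp.pos) _
  exact le_of_mul_le_mul_right h6 hp0

end GPC
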