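import Pool.Agent.Lib.MP_56e792_co.S.Defs2
import Pool.Agent.Lib.MP_56e792_co.S.Eq1

/-!
# MP_56e792_co, phase 2 (fixed characteristic), module Eq2

Equidistribution. `eq1` with `ε / (2 d^K)`: the class of each `ξ ∈ ∏_j Ξ j` (`Fintype.piFinset Ξ`, at most `d^K` of them) has at most `(1/d^K + ε/(2 d^K)) q` elements, and the classes cover `T`: the class of `ζ` has at least `q - (d^K - 1) (..)`. The upper bound is `eq1` directly. The condition `((x - r)/(x - s))^m = ζ` is `(x-r)^m = ζ (x-s)^m` (`x ≠ s`).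
-/

set_option autoImplicit false
set_option linter.unusedVariables false

namespace GPC

open Polynomial
open Pool.Agent.Lib.MP_56e792_co (J mem_J GP)

open Classical in
theorem eq2 (p d K : ℕ) (hp : p.Prime) (hd : 2 ≤ d) (ε : ℝ) (hε : 0 < ε) :
    ∃ n1 : ℕ, ∀ n ≥ n1, ∀ m : ℕ, d * m = p ^ n + 1 →
      ∀ (k : Type) [Field k] [IsAlgClosed k] [CharP k p] (r s : Fin K → k), Dat d K r s →
        ∀ (T : Finset k) (al be ga de : k), p ^ n ≤ T.card →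
          (∀ x ∈ T, x ^ p ^ n * (ga * x + de) = al * x + be ∧ ga * x + de ≠ 0) →
          (∀ x ∈ T, ∀ j, x ≠ s j) →
          ∀ Ξ : Fin K → Finset k, (∀ j, (Ξ j).card ≤ d) →
            (∀ x ∈ T, ∀ j, ((x - r j) / (x - s j)) ^ m ∈ Ξ j) →
            ∀ ζ : Fin K → k, (∀ j, ζ j ∈ Ξ j) →
              |((T.filter (fun x => ∀ j, ((x - r j) / (x - s j)) ^ m = ζ j)).card : ℝ) -
                (1 / (d : ℝ) ^ K) * (p : ℝ) ^ n| ≤ ε * (p : ℝ) ^ n := by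
  have hdr : (2 : ℝ) ≤ d := by exact_mod_cast hd
  have hN1 : (1 : ℝ) ≤ (d : ℝ) ^ K := one_le_pow₀ (by linarith)
  have hN0 : (0 : ℝ) < (d : ℝ) ^ K := by linarith
  have hε' : 0 < ε / (2 * (d : ℝ) ^ K) := by positivity
  obtain ⟨n1, h1⟩ := eq1 p d K hp hd (ε / (2 * (d : ℝ) ^ K)) hε'
  refine ⟨n1, fun n hn m hm k _ _ _ r s hD T al be ga de hT hline hs Ξ hΞ hTΞ ζ hζ => ?_⟩
  -- the classes
  let g : k → Fin K → k := fun x j => ((x - r j) / (x - s j)) ^ m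
  have hq : (0 : ℝ) < (p : ℝ) ^ n := by
    have : (0 : ℝ) < p := by exact_mod_cast hp.pos
    positivity
  have hcls : ∀ ξ : Fin K → k, ((T.filter (fun x => g x = ξ)).card : ℝ) ≤
      (1 / (d : ℝ) ^ K + ε / (2 * (d : ℝ) ^ K)) * (p : ℝ) ^ n := by
    intro ξ
    refine h1 n hn m hm k r s hD (T.filter (fun x => g x = ξ)) al be ga de
      (fun x hx => hline x (Finset.mem_filter.1 hx).1) ξ ?_
    intro x hx j
    obtain ⟨hx1, hx2⟩ := Finset.mem_filter.1 hx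
    have h2 : ((x - r j) / (x - s j)) ^ m = ξ j := congrFun hx2 j
    have h3 : x - s j ≠ 0 := sub_ne_zero.2 (hs x hx1 j)
    rw [← h2, div_pow, div_mul_cancel₀ _ (pow_ne_zero m h3)]
  have hfil : T.filter (fun x => ∀ j, ((x - r j) / (x - s j)) ^ m = ζ j) =
      T.filter (fun x => g x = ζ) := by
    refine Finset.filter_congr fun x _ => ?_
    exact funext_iff.symm
  rw [hfil]
  have hsum : T.card = ∑ ξ ∈ Fintype.piFinset Ξ, (T.filter (fun x => g x = ξ)).card :=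
    Finset.card_eq_sum_card_fiberwise (fun x hx => Fintype.mem_piFinset.2 (hTΞ x hx))
  have hζm : ζ ∈ Fintype.piFinset Ξ := Fintype.mem_piFinset.2 hζ
  have hcard : ((Fintype.piFinset Ξ).card : ℝ) ≤ (d : ℝ) ^ K := by
    have h2 : (Fintype.piFinset Ξ).card ≤ d ^ K := by
      rw [Fintype.card_piFinset]
      calc ∏ j, (Ξ j).card ≤ ∏ _j : Fin K, d := Finset.prod_le_prod' fun j _ => hΞ j
        _ = d ^ K := by simp
    exact_mod_cast h2
  have hlow : (p : ℝ) ^ n ≤ ((T.filter (fun x => g x = ζ)).card : ℝ) +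
      ((d : ℝ) ^ K - 1) * ((1 / (d : ℝ) ^ K + ε / (2 * (d : ℝ) ^ K)) * (p : ℝ) ^ n) := by
    have h2 : ((p ^ n : ℕ) : ℝ) ≤ (T.card : ℝ) := by exact_mod_cast hT
    rw [hsum, ← Finset.add_sum_erase _ _ hζm] at h2
    push_cast at h2
    have h3 : ∑ ξ ∈ (Fintype.piFinset Ξ).erase ζ, ((T.filter (fun x => g x = ξ)).card : ℝ) ≤
        ((Fintype.piFinset Ξ).erase ζ).card •
          ((1 / (d : ℝ) ^ K + ε / (2 * (d : ℝ) ^ K)) * (p : ℝ) ^ n) :=
      Finset.sum_le_card_nsmul _ _ _ fun ξ _ => hcls ξ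
    rw [nsmul_eq_mul] at h3
    have h4 : (((Fintype.piFinset Ξ).erase ζ).card : ℝ) ≤ (d : ℝ) ^ K - 1 := by
      rw [Finset.card_erase_of_mem hζm, Nat.cast_sub (Finset.card_pos.2 ⟨ζ, hζm⟩)]
      push_cast
      linarith
    have h5 : (0 : ℝ) ≤ (1 / (d : ℝ) ^ K + ε / (2 * (d : ℝ) ^ K)) * (p : ℝ) ^ n := by positivity
    have h6 := mul_le_mul_of_nonneg_right h4 h5
    linarith
  have hup := hcls ζ
  have e1 : ε / (2 * (d : ℝ) ^ K) ≤ ε := by
    rw [div_le_iff₀ (by positivity)]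
    nlinarith
  have e2 : (d : ℝ) ^ K * (ε / (2 * (d : ℝ) ^ K)) = ε / 2 := by
    field_simp
  have e3 : (d : ℝ) ^ K * (1 / (d : ℝ) ^ K) = 1 := by
    field_simp
  rw [abs_le]
  constructor
  · have h7 : ((d : ℝ) ^ K - 1) * ((1 / (d : ℝ) ^ K + ε / (2 * (d : ℝ) ^ K)) * (p : ℝ) ^ n) =
        (1 - 1 / (d : ℝ) ^ K + ε / 2 - ε / (2 * (d : ℝ) ^ K)) * (p : ℝ) ^ n := by
      calc ((d : ℝ) ^ K - 1) * ((1 / (d : ℝ) ^ K + ε / (2 * (d : ℝ) ^ K)) * (p : ℝ) ^ n)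
          = ((d : ℝ) ^ K * (1 / (d : ℝ) ^ K) + (d : ℝ) ^ K * (ε / (2 * (d : ℝ) ^ K)) -
            1 / (d : ℝ) ^ K - ε / (2 * (d : ℝ) ^ K)) * (p : ℝ) ^ n := by ring
        _ = _ := by rw [e2, e3]; ring
    rw [h7] at hlow
    have h8 : 0 ≤ ε / (2 * (d : ℝ) ^ K) * (p : ℝ) ^ n := by positivity
    have h9 : 0 ≤ ε * (p : ℝ) ^ n := by positivity
    linarith
  · have h8 := mul_le_mul_of_nonneg_right e1 hq.le
    linarith

end GPC
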