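import Pool.Agent.Lib.MP_56e792_co.S.Defs2
import Pool.Agent.Lib.MP_56e792_co.S.Eq2

/-!
# MP_56e792_co, phase 2 (fixed characteristic), module Cc0

`k = AlgebraicClosure F`, `i : F → k`. The circle has `q + 1` points (`w ↦ w^(q+1)` from the cyclic group `F*` onto the fixed field; `IsCyclic.card_powMonoidHom_ker` as in `card_fixed`, GP.lean). Choose `w1 ∈ k` not in the (finite) image of `F`, `T = {1/(w - w1)}`: `w^q = ρ/w`, so `x = 1/(w - w1)` satisfies `x^q = 1/(ρ/w - w1^q)`, a fractional linear function of `x`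
(`w = w1 + 1/x`: `x^q (ρ x - w1^q (w1 x + 1)) = w1 x + 1`). Functions (`K = A.card + 1`): `w = w1 (x + 1/w1)/x` (zero `r = -1/w1`, pole `s = 0`); for `a ∈ A`, `a* = ρ/a^q`: `(w - a*)/(w - a)`, `w - a = ((w1 - a) x + 1)/x`: `r = 1/(a* - w1)`, `s = 1/(a - w1)`. `Dat`: the `a` are distinct, not `0`, `a ≠ b*` (`hA`).
The conditions: `w^m = τ` and `f_a(w)^m = 1`, `f_a(w) = (w^q - a^q)/(w - a) = (ρ - a^q w)/(w (w - a)) = -a^q (w - a*)/(w (w-a))`: given `w^m = τ` it is `((w - a*)/(w-a))^m = τ (-a^q)^(-m)`, a constant. `Ξ`: `w^m` satisfies `z^d = ρ`, and `((w-a*)/(w-a))^m` is (fixed constant)* `w^m`*(a `d`-th root of unity): at most `d` values for the first; for the second its `d`-th power is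
`((w-a*)/(w-a))^(q+1) = const` (compute with `w^q = ρ/w`), so at most `d` values. The two prescribed values are in `Ξ` (the second: `τ^d = ρ`).
-/

set_option autoImplicit false
set_option linter.unusedVariables false

namespace GPC

open Polynomial
open Pool.Agent.Lib.MP_56e792_co (J mem_J GP)
open Pool.Agent.Lib.MP_56e792_co (char_of_card frob_sub frob_frob frob_neg dth_power_iff)

/-- the number of points of the circle -/
private theorem cc0_card {F : Type} [Field F] {q : ℕ} (hq1 : 1 < q) (hcard : Nat.card F = q ^ 2) {ρ : F}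
    (h0 : ρ ≠ 0) (hρ : ρ ^ q = ρ) : q ≤ {w : F | w ^ q * w = ρ}.ncard := by
  have hq0 : q ≠ 0 := by omega
  have : Finite F := Nat.finite_of_card_ne_zero (by rw [hcard]; exact pow_ne_zero _ hq0)
  have := Fintype.ofFinite F
  obtain ⟨w0, hw0⟩ := (dth_power_iff (m := 1) (d := q + 1) hq1 hcard (by ring) ρ h0).mp
    (by rw [pow_one, pow_one]; exact hρ)
  have hw00 : w0 ≠ 0 := by
    rintro rfl
    rw [zero_pow (by omega)] at hw0
    exact h0 hw0.symm
  have h1 : Nat.card (powMonoidHom (q + 1) : Fˣ →* Fˣ).ker = q + 1 := by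
    rw [IsCyclic.card_powMonoidHom_ker, Nat.card_units, hcard]
    have : q ^ 2 - 1 = (q + 1) * (q - 1) := by
      have : q ^ 2 - 1 = q ^ 2 - 1 ^ 2 := by simp
      rw [this, Nat.sq_sub_sq]
    rw [this, Nat.gcd_mul_right_left]
  have h2 : (fun u : Fˣ => w0 * (u : F)) '' ((powMonoidHom (q + 1) : Fˣ →* Fˣ).ker : Set Fˣ) ⊆
      {w : F | w ^ q * w = ρ} := by
    rintro _ ⟨u, hu, rfl⟩
    have h3 : u ^ (q + 1) = 1 := hu
    have h4 := congrArg (fun u : Fˣ => (u : F)) h3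
    simp only [Units.val_pow_eq_pow_val, Units.val_one] at h4
    show (w0 * (u : F)) ^ q * (w0 * u) = ρ
    rw [← pow_succ, mul_pow, h4, mul_one, hw0]
  have h5 : Function.Injective (fun u : Fˣ => w0 * (u : F)) := fun u v h =>
    Units.val_injective (mul_left_cancel₀ hw00 h)
  have h6 := Set.ncard_le_ncard h2 (Set.toFinite _)
  rw [Set.ncard_image_of_injective _ h5, ← Nat.card_coe_set_eq] at h6
  have h7 : Nat.card ((powMonoidHom (q + 1) : Fˣ →* Fˣ).ker : Set Fˣ) = q + 1 := h1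
  omega

/-- the Frobenius map on the circle -/
private theorem cc0_frob {F : Type} [Field F] {q : ℕ} (hfs : ∀ x y : F, (x - y) ^ q = x ^ q - y ^ q)
    {ρ w a : F} (hw : w ^ q * w = ρ) (ha : a ≠ 0) :
    (w - a) ^ q * w = -a ^ q * (w - ρ / a ^ q) := by
  have h1 : a ^ q ≠ 0 := pow_ne_zero _ ha
  rw [hfs, sub_mul, hw]
  field_simp
  ring

private theorem cc0_frob2 {F : Type} [Field F] {q : ℕ} (hfs : ∀ x y : F, (x - y) ^ q = x ^ q - y ^ q)
    (hff : ∀ x : F, (x ^ q) ^ q = x) {ρ w a : F} (hρ : ρ ^ q = ρ) (hw : w ^ q * w = ρ) (ha : a ≠ 0) :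
    (w - ρ / a ^ q) ^ q * w * a = -ρ * (w - a) := by
  rw [hfs, div_pow, hff, hρ, sub_mul, hw]
  field_simp
  ring

/-- the condition of `a` -/
private theorem cc0_cond {F : Type} [Field F] {q m : ℕ} (hfs : ∀ x y : F, (x - y) ^ q = x ^ q - y ^ q)
    {ρ τ w a : F} (hw : w ^ q * w = ρ) (ha : a ≠ 0) (hw0 : w ≠ 0) (hwa : w - a ≠ 0) (hτ : w ^ m = τ) :
    ((w - a) ^ q) ^ m = (w - a) ^ m ↔ ((w - ρ / a ^ q) / (w - a)) ^ m = τ / (-a ^ q) ^ m := by
  have h1 : -a ^ q ≠ 0 := neg_ne_zero.2 (pow_ne_zero _ ha)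
  have h2 : ((w - a) ^ q) ^ m * τ = (-a ^ q) ^ m * (w - ρ / a ^ q) ^ m := by
    rw [← hτ, ← mul_pow, cc0_frob hfs hw ha, mul_pow]
  have hτ0 : τ ≠ 0 := by
    rw [← hτ]
    exact pow_ne_zero _ hw0
  rw [div_pow, div_eq_div_iff (pow_ne_zero _ hwa) (pow_ne_zero _ h1), mul_comm ((w - ρ / a ^ q) ^ m), ← h2,
    mul_comm τ]
  exact (mul_left_inj' hτ0).symm

/-- the `q + 1`-st power of the function of `a` -/
private theorem cc0_pow {F : Type} [Field F] {q : ℕ} (hfs : ∀ x y : F, (x - y) ^ q = x ^ q - y ^ q)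
    (hff : ∀ x : F, (x ^ q) ^ q = x) {ρ w a : F} (hρ : ρ ^ q = ρ) (hρ0 : ρ ≠ 0) (hw : w ^ q * w = ρ) (ha : a ≠ 0)
    (hw0 : w ≠ 0) (hwa : w - a ≠ 0) (hwa' : w - ρ / a ^ q ≠ 0) :
    ((w - ρ / a ^ q) / (w - a)) ^ (q + 1) = ρ / (a ^ q * a) := by
  have e1 := cc0_frob hfs hw ha
  have e2 := cc0_frob2 hfs hff hρ hw ha
  have h1 : a ^ q ≠ 0 := pow_ne_zero _ ha
  have h2 : (w - a) ^ q ≠ 0 := pow_ne_zero _ hwa
  have h3 : (w - ρ / a ^ q) ^ q = -ρ * (w - a) / (w * a) := by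
    rw [eq_div_iff (mul_ne_zero hw0 ha), ← mul_assoc, e2]
  have h4 : (w - a) ^ q = -a ^ q * (w - ρ / a ^ q) / w := by
    rw [eq_div_iff hw0, e1]
  rw [pow_succ, div_pow, h3, h4]
  obtain ⟨z, hz⟩ : ∃ z, z = w - ρ / a ^ q := ⟨_, rfl⟩
  obtain ⟨y, hy⟩ : ∃ y, y = w - a := ⟨_, rfl⟩
  obtain ⟨b, hb⟩ : ∃ b, b = a ^ q := ⟨_, rfl⟩
  rw [← hz] at hwa' ⊢
  rw [← hy] at hwa ⊢
  rw [← hb] at h1 ⊢
  field_simp

theorem circ_count0 (p d K0 : ℕ) (hp : p.Prime) (hd : 2 ≤ d) (ε : ℝ) (hε : 0 < ε) :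
    ∃ n1 : ℕ, ∀ n ≥ n1, ∀ m : ℕ, m * d = p ^ n + 1 → ∀ (F : Type) [Field F],
      Nat.card F = (p ^ n) ^ 2 → ∀ ρ τ : F, ρ ≠ 0 → ρ ^ p ^ n = ρ → τ ^ d = ρ →
        ∀ A : Finset F, A.card ≤ K0 → 0 ∉ A → (∀ a ∈ A, ∀ b ∈ A, a ^ p ^ n * b ≠ ρ) →
          |((Set.ncard {w : F | w ^ p ^ n * w = ρ ∧ w ^ m = τ ∧
              ∀ a ∈ A, ((w - a) ^ p ^ n) ^ m = (w - a) ^ m} : ℕ) : ℝ) -
            (1 / (d : ℝ)) ^ (A.card + 1) * (p : ℝ) ^ n| ≤ ε * (p : ℝ) ^ n := by
  classical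
  choose n1 hn1 using fun K => eq2 p d K hp hd ε hε
  refine ⟨max 1 ((Finset.range (K0 + 2)).sup n1), ?_⟩
  intro n hn m hm F _ hF ρ τ hρ0 hρ hτ A hA hA0 hAρ
  have hn0 : 1 ≤ n := (le_max_left _ _).trans hn
  have hnK : n1 (A.card + 1) ≤ n := (Finset.le_sup (f := n1) (Finset.mem_range.mpr (by omega))).trans
    ((le_max_right _ _).trans hn)
  have hq1 : 1 < p ^ n := Nat.one_lt_pow (by omega) hp.one_lt
  have hq0 : p ^ n ≠ 0 := by omega
  obtain ⟨hfin, hchar⟩ := char_of_card (F := F) hp rfl hF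
  have hfs : ∀ x y : F, (x - y) ^ (p ^ n) = x ^ (p ^ n) - y ^ (p ^ n) := frob_sub hp rfl hF
  have hff : ∀ x : F, (x ^ (p ^ n)) ^ (p ^ n) = x := frob_frob hq0 hF
  have hfn : ∀ x : F, (-x) ^ (p ^ n) = -x ^ (p ^ n) := frob_neg hp rfl hF
  have hcard := cc0_card hq1 hF hρ0 hρ
  have hmap : Function.Injective (algebraMap F (AlgebraicClosure F)) :=
    (algebraMap F (AlgebraicClosure F)).injective
  have hchar' : CharP (AlgebraicClosure F) p := charP_of_injective_algebraMap hmap p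
  have hfsk : ∀ x y : AlgebraicClosure F, (x - y) ^ (p ^ n) = x ^ (p ^ n) - y ^ (p ^ n) := by
    have : Fact p.Prime := ⟨hp⟩
    intro x y
    exact sub_pow_char_pow _ _ _
  set φ := algebraMap F (AlgebraicClosure F) with hφ
  obtain ⟨q, hq⟩ : ∃ q, q = p ^ n := ⟨_, rfl⟩
  -- the point outside
  obtain ⟨w1, hw1⟩ : ∃ w1 : AlgebraicClosure F, ∀ x : F, φ x ≠ w1 := by
    have hinf : Infinite (AlgebraicClosure F) := IsAlgClosed.instInfinite
    have h1 : (Set.range φ).Finite := Set.finite_range φ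
    obtain ⟨w1, hw1⟩ := h1.exists_notMem
    exact ⟨w1, fun x hx => hw1 ⟨x, hx⟩⟩
  have hw1s : ∀ x : F, φ x - w1 ≠ 0 := fun x => sub_ne_zero.2 (hw1 x)
  have hw10 : w1 ≠ 0 := by
    intro h
    exact hw1 0 (by rw [map_zero, h])
  let e := A.equivFin
  let α : Fin A.card → F := fun j => ((e.symm j : A) : F)
  have hαA : ∀ j, α j ∈ A := fun j => (e.symm j).2
  have hα0 : ∀ j, α j ≠ 0 := fun j h => hA0 (h ▸ hαA j)
  have hαinj : ∀ i j, i ≠ j → α i ≠ α j := by
    intro i j hij h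
    apply hij
    apply e.symm.injective
    exact Subtype.ext h
  obtain ⟨β, hβ⟩ : ∃ β : Fin A.card → F, ∀ j, β j = ρ / α j ^ (p ^ n) := ⟨_, fun _ => rfl⟩
  have hαβ : ∀ i j, α i ≠ β j := by
    intro i j h
    rw [hβ, eq_div_iff (pow_ne_zero _ (hα0 j))] at h
    exact hAρ (α j) (hαA j) (α i) (hαA i) (by rw [mul_comm]; exact h)
  -- points of the circle
  have hwne0 : ∀ w : F, w ^ p ^ n * w = ρ → w ≠ 0 := by
    rintro w hw rfl
    rw [mul_zero] at hw
    exact hρ0 hw.symm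
  have hwα : ∀ w : F, w ^ p ^ n * w = ρ → ∀ j, w - α j ≠ 0 := by
    intro w hw j h
    rw [sub_eq_zero] at h
    rw [h] at hw
    exact hAρ (α j) (hαA j) (α j) (hαA j) hw
  have hwβ : ∀ w : F, w ^ p ^ n * w = ρ → ∀ j, w - ρ / α j ^ (p ^ n) ≠ 0 := by
    intro w hw j h
    rw [sub_eq_zero, eq_div_iff (pow_ne_zero _ (hα0 j))] at h
    have h1 := congrArg (fun x => x ^ (p ^ n)) h
    simp only [mul_pow, hff, hρ] at h1
    rw [← hw] at h1
    exact hwα w hw j (sub_eq_zero.2 (mul_left_cancel₀ (pow_ne_zero _ (hwne0 w hw)) h1).symm)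
  -- the functions
  obtain ⟨κ, hκ⟩ : ∃ κ : Fin A.card → AlgebraicClosure F, ∀ j, κ j = (φ (α j) - w1) / (φ (β j) - w1) :=
    ⟨_, fun _ => rfl⟩
  obtain ⟨r, hr⟩ : ∃ r : Fin (A.card + 1) → AlgebraicClosure F,
      r = Fin.cons (-1 / w1) (fun j => 1 / (φ (β j) - w1)) := ⟨_, rfl⟩
  obtain ⟨s, hs⟩ : ∃ s : Fin (A.card + 1) → AlgebraicClosure F,
      s = Fin.cons 0 (fun j => 1 / (φ (α j) - w1)) := ⟨_, rfl⟩
  have hr0 : r 0 = -1 / w1 := by rw [hr, Fin.cons_zero]
  have hrs : ∀ j : Fin A.card, r j.succ = 1 / (φ (β j) - w1) := fun j => by rw [hr, Fin.cons_succ]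
  have hs0 : s 0 = 0 := by rw [hs, Fin.cons_zero]
  have hss : ∀ j : Fin A.card, s j.succ = 1 / (φ (α j) - w1) := fun j => by rw [hs, Fin.cons_succ]
  have hinv : ∀ x y : F, 1 / (φ x - w1) = 1 / (φ y - w1) → x = y := by
    intro x y h
    rw [one_div, one_div, inv_inj, sub_left_inj] at h
    exact hmap h
  have hDat : Dat d (A.card + 1) r s := by
    refine ⟨hd, ?_, ?_, ?_⟩
    · intro h0
      have h1 : ((m * d : ℕ) : AlgebraicClosure F) = ((p ^ n + 1 : ℕ) : AlgebraicClosure F) := by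
        rw [hm]
      push_cast at h1
      rw [h0, mul_zero, CharP.cast_eq_zero, zero_pow (by omega), zero_add] at h1
      exact zero_ne_one h1
    · intro i j
      refine Fin.cases ?_ (fun i => ?_) i
      · refine Fin.cases (fun h => absurd rfl h) (fun j _ => ?_) j
        rw [hs0, hss]
        exact (one_div_ne_zero (hw1s _)).symm
      · refine Fin.cases (fun _ => ?_) (fun j hij => ?_) j
        · rw [hs0, hss]
          exact one_div_ne_zero (hw1s _)
        · rw [hss, hss]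
          intro h
          exact hαinj i j (fun h => hij (by rw [h])) (hinv _ _ h)
    · intro i j
      refine Fin.cases ?_ (fun i => ?_) i
      · refine Fin.cases ?_ (fun j => ?_) j
        · rw [hs0, hr0]
          exact (div_ne_zero (neg_ne_zero.2 one_ne_zero) hw10).symm
        · rw [hs0, hrs]
          exact (one_div_ne_zero (hw1s _)).symm
      · refine Fin.cases ?_ (fun j => ?_) j
        · rw [hss, hr0, ne_eq, div_eq_div_iff (hw1s _) hw10]
          intro h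
          have h1 : φ (α i) = φ 0 := by
            rw [map_zero]
            linear_combination h
          exact hα0 i (hmap h1)
        · rw [hss, hrs]
          intro h
          exact hαβ i j (hinv _ _ h)
  -- the values of the functions
  have hval0 : ∀ w : F, w ^ p ^ n * w = ρ →
      (1 / (φ w - w1) - r 0) / (1 / (φ w - w1) - s 0) = φ w / w1 := by
    intro w hw
    have h1 := hw1s w
    rw [hr0, hs0]
    field_simp
    ring
  have hvals : ∀ w : F, w ^ p ^ n * w = ρ → ∀ j : Fin A.card,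
      (1 / (φ w - w1) - r j.succ) / (1 / (φ w - w1) - s j.succ) =
        φ ((w - ρ / α j ^ (p ^ n)) / (w - α j)) * κ j := by
    intro w hw j
    have h1 := hw1s w
    have h2 := hw1s (α j)
    have h3 := hw1s (β j)
    have h4 : φ w - φ (α j) ≠ 0 := by
      rw [← map_sub]
      intro h
      exact hwα w hw j (hmap (by rw [h, map_zero]))
    rw [hrs, hss, hκ, map_div₀, map_sub, map_sub, ← hβ]
    have e1 : 1 / (φ w - w1) - 1 / (φ (β j) - w1) = (φ (β j) - φ w) / ((φ w - w1) * (φ (β j) - w1)) := by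
      field_simp
      ring
    have e2 : 1 / (φ w - w1) - 1 / (φ (α j) - w1) = (φ (α j) - φ w) / ((φ w - w1) * (φ (α j) - w1)) := by
      field_simp
      ring
    have h5 : φ (α j) - φ w ≠ 0 := by
      intro h
      exact h4 (by linear_combination -h)
    rw [e1, e2]
    field_simp
    ring
  have hFfin : ({w : F | w ^ p ^ n * w = ρ}).Finite := Set.toFinite _
  obtain ⟨T0, hT0d⟩ : ∃ T0 : Finset F, T0 = hFfin.toFinset := ⟨_, rfl⟩
  have hT0 : ∀ t, t ∈ T0 ↔ t ^ p ^ n * t = ρ := by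
    intro t
    rw [hT0d, Set.Finite.mem_toFinset, Set.mem_setOf_eq]
  have hinj : Function.Injective (fun w : F => 1 / (φ w - w1)) := fun x y h => hinv x y h
  obtain ⟨T, hT⟩ : ∃ T : Finset (AlgebraicClosure F), T = T0.image (fun w : F => 1 / (φ w - w1)) := ⟨_, rfl⟩
  have hTcard : p ^ n ≤ T.card := by
    rw [hT, Finset.card_image_of_injective _ hinj, hT0d, ← Set.ncard_eq_toFinset_card _ hFfin]
    exact hcard
  obtain ⟨Ξ, hΞ⟩ : ∃ Ξ : Fin (A.card + 1) → Finset (AlgebraicClosure F),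
      Ξ = Fin.cons (nthRoots d (φ ρ / w1 ^ (m * d))).toFinset
        (fun j => (nthRoots d (φ (ρ / (α j ^ (p ^ n) * α j)) * κ j ^ (m * d))).toFinset) := ⟨_, rfl⟩
  have hΞ0 : Ξ 0 = (nthRoots d (φ ρ / w1 ^ (m * d))).toFinset := by rw [hΞ, Fin.cons_zero]
  have hΞs : ∀ j : Fin A.card, Ξ j.succ =
      (nthRoots d (φ (ρ / (α j ^ (p ^ n) * α j)) * κ j ^ (m * d))).toFinset := fun j => by
    rw [hΞ, Fin.cons_succ]
  obtain ⟨ζ, hζ⟩ : ∃ ζ : Fin (A.card + 1) → AlgebraicClosure F,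
      ζ = Fin.cons (φ τ / w1 ^ m) (fun j => φ (τ / (-α j ^ (p ^ n)) ^ m) * κ j ^ m) := ⟨_, rfl⟩
  have hζ0 : ζ 0 = φ τ / w1 ^ m := by rw [hζ, Fin.cons_zero]
  have hζs : ∀ j : Fin A.card, ζ j.succ = φ (τ / (-α j ^ (p ^ n)) ^ m) * κ j ^ m := fun j => by
    rw [hζ, Fin.cons_succ]
  have hκ0 : ∀ j, κ j ≠ 0 := fun j => by
    rw [hκ]
    exact div_ne_zero (hw1s _) (hw1s _)
  have hd0 : 0 < d := by omega
  have hmain := hn1 (A.card + 1) n hnK m (by rw [mul_comm]; exact hm) (AlgebraicClosure F)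
    r s hDat T w1 1 (φ ρ - w1 ^ (p ^ n) * w1) (-w1 ^ (p ^ n)) hTcard
    (by
      intro x hx
      rw [hT] at hx
      obtain ⟨w, hw, rfl⟩ := Finset.mem_image.mp hx
      rw [hT0] at hw
      have h1 := hw1s w
      have h2 : (φ w - w1) ^ (p ^ n) ≠ 0 := pow_ne_zero _ h1
      have hw0 : φ w ≠ 0 := fun h => hwne0 w hw (hmap (by rw [h, map_zero]))
      have h3 : φ w ^ (p ^ n) * φ w = φ ρ := by rw [← hw, map_mul, map_pow]
      have h4 : (φ w - w1) ^ (p ^ n) = φ w ^ (p ^ n) - w1 ^ (p ^ n) := hfsk _ _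
      have h5 : (φ ρ - w1 ^ (p ^ n) * w1) * (1 / (φ w - w1)) + -w1 ^ (p ^ n) =
          φ w * (φ w - w1) ^ (p ^ n) / (φ w - w1) := by
        rw [h4, ← h3]
        field_simp
        ring
      rw [h5]
      constructor
      · rw [one_div, inv_pow]
        field_simp
        ring
      · exact div_ne_zero (mul_ne_zero hw0 h2) h1)
    (by
      intro x hx j h
      rw [hT] at hx
      obtain ⟨w, hw, hwx⟩ := Finset.mem_image.mp hx
      rw [hT0] at hw
      rw [← hwx] at h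
      revert h
      refine Fin.cases ?_ (fun j => ?_) j
      · rw [hs0]
        exact one_div_ne_zero (hw1s _)
      · rw [hss]
        intro h
        exact hwα w hw j (sub_eq_zero.2 (hinv _ _ h)))
    Ξ
    (by
      intro j
      refine Fin.cases ?_ (fun j => ?_) j
      · rw [hΞ0]
        exact (Multiset.toFinset_card_le _).trans (Polynomial.card_nthRoots d _)
      · rw [hΞs]
        exact (Multiset.toFinset_card_le _).trans (Polynomial.card_nthRoots d _))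
    (by
      intro x hx j
      rw [hT] at hx
      obtain ⟨w, hw, hwx⟩ := Finset.mem_image.mp hx
      rw [hT0] at hw
      rw [← hwx]
      refine Fin.cases ?_ (fun j => ?_) j
      · rw [hval0 w hw, hΞ0, Multiset.mem_toFinset, Polynomial.mem_nthRoots hd0, ← pow_mul, div_pow, ← map_pow,
          hm, pow_succ w, hw]
      · rw [hvals w hw j, hΞs, Multiset.mem_toFinset, Polynomial.mem_nthRoots hd0, ← pow_mul, mul_pow, ← map_pow,
          hm, cc0_pow hfs hff hρ hρ0 hw (hα0 j) (hwne0 w hw) (hwα w hw j) (hwβ w hw j)])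
    ζ
    (by
      intro j
      refine Fin.cases ?_ (fun j => ?_) j
      · rw [hζ0, hΞ0, Multiset.mem_toFinset, Polynomial.mem_nthRoots hd0, div_pow, ← map_pow, hτ, ← pow_mul]
      · rw [hζs, hΞs, Multiset.mem_toFinset, Polynomial.mem_nthRoots hd0, mul_pow, ← map_pow, div_pow, hτ,
          ← pow_mul, ← pow_mul, hm, pow_succ (-α j ^ (p ^ n)), hfn, hff]
        congr 3
        ring)
  have hiff : ∀ w : F, w ^ p ^ n * w = ρ →
      ((w ^ m = τ ∧ ∀ a ∈ A, ((w - a) ^ p ^ n) ^ m = (w - a) ^ m) ↔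
        ∀ j, ((1 / (φ w - w1) - r j) / (1 / (φ w - w1) - s j)) ^ m = ζ j) := by
    intro w hw
    have hz : (w ^ m = τ ↔ ((1 / (φ w - w1) - r 0) / (1 / (φ w - w1) - s 0)) ^ m = ζ 0) := by
      rw [hval0 w hw, hζ0, div_pow, div_left_inj' (pow_ne_zero _ hw10), ← map_pow, hmap.eq_iff]
    have hone : w ^ m = τ → ∀ j : Fin A.card, (((w - α j) ^ p ^ n) ^ m = (w - α j) ^ m ↔
        ((1 / (φ w - w1) - r j.succ) / (1 / (φ w - w1) - s j.succ)) ^ m = ζ j.succ) := by
      intro hwm j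
      rw [hvals w hw j, hζs, mul_pow, mul_left_inj' (pow_ne_zero _ (hκ0 j)), ← map_pow, hmap.eq_iff]
      exact cc0_cond hfs hw (hα0 j) (hwne0 w hw) (hwα w hw j) hwm
    constructor
    · rintro ⟨h1, h2⟩ j
      refine Fin.cases (hz.mp h1) (fun j => ?_) j
      exact (hone h1 j).mp (h2 _ (hαA j))
    · intro h
      have h1 := hz.mpr (h 0)
      refine ⟨h1, fun a ha => ?_⟩
      have h2 := (hone h1 (e ⟨a, ha⟩)).mpr (h _)
      simp only [α, Equiv.symm_apply_apply] at h2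
      exact h2
  have hset : ∀ inst : DecidablePred (fun x => ∀ j, ((x - r j) / (x - s j)) ^ m = ζ j),
      (@Finset.filter _ (fun x => ∀ j, ((x - r j) / (x - s j)) ^ m = ζ j) inst T).card =
      Set.ncard {w : F | w ^ p ^ n * w = ρ ∧ w ^ m = τ ∧ ∀ a ∈ A, ((w - a) ^ p ^ n) ^ m = (w - a) ^ m} := by
    intro inst
    rw [hT, Finset.filter_image, Finset.card_image_of_injective _ hinj, ← Set.ncard_coe_finset]
    congr 1
    ext t
    simp only [Set.mem_ofPred_eq, Finset.coe_filter, hT0]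
    constructor
    · rintro ⟨h1, h2⟩
      exact ⟨h1, (hiff t h1).mpr h2⟩
    · rintro ⟨h1, h2⟩
      exact ⟨h1, (hiff t h1).mp h2⟩
  rw [hset] at hmain
  rw [one_div_pow]
  exact hmain

end GPC
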