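import Pool.Agent.Lib.MP_56e792_co.S.Defs2
import Pool.Agent.Lib.MP_56e792_co.S.Cc0

/-!
# MP_56e792_co, phase 2 (fixed characteristic), module Cc1

Remove `0` and choose a maximal subset `A'` of `A \ {0}` with `a^q b ≠ ρ` for all `a, b ∈ A'`. For `a ≠ 0`, `a* = ρ/a^q`: `f_a(w) f_(a*)(w) = ρ a^q / (a w^2)` on the circle, and `f_0(w) = ρ/w^2` (`f_a(w) = (w^q - a^q)/(w - a)`); so on `w^m = τ` the conditions of `a` and of `a*` differ by a constant factor which is `1` because both hold at `w0`; the condition of `0` is constant, true at `w0`.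
So the set for `A` is the set for `A'`. `τ^d = w0^(q+1) = ρ`.
-/

set_option autoImplicit false
set_option linter.unusedVariables false

namespace GPC

open Polynomial
open Pool.Agent.Lib.MP_56e792_co (J mem_J GP)

/-- The characteristic of a field with `(p ^ n) ^ 2` elements. -/
theorem Cc1_charP (p n : ℕ) (hp : p.Prime) (F : Type) [Field F]
    (hF : Nat.card F = (p ^ n) ^ 2) : CharP F p := by
  have hfin : Finite F := Nat.finite_of_card_ne_zero (by
    rw [hF]; exact pow_ne_zero _ (pow_ne_zero _ hp.ne_zero))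
  have hft : Fintype F := Fintype.ofFinite F
  obtain ⟨r, hr⟩ := CharP.exists F
  obtain ⟨k, hrp, hk⟩ := FiniteField.card F r
  have h1 : r ^ (k : ℕ) = (p ^ n) ^ 2 := by rw [← hk, ← Nat.card_eq_fintype_card, hF]
  have h2 : r ∣ p := by
    have h3 : r ∣ (p ^ n) ^ 2 := by
      rw [← h1]; exact dvd_pow_self r k.ne_zero
    exact hrp.dvd_of_dvd_pow (hrp.dvd_of_dvd_pow h3)
  rw [← (Nat.prime_dvd_prime_iff_eq hrp hp).1 h2]
  exact hr

/-- The condition at `a` follows from the condition at `b = ρ / a ^ q`. -/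
theorem Cc1_step (p n m : ℕ) (hp : p.Prime) (F : Type) [Field F] [CharP F p]
    (ρ τ : F) (hρ : ρ ≠ 0) (a b w w0 : F) (hab : a ^ p ^ n * b = ρ) (hba : b ^ p ^ n * a = ρ)
    (hb : b ^ p ^ n * b ≠ ρ)
    (hw : w ^ p ^ n * w = ρ) (hwt : w ^ m = τ) (hw0 : w0 ^ p ^ n * w0 = ρ) (hwt0 : w0 ^ m = τ)
    (hwb : ((w - b) ^ p ^ n) ^ m = (w - b) ^ m)
    (hwb0 : ((w0 - b) ^ p ^ n) ^ m = (w0 - b) ^ m)
    (hwa0 : ((w0 - a) ^ p ^ n) ^ m = (w0 - a) ^ m) :
    ((w - a) ^ p ^ n) ^ m = (w - a) ^ m := by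
  have : Fact p.Prime := ⟨hp⟩
  have hb0 : b ≠ 0 := by rintro rfl; exact hρ (by rw [← hab, mul_zero])
  have hw00 : w0 ≠ 0 := by rintro rfl; exact hρ (by rw [← hw0, mul_zero])
  have hτ : τ ≠ 0 := by rw [← hwt0]; exact pow_ne_zero _ hw00
  have e1 : ∀ x : F, x ^ p ^ n * x = ρ → x * (x - a) ^ p ^ n = -a ^ p ^ n * (x - b) := by
    intro x hx
    rw [sub_pow_char_pow]
    linear_combination hx - hab
  have e2 : ∀ x : F, x ^ p ^ n * x = ρ → x * (x - b) ^ p ^ n = -b ^ p ^ n * (x - a) := by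
    intro x hx
    rw [sub_pow_char_pow]
    linear_combination hx - hba
  have f1 : ∀ x : F, x ^ p ^ n * x = ρ → x ^ m = τ →
      τ * ((x - a) ^ p ^ n) ^ m = (-a ^ p ^ n) ^ m * (x - b) ^ m := by
    intro x hx hxt
    rw [← hxt, ← mul_pow, e1 x hx, mul_pow]
  have f2 : ∀ x : F, x ^ p ^ n * x = ρ → x ^ m = τ →
      τ * ((x - b) ^ p ^ n) ^ m = (-b ^ p ^ n) ^ m * (x - a) ^ m := by
    intro x hx hxt
    rw [← hxt, ← mul_pow, e2 x hx, mul_pow]
  set α := (-a ^ p ^ n) ^ m
  set β := (-b ^ p ^ n) ^ m with hβ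
  have hβ0 : β ≠ 0 := pow_ne_zero _ (neg_ne_zero.2 (pow_ne_zero _ hb0))
  -- the constant
  have g1 := f1 w0 hw0 hwt0
  have g2 := f2 w0 hw0 hwt0
  rw [hwa0] at g1
  rw [hwb0] at g2
  have hne : (w0 - b) ^ m ≠ 0 := pow_ne_zero _ (sub_ne_zero.2 (by
    rintro rfl; exact hb hw0))
  have hc : α * β = τ ^ 2 := by
    apply mul_right_cancel₀ hne
    linear_combination (-β) * g1 - τ * g2
  have k1 := f1 w hw hwt
  have k2 := f2 w hw hwt
  rw [hwb] at k2
  apply mul_left_cancel₀ (mul_ne_zero hβ0 hτ)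
  linear_combination β * k1 + τ * k2 + (w - b) ^ m * hc

theorem circ_count (p d K0 : ℕ) (hp : p.Prime) (hd : 2 ≤ d) (ε : ℝ) (hε : 0 < ε) :
    ∃ n1 : ℕ, ∀ n ≥ n1, ∀ m : ℕ, m * d = p ^ n + 1 → ∀ (F : Type) [Field F],
      Nat.card F = (p ^ n) ^ 2 → ∀ ρ τ : F, ρ ≠ 0 → ρ ^ p ^ n = ρ →
        ∀ A : Finset F, A.card ≤ K0 → (∀ a ∈ A, a ^ p ^ n * a ≠ ρ) →
          (∃ w0 : F, w0 ^ p ^ n * w0 = ρ ∧ w0 ^ m = τ ∧
            ∀ a ∈ A, ((w0 - a) ^ p ^ n) ^ m = (w0 - a) ^ m) →
          ∃ j : ℕ, |((Set.ncard {w : F | w ^ p ^ n * w = ρ ∧ w ^ m = τ ∧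
              ∀ a ∈ A, ((w - a) ^ p ^ n) ^ m = (w - a) ^ m} : ℕ) : ℝ) -
            (1 / (d : ℝ)) ^ j * (p : ℝ) ^ n| ≤ ε * (p : ℝ) ^ n := by
  classical
  obtain ⟨n1, h1⟩ := circ_count0 p d K0 hp hd ε hε
  refine ⟨n1, ?_⟩
  intro n hn m hm F _ hF ρ τ hρ hρq A hA hAρ ⟨w0, hw0, hwt0, hwA⟩
  have hchar : CharP F p := Cc1_charP p n hp F hF
  have hfin : Finite F := Nat.finite_of_card_ne_zero (by
    rw [hF]; exact pow_ne_zero _ (pow_ne_zero _ hp.ne_zero))
  have hqq : ∀ x : F, (x ^ p ^ n) ^ p ^ n = x := by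
    intro x
    have hft : Fintype F := Fintype.ofFinite F
    have := FiniteField.pow_card x
    rw [← Nat.card_eq_fintype_card, hF, pow_two, pow_mul] at this
    exact this
  -- the maximal subset
  let P : Finset F → Prop := fun B => ∀ a ∈ B, ∀ b ∈ B, a ^ p ^ n * b ≠ ρ
  let S := (A.erase 0).powerset.filter P
  obtain ⟨A', hA'S, hmax⟩ := Finset.exists_max_image S Finset.card
    ⟨∅, by simp [S, P]⟩
  have hA' := Finset.mem_filter.1 hA'S
  have hsub : A' ⊆ A.erase 0 := Finset.mem_powerset.1 hA'.1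
  have hτd : τ ^ d = ρ := by
    rw [← hwt0, ← pow_mul, hm, pow_succ, hw0]
  have hcnt := h1 n hn m hm F hF ρ τ hρ hρq hτd A'
    ((Finset.card_le_card (hsub.trans (Finset.erase_subset _ _))).trans hA)
    (fun h => (Finset.mem_erase.1 (hsub h)).1 rfl) hA'.2
  refine ⟨A'.card + 1, ?_⟩
  have hset : {w : F | w ^ p ^ n * w = ρ ∧ w ^ m = τ ∧
      ∀ a ∈ A, ((w - a) ^ p ^ n) ^ m = (w - a) ^ m} =
      {w : F | w ^ p ^ n * w = ρ ∧ w ^ m = τ ∧
      ∀ a ∈ A', ((w - a) ^ p ^ n) ^ m = (w - a) ^ m} := by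
    ext w
    constructor
    · rintro ⟨h2, h3, h4⟩
      exact ⟨h2, h3, fun a ha => h4 a (Finset.mem_of_mem_erase (hsub ha))⟩
    · rintro ⟨h2, h3, h4⟩
      refine ⟨h2, h3, fun a ha => ?_⟩
      by_cases ha0 : a = 0
      · subst ha0
        have h5 := hwA 0 ha
        rw [sub_zero] at h5 ⊢
        have hw00 : w0 ≠ 0 := by rintro rfl; exact hρ (by rw [← hw0, mul_zero])
        have hτ : τ ≠ 0 := by rw [← hwt0]; exact pow_ne_zero _ hw00
        have h6 : (w ^ p ^ n) ^ m * w ^ m = ρ ^ m := by rw [← mul_pow, h2]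
        have h7 : (w0 ^ p ^ n) ^ m * w0 ^ m = ρ ^ m := by rw [← mul_pow, hw0]
        rw [h5, hwt0] at h7
        rw [h3] at h6 ⊢
        exact mul_right_cancel₀ hτ (h6.trans h7.symm)
      · by_cases haA : a ∈ A'
        · exact h4 a haA
        · have hbad : insert a A' ∉ S := by
            intro h
            have := hmax _ h
            rw [Finset.card_insert_of_notMem haA] at this
            omega
          have hb : ∃ b ∈ A', a ^ p ^ n * b = ρ ∧ b ^ p ^ n * a = ρ := by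
            by_contra hcon
            push Not at hcon
            apply hbad
            refine Finset.mem_filter.2 ⟨Finset.mem_powerset.2 ?_, ?_⟩
            · intro x hx
              rcases Finset.mem_insert.1 hx with rfl | hx'
              · exact Finset.mem_erase.2 ⟨ha0, ha⟩
              · exact hsub hx'
            · intro x hx y hy
              rcases Finset.mem_insert.1 hx with rfl | hx'
              · rcases Finset.mem_insert.1 hy with rfl | hy'
                · exact hAρ _ ha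
                · intro he
                  refine hcon y hy' he ?_
                  have h8 := congrArg (fun z => z ^ p ^ n) he
                  simp only [mul_pow, hqq, hρq] at h8
                  rw [mul_comm]; exact h8
              · rcases Finset.mem_insert.1 hy with rfl | hy'
                · intro he
                  refine hcon x hx' ?_ he
                  have h8 := congrArg (fun z => z ^ p ^ n) he
                  simp only [mul_pow, hqq, hρq] at h8
                  rw [mul_comm]; exact h8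
                · exact hA'.2 x hx' y hy'
          obtain ⟨b, hbA, hab, hba⟩ := hb
          have hbA' : b ∈ A := Finset.mem_of_mem_erase (hsub hbA)
          exact Cc1_step p n m hp F ρ τ hρ a b w w0 hab hba (hAρ b hbA') h2 h3 hw0 hwt0
            (h4 b hbA) (hwA b hbA') (hwA a ha)
  rw [hset]
  exact hcnt

end GPC
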