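import Pool.Agent.Lib.MP_56e792_co.S.Defs
import Pool.Agent.Lib.MP_56e792_co.S.BiD

/-!
# MP_56e792_co, all prime powers, module CoD

* `prod_dvd_na`: pairwise non associated irreducible divisors: induction on the finset (`Irreducible.prime`; `r ∣ r' * F`, `r` not associated to `r'` irreducible: `r ∣ F`).
* `cod`: `I ≤ Bd (∏ r) D D` (`prod_dvd_na`), `dX (∏ r) = ∑ dX r` (`dX_mul`, all `r ≠ 0`), so `finrank I ≤ (D-α)(D-β)`; `I ≠ ⊥` gives `α, β < D` (`mem_Bi`, `dX_le_of_dvd`); then `D α + (D-α)(D-β) ≤ D^2`.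
* `fac`: one representative of each class of irreducible factors of `H0` (`UniqueFactorizationMonoid.normalizedFactors H0` as a finset; `∏ ∣ H0` by `prod_dvd_na`; if `pt a b H0 = 0` then some factor vanishes at `(a,b)`).
-/

set_option autoImplicit false
set_option linter.unusedVariables false

namespace GPC

open Polynomial
open Pool.Agent.Lib.MP_56e792_co (J mem_J GP)

theorem prod_dvd_na {k : Type} [Field k] (R : Finset (k[X][X])) (hirr : ∀ r ∈ R, Irreducible r)
    (hna : ∀ r ∈ R, ∀ r' ∈ R, Associated r r' → r = r') {G : k[X][X]} (hG : ∀ r ∈ R, r ∣ G) :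
    ∏ r ∈ R, r ∣ G := by
  classical
  induction R using Finset.induction_on with
  | empty => simp
  | insert r R hr ih =>
    rw [Finset.prod_insert hr]
    obtain ⟨F, hF⟩ := ih (fun x hx => hirr x (Finset.mem_insert_of_mem hx))
      (fun x hx y hy => hna x (Finset.mem_insert_of_mem hx) y (Finset.mem_insert_of_mem hy))
      (fun x hx => hG x (Finset.mem_insert_of_mem hx))
    have hrp : Prime r := (hirr r (Finset.mem_insert_self _ _)).prime
    have h1 : r ∣ (∏ x ∈ R, x) * F := by
      rw [← hF]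
      exact hG r (Finset.mem_insert_self _ _)
    rcases hrp.dvd_or_dvd h1 with h | h
    · obtain ⟨r', hr', hd⟩ := (Prime.dvd_finsetProd_iff hrp _).1 h
      have h2 : Associated r r' :=
        (hirr r (Finset.mem_insert_self _ _)).associated_of_dvd (hirr r' (Finset.mem_insert_of_mem hr')) hd
      have h3 := hna r (Finset.mem_insert_self _ _) r' (Finset.mem_insert_of_mem hr') h2
      subst h3
      exact absurd hr' hr
    · obtain ⟨F', rfl⟩ := h
      exact ⟨F', by rw [hF]; ring⟩

private theorem cod_dprod {k : Type} [Field k] (R : Finset (k[X][X])) (h : ∀ r ∈ R, r ≠ 0) :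
    dX (∏ r ∈ R, r) = ∑ r ∈ R, dX r ∧ dY (∏ r ∈ R, r) = ∑ r ∈ R, dY r := by
  classical
  induction R using Finset.induction_on with
  | empty =>
    simp [dX, dY]
  | insert r R hr ih =>
    have ih' := ih (fun x hx => h x (Finset.mem_insert_of_mem hx))
    have h1 : ∏ x ∈ R, x ≠ 0 := Finset.prod_ne_zero_iff.2 fun x hx => h x (Finset.mem_insert_of_mem hx)
    have h2 := h r (Finset.mem_insert_self _ _)
    rw [Finset.prod_insert hr, Finset.sum_insert hr, Finset.sum_insert hr, dX_mul h2 h1, dY_mul h2 h1,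
      ih'.1, ih'.2]
    exact ⟨rfl, rfl⟩

theorem cod {k : Type} [Field k] {D : ℕ} (I : Submodule k (k[X][X])) (hI : I ≤ Bi k D D)
    (hI0 : I ≠ ⊥) (R : Finset (k[X][X])) (hirr : ∀ r ∈ R, Irreducible r)
    (hna : ∀ r ∈ R, ∀ r' ∈ R, Associated r r' → r = r') (hdvd : ∀ r ∈ R, ∀ G ∈ I, r ∣ G) :
    D * (∑ r ∈ R, dX r) + Module.finrank k I ≤ D * D ∧
      D * (∑ r ∈ R, dY r) + Module.finrank k I ≤ D * D := by
  classical
  obtain ⟨e1, e2⟩ := cod_dprod R (fun r hr => (hirr r hr).ne_zero)
  set P := ∏ r ∈ R, r with hPdef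
  have hP : P ≠ 0 := Finset.prod_ne_zero_iff.2 fun r hr => (hirr r hr).ne_zero
  have hPd : ∀ G ∈ I, P ∣ G := fun G hG => prod_dvd_na R hirr hna (fun r hr => hdvd r hr G hG)
  have hle : I ≤ Bd P D D := fun G hG => mem_Bd.2 ⟨hI hG, hPd G hG⟩
  have := Bi_fin (k := k) D D
  have hle2 : Bd P D D ≤ Bi k D D := inf_le_left
  have : FiniteDimensional k (Bd P D D) := Submodule.finiteDimensional_of_le hle2
  have h1 : Module.finrank k I ≤ Module.finrank k (Bd P D D) := Submodule.finrank_mono hle
  rw [Bd_finrank hP] at h1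
  obtain ⟨G, hG, hG0⟩ := Submodule.exists_mem_ne_zero_of_ne_bot hI0
  have h2 := (mem_Bi.1 (hI hG)).resolve_left hG0
  have h3 := dX_le_of_dvd (hPd G hG) hG0
  rw [← e1, ← e2]
  obtain ⟨x, hx⟩ : ∃ x, D = dX P + x := ⟨D - dX P, by omega⟩
  obtain ⟨y, hy⟩ : ∃ y, D = dY P + y := ⟨D - dY P, by omega⟩
  have h4 : D - dX P = x := by omega
  have h5 : D - dY P = y := by omega
  rw [h4, h5] at h1
  have h6 : x * y ≤ x * D := Nat.mul_le_mul_left _ (by omega)
  have h7 : x * y ≤ D * y := Nat.mul_le_mul_right _ (by omega)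
  have h8 : D * D = D * dX P + x * D := by
    calc D * D = D * (dX P + x) := by rw [← hx]
      _ = D * dX P + x * D := by ring
  have h9 : D * D = D * dY P + D * y := by
    calc D * D = D * (dY P + y) := by rw [← hy]
      _ = D * dY P + D * y := by ring
  constructor
  · omega
  · omega

theorem fac {k : Type} [Field k] {H : k[X][X]} (h : H ≠ 0) :
    ∃ R : Finset (k[X][X]), (∀ r ∈ R, Irreducible r) ∧
      (∀ r ∈ R, ∀ r' ∈ R, Associated r r' → r = r') ∧
      (∀ a b : k, pt a b H = 0 → ∃ r ∈ R, pt a b r = 0) ∧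
      ∑ r ∈ R, dX r ≤ dX H ∧ ∑ r ∈ R, dY r ≤ dY H := by
  classical
  obtain ⟨out, hout⟩ : ∃ g : Associates (k[X][X]) → k[X][X], ∀ c, Associates.mk (g c) = c :=
    ⟨Function.surjInv Associates.mk_surjective, Function.surjInv_eq Associates.mk_surjective⟩
  set S : Finset (Associates (k[X][X])) :=
    ((UniqueFactorizationMonoid.factors H).map Associates.mk).toFinset with hS
  set R : Finset (k[X][X]) := S.image out with hR
  have hmem : ∀ r ∈ R, ∃ f ∈ UniqueFactorizationMonoid.factors H, Associated r f ∧ r = out (Associates.mk f) := by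
    intro r hr
    rw [hR, Finset.mem_image] at hr
    obtain ⟨c, hc, rfl⟩ := hr
    rw [hS, Multiset.mem_toFinset, Multiset.mem_map] at hc
    obtain ⟨f, hf, rfl⟩ := hc
    refine ⟨f, hf, ?_, rfl⟩
    rw [← Associates.mk_eq_mk_iff_associated]
    exact hout _
  have hirr : ∀ r ∈ R, Irreducible r := by
    intro r hr
    obtain ⟨f, hf, h1, _⟩ := hmem r hr
    exact h1.symm.irreducible (UniqueFactorizationMonoid.irreducible_of_factor f hf)
  have hna : ∀ r ∈ R, ∀ r' ∈ R, Associated r r' → r = r' := by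
    intro r hr r' hr' ha
    obtain ⟨f, hf, h1, h2⟩ := hmem r hr
    obtain ⟨f', hf', h1', h2'⟩ := hmem r' hr'
    have h3 : Associates.mk f = Associates.mk f' :=
      Associates.mk_eq_mk_iff_associated.2 ((h1.symm.trans ha).trans h1')
    rw [h2, h2', h3]
  have hdvd : ∀ r ∈ R, r ∣ H := by
    intro r hr
    obtain ⟨f, hf, h1, _⟩ := hmem r hr
    exact h1.dvd.trans (UniqueFactorizationMonoid.dvd_of_mem_factors hf)
  refine ⟨R, hirr, hna, ?_, ?_⟩
  · intro a b hab
    have h1 := UniqueFactorizationMonoid.factors_prod h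
    have h2 : H ∣ (UniqueFactorizationMonoid.factors H).prod := h1.symm.dvd
    have h3 : pt a b (UniqueFactorizationMonoid.factors H).prod = 0 := by
      unfold pt at hab ⊢
      have := evalEval_dvd a b h2
      rw [hab] at this
      exact zero_dvd_iff.1 this
    unfold pt at h3
    rw [evalEval_multiset_prod, Multiset.prod_eq_zero_iff, Multiset.mem_map] at h3
    obtain ⟨f, hf, hf0⟩ := h3
    refine ⟨out (Associates.mk f), ?_, ?_⟩
    · rw [hR, Finset.mem_image]
      refine ⟨Associates.mk f, ?_, rfl⟩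
      rw [hS, Multiset.mem_toFinset, Multiset.mem_map]
      exact ⟨f, hf, rfl⟩
    · have h4 : Associated (out (Associates.mk f)) f := by
        rw [← Associates.mk_eq_mk_iff_associated]
        exact hout _
      unfold pt
      have := evalEval_dvd a b h4.symm.dvd
      rw [hf0] at this
      exact zero_dvd_iff.1 this
  · have h1 := prod_dvd_na R hirr hna hdvd
    have h2 := dX_le_of_dvd h1 h
    obtain ⟨e1, e2⟩ := cod_dprod R (fun r hr => (hirr r hr).ne_zero)
    rw [e1, e2] at h2
    exact h2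

end GPC
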