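import Pool.Agent.Lib.MP_56e792_co.S.Defs
import Pool.Agent.Lib.MP_56e792_co.S.CoD
import Pool.Agent.Lib.MP_56e792_co.S.Bez

/-!
# MP_56e792_co, all prime powers, module Chn

B3 of GPC.md. `I_t := IC q C (π^(s-t))`, decreasing in `t` (`Bi_mono`). `H0 ∈ I_t0` nonzero, `R0` from `fac`, `R_t = {r ∈ R0 | ∀ G ∈ I_t, r ∣ G}`, increasing in `t`; the answer is `R_T`.
`cod` and `hcod` give `∑_{R_t} dX ≤ bd t`, `∑_{R_t} dY ≤ bd t` for `T ≤ t ≤ t0` (`IC ≠ ⊥` as it contains `H0`; the factor `π^(s-t) > 0` cancels).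
A point `c ∈ C` on no curve of `R_T` lies on some `r ∈ R0` (`H0 ∈ IC`, so `pt c (c^q) H0 = 0`). If `r ∉ R_t0`: some `G ∈ I_t0` is not divisible by `r`: at most `(dX r + dY r) D0` such `c` (`bez_frob`, all elements of `IC` vanish at `(c,c^q)`),
sum `≤ 2 D0^2` (`∑ dX r ≤ dX H0 < D0`). Otherwise there is `t ∈ [T, t0)` with `r ∈ R_(t+1)`, `r ∉ R_t`: at most `(dX r + dY r) π^(s-t)` such `c`, sum over `R_(t+1)`: `≤ 2 bd (t+1) π^(s-t)`. Union bound (induction on `t` from `t0` down to `T`).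
-/

set_option autoImplicit false
set_option linter.unusedVariables false

namespace GPC

open Polynomial
open Pool.Agent.Lib.MP_56e792_co (J mem_J GP)

/-- elements of the kernel of `evC` vanish at the points of `C` -/
private theorem chn_ev {k : Type} [Field k] {q : ℕ} {C : Finset k} {G : k[X][X]}
    (h : evC q C G = 0) {c : k} (hc : c ∈ C) : pt c (c ^ q) G = 0 := by
  have h1 : (Pi.evalAlgHom k (fun _ : C => k) ⟨c, hc⟩).comp (evC q C) = aevalAeval c (c ^ q) := by
    apply (aevalAevalEquiv k k).symm.injective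
    apply Prod.ext
    · simp [evC]
    · simp [evC]
  have h2 := DFunLike.congr_fun h1 G
  rw [AlgHom.comp_apply, h, map_zero] at h2
  rw [pt, ← coe_aevalAeval_eq_evalEval]
  exact h2.symm

private theorem chn_mem {k : Type} [Field k] {q : ℕ} {C : Finset k} {D : ℕ} {G : k[X][X]} :
    G ∈ IC q C D ↔ G ∈ Bi k D D ∧ evC q C G = 0 := by
  rw [IC, Submodule.mem_inf, LinearMap.mem_ker]
  rfl

private theorem chn_zero {k : Type} [Field k] {q : ℕ} {C : Finset k} {D : ℕ} {G : k[X][X]}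
    (h : G ∈ IC q C D) {c : k} (hc : c ∈ C) : pt c (c ^ q) G = 0 :=
  chn_ev (chn_mem.mp h).2 hc

private theorem chn_mono {k : Type} [Field k] {q : ℕ} {C : Finset k} {D D' : ℕ} (h : D ≤ D') :
    IC q C D ≤ IC q C D' := by
  intro G hG
  rw [chn_mem] at hG ⊢
  exact ⟨Bi_mono h h hG.1, hG.2⟩

/-- the number of elements of `C` with a property -/
private noncomputable def chnN {k : Type} (C : Finset k) (P : k → Prop) : ℕ := by
  classical exact (C.filter P).card

private theorem chn_eq {k : Type} (C : Finset k) (P : k → Prop) [DecidablePred P] :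
    (C.filter P).card = chnN C P := by
  unfold chnN
  congr

private theorem chn_le {k : Type} (C : Finset k) {P Q : k → Prop} (h : ∀ c ∈ C, P c → Q c) :
    chnN C P ≤ chnN C Q := by
  classical
  unfold chnN
  apply Finset.card_le_card
  intro c hc
  rw [Finset.mem_filter] at hc ⊢
  exact ⟨hc.1, h c hc.1 hc.2⟩

private theorem chn_or {k : Type} (C : Finset k) {P Q Q' : k → Prop}
    (h : ∀ c ∈ C, P c → Q c ∨ Q' c) : chnN C P ≤ chnN C Q + chnN C Q' := by
  classical
  unfold chnN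
  refine (Finset.card_le_card ?_).trans (Finset.card_union_le _ _)
  intro c hc
  rw [Finset.mem_filter] at hc
  rw [Finset.mem_union, Finset.mem_filter, Finset.mem_filter]
  rcases h c hc.1 hc.2 with h' | h'
  · exact Or.inl ⟨hc.1, h'⟩
  · exact Or.inr ⟨hc.1, h'⟩

/-- the points of `C` on those `r ∈ R` which do not divide some element of `IC q C D` -/
private theorem chn_count {k : Type} [Field k] {q : ℕ} {C : Finset k} {D : ℕ}
    (R : Finset (k[X][X])) (hR : ∀ r ∈ R, Irreducible r) :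
    chnN C (fun c => ∃ r ∈ R, pt c (c ^ q) r = 0 ∧ ¬ ∀ G ∈ IC q C D, r ∣ G) ≤
      (∑ r ∈ R, (dX r + dY r)) * D := by
  classical
  rw [← chn_eq]
  have h1 : C.filter (fun c => ∃ r ∈ R, pt c (c ^ q) r = 0 ∧ ¬ ∀ G ∈ IC q C D, r ∣ G) ⊆
      R.biUnion (fun r => C.filter (fun c => pt c (c ^ q) r = 0 ∧ ¬ ∀ G ∈ IC q C D, r ∣ G)) := by
    intro c hc
    rw [Finset.mem_filter] at hc
    obtain ⟨hc, r, hr, h⟩ := hc
    rw [Finset.mem_biUnion]
    exact ⟨r, hr, Finset.mem_filter.mpr ⟨hc, h⟩⟩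
  refine (Finset.card_le_card h1).trans (Finset.card_biUnion_le.trans ?_)
  rw [Finset.sum_mul]
  apply Finset.sum_le_sum
  intro r hr
  by_cases hd : ∀ G ∈ IC q C D, r ∣ G
  · have : C.filter (fun c => pt c (c ^ q) r = 0 ∧ ¬ ∀ G ∈ IC q C D, r ∣ G) = ∅ := by
      apply Finset.filter_eq_empty_iff.mpr
      intro c _ h
      exact h.2 hd
    rw [this]
    simp
  · push Not at hd
    obtain ⟨G, hG, hrG⟩ := hd
    apply bez_frob (hR r hr) (chn_mem.mp hG).1 hrG q
    · intro c hc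
      exact (Finset.mem_filter.mp hc).2.1
    · intro c hc
      exact chn_zero hG (Finset.mem_filter.mp hc).1

open Classical in
theorem chain {k : Type} [Field k] (q : ℕ) (C : Finset k) {π s T t0 : ℕ} (bd : ℕ → ℕ) (hπ : 1 ≤ π)
    (hT : T ≤ t0) (ht : t0 ≤ s)
    (hcod : ∀ t, T ≤ t → t ≤ t0 → π ^ (s - t) * π ^ (s - t) ≤
      Module.finrank k (IC q C (π ^ (s - t))) + π ^ (s - t) * bd t)
    (h0 : IC q C (π ^ (s - t0)) ≠ ⊥) :
    ∃ R : Finset (k[X][X]), (∀ r ∈ R, Irreducible r) ∧ ∑ r ∈ R, (dX r + dY r) ≤ 2 * bd T ∧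
      (C.filter (fun c => ∀ r ∈ R, pt c (c ^ q) r ≠ 0)).card ≤
        2 * (π ^ (s - t0)) ^ 2 + ∑ t ∈ Finset.Ico T t0, 2 * bd (t + 1) * π ^ (s - t) := by
  set D : ℕ → ℕ := fun t => π ^ (s - t) with hD
  have hDpos : ∀ t, 0 < D t := fun t => Nat.pos_of_ne_zero (pow_ne_zero _ (by omega))
  have hDmono : ∀ t, t ≤ t0 → D t0 ≤ D t := fun t h => Nat.pow_le_pow_right hπ (by omega)
  obtain ⟨H0, hH0, hH0n⟩ := Submodule.exists_mem_ne_zero_of_ne_bot h0
  obtain ⟨R0, hirr, hna, hcov, hsX, hsY⟩ := fac hH0n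
  have hdeg : dX H0 < D t0 ∧ dY H0 < D t0 :=
    (mem_Bi.mp (chn_mem.mp hH0).1).resolve_left hH0n
  set R : ℕ → Finset (k[X][X]) := fun t => R0.filter (fun r => ∀ G ∈ IC q C (D t), r ∣ G) with hR
  have hRs : ∀ t, R t ⊆ R0 := fun t => Finset.filter_subset _ _
  have hsum : ∀ t, T ≤ t → t ≤ t0 → ∑ r ∈ R t, (dX r + dY r) ≤ 2 * bd t := by
    intro t hTt htt
    have hne : IC q C (D t) ≠ ⊥ := by
      intro hb
      apply hH0n
      have := chn_mono (q := q) (C := C) (hDmono t htt) hH0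
      rw [hb] at this
      exact (Submodule.mem_bot k).mp this
    obtain ⟨c1, c2⟩ := cod (IC q C (D t)) inf_le_left hne (R t) (fun r hr => hirr r (hRs t hr))
      (fun r hr r' hr' => hna r (hRs t hr) r' (hRs t hr'))
      (fun r hr => (Finset.mem_filter.mp hr).2)
    have c3 : D t * D t ≤ Module.finrank k (IC q C (D t)) + D t * bd t := hcod t hTt htt
    have c4 : D t * (∑ r ∈ R t, dX r) ≤ D t * bd t := by omega
    have c5 : D t * (∑ r ∈ R t, dY r) ≤ D t * bd t := by omega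
    have c6 := Nat.le_of_mul_le_mul_left c4 (hDpos t)
    have c7 := Nat.le_of_mul_le_mul_left c5 (hDpos t)
    rw [Finset.sum_add_distrib]
    omega
  refine ⟨R T, fun r hr => hirr r (hRs T hr), hsum T le_rfl hT, ?_⟩
  have key : ∀ n t, t0 - t = n → T ≤ t → t ≤ t0 →
      chnN C (fun c => ∀ r ∈ R t, pt c (c ^ q) r ≠ 0) ≤
        2 * (D t0) ^ 2 + ∑ t ∈ Finset.Ico t t0, 2 * bd (t + 1) * D t := by
    intro n
    induction n with
    | zero =>
      intro t hn hTt htt
      have e : t = t0 := by omega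
      subst e
      rw [Finset.Ico_self, Finset.sum_empty, add_zero]
      have h1 : chnN C (fun c => ∀ r ∈ R t, pt c (c ^ q) r ≠ 0) ≤
          chnN C (fun c => ∃ r ∈ R0, pt c (c ^ q) r = 0 ∧ ¬ ∀ G ∈ IC q C (D t), r ∣ G) := by
        apply chn_le
        intro c hc h
        obtain ⟨r, hr, hr0⟩ := hcov c (c ^ q) (chn_zero hH0 hc)
        refine ⟨r, hr, hr0, ?_⟩
        intro hd
        exact h r (Finset.mem_filter.mpr ⟨hr, hd⟩) hr0
      refine h1.trans ((chn_count R0 hirr).trans ?_)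
      rw [Finset.sum_add_distrib, pow_two, ← mul_assoc]
      apply Nat.mul_le_mul_right
      omega
    | succ n ih =>
      intro t hn hTt htt
      have htlt : t < t0 := by omega
      have h2 := ih (t + 1) (by omega) (by omega) (by omega)
      have h3 : chnN C (fun c => ∀ r ∈ R t, pt c (c ^ q) r ≠ 0) ≤
          chnN C (fun c => ∀ r ∈ R (t + 1), pt c (c ^ q) r ≠ 0) +
          chnN C (fun c => ∃ r ∈ R (t + 1), pt c (c ^ q) r = 0 ∧
            ¬ ∀ G ∈ IC q C (D t), r ∣ G) := by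
        apply chn_or
        intro c hc h
        by_cases hcase : ∀ r ∈ R (t + 1), pt c (c ^ q) r ≠ 0
        · exact Or.inl hcase
        · right
          push Not at hcase
          obtain ⟨r, hr, hr0⟩ := hcase
          refine ⟨r, hr, hr0, ?_⟩
          intro hd
          exact h r (Finset.mem_filter.mpr ⟨hRs (t + 1) hr, hd⟩) hr0
      have h4 := chn_count (q := q) (C := C) (D := D t) (R (t + 1))
        (fun r hr => hirr r (hRs (t + 1) hr))
      have h5 : (∑ r ∈ R (t + 1), (dX r + dY r)) * D t ≤ 2 * bd (t + 1) * D t :=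
        Nat.mul_le_mul_right _ (hsum (t + 1) (by omega) (by omega))
      rw [Finset.sum_eq_sum_Ico_succ_bot htlt]
      omega
  rw [chn_eq]
  exact key (t0 - T) T rfl le_rfl hT

end GPC
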