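import Pool.Agent.Lib.MP_56e792_co.S.Defs

/-!
# MP_56e792_co, all prime powers, module Cir

D of GPC.md. `H = α XY + β X + γ Y + e` (`dX H = dY H = 1`). Case `α ≠ 0`: fix `a0 ∈ C` on the curve; for another `c ∈ C` on it put `s = (c^q - a0^q)/(c - a0)`, `s^m = 1` (`hC.rel`), and `α s (c - a0) = -(β' + γ' s)`, `β' = β + α a0^q`, `γ' = γ + α a0` (difference of the equations), so `s` determines `c`: at most `m + 1` points.
Case `α = 0`: then `β, γ ≠ 0`. If some `a0 ∈ C` is not on the curve: for `c ∈ C` on it `(c - a0)(β + γ s) = -H(a0, a0^q) ≠ 0`: `s` determines `c`, at most `m` points. Otherwise the right alternative.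
-/

set_option autoImplicit false
set_option linter.unusedVariables false

namespace GPC

open Polynomial
open Pool.Agent.Lib.MP_56e792_co (J mem_J GP)

/-- the coefficients after exchanging the variables -/
theorem cir_coeff_swap {k : Type} [Field k] (G : k[X][X]) (i j : ℕ) :
    ((Bivariate.swap G).coeff i).coeff j = (G.coeff j).coeff i := by
  induction G using Polynomial.induction_on' with
  | add p q hp hq => rw [map_add, coeff_add, coeff_add, coeff_add, coeff_add, hp, hq]
  | monomial n f =>
    induction f using Polynomial.induction_on' with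
    | add p q hp hq => rw [map_add, map_add, coeff_add, coeff_add, coeff_add, coeff_add, hp, hq]
    | monomial m r =>
      rw [Bivariate.swap_monomial_monomial]
      simp only [coeff_monomial]
      by_cases h1 : m = i
      · by_cases h2 : n = j
        · simp [h1, h2]
        · simp [h1, h2, coeff_monomial]
      · by_cases h2 : n = j
        · simp [h1, h2, coeff_monomial]
        · simp [h1, h2]

/-- the form of a polynomial of bidegree `(1, 1)` -/
theorem cir_form {k : Type} [Field k] {H : k[X][X]} (h1 : dX H = 1) (h2 : dY H = 1) :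
    ∃ α β γ e : k, (∀ x y, pt x y H = α * (x * y) + β * x + γ * y + e) ∧ (α ≠ 0 ∨ β ≠ 0) ∧
      (α ≠ 0 ∨ γ ≠ 0) := by
  have hco : ∀ i j : ℕ, 2 ≤ i → (H.coeff j).coeff i = 0 := by
    intro i j hi
    have h3 : (Bivariate.swap H).coeff i = 0 :=
      coeff_eq_zero_of_natDegree_lt (by unfold dX at h1; omega)
    rw [← cir_coeff_swap, h3, coeff_zero]
  have hin : ∀ j : ℕ, H.coeff j = C ((H.coeff j).coeff 1) * X + C ((H.coeff j).coeff 0) := by
    intro j
    ext i
    rcases i with _ | _ | i
    · simp
    · simp
    · rw [hco _ j (by omega)]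
      simp
  have hH : H = C (H.coeff 1) * X + C (H.coeff 0) := by
    have h3 : H.natDegree ≤ 1 := by unfold dY at h2; omega
    exact Polynomial.eq_X_add_C_of_natDegree_le_one h3
  refine ⟨(H.coeff 1).coeff 1, (H.coeff 0).coeff 1, (H.coeff 1).coeff 0, (H.coeff 0).coeff 0, ?_, ?_, ?_⟩
  · intro x y
    unfold pt evalEval
    conv_lhs => rw [hH, hin 1, hin 0]
    simp only [eval_add, eval_mul, eval_C, eval_X]
    ring
  · by_contra hcon
    push Not at hcon
    obtain ⟨c1, c2⟩ := hcon
    have h3 : (Bivariate.swap H).coeff 1 = 0 := by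
      ext j
      rw [cir_coeff_swap, coeff_zero]
      rcases j with _ | _ | j
      · exact c2
      · exact c1
      · have h5 : H.coeff (j + 1 + 1) = 0 :=
          coeff_eq_zero_of_natDegree_lt (by unfold dY at h2; omega)
        rw [h5, coeff_zero]
    have h4 : (Bivariate.swap H).leadingCoeff = 0 := by
      unfold dX at h1
      rw [leadingCoeff, h1, h3]
    rw [leadingCoeff_eq_zero] at h4
    unfold dX at h1
    rw [h4, natDegree_zero] at h1
    omega
  · by_contra hcon
    push Not at hcon
    obtain ⟨c1, c2⟩ := hcon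
    have h3 : H.coeff 1 = 0 := by
      rw [hin 1, c1, c2]; simp
    have h4 : H.leadingCoeff = 0 := by
      unfold dY at h2
      rw [leadingCoeff, h2, h3]
    rw [leadingCoeff_eq_zero] at h4
    unfold dY at h2
    rw [h4, natDegree_zero] at h2
    omega

/-- counting by the slopes -/
theorem cir_count {k : Type} [Field k] {q m : ℕ} (hm : 1 ≤ m) {C : Finset k} (hC : Clq q m C)
    {a0 : k} (ha0 : a0 ∈ C) {S : Finset k} (hS : ∀ c ∈ S, c ∈ C ∧ c ≠ a0) (g : k → k)
    (hg : ∀ c ∈ S, c - a0 = g ((c ^ q - a0 ^ q) / (c - a0))) : S.card ≤ m := by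
  classical
  have h1 : S.card ≤ (nthRoots m (1 : k)).toFinset.card := by
    refine Finset.card_le_card_of_injOn (fun c => (c ^ q - a0 ^ q) / (c - a0)) ?_ ?_
    · intro c hc
      obtain ⟨h2, h3⟩ := hS c hc
      rw [Finset.mem_coe, Multiset.mem_toFinset, mem_nthRoots (by omega)]
      have h4 : c - a0 ≠ 0 := sub_ne_zero.2 h3
      rw [div_pow, hC.rel c h2 a0 ha0, div_self (pow_ne_zero _ h4)]
    · intro c hc c' hc' hEq
      have e1 := hg c hc
      have e2 := hg c' hc'
      simp only at hEq
      rw [hEq, ← e2] at e1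
      exact sub_left_injective e1
  exact h1.trans ((Multiset.toFinset_card_le _).trans (card_nthRoots _ _))

open Classical in
theorem circ {k : Type} [Field k] {H : k[X][X]} (h1 : dX H = 1) (h2 : dY H = 1) (hH : Irreducible H)
    {q m : ℕ} (hm : 1 ≤ m) {C : Finset k} (hC : Clq q m C) :
    (C.filter (fun c => pt c (c ^ q) H = 0)).card ≤ m + 1 ∨
      ∃ b c' e : k, b ≠ 0 ∧ c' ≠ 0 ∧ ∀ c ∈ C, b * c + c' * c ^ q + e = 0 := by
  obtain ⟨α, β, γ, e, hform, hαβ, hαγ⟩ := cir_form h1 h2
  have hslope : ∀ c ∈ C, ∀ a0 ∈ C, c ≠ a0 → ((c ^ q - a0 ^ q) / (c - a0)) ^ m = 1 := by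
    intro c hc a0 ha0 hne
    have h4 : c - a0 ≠ 0 := sub_ne_zero.2 hne
    rw [div_pow, hC.rel c hc a0 ha0, div_self (pow_ne_zero _ h4)]
  by_cases hα : α = 0
  · have hβ : β ≠ 0 := hαβ.resolve_left (not_not.2 hα)
    have hγ : γ ≠ 0 := hαγ.resolve_left (not_not.2 hα)
    by_cases hall : ∀ c ∈ C, pt c (c ^ q) H = 0
    · right
      refine ⟨β, γ, e, hβ, hγ, fun c hc => ?_⟩
      have := hall c hc
      rw [hform, hα, zero_mul, zero_add] at this
      exact this
    · left
      push Not at hall
      obtain ⟨a0, ha0, hoff⟩ := hall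
      refine (cir_count hm hC ha0 (S := C.filter (fun c => pt c (c ^ q) H = 0)) ?_
        (fun s => -(β * a0 + γ * a0 ^ q + e) / (β + γ * s)) ?_).trans (Nat.le_succ _)
      · intro c hc
        rw [Finset.mem_filter] at hc
        exact ⟨hc.1, fun h => hoff (by rw [← h]; exact hc.2)⟩
      · intro c hc
        rw [Finset.mem_filter] at hc
        have hne : c - a0 ≠ 0 := sub_ne_zero.2 (fun h => hoff (by rw [← h]; exact hc.2))
        have e1 := hc.2
        rw [hform, hα, zero_mul, zero_add] at e1 hoff
        set s := (c ^ q - a0 ^ q) / (c - a0) with hs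
        have e2 : c ^ q - a0 ^ q = s * (c - a0) := by rw [hs, div_mul_cancel₀ _ hne]
        have e3 : (c - a0) * (β + γ * s) = -(β * a0 + γ * a0 ^ q + e) := by
          linear_combination e1 - γ * e2
        have e4 : β + γ * s ≠ 0 := by
          intro h0
          rw [h0, mul_zero] at e3
          exact hoff (neg_eq_zero.1 e3.symm)
        rw [eq_div_iff e4]
        exact e3
  · left
    by_cases hex : ∃ a0 ∈ C, pt a0 (a0 ^ q) H = 0
    swap
    · push Not at hex
      rw [Finset.filter_false_of_mem (fun c hc => hex c hc), Finset.card_empty]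
      omega
    obtain ⟨a0, ha0, hon⟩ := hex
    have hmem : a0 ∈ C.filter (fun c => pt c (c ^ q) H = 0) := Finset.mem_filter.2 ⟨ha0, hon⟩
    have hcount := cir_count hm hC ha0
      (S := (C.filter (fun c => pt c (c ^ q) H = 0)).erase a0)
      (by
        intro c hc
        rw [Finset.mem_erase, Finset.mem_filter] at hc
        exact ⟨hc.2.1, hc.1⟩)
      (fun s => -((β + α * a0 ^ q) + (γ + α * a0) * s) / (α * s)) (by
        intro c hc
        rw [Finset.mem_erase, Finset.mem_filter] at hc
        obtain ⟨hca, hcC, e1⟩ := hc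
        have hne : c - a0 ≠ 0 := sub_ne_zero.2 hca
        have hsm := hslope c hcC a0 ha0 hca
        set s := (c ^ q - a0 ^ q) / (c - a0) with hs
        have hs0 : s ≠ 0 := by
          intro h0
          rw [h0, zero_pow (by omega)] at hsm
          exact zero_ne_one hsm
        have e2 : c ^ q - a0 ^ q = s * (c - a0) := by rw [hs, div_mul_cancel₀ _ hne]
        have hon' := hon
        rw [hform] at e1 hon'
        have e3 : (c - a0) * ((c - a0) * (α * s) + ((β + α * a0 ^ q) + (γ + α * a0) * s)) = 0 := by
          have e4 : c ^ q = a0 ^ q + s * (c - a0) := by linear_combination e2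
          rw [e4] at e1
          linear_combination e1 - hon'
        have e5 := (mul_eq_zero.1 e3).resolve_left hne
        rw [eq_div_iff (mul_ne_zero hα hs0)]
        linear_combination e5)
    rw [Finset.card_erase_of_mem hmem] at hcount
    omega

end GPC
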