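import Pool.Agent.Lib.MP_56e792_co.S.Defs

/-!
# MP_56e792_co, all prime powers, module Col

The last part of the proofs of `clique_on_line` and `maximal_clique_dichotomy` in GP.lean (collinear and maximal implies a whole line, which has `q` points: `line_adj`, `card_fixed`, `adj_iff`).
-/

set_option autoImplicit false
set_option linter.unusedVariables false

namespace GPC

open Polynomial
open Pool.Agent.Lib.MP_56e792_co (J mem_J GP adj_iff line_adj card_fixed frob_frob frob_sub)

theorem col_card {F : Type} [Field F] {p e q m d : ℕ} (hp : p.Prime) (he : 1 ≤ e)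
    (hq : q = p ^ e) (hcard : Nat.card F = q ^ 2) (hd : 2 ≤ d) (hmd : m * d = q + 1)
    (C : Finset F) (hC : Maximal (fun s : Finset F => (GP F d).IsClique (s : Set F)) C)
    (h2 : 2 ≤ C.card)
    (hcol : ∀ v ∈ C, ∀ a ∈ C, ∀ b ∈ C, (a - v) ^ q * (b - v) = (a - v) * (b - v) ^ q) :
    C.card = q := by
  classical
  have hq1 : 1 < q := by rw [hq]; exact Nat.one_lt_pow (by omega) hp.one_lt
  have hq0 : q ≠ 0 := by omega
  have hFin : Finite F := Nat.finite_of_card_ne_zero (by rw [hcard]; exact pow_ne_zero _ hq0)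
  obtain ⟨v, hv, b, hb, hvb⟩ := Finset.one_lt_card.mp (show 1 < C.card by omega)
  have hw : b - v ≠ 0 := sub_ne_zero.mpr hvb.symm
  have hwm : ((b - v) ^ q) ^ m = (b - v) ^ m :=
    (adj_iff hp hq hq1 hcard hmd b v hvb.symm).mp (hC.prop hb hv hvb.symm)
  have hsub : (C : Set F) ⊆ {u : F | ∃ t : F, t ^ q = t ∧ u = v + t * (b - v)} := by
    intro a ha
    refine ⟨(a - v) / (b - v), ?_, ?_⟩
    · have h := hcol v hv a ha b hb
      rw [div_pow, div_eq_div_iff (pow_ne_zero q hw) hw]
      exact h
    · rw [div_mul_cancel₀ _ hw]; ring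
  have hfin : {u : F | ∃ t : F, t ^ q = t ∧ u = v + t * (b - v)}.Finite := Set.toFinite _
  have hclique : (GP F d).IsClique {u : F | ∃ t : F, t ^ q = t ∧ u = v + t * (b - v)} := by
    rintro x ⟨s, hs, rfl⟩ y ⟨t, ht, rfl⟩ hne
    exact line_adj hp hq hq1 hcard hmd v (b - v) hwm s t hs ht hne
  have hle2 : C ≤ hfin.toFinset := by
    intro z hz
    rw [Set.Finite.mem_toFinset]
    exact hsub hz
  have h2' : hfin.toFinset ≤ C := hC.le_of_ge (by
    simp only [Set.Finite.coe_toFinset]; exact hclique) hle2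
  have heq : C = hfin.toFinset := le_antisymm hle2 h2'
  have hset : (C : Set F) = {u : F | ∃ t : F, t ^ q = t ∧ u = v + t * (b - v)} := by
    rw [heq, Set.Finite.coe_toFinset]
  have h3 : {u : F | ∃ t : F, t ^ q = t ∧ u = v + t * (b - v)}
      = (fun t : F => v + t * (b - v)) '' {t : F | t ^ q = t} := by
    ext u
    simp only [Set.mem_ofPred_eq, Set.mem_image]
    constructor
    · rintro ⟨t, ht, rfl⟩; exact ⟨t, ht, rfl⟩
    · rintro ⟨t, ht, rfl⟩; exact ⟨t, ht, rfl⟩
  have h4 : Function.Injective (fun t : F => v + t * (b - v)) := by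
    intro s t hst
    have : s * (b - v) = t * (b - v) := add_left_cancel hst
    exact mul_right_cancel₀ hw this
  rw [← Set.ncard_coe_finset, hset, h3, Set.ncard_image_of_injective _ h4,
    card_fixed hq1 hcard]

/-- the image of a clique in an algebraically closed field -/
theorem clq_map {F : Type} [Field F] {p e q m d : ℕ} (hp : p.Prime) (he : 1 ≤ e)
    (hq : q = p ^ e) (hcard : Nat.card F = q ^ 2) (hmd : m * d = q + 1)
    (C : Finset F) (hC : (GP F d).IsClique (C : Set F)) {k : Type} [Field k] [DecidableEq k] (i : F →+* k) :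
    Clq q m (C.image i) := by
  have hq1 : 1 < q := by rw [hq]; exact Nat.one_lt_pow (by omega) hp.one_lt
  have hq0 : q ≠ 0 := by omega
  constructor
  · intro c hc
    obtain ⟨x, hx, rfl⟩ := Finset.mem_image.mp hc
    rw [← map_pow, ← map_pow, frob_frob hq0 hcard]
  · intro a ha b hb
    obtain ⟨x, hx, rfl⟩ := Finset.mem_image.mp ha
    obtain ⟨y, hy, rfl⟩ := Finset.mem_image.mp hb
    by_cases hxy : x = y
    · rw [hxy, sub_self, sub_self]
    · have h := (adj_iff hp hq hq1 hcard hmd x y hxy).mp (hC hx hy hxy)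
      rw [frob_sub hp hq hcard] at h
      rw [← map_pow, ← map_pow, ← map_sub, ← map_sub, ← map_pow, ← map_pow, h]

end GPC
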