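import Pool.Agent.Lib.MP_56e792_co.S.Defs

/-!
# MP_56e792_co, all prime powers, module Luc

`J p r = {i | p does not divide r.choose i}` (Comb.lean; `mem_J`).
* `J_block`: Lucas for blocks: `(1+X)^(p^v r1 + r0) = (1 + X^(p^v))^r1 (1+X)^r0` mod `p`, `r0 < p^v`: the coefficient of `X^(p^v i1 + i0)`, `i0 < p^v`, is
  `r1.choose i1 * r0.choose i0` (Mathlib: `Choose.choose_modEq_choose_mod_mul_choose_div_nat` digit by digit, induction on `v`; compare `mem_J_block` in Comb.lean);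
  `i0 ∈ J p r0` forces `i0 ≤ r0 < p^v`.
* `J_split`: Vandermonde `(p^v-1).choose b = ∑ g.choose l * (p^v-1-g).choose (b-l)` (`Nat.add_choose_eq`) and `p` does not divide `(p^v-1).choose b`
  (induction on `b` with Pascal: `(p^v).choose (b+1) = (p^v-1).choose b + (p^v-1).choose (b+1)`, `p ∣ (p^v).choose (b+1)` for `0 < b+1 < p^v`).
* `J_up`: `(r - i) * r.choose i = r * (r-1).choose i` (`i ≤ r-1`). * `J_pascal`: Pascal.
-/

set_option autoImplicit false
set_option linter.unusedVariables false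

namespace GPC

open Polynomial
open Pool.Agent.Lib.MP_56e792_co (J mem_J GP lucas_pow le_of_mem_J zero_mem_J choose_pow_sub_one)

theorem J_block {p : ℕ} (hp : p.Prime) (v r1 r0 i : ℕ) (h0 : r0 < p ^ v) :
    i ∈ J p (p ^ v * r1 + r0) ↔ ∃ i1 i0, i = p ^ v * i1 + i0 ∧ i1 ∈ J p r1 ∧ i0 ∈ J p r0 := by
  have hpos : 0 < p ^ v := pow_pos hp.pos v
  have e1 : (p ^ v * r1 + r0) % p ^ v = r0 := by
    rw [Nat.mul_add_mod, Nat.mod_eq_of_lt h0]
  have e2 : (p ^ v * r1 + r0) / p ^ v = r1 := by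
    rw [Nat.mul_add_div hpos, Nat.div_eq_of_lt h0, add_zero]
  have key : i ∈ J p (p ^ v * r1 + r0) ↔ (i % p ^ v ∈ J p r0 ∧ i / p ^ v ∈ J p r1) := by
    rw [mem_J, mem_J, mem_J, lucas_pow hp v, e1, e2, not_or]
  rw [key]
  constructor
  · rintro ⟨h1, h2⟩
    exact ⟨i / p ^ v, i % p ^ v, (Nat.div_add_mod i (p ^ v)).symm, h2, h1⟩
  · rintro ⟨i1, i0, rfl, h1, h2⟩
    have hlt : i0 < p ^ v := lt_of_le_of_lt (le_of_mem_J h2) h0
    rw [Nat.mul_add_mod, Nat.mod_eq_of_lt hlt, Nat.mul_add_div hpos, Nat.div_eq_of_lt hlt,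
      add_zero]
    exact ⟨h2, h1⟩

theorem J_split {p : ℕ} (hp : p.Prime) (v g b : ℕ) (hg : g < p ^ v) (hb : b < p ^ v) :
    ∃ l l', l + l' = b ∧ l ∈ J p g ∧ l' ∈ J p (p ^ v - 1 - g) := by
  by_contra hcon
  push Not at hcon
  have h1 : ¬ p ∣ (p ^ v - 1).choose b := choose_pow_sub_one hp v b (by omega)
  apply h1
  have e : p ^ v - 1 = g + (p ^ v - 1 - g) := by omega
  rw [e, Nat.add_choose_eq]
  apply Finset.dvd_sum
  rintro ⟨l, l'⟩ hl
  have hl : l + l' = b := Finset.HasAntidiagonal.mem_antidiagonal.mp hl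
  by_cases h2 : l ∈ J p g
  · have h3 := hcon l l' hl h2
    rw [mem_J, not_not] at h3
    exact Dvd.dvd.mul_left h3 _
  · rw [mem_J, not_not] at h2
    exact Dvd.dvd.mul_right h2 _

theorem J_up {p r i : ℕ} (hp : p.Prime) (hr : ¬ p ∣ r) (h : i ∈ J p (r - 1)) : i ∈ J p r := by
  rcases r with _ | r
  · exact absurd (dvd_zero p) hr
  · rw [Nat.add_sub_cancel] at h
    rw [mem_J] at h ⊢
    intro hd
    have h1 := Nat.choose_mul_succ_eq r i
    have h2 : p ∣ r.choose i * (r + 1) := by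
      rw [h1]
      exact Dvd.dvd.mul_right hd _
    rcases hp.dvd_mul.mp h2 with h3 | h3
    · exact h h3
    · exact hr h3

theorem J_pascal {p r i : ℕ} (hr : 1 ≤ r) (h : i ∈ J p r) :
    i ∈ J p (r - 1) ∨ (1 ≤ i ∧ i - 1 ∈ J p (r - 1)) := by
  obtain ⟨r, rfl⟩ : ∃ r', r = r' + 1 := ⟨r - 1, by omega⟩
  rw [Nat.add_sub_cancel]
  rcases i with _ | i
  · left
    rw [mem_J, Nat.choose_zero_right] at h ⊢
    exact h
  · by_contra hcon
    push Not at hcon
    obtain ⟨h1, h2⟩ := hcon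
    have h2 := h2 (by omega)
    rw [Nat.add_sub_cancel, mem_J, not_not] at h2
    rw [mem_J, not_not] at h1
    rw [mem_J] at h
    apply h
    rw [Nat.choose_succ_succ]
    exact dvd_add h2 h1

end GPC
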