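import Pool.Agent.Lib.MP_56e792_co.S.Defs

/-!
# MP_56e792_co, all prime powers, module Nmb

Elementary identities for `mm d q0 π t = (q0 π^t + 1)/d`, `gg d π j = (π^j - 1)/d`, `π = p^w = 1 mod d`, `q0 = p^L = -1 mod d`.
`q0 π^s + 1 = q0 π^(s-j) (π^j - 1) + (q0 π^(s-j) + 1)` and `= π^j (q0 π^(s-j) + 1) - (π^j - 1)`; `d ∣ π^j - 1` (`Nat.ModEq.pow`). For `mm_lt`: `π ≥ 3`
(`π = 2` would give `d ∣ 1`), so `A = q0 π^(s-j) ≥ 3` and `(A+1)/d ≤ (A+1)/2 < A`. `pi_sub_ndvd`: `d * (π^j - gg) = (d-1) π^j + 1` is prime to `p`.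
-/

set_option autoImplicit false
set_option linter.unusedVariables false

namespace GPC

open Polynomial
open Pool.Agent.Lib.MP_56e792_co (J mem_J GP)

private theorem nmb_pi_two {p d L w : ℕ} (h : Num p d L w) : 2 ≤ p ^ w := by
  have h1 := h.hp.two_le
  calc 2 ≤ p := h1
    _ = p ^ 1 := (pow_one p).symm
    _ ≤ p ^ w := Nat.pow_le_pow_right (by omega) h.hw

private theorem nmb_one_le {p d L w : ℕ} (h : Num p d L w) (j : ℕ) : 1 ≤ (p ^ w) ^ j :=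
  Nat.one_le_pow _ _ (by have := nmb_pi_two h; omega)

private theorem nmb_q_pos {p d L w : ℕ} (h : Num p d L w) : 1 ≤ p ^ L :=
  Nat.one_le_pow _ _ h.hp.pos

private theorem nmb_dvd_pow {p d L w : ℕ} (h : Num p d L w) (j : ℕ) : d ∣ (p ^ w) ^ j - 1 := by
  have h1 : p ^ w - 1 ∣ (p ^ w) ^ j - 1 ^ j := Nat.sub_dvd_pow_sub_pow (p ^ w) 1 j
  rw [one_pow] at h1
  exact h.hπ.trans h1

private theorem nmb_dvd_m {p d L w : ℕ} (h : Num p d L w) (s : ℕ) :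
    d ∣ p ^ L * (p ^ w) ^ s + 1 := by
  have h1 : p ^ L * (p ^ w) ^ s + 1 = p ^ L * ((p ^ w) ^ s - 1) + (p ^ L + 1) := by
    have := nmb_one_le h s
    obtain ⟨x, hx⟩ : ∃ x, (p ^ w) ^ s = x + 1 := ⟨(p ^ w) ^ s - 1, by omega⟩
    rw [hx, Nat.add_sub_cancel]
    ring
  rw [h1]
  exact dvd_add (Dvd.dvd.mul_left (nmb_dvd_pow h s) _) h.hq

theorem mm_mul {p d L w : ℕ} (h : Num p d L w) (s : ℕ) :
    mm d (p ^ L) (p ^ w) s * d = p ^ L * (p ^ w) ^ s + 1 :=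
  Nat.div_mul_cancel (nmb_dvd_m h s)

theorem gg_mul {p d L w : ℕ} (h : Num p d L w) (j : ℕ) :
    gg d (p ^ w) j * d = (p ^ w) ^ j - 1 :=
  Nat.div_mul_cancel (nmb_dvd_pow h j)

private theorem nmb_gg_mul' {p d L w : ℕ} (h : Num p d L w) (j : ℕ) :
    gg d (p ^ w) j * d + 1 = (p ^ w) ^ j := by
  have h1 := gg_mul h j
  have h2 := nmb_one_le h j
  omega

private theorem nmb_split {p w s j : ℕ} (hj : j ≤ s) :
    (p ^ w) ^ s = (p ^ w) ^ (s - j) * (p ^ w) ^ j := by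
  rw [← pow_add, Nat.sub_add_cancel hj]

theorem mm_top {p d L w : ℕ} (h : Num p d L w) {s j : ℕ} (hj : j ≤ s) :
    mm d (p ^ L) (p ^ w) s =
      p ^ L * (p ^ w) ^ (s - j) * gg d (p ^ w) j + mm d (p ^ L) (p ^ w) (s - j) := by
  have hd : 0 < d := by have := h.hd; omega
  apply Nat.eq_of_mul_eq_mul_right hd
  rw [mm_mul h s, add_mul, mm_mul h (s - j), nmb_split (p := p) (w := w) hj, ← nmb_gg_mul' h j]
  ring

theorem gg_lt {p d L w : ℕ} (h : Num p d L w) (j : ℕ) : gg d (p ^ w) j < (p ^ w) ^ j := by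
  have h1 := nmb_gg_mul' h j
  have h2 := h.hd
  have h3 : gg d (p ^ w) j * 1 ≤ gg d (p ^ w) j * d := Nat.mul_le_mul_left _ (by omega)
  omega

theorem gg_pos {p d L w : ℕ} (h : Num p d L w) {j : ℕ} (hj : 1 ≤ j) : 1 ≤ gg d (p ^ w) j := by
  have h1 := nmb_gg_mul' h j
  have h2 := nmb_pi_two h
  have h3 : (p ^ w) ^ 1 ≤ (p ^ w) ^ j := Nat.pow_le_pow_right (by omega) hj
  rw [pow_one] at h3
  by_contra hc
  have h4 : gg d (p ^ w) j = 0 := by omega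
  rw [h4] at h1
  omega

theorem mm_lt {p d L w : ℕ} (h : Num p d L w) {t : ℕ} (ht : 1 ≤ t) :
    mm d (p ^ L) (p ^ w) t < p ^ L * (p ^ w) ^ t := by
  have h1 := mm_mul h t
  have h2 := nmb_pi_two h
  have h3 : (p ^ w) ^ 1 ≤ (p ^ w) ^ t := Nat.pow_le_pow_right (by omega) ht
  rw [pow_one] at h3
  have h4 : 1 * (p ^ w) ^ t ≤ p ^ L * (p ^ w) ^ t := Nat.mul_le_mul_right _ (nmb_q_pos h)
  have h5 : mm d (p ^ L) (p ^ w) t * 2 ≤ mm d (p ^ L) (p ^ w) t * d :=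
    Nat.mul_le_mul_left _ h.hd
  omega

theorem mm_pos {p d L w : ℕ} (h : Num p d L w) (t : ℕ) : 1 ≤ mm d (p ^ L) (p ^ w) t := by
  have h1 := mm_mul h t
  by_contra hc
  have h4 : mm d (p ^ L) (p ^ w) t = 0 := by omega
  rw [h4] at h1
  omega

theorem mm_le {p d L w : ℕ} (h : Num p d L w) (t : ℕ) :
    mm d (p ^ L) (p ^ w) t ≤ p ^ L * (p ^ w) ^ t := by
  have h1 := mm_mul h t
  have h5 : mm d (p ^ L) (p ^ w) t * 2 ≤ mm d (p ^ L) (p ^ w) t * d :=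
    Nat.mul_le_mul_left _ h.hd
  have h6 := mm_pos h t
  omega

theorem mm_bot {p d L w : ℕ} (h : Num p d L w) {s j : ℕ} (hj : j ≤ s) :
    mm d (p ^ L) (p ^ w) s = (p ^ w) ^ j * (mm d (p ^ L) (p ^ w) (s - j) - 1) +
      ((p ^ w) ^ j - gg d (p ^ w) j) := by
  have hd : 0 < d := by have := h.hd; omega
  obtain ⟨x, hx⟩ : ∃ x, mm d (p ^ L) (p ^ w) (s - j) = x + 1 :=
    ⟨mm d (p ^ L) (p ^ w) (s - j) - 1, by have := mm_pos h (s - j); omega⟩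
  obtain ⟨y, hy⟩ : ∃ y, (p ^ w) ^ j = y + gg d (p ^ w) j :=
    ⟨(p ^ w) ^ j - gg d (p ^ w) j, by have := gg_lt h j; omega⟩
  have h1 := mm_mul h (s - j)
  have h2 := nmb_gg_mul' h j
  rw [hx] at h1
  rw [hx, Nat.add_sub_cancel]
  have h3 : (p ^ w) ^ j - gg d (p ^ w) j = y := by omega
  rw [h3]
  apply Nat.eq_of_mul_eq_mul_right hd
  rw [mm_mul h s, nmb_split (p := p) (w := w) hj]
  zify at h1 h2 hy ⊢
  linear_combination (-((p : ℤ) ^ w) ^ j) * h1 + h2 + (d : ℤ) * hy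

theorem pi_sub_ndvd {p d L w : ℕ} (h : Num p d L w) {j : ℕ} (hj : 1 ≤ j) :
    ¬ p ∣ (p ^ w) ^ j - gg d (p ^ w) j := by
  intro hc
  obtain ⟨y, hy⟩ : ∃ y, (p ^ w) ^ j = y + gg d (p ^ w) j :=
    ⟨(p ^ w) ^ j - gg d (p ^ w) j, by have := gg_lt h j; omega⟩
  have h3 : (p ^ w) ^ j - gg d (p ^ w) j = y := by omega
  rw [h3] at hc
  have h2 := nmb_gg_mul' h j
  have hp : p ∣ (p ^ w) ^ j := by
    have : p ^ 1 ∣ p ^ (w * j) := pow_dvd_pow p (Nat.mul_pos h.hw hj)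
    rw [pow_one] at this
    rwa [← pow_mul]
  have h4 : ((1 : ℕ) : ℤ) = (d : ℤ) * (y : ℤ) - ((d : ℤ) - 1) * (((p ^ w) ^ j : ℕ) : ℤ) := by
    zify at h2 hy ⊢
    linear_combination (d : ℤ) * hy + h2
  have h5 : (p : ℤ) ∣ ((1 : ℕ) : ℤ) := by
    rw [h4]
    exact dvd_sub (Dvd.dvd.mul_left (Int.natCast_dvd_natCast.mpr hc) _)
      (Dvd.dvd.mul_left (Int.natCast_dvd_natCast.mpr hp) _)
  have h6 : p ∣ 1 := Int.natCast_dvd_natCast.mp h5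
  exact h.hp.one_lt.ne' (Nat.dvd_one.mp h6)

end GPC
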