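import Pool.Agent.Lib.MP_56e792_co.S.Defs
import Pool.Agent.Lib.MP_56e792_co.S.Luc
import Pool.Agent.Lib.MP_56e792_co.S.Nmb

/-!
# MP_56e792_co, all prime powers, module ExA

The exponents. `(p^w)^j = p^(w*j)`, `p^L*(p^w)^(s-j) = p^(L+w*(s-j))`.
* `exp_top`: `mm_top`, `mm_lt`, `J_block`.
* `exp_bot`: `j = 0`: `J_pascal` (`k = i, i' = 0` or `k = i-1, i' = 1`); `j ≥ 1`: `mm_bot`, `gg_pos`, `J_block`, `i' ∈ J p (π^j - g_j)` gives `i' ≤ π^j`.
* `exp_mid`: `j = 0`: `gg = 0`, `l ∈ J p 0`, so `l = 0`, left alternative. `j ≥ 1`: `J_pascal` for `i ∈ J p (mm (s-j))`, `J_up` with `pi_sub_ndvd` for `l` (`π^j - 1 - g = (π^j - g) - 1`), `mm_bot`, `J_block`;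
  `i - 1 ∈ J` gives `π^j i + l = π^j + (π^j (i-1) + l)`.
* `exp_sum`: `J_split`.
* `exp_count`: induction on `t`: `mm (t+1) - 1 = π (mm t - 1) + (π - 1 - g_1)` (`mm_bot` with `j = 1`), `J_block`: the cardinality is the product, and
  `(J p (π-1-g_1)).card ≤ π - g_1 ≤ π - 1`; `t = 0`: `(J p (mm 0 - 1)).card ≤ mm 0 ≤ p^L`.
-/

set_option autoImplicit false
set_option linter.unusedVariables false

namespace GPC

open Polynomial
open Pool.Agent.Lib.MP_56e792_co (J mem_J GP)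

theorem exp_top {p d L w : ℕ} (h : Num p d L w) {s j : ℕ} (hj : j < s) (i : ℕ) :
    i ∈ J p (mm d (p ^ L) (p ^ w) s) ↔ ∃ l i', i = p ^ L * (p ^ w) ^ (s - j) * l + i' ∧
      l ∈ J p (gg d (p ^ w) j) ∧ i' ∈ J p (mm d (p ^ L) (p ^ w) (s - j)) := by
  have e : p ^ L * (p ^ w) ^ (s - j) = p ^ (L + w * (s - j)) := by
    rw [← pow_mul, ← pow_add]
  have h0 := mm_lt h (t := s - j) (by omega)
  rw [mm_top h hj.le]
  rw [e] at h0 ⊢
  exact J_block h.hp _ _ _ _ h0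

theorem exp_bot {p d L w : ℕ} (h : Num p d L w) {s j : ℕ} (hj : j ≤ s) {i : ℕ}
    (hi : i ∈ J p (mm d (p ^ L) (p ^ w) s)) :
    ∃ k i', i = (p ^ w) ^ j * k + i' ∧ i' ≤ (p ^ w) ^ j ∧
      k ∈ J p (mm d (p ^ L) (p ^ w) (s - j) - 1) := by
  rcases Nat.eq_zero_or_pos j with rfl | hj1
  · rw [Nat.sub_zero]
    rcases J_pascal (mm_pos h s) hi with h1 | ⟨h1, h2⟩
    · exact ⟨i, 0, by simp, by simp, h1⟩
    · exact ⟨i - 1, 1, by simp only [pow_zero, one_mul]; omega, by simp, h2⟩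
  · have e : (p ^ w) ^ j = p ^ (w * j) := by rw [← pow_mul]
    have hg := gg_pos h hj1
    have hg2 := gg_lt h j
    rw [mm_bot h hj] at hi
    rw [e] at hi hg2 ⊢
    obtain ⟨i1, i0, h1, h2, h3⟩ := (J_block h.hp _ _ _ _ (by omega)).1 hi
    refine ⟨i1, i0, h1, ?_, h2⟩
    have := Pool.Agent.Lib.MP_56e792_co.le_of_mem_J h3
    omega

theorem exp_mid {p d L w : ℕ} (h : Num p d L w) {s j : ℕ} (hj : j ≤ s) {i l : ℕ}
    (hi : i ∈ J p (mm d (p ^ L) (p ^ w) (s - j)))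
    (hl : l ∈ J p ((p ^ w) ^ j - 1 - gg d (p ^ w) j)) :
    (p ^ w) ^ j * i + l ∈ J p (mm d (p ^ L) (p ^ w) s) ∨
      ∃ e ∈ J p (mm d (p ^ L) (p ^ w) s), (p ^ w) ^ j * i + l = (p ^ w) ^ j + e := by
  rcases Nat.eq_zero_or_pos j with rfl | hj1
  · left
    have hl0 : l = 0 := by
      have h1 := Pool.Agent.Lib.MP_56e792_co.le_of_mem_J hl
      simp only [pow_zero] at h1
      omega
    rw [Nat.sub_zero] at hi
    rw [hl0, pow_zero, one_mul, add_zero]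
    exact hi
  · have e : (p ^ w) ^ j = p ^ (w * j) := by rw [← pow_mul]
    have hg := gg_pos h hj1
    have hg2 := gg_lt h j
    have hnd := pi_sub_ndvd h hj1
    have hl2 : l ∈ J p ((p ^ w) ^ j - gg d (p ^ w) j) := by
      apply J_up h.hp hnd
      have h1 : (p ^ w) ^ j - gg d (p ^ w) j - 1 = (p ^ w) ^ j - 1 - gg d (p ^ w) j := by omega
      rw [h1]
      exact hl
    have hblock : ∀ i', i' ∈ J p (mm d (p ^ L) (p ^ w) (s - j) - 1) →
        (p ^ w) ^ j * i' + l ∈ J p (mm d (p ^ L) (p ^ w) s) := by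
      intro i' hi'
      rw [mm_bot h hj]
      rw [e] at hl2 hg2 ⊢
      exact (J_block h.hp _ _ _ _ (by omega)).2 ⟨i', l, rfl, hi', hl2⟩
    rcases J_pascal (mm_pos h (s - j)) hi with h1 | ⟨h1, h2⟩
    · exact Or.inl (hblock i h1)
    · right
      refine ⟨(p ^ w) ^ j * (i - 1) + l, hblock _ h2, ?_⟩
      obtain ⟨i', rfl⟩ : ∃ i', i = i' + 1 := ⟨i - 1, by omega⟩
      rw [Nat.add_sub_cancel]
      ring

theorem exp_sum {p d L w : ℕ} (h : Num p d L w) {j b : ℕ} (hb : b < (p ^ w) ^ j) :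
    ∃ l l', l + l' = b ∧ l ∈ J p (gg d (p ^ w) j) ∧
      l' ∈ J p ((p ^ w) ^ j - 1 - gg d (p ^ w) j) := by
  have e : (p ^ w) ^ j = p ^ (w * j) := by rw [← pow_mul]
  have hg2 := gg_lt h j
  rw [e] at hb hg2 ⊢
  exact J_split h.hp _ _ _ hg2 hb

theorem exp_count {p d L w : ℕ} (h : Num p d L w) (t : ℕ) :
    (J p (mm d (p ^ L) (p ^ w) t - 1)).card ≤ p ^ L * (p ^ w - 1) ^ t := by
  have hJle : ∀ r, (J p r).card ≤ r + 1 := by
    intro r
    have h1 : J p r ⊆ Finset.range (r + 1) := by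
      intro i hi
      rw [Finset.mem_range]
      have := Pool.Agent.Lib.MP_56e792_co.le_of_mem_J hi
      omega
    simpa using Finset.card_le_card h1
  induction t with
  | zero =>
    have h1 := mm_pos h 0
    have h2 := mm_le h 0
    have h3 := hJle (mm d (p ^ L) (p ^ w) 0 - 1)
    simp only [pow_zero, mul_one] at h2 ⊢
    omega
  | succ t ih =>
    have e1 := mm_bot h (s := t + 1) (j := 1) (by omega)
    have hg := gg_pos h (j := 1) le_rfl
    have hg2 := gg_lt h 1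
    rw [Nat.add_sub_cancel] at e1
    have hp1 : 1 ≤ mm d (p ^ L) (p ^ w) t := mm_pos h t
    have e2 : mm d (p ^ L) (p ^ w) (t + 1) - 1 =
        p ^ w * (mm d (p ^ L) (p ^ w) t - 1) + (p ^ w - 1 - gg d (p ^ w) 1) := by
      rw [e1, pow_one]
      rw [pow_one] at hg2
      omega
    rw [e2]
    rw [pow_one] at hg2
    have hr : p ^ w - 1 - gg d (p ^ w) 1 < p ^ w := by omega
    have hsub : J p (p ^ w * (mm d (p ^ L) (p ^ w) t - 1) + (p ^ w - 1 - gg d (p ^ w) 1)) ⊆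
        (J p (mm d (p ^ L) (p ^ w) t - 1) ×ˢ J p (p ^ w - 1 - gg d (p ^ w) 1)).image
          (fun x => p ^ w * x.1 + x.2) := by
      intro i hi
      obtain ⟨i1, i0, h1, h2, h3⟩ := (J_block h.hp _ _ _ _ hr).1 hi
      rw [Finset.mem_image]
      exact ⟨(i1, i0), Finset.mem_product.mpr ⟨h2, h3⟩, h1.symm⟩
    have h4 : (J p (p ^ w - 1 - gg d (p ^ w) 1)).card ≤ p ^ w - 1 := by
      have := hJle (p ^ w - 1 - gg d (p ^ w) 1)
      omega
    calc _ ≤ _ := Finset.card_le_card hsub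
      _ ≤ (J p (mm d (p ^ L) (p ^ w) t - 1) ×ˢ J p (p ^ w - 1 - gg d (p ^ w) 1)).card :=
        Finset.card_image_le
      _ = (J p (mm d (p ^ L) (p ^ w) t - 1)).card * (J p (p ^ w - 1 - gg d (p ^ w) 1)).card :=
        Finset.card_product _ _
      _ ≤ (p ^ L * (p ^ w - 1) ^ t) * (p ^ w - 1) := Nat.mul_le_mul ih h4
      _ = p ^ L * (p ^ w - 1) ^ (t + 1) := by rw [pow_succ, mul_assoc]

end GPC
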