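import Pool.Agent.Lib.MP_56e792_co.S.Defs2
import Pool.Agent.Lib.MP_56e792_co.S.Da2

/-!
# MP_56e792_co, phase 2 (fixed characteristic), module Db2

Copy of DmB (dimB). `b = l + l'` (`exp_sum`), `y^b = y^l y^l'` is in the span of `x^(D a + l1) y^(D i + l')` (`dimA2`), `y^(D i + l') = y^e` or `y^D y^e` with `e ∈ J p m` (`exp_mid`), and `y^e` is in the span of `y^a' x^i` (`hA.yx`).
-/

set_option autoImplicit false
set_option linter.unusedVariables false

namespace GPC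

open Polynomial
open Pool.Agent.Lib.MP_56e792_co (J mem_J GP)

private theorem db2_mul {k A : Type} [Field k] [CommRing A] [Algebra k A] {S : Set A}
    {T : Submodule k A} {c : A} (h : ∀ z ∈ S, c * z ∈ T) {y : A} (hy : y ∈ Submodule.span k S) :
    c * y ∈ T := by
  induction hy using Submodule.span_induction with
  | mem z hz => exact h z hz
  | zero => rw [mul_zero]; exact T.zero_mem
  | add a b _ _ ha hb => rw [mul_add]; exact T.add_mem ha hb
  | smul r a _ ha => rw [mul_smul_comm]; exact T.smul_mem r ha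

theorem dimB2 {k A : Type} [Field k] [CommRing A] [Algebra k A] {p d L w N : ℕ} [CharP k p]
    (h : Num p d L w) {s j : ℕ} (hj : j < s) {x y : A}
    (hA : Jal2 (k := k) p (p ^ L * (p ^ w) ^ s) (mm d (p ^ L) (p ^ w) s) N x y) {b : ℕ}
    (hb : b < (p ^ w) ^ j) :
    y ^ b ∈ Submodule.span k {z | ∃ a < N, ∃ a' < N, ∃ l1 ∈ J p (gg d (p ^ w) j),
      ∃ i ∈ J p (mm d (p ^ L) (p ^ w) s), z = x ^ ((p ^ w) ^ j * a + (l1 + i)) * y ^ a' ∨
        z = x ^ ((p ^ w) ^ j * a + (l1 + i)) * y ^ ((p ^ w) ^ j + a')} := by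
  obtain ⟨l, l', hll, hl, hl'⟩ := exp_sum h hb
  have h1 := dimA2 h hj hA hl
  have h2 : y ^ b = y ^ l' * y ^ l := by
    rw [← pow_add, ← hll, add_comm]
  rw [h2]
  refine db2_mul ?_ h1
  rintro z ⟨a, ha, l1, hl1, i, hi, rfl⟩
  rcases exp_mid h hj.le hi hl' with he | ⟨e, he, heq⟩
  · have h3 : y ^ l' * (x ^ ((p ^ w) ^ j * a + l1) * y ^ ((p ^ w) ^ j * i)) =
        x ^ ((p ^ w) ^ j * a + l1) * y ^ ((p ^ w) ^ j * i + l') := by
      rw [pow_add y]
      ring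
    rw [h3]
    refine db2_mul ?_ (hA.yx _ he)
    rintro z ⟨a', ha', i2, hi2, rfl⟩
    refine Submodule.subset_span ⟨a, ha, a', ha', l1, hl1, i2, hi2, Or.inl ?_⟩
    rw [← add_assoc, pow_add x _ i2]
    ring
  · have h3 : y ^ l' * (x ^ ((p ^ w) ^ j * a + l1) * y ^ ((p ^ w) ^ j * i)) =
        (x ^ ((p ^ w) ^ j * a + l1) * y ^ ((p ^ w) ^ j)) * y ^ e := by
      have h4 : y ^ ((p ^ w) ^ j * i) * y ^ l' = y ^ ((p ^ w) ^ j) * y ^ e := by
        rw [← pow_add, heq, pow_add]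
      calc y ^ l' * (x ^ ((p ^ w) ^ j * a + l1) * y ^ ((p ^ w) ^ j * i))
          = x ^ ((p ^ w) ^ j * a + l1) * (y ^ ((p ^ w) ^ j * i) * y ^ l') := by ring
        _ = (x ^ ((p ^ w) ^ j * a + l1) * y ^ ((p ^ w) ^ j)) * y ^ e := by rw [h4]; ring
    rw [h3]
    refine db2_mul ?_ (hA.yx _ he)
    rintro z ⟨a', ha', i2, hi2, rfl⟩
    refine Submodule.subset_span ⟨a, ha, a', ha', l1, hl1, i2, hi2, Or.inr ?_⟩
    rw [← add_assoc, pow_add x _ i2, pow_add y _ a']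
    ring

end GPC
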