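import Pool.Agent.Lib.MP_56e792_co.S.Defs2
import Pool.Agent.Lib.MP_56e792_co.S.Db2

/-!
# MP_56e792_co, phase 2 (fixed characteristic), module Dc2

Copy of DmC (dimC). `x^a0 y^b`, `a0, b < D`: exponents of `x`: `D a + a0 + l1 + i`, `i = D k' + i'`, `i' ≤ D`, `k' ∈ J p (mm (s-j) - 1)` (`exp_bot`), `l1 ≤ gg < D`: `= D (k' + a) + r`, `r < 3 D`; exponents of `y`: `a'` or `D + a'`, `a' < N`: at most
`(J p (mm (s-j) - 1)).card * N * (3 D) * N * 2` elements (`exp_count`).
-/

set_option autoImplicit false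
set_option linter.unusedVariables false

namespace GPC

open Polynomial
open Pool.Agent.Lib.MP_56e792_co (J mem_J GP)

/-- the finite set which spans everything -/
private noncomputable def dc2_F {A : Type} [CommRing A] (D N : ℕ) (Jt : Finset ℕ) (x y : A) :
    Finset A :=
  open Classical in
  (((Finset.range N ×ˢ Finset.range N) ×ˢ (Finset.range 2 ×ˢ Finset.range (3 * D))) ×ˢ Jt).image
    fun u => x ^ (D * (u.2 + u.1.1.1) + u.1.2.2) * y ^ (D * u.1.2.1 + u.1.1.2)

private theorem dc2_card {A : Type} [CommRing A] (D N : ℕ) (Jt : Finset ℕ) (x y : A) :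
    (dc2_F D N Jt x y).card ≤ 6 * N ^ 2 * D * Jt.card := by
  classical
  unfold dc2_F
  refine Finset.card_image_le.trans ?_
  rw [Finset.card_product, Finset.card_product, Finset.card_product, Finset.card_product,
    Finset.card_range, Finset.card_range, Finset.card_range]
  exact le_of_eq (by ring)

private theorem dc2_mem {k A : Type} [Field k] [CommRing A] [Algebra k A] {p d L w N : ℕ}
    [CharP k p] (h : Num p d L w) {s j : ℕ} (hj : j < s) {x y : A}
    (hA : Jal2 (k := k) p (p ^ L * (p ^ w) ^ s) (mm d (p ^ L) (p ^ w) s) N x y) {a b : ℕ}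
    (ha : a < (p ^ w) ^ j) (hb : b < (p ^ w) ^ j) :
    x ^ a * y ^ b ∈ Submodule.span k
      (dc2_F ((p ^ w) ^ j) N (J p (mm d (p ^ L) (p ^ w) (s - j) - 1)) x y : Set A) := by
  classical
  have hB := dimB2 h hj hA hb
  have h1 : x ^ a * y ^ b ∈ (Submodule.span k {z | ∃ a < N, ∃ a' < N, ∃ l1 ∈ J p (gg d (p ^ w) j),
      ∃ i ∈ J p (mm d (p ^ L) (p ^ w) s), z = x ^ ((p ^ w) ^ j * a + (l1 + i)) * y ^ a' ∨
        z = x ^ ((p ^ w) ^ j * a + (l1 + i)) * y ^ ((p ^ w) ^ j + a')}).map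
        (LinearMap.mulLeft k (x ^ a)) :=
    ⟨y ^ b, hB, rfl⟩
  rw [Submodule.map_span] at h1
  refine Submodule.span_le.2 ?_ h1
  rintro _ ⟨z, ⟨a1, ha1, a2, ha2, l1, hl1, i, hi, hz⟩, rfl⟩
  obtain ⟨k', i', e1, e2, e3⟩ := exp_bot h hj.le hi
  have e4 : l1 ≤ gg d (p ^ w) j := Pool.Agent.Lib.MP_56e792_co.le_of_mem_J hl1
  have e5 := gg_lt h j
  have key : ∀ c : ℕ, c < 2 → x ^ (a + ((p ^ w) ^ j * a1 + (l1 + i))) * y ^ ((p ^ w) ^ j * c + a2) ∈
      Submodule.span k
        (dc2_F ((p ^ w) ^ j) N (J p (mm d (p ^ L) (p ^ w) (s - j) - 1)) x y : Set A) := by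
    intro c hc
    refine Submodule.subset_span ?_
    unfold dc2_F
    rw [Finset.mem_coe, Finset.mem_image]
    refine ⟨(((a1, a2), (c, a + l1 + i')), k'), ?_, ?_⟩
    · rw [Finset.mem_product, Finset.mem_product, Finset.mem_product, Finset.mem_product,
        Finset.mem_range, Finset.mem_range, Finset.mem_range, Finset.mem_range]
      exact ⟨⟨⟨ha1, ha2⟩, hc, by simp only; omega⟩, e3⟩
    · simp only
      rw [e1]
      congr 2
      ring
  rcases hz with hz | hz
  · have h2 := key 0 (by norm_num)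
    rw [mul_zero, zero_add] at h2
    rw [LinearMap.mulLeft_apply, hz, ← mul_assoc, ← pow_add]
    exact h2
  · have h2 := key 1 (by norm_num)
    rw [mul_one] at h2
    rw [LinearMap.mulLeft_apply, hz, ← mul_assoc, ← pow_add]
    exact h2

theorem dimC2 {k A : Type} [Field k] [CommRing A] [Algebra k A] {p d L w N : ℕ} [CharP k p]
    (h : Num p d L w) {s j : ℕ} (hj : j < s) {x y : A}
    (hA : Jal2 (k := k) p (p ^ L * (p ^ w) ^ s) (mm d (p ^ L) (p ^ w) s) N x y) :
    Module.finrank k (Submodule.span k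
      {z : A | ∃ a b, a < (p ^ w) ^ j ∧ b < (p ^ w) ^ j ∧ z = x ^ a * y ^ b}) ≤
        6 * N ^ 2 * (p ^ w) ^ j * (p ^ L * (p ^ w - 1) ^ (s - j)) := by
  set F := dc2_F ((p ^ w) ^ j) N (J p (mm d (p ^ L) (p ^ w) (s - j) - 1)) x y with hF
  have h1 : Submodule.span k {z : A | ∃ a b, a < (p ^ w) ^ j ∧ b < (p ^ w) ^ j ∧ z = x ^ a * y ^ b} ≤
      Submodule.span k (F : Set A) := by
    rw [Submodule.span_le]
    rintro z ⟨a, b, ha, hb, rfl⟩
    exact dc2_mem h hj hA ha hb
  have h2 : Module.finrank k (Submodule.span k (F : Set A)) ≤ F.card := finrank_span_finset_le_card F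
  have h3 := dc2_card ((p ^ w) ^ j) N (J p (mm d (p ^ L) (p ^ w) (s - j) - 1)) x y
  have h4 := exp_count h (s - j)
  refine (Submodule.finrank_mono h1).trans (h2.trans (h3.trans ?_))
  exact Nat.mul_le_mul_left _ h4

end GPC
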