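import Mathlib
import Pool.Agent.Lib.MP_56e792_co.GP

/-!
# MP_56e792_co, all prime powers: definitions (helper72)

Overview of the proof: `/team-store/GPC.md`.
-/

set_option autoImplicit false

namespace GPC

open Polynomial

/-- the bivariate polynomials of degree `< D` in `X` (the inner variable) and `< E` in `Y` -/
def Bi (k : Type) [Field k] (D E : ℕ) : Submodule k (k[X][X]) where
  carrier := {G | ∀ i j, (D ≤ i ∨ E ≤ j) → (G.coeff j).coeff i = 0}
  add_mem' := by
    intro a b ha hb i j h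
    rw [coeff_add, coeff_add, ha i j h, hb i j h, add_zero]
  zero_mem' := by
    intro i j h
    simp
  smul_mem' := by
    intro c a ha i j h
    rw [coeff_smul, coeff_smul, ha i j h, smul_zero]

/-- the degree in the inner variable -/
noncomputable def dX {k : Type} [Field k] (G : k[X][X]) : ℕ := (Bivariate.swap G).natDegree

/-- the degree in the outer variable -/
noncomputable def dY {k : Type} [Field k] (G : k[X][X]) : ℕ := G.natDegree

/-- the value at a point of the plane -/
noncomputable def pt {k : Type} [Field k] (a b : k) (G : k[X][X]) : k := G.evalEval a b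

/-- a finite set `C` of elements of the field with `q ^ 2` elements, all differences satisfy the
condition of a clique of the generalized Paley graph (`m * d = q + 1`) -/
structure Clq {k : Type} [Field k] (q m : ℕ) (C : Finset k) : Prop where
  fix : ∀ c ∈ C, (c ^ q) ^ q = c
  rel : ∀ a ∈ C, ∀ b ∈ C, (a ^ q - b ^ q) ^ m = (a - b) ^ m

/-- evaluation at all points `(c, c ^ q)`, `c ∈ C` -/
noncomputable def evC {k : Type} [Field k] (q : ℕ) (C : Finset k) : k[X][X] →ₐ[k] (C → k) :=
  aevalAeval (fun c => (c : k)) (fun c => (c : k) ^ q)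

/-- the polynomials of degree `< D` in both variables which vanish on `C` -/
noncomputable def IC {k : Type} [Field k] (q : ℕ) (C : Finset k) (D : ℕ) : Submodule k (k[X][X]) :=
  Bi k D D ⊓ LinearMap.ker (evC q C).toLinearMap

/-- the numbers `m_t = (q0 * π ^ t + 1) / d` -/
def mm (d q0 π t : ℕ) : ℕ := (q0 * π ^ t + 1) / d

/-- the numbers `g_j = (π ^ j - 1) / d` -/
def gg (d π j : ℕ) : ℕ := (π ^ j - 1) / d

/-- the arithmetic setting: `q = p ^ L * (p ^ w) ^ s` -/
structure Num (p d L w : ℕ) : Prop where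
  hp : p.Prime
  hd : 2 ≤ d
  hw : 1 ≤ w
  hπ : d ∣ p ^ w - 1
  hq : d ∣ p ^ L + 1

/-- `a` is a good point for the curve `H`: the line through it meets `H` transversally outside of
`(a, a ^ q)` -/
def Good {k : Type} [Field k] (q : ℕ) (H : k[X][X]) (a : k) : Prop :=
  ∃ b : k, pt a b H = 0 ∧ pt a b (derivative H) ≠ 0 ∧ b ≠ a ^ q

/-- data for the Stepanov step: `K` points `a j` (with the elements `ā j`, later `(a j) ^ q`), `b j` -/
structure Kum {k : Type} [Field k] (H : k[X][X]) (l K : ℕ) (a a' b : Fin K → k) : Prop where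
  irr : Irreducible H
  pr : l.Prime
  ne : (l : k) ≠ 0
  inj : ∀ i j, i ≠ j → a i ≠ a j
  on : ∀ j, pt (a j) (b j) H = 0
  sm : ∀ j, pt (a j) (b j) (derivative H) ≠ 0
  off : ∀ i j, b i ≠ a' j

/-- `X - a` -/
noncomputable def vv {k : Type} [Field k] (a : k) : k[X][X] := C (X - C a)

/-- `Y - a'` -/
noncomputable def uu {k : Type} [Field k] (a' : k) : k[X][X] := X - C (C a')

/-- a place of the curve `H`, with uniformizer `X - x₀` -/
structure Plac {k : Type} [Field k] (H : k[X][X]) (ψ : k[X][X] →ₐ[k] PowerSeries k) (x₀ : k) :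
    Prop where
  hX : ψ (C X) = PowerSeries.C x₀ + PowerSeries.X
  ker : ∀ G, ψ G = 0 ↔ H ∣ G

/-- the span of the products of polynomials in `Bi D D` and of monomials in the `w j` -/
def Lam {k : Type} [Field k] (ψ : k[X][X] →ₐ[k] PowerSeries k) {K : ℕ} (w : Fin K → PowerSeries k)
    (l D : ℕ) : Set (PowerSeries k) :=
  {B | ∃ G : (Fin K → Fin l) → k[X][X], (∀ e, G e ∈ Bi k D D) ∧
    B = ∑ e, ψ (G e) * ∏ j, w j ^ (e j : ℕ)}

/-- the product `∏_{j ∈ S} (Y - ā j) * ∏_{j ∉ S} (X - a j)` -/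
noncomputable def UV {k : Type} [Field k] {K : ℕ} (a a' : Fin K → k) (S : Finset (Fin K)) :
    k[X][X] :=
  (∏ j ∈ S, uu (a' j)) * ∏ j ∈ Sᶜ, vv (a j)

/-- `∏_{j ∈ S} w j * ∏_{j ∉ S} ψ (X - a j)` -/
noncomputable def zz {k : Type} [Field k] (ψ : k[X][X] →ₐ[k] PowerSeries k) {K : ℕ}
    (w : Fin K → PowerSeries k) (a : Fin K → k) (S : Finset (Fin K)) : PowerSeries k :=
  (∏ j ∈ S, w j) * ∏ j ∈ Sᶜ, ψ (vv (a j))

/-- the twisted polynomial: `tw p n G (c, c ^ q) = (G (c, c ^ q)) ^ q` for `q = p ^ n`, `c ^ (q ^ 2) = c` -/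
noncomputable def tw {k : Type} [Field k] (p n : ℕ) [ExpChar k p] (G : k[X][X]) : k[X][X] :=
  Bivariate.swap (G.map (mapRingHom (iterateFrobenius k p n)))

end GPC
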