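import Mathlib
import Pool.Agent.Lib.MP_56e792_co.S.Defs

/-!
# MP_56e792_co, phase 2 (fixed characteristic): definitions (helper72)

Overview of the proof: `/team-store/GPC2.md`.
-/

set_option autoImplicit false

namespace GPC

open Polynomial
open Pool.Agent.Lib.MP_56e792_co (J mem_J GP)

/-- relaxed form of `Jal`: the monomials are combinations up to factors of degree `< N` -/
structure Jal2 {k A : Type} [Field k] [CommRing A] [Algebra k A] (p q m N : ℕ) (x y : A) :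
    Prop where
  xq : x ^ q = y
  yq : y ^ q = x
  yx : ∀ i ∈ J p m, y ^ i ∈ Submodule.span k {z | ∃ a < N, ∃ e ∈ J p m, z = y ^ a * x ^ e}
  xy : ∀ i ∈ J p m, x ^ i ∈ Submodule.span k {z | ∃ a < N, ∃ e ∈ J p m, z = x ^ a * y ^ e}

/-- the substitution `X ↦ x₀ + t` -/
noncomputable def sb {k : Type} [Field k] (x₀ : k) : k[X] →ₐ[k] PowerSeries k :=
  aeval (PowerSeries.C x₀ + PowerSeries.X)

/-- zeros `r j` and poles `s j` of `K` functions on the line -/
structure Dat {k : Type} [Field k] (d K : ℕ) (r s : Fin K → k) : Prop where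
  hd : 2 ≤ d
  hk : (d : k) ≠ 0
  inj : ∀ i j, i ≠ j → s i ≠ s j
  off : ∀ i j, s i ≠ r j

/-- `(X - r) (X - s) ^ (d - 1)` -/
noncomputable def ff {k : Type} [Field k] (d : ℕ) (r s : k) : k[X] :=
  (X - C r) * (X - C s) ^ (d - 1)

/-- `∏_j (X - r j) ^ (e j * n) * (X - s j) ^ ((d - 1 - e j) * n)` -/
noncomputable def RS {k : Type} [Field k] {K : ℕ} (d : ℕ) (r s : Fin K → k) (e : Fin K → Fin d)
    (n : ℕ) : k[X] :=
  ∏ j, (X - C (r j)) ^ ((e j : ℕ) * n) * (X - C (s j)) ^ ((d - 1 - (e j : ℕ)) * n)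

/-- `∏_j w j ^ (e j) * (x - s j) ^ (d - 1 - e j)` -/
noncomputable def zz1 {k : Type} [Field k] (x₀ : k) {K : ℕ} (d : ℕ) (w : Fin K → PowerSeries k)
    (s : Fin K → k) (e : Fin K → Fin d) : PowerSeries k :=
  ∏ j, w j ^ (e j : ℕ) * sb x₀ (X - C (s j)) ^ (d - 1 - (e j : ℕ))

/-- combinations of the monomials in the `w j` with polynomial coefficients of degree `< D` -/
def La1 {k : Type} [Field k] (x₀ : k) {K : ℕ} (w : Fin K → PowerSeries k) (d D : ℕ) :
    Submodule k (PowerSeries k) where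
  carrier := {B | ∃ G : (Fin K → Fin d) → k[X], (∀ e, G e ∈ degreeLT k D) ∧
    B = ∑ e, sb x₀ (G e) * ∏ j, w j ^ (e j : ℕ)}
  add_mem' := by
    rintro _ _ ⟨G, hG, rfl⟩ ⟨G', hG', rfl⟩
    refine ⟨fun e => G e + G' e, fun e => Submodule.add_mem _ (hG e) (hG' e), ?_⟩
    simp only [map_add, add_mul, Finset.sum_add_distrib]
  zero_mem' := ⟨fun _ => 0, fun _ => Submodule.zero_mem _, by simp⟩
  smul_mem' := by
    rintro c _ ⟨G, hG, rfl⟩
    refine ⟨fun e => c • G e, fun e => Submodule.smul_mem _ c (hG e), ?_⟩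
    simp only [map_smul, smul_mul_assoc, Finset.smul_sum]

end GPC
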