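import Pool.Agent.Lib.MP_56e792_co.S.Defs
import Pool.Agent.Lib.MP_56e792_co.Poly

/-!
# MP_56e792_co, all prime powers, module Jst

A1 of GPC.md. `Pool.Agent.Lib.MP_56e792_co.transfer` (Poly.lean) with `ι = k`, `U = C`, `x = id`, `y = (· ^ q)` gives `(c^q)^i = F.eval c` with `F` supported on `J p m`; with the roles
exchanged (`x = (· ^ q)`, `y = id`) it gives `c^i = F.eval (c^q)`. `c ↦ c^q` is injective on `C` by `hC.fix`. `((m.choose l : ℕ) : k) ≠ 0 ↔ l ∈ J p m` (`CharP.cast_eq_zero_iff`).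
-/

set_option autoImplicit false
set_option linter.unusedVariables false

namespace GPC

open Polynomial
open Pool.Agent.Lib.MP_56e792_co (J mem_J GP)

/-- the relations used in the dimension lemma, in a commutative algebra `A` -/
structure Jal {k A : Type} [Field k] [CommRing A] [Algebra k A] (p q m : ℕ) (x y : A) : Prop where
  xq : x ^ q = y
  yq : y ^ q = x
  yx : ∀ i ∈ J p m, y ^ i ∈ Submodule.span k ((fun l => x ^ l) '' (J p m : Set ℕ))
  xy : ∀ i ∈ J p m, x ^ i ∈ Submodule.span k ((fun l => y ^ l) '' (J p m : Set ℕ))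

private theorem jst_span {k A : Type} [Field k] [CommRing A] [Algebra k A] {p : ℕ} [CharP k p] {m : ℕ} (f g : A) (i : ℕ)
    (F : k[X]) (h1 : ∀ l, F.coeff l ≠ 0 → ((m.choose l : ℕ) : k) ≠ 0) (h2 : aeval f F = g ^ i) :
    g ^ i ∈ Submodule.span k ((fun l => f ^ l) '' (J p m : Set ℕ)) := by
  have h3 : g ^ i = ∑ l ∈ F.support, F.coeff l • f ^ l := by
    rw [← h2, aeval_def, eval₂_eq_sum, Polynomial.sum_def]
    refine Finset.sum_congr rfl fun l _ => ?_
    rw [Algebra.smul_def]
  rw [h3]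
  refine Submodule.sum_mem _ fun l hl => Submodule.smul_mem _ _ (Submodule.subset_span ⟨l, ?_, rfl⟩)
  rw [Finset.mem_coe, mem_J]
  intro hd
  exact h1 l (mem_support_iff.1 hl) ((CharP.cast_eq_zero_iff k p _).2 hd)

private theorem jst_pi {k T : Type} [Field k] (f g : T → k) (i : ℕ) (F : k[X]) (h2 : ∀ c, F.eval (f c) = g c ^ i) :
    aeval f F = g ^ i := by
  funext c
  have h : (Pi.evalAlgHom k (fun _ : T => k) c) (aeval f F) = F.eval (f c) := by
    rw [← aeval_algHom_apply]
    rfl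
  rw [Pi.pow_apply, ← h2 c, ← h]
  rfl

theorem jst {k : Type} [Field k] {p : ℕ} (hp : p.Prime) [CharP k p] {q m : ℕ} (hm : 1 ≤ m)
    {C : Finset k} (hC : Clq q m C) (hcard : m + 1 ≤ C.card) :
    Jal (k := k) (A := C → k) p q m (fun c => (c : k)) (fun c => (c : k) ^ q) := by
  classical
  have hcast : ∀ i ∈ J p m, ((m.choose i : ℕ) : k) ≠ 0 := by
    intro i hi h0
    exact mem_J.1 hi ((CharP.cast_eq_zero_iff k p _).1 h0)
  have hle : ∀ i ∈ J p m, i ≤ m := by
    intro i hi
    by_contra hlt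
    apply mem_J.1 hi
    rw [Nat.choose_eq_zero_of_lt (by omega)]
    exact dvd_zero p
  refine ⟨?_, ?_, ?_, ?_⟩
  · funext c
    rfl
  · funext c
    exact hC.fix c c.2
  · intro i hi
    obtain ⟨F, h1, h2, -⟩ := Pool.Agent.Lib.MP_56e792_co.transfer m C (fun c : k => c) (fun c : k => c ^ q)
      (by
        intro a ha b hb hab
        have h3 : (a ^ q) ^ q = (b ^ q) ^ q := congrArg (· ^ q) hab
        rwa [hC.fix a ha, hC.fix b hb] at h3)
      hcard (fun a ha b hb => hC.rel a ha b hb) i (hle i hi) (hcast i hi)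
    exact jst_span _ _ i F h1 (jst_pi _ _ i F (fun c => h2 c c.2))
  · intro i hi
    obtain ⟨F, h1, h2, -⟩ := Pool.Agent.Lib.MP_56e792_co.transfer m C (fun c : k => c ^ q) (fun c : k => c)
      (by
        intro a ha b hb hab
        exact hab)
      hcard (fun a ha b hb => (hC.rel a ha b hb).symm) i (hle i hi) (hcast i hi)
    exact jst_span _ _ i F h1 (jst_pi _ _ i F (fun c => h2 c c.2))

end GPC
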