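import Pool.Agent.Lib.MP_56e792_co.S.Defs
import Pool.Agent.Lib.MP_56e792_co.S.ExA
import Pool.Agent.Lib.MP_56e792_co.S.Jst

/-!
# MP_56e792_co, all prime powers, module DmA

A2 of GPC.md. `i := q0 π^(s-j) l + 0 ∈ J p m` (`exp_top`, `0 ∈ J`). `x^i ∈ span {y^l2 : l2 ∈ J p m}` (`hA.xy`). Take the `D`-th power, `D = (p^w)^j = p^(w*j)` (`sum_pow_char_pow`; `A` is a `k`-algebra,
so it is trivial or of characteristic `p`: `charP_of_injective_algebraMap`): `x^(D i) ∈ span {y^(D l2)}`. `D i = q l`, so `x^(D i) = y^l`; `l2 = q0 π^(s-j) l1 + i'`: `y^(D l2) = (y^q)^l1 y^(D i') = x^l1 y^(D i')`.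
-/

set_option autoImplicit false
set_option linter.unusedVariables false

namespace GPC

open Polynomial
open Pool.Agent.Lib.MP_56e792_co (J mem_J GP)

private theorem dma_frob {k A : Type} [Field k] [CommRing A] [Algebra k A] {p : ℕ} [Fact p.Prime] [CharP A p] (n : ℕ)
    (S : Set A) (z : A) (hz : z ∈ Submodule.span k S) :
    z ^ p ^ n ∈ Submodule.span k ((fun a : A => a ^ p ^ n) '' S) := by
  induction hz using Submodule.span_induction with
  | mem x hx => exact Submodule.subset_span ⟨x, hx, rfl⟩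
  | zero =>
    rw [zero_pow (pow_ne_zero n (Fact.out : p.Prime).ne_zero)]
    exact Submodule.zero_mem _
  | add x y _ _ hx hy =>
    rw [add_pow_char_pow]
    exact Submodule.add_mem _ hx hy
  | smul c x _ hx =>
    rw [_root_.smul_pow]
    exact Submodule.smul_mem _ _ hx

theorem dimA {k A : Type} [Field k] [CommRing A] [Algebra k A] {p d L w : ℕ} [CharP k p]
    (h : Num p d L w) {s j : ℕ} (hj : j < s) {x y : A}
    (hA : Jal (k := k) p (p ^ L * (p ^ w) ^ s) (mm d (p ^ L) (p ^ w) s) x y) {l : ℕ}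
    (hl : l ∈ J p (gg d (p ^ w) j)) :
    y ^ l ∈ Submodule.span k {z | ∃ l1 ∈ J p (gg d (p ^ w) j),
      ∃ i ∈ J p (mm d (p ^ L) (p ^ w) (s - j)), z = x ^ l1 * y ^ ((p ^ w) ^ j * i)} := by
  rcases subsingleton_or_nontrivial A with hs | hn
  · rw [Subsingleton.elim (y ^ l) 0]
    exact Submodule.zero_mem _
  have : Fact p.Prime := ⟨h.hp⟩
  have : CharP A p := charP_of_injective_algebraMap (algebraMap k A).injective p
  have h0 : 0 ∈ J p (mm d (p ^ L) (p ^ w) (s - j)) := by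
    rw [mem_J, Nat.choose_zero_right]
    exact fun h1 => h.hp.one_lt.ne' (Nat.dvd_one.mp h1)
  have hi : p ^ L * (p ^ w) ^ (s - j) * l ∈ J p (mm d (p ^ L) (p ^ w) s) :=
    (exp_top h hj _).mpr ⟨l, 0, rfl, hl, h0⟩
  have hq : (p ^ w) ^ j * (p ^ L * (p ^ w) ^ (s - j)) = p ^ L * (p ^ w) ^ s := by
    have h1 : (p ^ w) ^ s = (p ^ w) ^ j * (p ^ w) ^ (s - j) := by
      rw [← pow_add]; congr 1; omega
    rw [h1]; ring
  have h1 := dma_frob (w * j) _ _ (hA.xy _ hi)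
  rw [pow_mul p w j, ← pow_mul x] at h1
  have h2 : p ^ L * (p ^ w) ^ (s - j) * l * (p ^ w) ^ j = p ^ L * (p ^ w) ^ s * l := by
    rw [← hq]; ring
  rw [h2, pow_mul, hA.xq] at h1
  refine Submodule.span_mono ?_ h1
  rintro z ⟨z1, ⟨l2, hl2, rfl⟩, rfl⟩
  obtain ⟨l1, i', rfl, hl1, hi'⟩ := (exp_top h hj l2).mp hl2
  refine ⟨l1, hl1, i', hi', ?_⟩
  have h3 : (p ^ L * (p ^ w) ^ (s - j) * l1 + i') * (p ^ w) ^ j = p ^ L * (p ^ w) ^ s * l1 + (p ^ w) ^ j * i' := by
    rw [← hq]; ring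
  simp only
  rw [← pow_mul, h3, pow_add, pow_mul, hA.yq]

end GPC
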