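import Pool.Agent.Lib.MP_56e792_co.S.Defs
import Pool.Agent.Lib.MP_56e792_co.S.DmA

/-!
# MP_56e792_co, all prime powers, module DmB

A3 of GPC.md. `b = l + l'` (`exp_sum`). `y^b = y^l y^l'` is in the span of `x^l1 y^(D i + l')` (`dimA`), and `y^(D i + l') = y^e` or `y^D y^e`, `e ∈ J p m` (`exp_mid`), and `y^e ∈ span {x^i}` (`hA.yx`).
-/

set_option autoImplicit false
set_option linter.unusedVariables false

namespace GPC

open Polynomial
open Pool.Agent.Lib.MP_56e792_co (J mem_J GP)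

private theorem dmb_mul {k A : Type} [Field k] [CommRing A] [Algebra k A] {S : Set A}
    {T : Submodule k A} {c : A} (h : ∀ z ∈ S, c * z ∈ T) {y : A} (hy : y ∈ Submodule.span k S) :
    c * y ∈ T := by
  induction hy using Submodule.span_induction with
  | mem z hz => exact h z hz
  | zero => rw [mul_zero]; exact T.zero_mem
  | add a b _ _ ha hb => rw [mul_add]; exact T.add_mem ha hb
  | smul r a _ ha => rw [mul_smul_comm]; exact T.smul_mem r ha

theorem dimB {k A : Type} [Field k] [CommRing A] [Algebra k A] {p d L w : ℕ} [CharP k p]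
    (h : Num p d L w) {s j : ℕ} (hj : j < s) {x y : A}
    (hA : Jal (k := k) p (p ^ L * (p ^ w) ^ s) (mm d (p ^ L) (p ^ w) s) x y) {b : ℕ}
    (hb : b < (p ^ w) ^ j) :
    y ^ b ∈ Submodule.span k {z | ∃ l1 ∈ J p (gg d (p ^ w) j),
      ∃ i ∈ J p (mm d (p ^ L) (p ^ w) s),
        z = x ^ (l1 + i) ∨ z = y ^ ((p ^ w) ^ j) * x ^ (l1 + i)} := by
  obtain ⟨l, l', hll, hl, hl'⟩ := exp_sum h hb
  have h1 := dimA h hj hA hl
  have h2 : y ^ b = y ^ l' * y ^ l := by
    rw [← pow_add, ← hll, add_comm]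
  rw [h2]
  refine dmb_mul ?_ h1
  rintro z ⟨l1, hl1, i, hi, rfl⟩
  rcases exp_mid h hj.le hi hl' with he | ⟨e, he, heq⟩
  · have h3 : y ^ l' * (x ^ l1 * y ^ ((p ^ w) ^ j * i)) = x ^ l1 * y ^ ((p ^ w) ^ j * i + l') := by
      rw [pow_add]
      ring
    rw [h3]
    refine dmb_mul ?_ (hA.yx _ he)
    rintro z ⟨i2, hi2, rfl⟩
    refine Submodule.subset_span ⟨l1, hl1, i2, hi2, Or.inl ?_⟩
    rw [pow_add]
  · have h3 : y ^ l' * (x ^ l1 * y ^ ((p ^ w) ^ j * i)) =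
        (x ^ l1 * y ^ ((p ^ w) ^ j)) * y ^ e := by
      have h4 : y ^ ((p ^ w) ^ j * i) * y ^ l' = y ^ ((p ^ w) ^ j) * y ^ e := by
        rw [← pow_add, heq, pow_add]
      calc y ^ l' * (x ^ l1 * y ^ ((p ^ w) ^ j * i))
          = x ^ l1 * (y ^ ((p ^ w) ^ j * i) * y ^ l') := by ring
        _ = (x ^ l1 * y ^ ((p ^ w) ^ j)) * y ^ e := by rw [h4]; ring
    rw [h3]
    refine dmb_mul ?_ (hA.yx _ he)
    rintro z ⟨i2, hi2, rfl⟩
    refine Submodule.subset_span ⟨l1, hl1, i2, hi2, Or.inr ?_⟩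
    simp only []
    rw [pow_add]
    ring

end GPC
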