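import Pool.Agent.Lib.MP_56e792_co.S.Defs2
import Pool.Agent.Lib.MP_56e792_co.S.BiA

/-!
# MP_56e792_co, phase 2 (fixed characteristic), module HtF

`H = α XY + β X + γ Y + e` (`h1`, `h2`). `α = 0`: then `β, γ ≠ 0`; with two points `c1 ≠ c2` of `F` on `H` put `v = c1`, `w = c2 - c1`: `β w + γ w^q = 0`, and `c` is on `H` iff `((c - v)/w)^q = (c-v)/w`. `α ≠ 0`: `(X + γ)(Y + β) = ρ'` after dividing by `α`, `ρ' = βγ - e ≠ 0` (otherwise `H` is a product). For the points `c ∈ F` on `H`, raise to the `q`-th power:
`(c^q + γ^q)(c + β^q) = ρ'^q`. Two fractional linear relations between `c` and `c^q` with at least `3` common points are the same: `β = γ^q`, `γ = β^q`, `ρ'^q = ρ'`. So `γ` and `ρ'` are fixed by `x ↦ x^(q^2)`, hence in the image of `F` (the polynomial `X^(q^2) - X` has the `q^2` elements of `F` as its roots): `o = -γ`, `ρ = ρ'`.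
-/

set_option autoImplicit false
set_option linter.unusedVariables false

namespace GPC

open Polynomial
open Pool.Agent.Lib.MP_56e792_co (J mem_J GP)

theorem htf_deg {k : Type} [Field k] {H : k[X][X]} (h1 : dX H = 1) (j : ℕ) :
    (H.coeff j).natDegree ≤ 1 := by
  rw [natDegree_le_iff_coeff_eq_zero]
  intro N hN
  have h : (Bivariate.swap H).coeff N = 0 := by
    apply coeff_eq_zero_of_natDegree_lt
    unfold dX at h1
    omega
  rw [← swap_coeff, h, coeff_zero]

/-- the form of `H` -/
theorem htf_form {k : Type} [Field k] {H : k[X][X]} (h1 : dX H = 1) (h2 : dY H = 1) :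
    H = C (C ((H.coeff 1).coeff 1) * X + C ((H.coeff 1).coeff 0)) * X +
      C (C ((H.coeff 0).coeff 1) * X + C ((H.coeff 0).coeff 0)) := by
  have e1 := eq_X_add_C_of_natDegree_le_one (htf_deg h1 1)
  have e0 := eq_X_add_C_of_natDegree_le_one (htf_deg h1 0)
  have e : H = C (H.coeff 1) * X + C (H.coeff 0) :=
    eq_X_add_C_of_natDegree_le_one (by unfold dY at h2; omega)
  rw [← e1, ← e0]
  exact e

/-- the values of `H` -/
theorem htf_pt {k : Type} [Field k] {H : k[X][X]} (h1 : dX H = 1) (h2 : dY H = 1) (a b : k) :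
    pt a b H = (H.coeff 1).coeff 1 * a * b + (H.coeff 0).coeff 1 * a + (H.coeff 1).coeff 0 * b +
      (H.coeff 0).coeff 0 := by
  conv_lhs => rw [htf_form h1 h2]
  simp only [pt, evalEval_add, evalEval_mul, evalEval_C, evalEval_X, eval_add, eval_mul, eval_C,
    eval_X]
  ring

/-- an element of `k` fixed by `x ↦ x ^ Q` is in the image of the field `F` with `Q` elements -/
theorem htf_range {F k : Type} [Field F] [Field k] (i : F →+* k) {Q : ℕ} (hQ : 2 ≤ Q)
    (hcard : Nat.card F = Q) {x : k} (hx : x ^ Q = x) : ∃ c : F, i c = x := by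
  classical
  haveI : Finite F := Nat.finite_of_card_ne_zero (by omega)
  haveI : Fintype F := Fintype.ofFinite F
  have hF : Fintype.card F = Q := by rw [← Nat.card_eq_fintype_card]; exact hcard
  have hne : (X ^ Q - X : k[X]) ≠ 0 := FiniteField.X_pow_card_sub_X_ne_zero k (by omega)
  have hdeg : (X ^ Q - X : k[X]).natDegree = Q :=
    FiniteField.X_pow_card_sub_X_natDegree_eq k (by omega)
  have hsub : (Finset.univ.image i) ⊆ (X ^ Q - X : k[X]).roots.toFinset := by
    intro y hy
    obtain ⟨c, -, rfl⟩ := Finset.mem_image.1 hy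
    rw [Multiset.mem_toFinset, mem_roots hne, IsRoot.def, eval_sub, eval_pow, eval_X, ← map_pow,
      ← hF, FiniteField.pow_card, sub_self]
  have hcd : (Finset.univ.image i).card = Q := by
    rw [Finset.card_image_of_injective _ i.injective, Finset.card_univ, hF]
  have heq : (Finset.univ.image i) = (X ^ Q - X : k[X]).roots.toFinset := by
    refine Finset.eq_of_subset_of_card_le hsub ?_
    rw [hcd]
    calc _ ≤ Multiset.card (X ^ Q - X : k[X]).roots := Multiset.toFinset_card_le _
      _ ≤ _ := card_roots' _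
      _ = Q := hdeg
  have hmem : x ∈ (X ^ Q - X : k[X]).roots.toFinset := by
    rw [Multiset.mem_toFinset, mem_roots hne, IsRoot.def, eval_sub, eval_pow, eval_X, hx, sub_self]
  rw [← heq] at hmem
  obtain ⟨c, -, hc⟩ := Finset.mem_image.1 hmem
  exact ⟨c, hc⟩

/-- three points of a set with at least three elements -/
theorem htf_three {F : Type} {S : Set F} (h3 : 3 ≤ S.ncard) :
    ∃ x ∈ S, ∃ y ∈ S, ∃ z ∈ S, x ≠ y ∧ x ≠ z ∧ y ≠ z := by
  have h : 2 < S.ncard := by omega
  have hf : S.Finite := Set.finite_of_ncard_ne_zero (by omega)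
  obtain ⟨a, b, c, ha, hb, hc, hab, hac, hbc⟩ := (Set.two_lt_ncard_iff hf).1 h
  exact ⟨a, ha, b, hb, c, hc, hab, hac, hbc⟩

/-- three points on two relations -/
theorem htf_lin {k : Type} [Field k] {P : ℕ} {A B C' g b r : k}
    (hinj : Function.Injective fun x : k => x ^ P)
    {x y z : k} (hxy : x ≠ y) (hxz : x ≠ z) (hyz : y ≠ z)
    (hx : A * x + B * x ^ P + C' = 0) (hy : A * y + B * y ^ P + C' = 0)
    (hz : A * z + B * z ^ P + C' = 0)
    (h2x : (x + g) * (x ^ P + b) = r) (h2y : (y + g) * (y ^ P + b) = r)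
    (h2z : (z + g) * (z ^ P + b) = r) (hr : r ≠ 0) : A = 0 ∧ B = 0 ∧ C' = 0 := by
  have hxy' := sub_ne_zero.2 hxy
  have hxz' := sub_ne_zero.2 hxz
  have hyz' := sub_ne_zero.2 hyz
  have hB : B = 0 := by
    by_contra hB
    have hA : A = 0 := by
      by_contra hA
      -- `(t + g) * (B * b - C' - A * t) = r * B`
      have q : ∀ t : k, A * t + B * t ^ P + C' = 0 → (t + g) * (t ^ P + b) = r →
          (t + g) * (B * b - C' - A * t) = r * B := by
        intro t h1 h2
        have : B * t ^ P = - (A * t + C') := by linear_combination h1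
        linear_combination B * h2 - (t + g) * this
      have qx := q x hx h2x
      have qy := q y hy h2y
      have qz := q z hz h2z
      have s1 : B * b - C' - A * g - A * (x + y) = 0 := by
        apply mul_left_cancel₀ hxy'
        linear_combination qx - qy
      have s2 : B * b - C' - A * g - A * (x + z) = 0 := by
        apply mul_left_cancel₀ hxz'
        linear_combination qx - qz
      have : A * (z - y) = 0 := by linear_combination s1 - s2
      rcases mul_eq_zero.1 this with h | h
      · exact hA h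
      · exact hyz (sub_eq_zero.1 h).symm
    rw [hA] at hx hy
    have : B * (x ^ P - y ^ P) = 0 := by linear_combination hx - hy
    rcases mul_eq_zero.1 this with h | h
    · exact hB h
    · exact hxy (hinj (sub_eq_zero.1 h))
  have hA : A = 0 := by
    rw [hB] at hx hy
    have : A * (x - y) = 0 := by linear_combination hx - hy
    rcases mul_eq_zero.1 this with h | h
    · exact h
    · exact absurd h hxy'
  refine ⟨hA, hB, ?_⟩
  rw [hA, hB] at hx
  linear_combination hx

theorem h_to_F {F k : Type} [Field F] [Field k] (i : F →+* k) {p n : ℕ} (hp : p.Prime)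
    (hn : 1 ≤ n) (hcard : Nat.card F = (p ^ n) ^ 2) {H : k[X][X]} (hH : Irreducible H)
    (h1 : dX H = 1) (h2 : dY H = 1)
    (h3 : 3 ≤ Set.ncard {c : F | pt (i c) ((i c) ^ p ^ n) H = 0}) :
    (∃ v w : F, w ≠ 0 ∧ ∀ c : F, pt (i c) ((i c) ^ p ^ n) H = 0 ↔
        ∃ t : F, t ^ p ^ n = t ∧ c = v + t * w) ∨
      ∃ o ρ : F, ρ ≠ 0 ∧ ρ ^ p ^ n = ρ ∧ ∀ c : F, pt (i c) ((i c) ^ p ^ n) H = 0 ↔
        (c - o) ^ p ^ n * (c - o) = ρ := by
  classical
  have hq2 : 2 ≤ p ^ n := by
    calc 2 ≤ p := hp.two_le
      _ = p ^ 1 := (pow_one p).symm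
      _ ≤ p ^ n := Nat.pow_le_pow_right hp.pos hn
  have hqq : 2 ≤ (p ^ n) ^ 2 := by nlinarith
  haveI : Finite F := Nat.finite_of_card_ne_zero (by omega)
  haveI : Fintype F := Fintype.ofFinite F
  have hF : Fintype.card F = (p ^ n) ^ 2 := by rw [← Nat.card_eq_fintype_card]; exact hcard
  haveI : Fact p.Prime := ⟨hp⟩
  -- characteristic
  haveI hFp : CharP F p := by
    obtain ⟨r, hr⟩ := CharP.exists F
    haveI := hr
    obtain ⟨m, hrp, hm⟩ := FiniteField.card F r
    have : r ∣ (p ^ n) ^ 2 := by
      rw [← hF, hm]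
      exact dvd_pow_self r m.2.ne'
    have h5 : r ∣ p := hrp.dvd_of_dvd_pow (hrp.dvd_of_dvd_pow this)
    have : r = p := (Nat.prime_dvd_prime_iff_eq hrp hp).1 h5
    rwa [this] at hr
  haveI hkp : CharP k p := charP_of_injective_ringHom i.injective p
  have hinj : Function.Injective fun x : k => x ^ p ^ n := by
    have := (iterateFrobenius k p n).injective
    intro x y hxy
    apply this
    simpa [iterateFrobenius_def] using hxy
  have hpow : ∀ c : F, (i c ^ p ^ n) ^ p ^ n = i c := by
    intro c
    rw [← map_pow, ← map_pow, ← pow_mul, ← sq, ← hF, FiniteField.pow_card]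
  have hpt := htf_pt h1 h2
  have hform := htf_form h1 h2
  set α := (H.coeff 1).coeff 1 with hα
  set β := (H.coeff 0).coeff 1 with hβ
  set γ := (H.coeff 1).coeff 0 with hγ
  set e := (H.coeff 0).coeff 0 with he
  obtain ⟨x, hx, y, hy, z, hz, hxy, hxz, hyz⟩ := htf_three h3
  simp only [Set.mem_setOf_eq] at hx hy hz
  by_cases h0 : α = 0
  · left
    have hγ0 : γ ≠ 0 := by
      intro hg
      have : H.coeff 1 = 0 := by
        have hc := eq_X_add_C_of_natDegree_le_one (htf_deg h1 1)
        rw [hc, ← hα, ← hγ, h0, hg]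
        simp
      have h5 : H.natDegree = 1 := h2
      have h6 : H.leadingCoeff ≠ 0 := leadingCoeff_ne_zero.2 hH.ne_zero
      rw [leadingCoeff, h5] at h6
      exact h6 this
    have hβ0 : β ≠ 0 := by
      intro hb
      rw [hpt, h0, hb] at hx hy
      have : γ * (i x ^ p ^ n - i y ^ p ^ n) = 0 := by linear_combination hx - hy
      rcases mul_eq_zero.1 this with h | h
      · exact hγ0 h
      · exact hxy (i.injective (hinj (sub_eq_zero.1 h)))
    rw [hpt, h0] at hx hy
    have hw0 : y - x ≠ 0 := sub_ne_zero.2 hxy.symm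
    have hiw0 : i (y - x) ≠ 0 := by
      rw [Ne, map_eq_zero_iff _ i.injective]
      exact hw0
    have hw : β * i (y - x) + γ * i (y - x) ^ p ^ n = 0 := by
      rw [map_sub, sub_pow_char_pow]
      linear_combination hy - hx
    refine ⟨x, y - x, hw0, ?_⟩
    intro c
    rw [hpt, h0]
    have key : ∀ t : F, 0 * i (x + t * (y - x)) * i (x + t * (y - x)) ^ p ^ n +
        β * i (x + t * (y - x)) + γ * i (x + t * (y - x)) ^ p ^ n + e =
        β * i (y - x) * (i t - i t ^ p ^ n) := by
      intro t
      rw [map_add, map_mul, add_pow_char_pow, mul_pow]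
      linear_combination hx + (i t ^ p ^ n) * hw
    constructor
    · intro hc
      have hcx : c = x + ((c - x) / (y - x)) * (y - x) := by
        rw [div_mul_cancel₀ _ hw0]
        ring
      refine ⟨(c - x) / (y - x), ?_, hcx⟩
      have := key ((c - x) / (y - x))
      rw [← hcx, hc] at this
      rcases mul_eq_zero.1 this.symm with h | h
      · rcases mul_eq_zero.1 h with h | h
        · exact absurd h hβ0
        · exact absurd h hiw0
      · apply i.injective
        rw [map_pow]
        exact (sub_eq_zero.1 h).symm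
    · rintro ⟨t, ht, rfl⟩
      rw [key, ← map_pow, ht]
      ring
  · right
    set g := γ / α with hg
    set b := β / α with hb
    set r := g * b - e / α with hr
    have hγ' : γ = α * g := by rw [hg]; field_simp
    have hβ' : β = α * b := by rw [hb]; field_simp
    have he' : e = α * (g * b - r) := by
      rw [hr]
      field_simp
      ring
    have hr0 : r ≠ 0 := by
      intro h
      have hprod : H = C (C α * (X + C g)) * (X + C (C b)) := by
        conv_lhs => rw [hform]
        rw [hγ', hβ', he', h]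
        simp only [map_mul, map_add, sub_zero]
        ring
      rcases hH.isUnit_or_isUnit hprod with hu | hu
      · rw [isUnit_C] at hu
        have : IsUnit (X + C g : k[X]) := isUnit_of_mul_isUnit_right hu
        exact not_isUnit_of_natDegree_pos _ (by rw [natDegree_X_add_C]; exact one_pos) this
      · exact not_isUnit_of_natDegree_pos _ (by rw [natDegree_X_add_C]; exact one_pos) hu
    have hiff : ∀ a c : k, pt a c H = 0 ↔ (a + g) * (c + b) = r := by
      intro a c
      rw [hpt]
      have : α * a * c + β * a + γ * c + e = α * ((a + g) * (c + b) - r) := by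
        rw [hγ', hβ', he']
        ring
      rw [this, mul_eq_zero, sub_eq_zero]
      constructor
      · rintro (h | h)
        · exact absurd h h0
        · exact h
      · intro h
        exact Or.inr h
    have hpw : ∀ c : F, (i c + g) * (i c ^ p ^ n + b) = r →
        (i c ^ p ^ n + g ^ p ^ n) * (i c + b ^ p ^ n) = r ^ p ^ n := by
      intro c hc
      rw [← hc, mul_pow, add_pow_char_pow, add_pow_char_pow, hpow]
    rw [hiff] at hx hy hz
    have hlin : ∀ c : F, (i c + g) * (i c ^ p ^ n + b) = r →
        (b - g ^ p ^ n) * i c + (g - b ^ p ^ n) * i c ^ p ^ n +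
          ((g * b - r) - (g ^ p ^ n * b ^ p ^ n - r ^ p ^ n)) = 0 := by
      intro c hc
      linear_combination hc - hpw c hc
    obtain ⟨hA, hB, hC⟩ := htf_lin (P := p ^ n) hinj (fun h => hxy (i.injective h))
      (fun h => hxz (i.injective h)) (fun h => hyz (i.injective h)) (hlin x hx) (hlin y hy)
      (hlin z hz) hx hy hz hr0
    have hb' : b = g ^ p ^ n := sub_eq_zero.1 hA
    have hg' : g = b ^ p ^ n := sub_eq_zero.1 hB
    have hr' : r ^ p ^ n = r := by
      rw [← hb', ← hg'] at hC
      linear_combination hC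
    obtain ⟨g0, hg0⟩ := htf_range i hqq hcard (x := g) (by
      rw [sq, pow_mul, ← hb', ← hg'])
    obtain ⟨r0, hr0'⟩ := htf_range i hqq hcard (x := r) (by
      rw [sq, pow_mul, hr', hr'])
    refine ⟨-g0, r0, ?_, ?_, ?_⟩
    · intro h
      rw [h, map_zero] at hr0'
      exact hr0 hr0'.symm
    · apply i.injective
      rw [map_pow, hr0', hr']
    · intro c
      rw [hiff, hb', ← hg0, ← hr0', ← add_pow_char_pow]
      rw [← map_add, ← map_pow, ← map_mul, i.injective.eq_iff, sub_neg_eq_add, mul_comm]

end GPC
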