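import Pool.Agent.Lib.MP_56e792_co.S.Defs2
import Pool.Agent.Lib.MP_56e792_co.S.Eq2

/-!
# MP_56e792_co, phase 2 (fixed characteristic), module Lc0

`k = AlgebraicClosure F`. `T` = the image of `{t ∈ F | t^q = t}` (`q` elements: `card_fixed`, GP.lean), `al = de = 1`, `be = ga = 0`. Enumerate `A` (`A.equivFin`), `K = A.card ≤ K0` (maximum of the `n1` over `K ≤ K0`), `α = (a - v)/w`, `s = α`, `r = α^q`: `hA` gives `Dat` (`(d:k) ≠ 0` since `d ∣ q+1`). For `t^q = t`: `(v + t w - a)^q = (t - α^q) w^q`, so the condition is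
`((t - α^q)/(t - α))^m = 1` (`hw`); `Ξ j` = the `d`-th roots of unity (`((t-α^q)/(t-α))^(q+1) = 1` because `(t - α^q)^q = t - α`), `ζ j = 1`.
-/

set_option autoImplicit false
set_option linter.unusedVariables false

namespace GPC

open Polynomial
open Pool.Agent.Lib.MP_56e792_co (J mem_J GP)
open Pool.Agent.Lib.MP_56e792_co (char_of_card frob_sub frob_frob card_fixed)

theorem line_count0 (p d K0 : ℕ) (hp : p.Prime) (hd : 2 ≤ d) (ε : ℝ) (hε : 0 < ε) :
    ∃ n1 : ℕ, ∀ n ≥ n1, ∀ m : ℕ, m * d = p ^ n + 1 → ∀ (F : Type) [Field F],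
      Nat.card F = (p ^ n) ^ 2 → ∀ v w : F, w ≠ 0 → (w ^ p ^ n) ^ m = w ^ m →
        ∀ A : Finset F, A.card ≤ K0 →
          (∀ a ∈ A, ∀ b ∈ A, ((a - v) / w) ^ p ^ n ≠ (b - v) / w) →
          |((Set.ncard {t : F | t ^ p ^ n = t ∧
              ∀ a ∈ A, ((v + t * w - a) ^ p ^ n) ^ m = (v + t * w - a) ^ m} : ℕ) : ℝ) -
            (1 / (d : ℝ)) ^ A.card * (p : ℝ) ^ n| ≤ ε * (p : ℝ) ^ n := by
  classical
  choose n1 hn1 using fun K => eq2 p d K hp hd ε hε
  refine ⟨max 1 ((Finset.range (K0 + 1)).sup n1), ?_⟩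
  intro n hn m hm F _ hF v w hw hwm A hA hAq
  have hn0 : 1 ≤ n := (le_max_left _ _).trans hn
  have hnK : n1 A.card ≤ n := (Finset.le_sup (f := n1) (Finset.mem_range.mpr (by omega))).trans
    ((le_max_right _ _).trans hn)
  have hq1 : 1 < p ^ n := Nat.one_lt_pow (by omega) hp.one_lt
  have hq0 : p ^ n ≠ 0 := by omega
  obtain ⟨hfin, hchar⟩ := char_of_card (F := F) hp rfl hF
  have hfs : ∀ x y : F, (x - y) ^ (p ^ n) = x ^ (p ^ n) - y ^ (p ^ n) := frob_sub hp rfl hF
  have hff : ∀ x : F, (x ^ (p ^ n)) ^ (p ^ n) = x := frob_frob hq0 hF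
  have hcard := card_fixed hq1 hF
  have hmap : Function.Injective (algebraMap F (AlgebraicClosure F)) :=
    (algebraMap F (AlgebraicClosure F)).injective
  have hchar' : CharP (AlgebraicClosure F) p := charP_of_injective_algebraMap hmap p
  set φ := algebraMap F (AlgebraicClosure F) with hφ
  let e := A.equivFin
  let α : Fin A.card → F := fun j => (((e.symm j : A) : F) - v) / w
  have hαinj : ∀ i j, i ≠ j → α i ≠ α j := by
    intro i j hij h
    apply hij
    apply e.symm.injective
    apply Subtype.ext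
    have h2 : (((e.symm i : A) : F) - v) / w = (((e.symm j : A) : F) - v) / w := h
    rw [div_left_inj' hw, sub_left_inj] at h2
    exact h2
  have hαq : ∀ i j, (α j) ^ (p ^ n) ≠ α i := by
    intro i j
    exact hAq _ (e.symm j).2 _ (e.symm i).2
  have hDat : Dat d A.card (fun j => φ ((α j) ^ (p ^ n))) (fun j => φ (α j)) := by
    refine ⟨hd, ?_, ?_, ?_⟩
    · intro h0
      have h1 : ((m * d : ℕ) : AlgebraicClosure F) = ((p ^ n + 1 : ℕ) : AlgebraicClosure F) := by
        rw [hm]
      push_cast at h1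
      rw [h0, mul_zero, CharP.cast_eq_zero, zero_pow (by omega), zero_add] at h1
      exact zero_ne_one h1
    · intro i j hij h
      exact hαinj i j hij (hmap h)
    · intro i j h
      exact hαq i j (hmap h).symm
  have hne : ∀ t : F, t ^ (p ^ n) = t → ∀ j, t - α j ≠ 0 := by
    intro t ht j h
    rw [sub_eq_zero] at h
    apply hαq j j
    rw [← h, ht]
  have hne' : ∀ t : F, t ^ (p ^ n) = t → ∀ j, t - α j ^ (p ^ n) ≠ 0 := by
    intro t ht j h
    rw [sub_eq_zero] at h
    apply hne t ht j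
    rw [sub_eq_zero]
    have h1 := hff (α j)
    rw [← h, ht] at h1
    exact h1
  have hFfin : ({t : F | t ^ p ^ n = t}).Finite := Set.toFinite _
  let T0 : Finset F := hFfin.toFinset
  let T : Finset (AlgebraicClosure F) := T0.image φ
  have hT0 : ∀ t, t ∈ T0 ↔ t ^ p ^ n = t := by
    intro t
    simp [T0]
  have hTcard : p ^ n ≤ T.card := by
    rw [Finset.card_image_of_injective _ hmap]
    rw [← Set.ncard_eq_toFinset_card _ hFfin, hcard]
  have hmain := hn1 A.card n hnK m (by rw [mul_comm]; exact hm) (AlgebraicClosure F)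
    (fun j => φ ((α j) ^ (p ^ n))) (fun j => φ (α j)) hDat T 1 0 0 1 hTcard
    (by
      intro x hx
      obtain ⟨t, ht, rfl⟩ := Finset.mem_image.mp hx
      rw [hT0] at ht
      refine ⟨?_, by simp⟩
      rw [← map_pow, ht]
      ring)
    (by
      intro x hx j h
      obtain ⟨t, ht, rfl⟩ := Finset.mem_image.mp hx
      rw [hT0] at ht
      exact hne t ht j (sub_eq_zero.mpr (hmap h)))
    (fun _ => (Polynomial.nthRoots d (1 : AlgebraicClosure F)).toFinset)
    (fun _ => (Multiset.toFinset_card_le _).trans (Polynomial.card_nthRoots d 1))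
    (by
      intro x hx j
      obtain ⟨t, ht, rfl⟩ := Finset.mem_image.mp hx
      rw [hT0] at ht
      rw [Multiset.mem_toFinset, Polynomial.mem_nthRoots (by omega)]
      rw [← map_sub, ← map_sub, ← map_div₀, ← map_pow, ← map_pow, ← map_one φ]
      congr 1
      rw [← pow_mul, hm, pow_succ, div_pow, hfs, hfs, hff, ht]
      have h1 := hne t ht j
      have h2 := hne' t ht j
      field_simp)
    (fun _ => 1)
    (by
      intro j
      rw [Multiset.mem_toFinset, Polynomial.mem_nthRoots (by omega), one_pow])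
  have hiff : ∀ t : F, t ^ p ^ n = t →
      ((∀ a ∈ A, ((v + t * w - a) ^ p ^ n) ^ m = (v + t * w - a) ^ m) ↔
        ∀ j, ((φ t - φ ((α j) ^ (p ^ n))) / (φ t - φ (α j))) ^ m = 1) := by
    intro t ht
    have hone : ∀ j, (((v + t * w - ((e.symm j : A) : F)) ^ p ^ n) ^ m =
        (v + t * w - ((e.symm j : A) : F)) ^ m ↔
        ((φ t - φ ((α j) ^ (p ^ n))) / (φ t - φ (α j))) ^ m = 1) := by
      intro j
      have h0 : v + t * w - ((e.symm j : A) : F) = w * (t - α j) := by
        simp only [α]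
        field_simp
        ring
      rw [h0, mul_pow, mul_pow, mul_pow, hwm, hfs, ht, ← map_sub, ← map_sub, ← map_div₀,
        ← map_pow, ← map_one φ, hmap.eq_iff, div_pow (t - α j ^ p ^ n) (t - α j) m,
        div_eq_one_iff_eq (pow_ne_zero _ (hne t ht j))]
      exact mul_right_inj' (pow_ne_zero _ hw)
    constructor
    · intro h j
      exact (hone j).mp (h _ (e.symm j).2)
    · intro h a ha
      have h1 := (hone (e ⟨a, ha⟩)).mpr (h _)
      rw [Equiv.symm_apply_apply] at h1
      exact h1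
  have hset : Set.ncard {t : F | t ^ p ^ n = t ∧
      ∀ a ∈ A, ((v + t * w - a) ^ p ^ n) ^ m = (v + t * w - a) ^ m} =
      (T.filter (fun x => ∀ j : Fin A.card,
        ((x - φ ((α j) ^ (p ^ n))) / (x - φ (α j))) ^ m = 1)).card := by
    rw [Finset.filter_image, Finset.card_image_of_injective _ hmap, ← Set.ncard_coe_finset]
    congr 1
    ext t
    simp only [Set.mem_setOf_eq, Finset.coe_filter, hT0]
    constructor
    · rintro ⟨h1, h2⟩
      exact ⟨h1, (hiff t h1).mp h2⟩
    · rintro ⟨h1, h2⟩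
      exact ⟨h1, (hiff t h1).mpr h2⟩
  rw [hset, one_div_pow]
  convert hmain using 5

end GPC
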