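import Pool.Agent.Lib.MP_56e792_co.S.Defs2
import Pool.Agent.Lib.MP_56e792_co.S.Lc0

/-!
# MP_56e792_co, phase 2 (fixed characteristic), module Lc1

Choose a maximal subset `A'` of `A` with the property `hA` of `line_count0` (no two elements conjugate). The condition for `a = v + α w` and for its conjugate `v + α^q w` are the same: `f_α = (t - α^q)/(t - α)` and `f_(α^q) = 1/f_α` (`α^(q^2) = α`). So the set for `A` is the set for `A'`. (Elements of `A` are off the line: `α^q ≠ α`.)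
-/

set_option autoImplicit false
set_option linter.unusedVariables false

namespace GPC

open Polynomial
open Pool.Agent.Lib.MP_56e792_co (J mem_J GP)

/-- the condition of a point in terms of its parameter and the conjugate parameter -/
private theorem lc1_cond {p n m : ℕ} (hp : p.Prime) {F : Type} [Field F]
    (hcard : Nat.card F = (p ^ n) ^ 2) {v w : F} (hw0 : w ≠ 0)
    (hw : (w ^ p ^ n) ^ m = w ^ m) {a : F} {t : F} (ht : t ^ p ^ n = t) :
    ((v + t * w - a) ^ p ^ n) ^ m = (v + t * w - a) ^ m ↔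
      (t - ((a - v) / w) ^ p ^ n) ^ m = (t - (a - v) / w) ^ m := by
  have h1 : v + t * w - a = (t - (a - v) / w) * w := by
    rw [sub_mul, div_mul_cancel₀ _ hw0]; ring
  have h2 : (v + t * w - a) ^ p ^ n = (t - ((a - v) / w) ^ p ^ n) * w ^ p ^ n := by
    rw [h1, mul_pow, Pool.Agent.Lib.MP_56e792_co.frob_sub hp rfl hcard, ht]
  rw [h2, h1, mul_pow, mul_pow, hw]
  have hwm : w ^ m ≠ 0 := pow_ne_zero _ hw0
  constructor
  · intro h; exact mul_right_cancel₀ hwm h
  · intro h; rw [h]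

theorem line_count (p d K0 : ℕ) (hp : p.Prime) (hd : 2 ≤ d) (ε : ℝ) (hε : 0 < ε) :
    ∃ n1 : ℕ, ∀ n ≥ n1, ∀ m : ℕ, m * d = p ^ n + 1 → ∀ (F : Type) [Field F],
      Nat.card F = (p ^ n) ^ 2 → ∀ v w : F, w ≠ 0 → (w ^ p ^ n) ^ m = w ^ m →
        ∀ A : Finset F, A.card ≤ K0 → (∀ a ∈ A, ∀ t : F, t ^ p ^ n = t → a ≠ v + t * w) →
          ∃ j : ℕ, |((Set.ncard {t : F | t ^ p ^ n = t ∧
              ∀ a ∈ A, ((v + t * w - a) ^ p ^ n) ^ m = (v + t * w - a) ^ m} : ℕ) : ℝ) -
            (1 / (d : ℝ)) ^ j * (p : ℝ) ^ n| ≤ ε * (p : ℝ) ^ n := by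
  classical
  obtain ⟨n1, hn1⟩ := line_count0 p d K0 hp hd ε hε
  refine ⟨n1, fun n hn m hmd F _ hcard v w hw0 hw A hA hoff => ?_⟩
  have hq0 : p ^ n ≠ 0 := pow_ne_zero _ hp.ne_zero
  -- a maximal subset with no two conjugate elements
  obtain ⟨P, hP⟩ : ∃ P : Finset F → Prop, P = fun B =>
    ∀ a ∈ B, ∀ b ∈ B, ((a - v) / w) ^ p ^ n ≠ (b - v) / w := ⟨_, rfl⟩
  have hS0 : (A.powerset.filter P).Nonempty :=
    ⟨∅, Finset.mem_filter.2 ⟨Finset.empty_mem_powerset _, by
      rw [hP]; intro a ha; exact absurd ha (Finset.notMem_empty a)⟩⟩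
  obtain ⟨B, hBm, hBmax⟩ := Finset.exists_max_image (A.powerset.filter P) Finset.card hS0
  rw [Finset.mem_filter, Finset.mem_powerset] at hBm
  obtain ⟨hBA, hBP⟩ := hBm
  have hBP' : ∀ a ∈ B, ∀ b ∈ B, ((a - v) / w) ^ p ^ n ≠ (b - v) / w := by
    rw [hP] at hBP; exact hBP
  refine ⟨B.card, ?_⟩
  have hset : {t : F | t ^ p ^ n = t ∧
      ∀ a ∈ A, ((v + t * w - a) ^ p ^ n) ^ m = (v + t * w - a) ^ m} =
      {t : F | t ^ p ^ n = t ∧
      ∀ a ∈ B, ((v + t * w - a) ^ p ^ n) ^ m = (v + t * w - a) ^ m} := by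
    ext t
    simp only [Set.mem_setOf_eq]
    constructor
    · rintro ⟨ht, h⟩
      exact ⟨ht, fun a ha => h a (hBA ha)⟩
    · rintro ⟨ht, h⟩
      refine ⟨ht, fun a ha => ?_⟩
      by_cases haB : a ∈ B
      · exact h a haB
      -- the conjugate of a is in B
      have hnot : ¬ P (insert a B) := by
        intro hP'
        have h1 := hBmax (insert a B) (Finset.mem_filter.2
          ⟨Finset.mem_powerset.2 (Finset.insert_subset ha hBA), hP'⟩)
        rw [Finset.card_insert_of_notMem haB] at h1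
        omega
      have hff : ∀ x : F, (x ^ p ^ n) ^ p ^ n = x := fun x =>
        Pool.Agent.Lib.MP_56e792_co.frob_frob hq0 hcard x
      have hself : ((a - v) / w) ^ p ^ n ≠ (a - v) / w := by
        intro h1
        refine hoff a ha _ h1 ?_
        rw [div_mul_cancel₀ _ hw0]; ring
      obtain ⟨b, hbB, hab⟩ : ∃ b ∈ B, ((a - v) / w) ^ p ^ n = (b - v) / w := by
        rw [hP] at hnot
        push Not at hnot
        obtain ⟨x, hx, y, hy, hxy⟩ := hnot
        rw [Finset.mem_insert] at hx hy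
        rcases hx with rfl | hx
        · rcases hy with rfl | hy
          · exact absurd hxy hself
          · exact ⟨y, hy, hxy⟩
        · rcases hy with rfl | hy
          · refine ⟨x, hx, ?_⟩
            rw [← hxy, hff]
          · exact absurd hxy (hBP' x hx y hy)
      have hb := h b hbB
      rw [lc1_cond hp hcard hw0 hw ht] at hb ⊢
      rw [← hab, hff] at hb
      rw [hb]
  rw [hset]
  exact hn1 n hn m hmd F hcard v w hw0 hw B ((Finset.card_le_card hBA).trans hA) hBP'

end GPC
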