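import Pool.Agent.Lib.MP_56e792_co.S.Defs2
import Pool.Agent.Lib.MP_56e792_co.S.ExA
import Pool.Agent.Lib.MP_56e792_co.S.Jst

/-!
# MP_56e792_co, phase 2 (fixed characteristic), module Js2

THE NEW POINT of GPC2.md. `Q = (p^w)^j0`, `g = gg j0`, `m' = mm (s-j0)`, `m = mm s`: `m + g = Q m'` (`mm_mul`, `gg_mul`), `p` does not divide `m'` (`m' d = p^L (p^w)^(s-j0) + 1`, `1 ≤ s - j0`). For `i ∈ J p m'` the polynomial `X^(Q i)` is a combination of `(X^Q - c^Q)^m'`, `c ∈ C` (`C.card ≥ m'+1`,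
the `c^Q` are distinct; dual vectors as in `Pool.Agent.Lib.MP_56e792_co.transfer`/`dual_vec`, Poly.lean, or apply `transfer` with exponent `m'` to `x c = c^Q` twisted: it is enough to have coefficients `lam c` with `∑ lam c (c^Q)^l = [l = m'-i]` for `l ≤ m'`, Vandermonde), and
`(x^Q - c^Q)^m' = (x-c)^(m+g) = (x-c)^g (x-c)^m = (x-c)^g (y - c^q)^m` on `C` (`hC.rel`), which is in the span of `x^a y^e`, `a ≤ g`, `e ∈ J p m` (binomial theorem, `CharP.cast_eq_zero_iff`). For `i ∈ J p m`: `i = Q k' + i'`, `i' ≤ Q`, `k' ∈ J p (m'-1)` (`exp_bot`), so `k' ∈ J p m'` (`J_up`):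
`x^i = x^i' x^(Q k')`, total degree in front `≤ Q + g < 2 Q` (`gg_lt`). The same with `x` and `y` exchanged (`(y-c^q)^g (y-c^q)^m = (y-c^q)^g (x-c)^m`; `c ↦ c^q` is injective on `C` by `hC.fix`).
-/

set_option autoImplicit false
set_option linter.unusedVariables false

namespace GPC

open Polynomial
open Pool.Agent.Lib.MP_56e792_co (J mem_J GP)

private theorem js2_binom {k A : Type} [Field k] [CommRing A] [Algebra k A] {p : ℕ} [CharP k p]
    (v : A) (β : k) (m : ℕ) :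
    (v - algebraMap k A β) ^ m ∈ Submodule.span k ((fun e => v ^ e) '' (J p m : Set ℕ)) := by
  rw [sub_eq_add_neg, add_pow]
  refine Submodule.sum_mem _ fun e _ => ?_
  by_cases he : e ∈ J p m
  · have h1 : v ^ e * (-algebraMap k A β) ^ (m - e) * (m.choose e : A) =
        ((-β) ^ (m - e) * (m.choose e : k)) • v ^ e := by
      rw [Algebra.smul_def]
      simp only [map_mul, map_pow, map_neg, map_natCast]
      ring
    rw [h1]
    exact Submodule.smul_mem _ _ (Submodule.subset_span ⟨e, he, rfl⟩)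
  · have h0 : ((m.choose e : ℕ) : k) = 0 := by
      rw [CharP.cast_eq_zero_iff k p]
      by_contra hd
      exact he (mem_J.2 hd)
    have h1 : ((m.choose e : ℕ) : A) = 0 := by
      rw [← map_natCast (algebraMap k A), h0, map_zero]
    rw [h1, mul_zero]
    exact Submodule.zero_mem _

private theorem js2_pow_le {k A : Type} [Field k] [CommRing A] [Algebra k A]
    (u : A) (α : k) (g : ℕ) :
    (u - algebraMap k A α) ^ g ∈ Submodule.span k ((fun a => u ^ a) '' {a | a ≤ g}) := by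
  rw [sub_eq_add_neg, add_pow]
  refine Submodule.sum_mem _ fun e he => ?_
  have h1 : u ^ e * (-algebraMap k A α) ^ (g - e) * (g.choose e : A) =
      ((-α) ^ (g - e) * (g.choose e : k)) • u ^ e := by
    rw [Algebra.smul_def]
    simp only [map_mul, map_pow, map_neg, map_natCast]
    ring
  rw [h1]
  refine Submodule.smul_mem _ _ (Submodule.subset_span ⟨e, ?_, rfl⟩)
  have := Finset.mem_range.1 he
  show e ≤ g
  omega

private theorem js2_prod {k A : Type} [Field k] [CommRing A] [Algebra k A] {p : ℕ} [CharP k p]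
    (u v : A) (α β : k) (g m : ℕ) :
    (u - algebraMap k A α) ^ g * (v - algebraMap k A β) ^ m ∈
      Submodule.span k {z | ∃ a ≤ g, ∃ e ∈ J p m, z = u ^ a * v ^ e} := by
  have h := Submodule.mul_mem_mul (js2_pow_le u α g) (js2_binom (p := p) v β m)
  rw [Submodule.span_mul_span] at h
  refine Submodule.span_mono ?_ h
  rintro _ ⟨_, ⟨a, ha, rfl⟩, _, ⟨e, he, rfl⟩, rfl⟩
  exact ⟨a, ha, e, he, rfl⟩

private theorem js2_key {k T : Type} [Field k] [Fintype T] {p : ℕ} (hp : p.Prime)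
    [CharP k p] {m m' g n : ℕ} (hQ : m + g = p ^ n * m') (u v : T → k)
    (hu : Function.Injective u) (hrel : ∀ a b, (u a - u b) ^ m = (v a - v b) ^ m)
    (hcard : m' + 1 ≤ Fintype.card T) {i : ℕ} (hi : i ∈ J p m') :
    u ^ (p ^ n * i) ∈ Submodule.span k {z | ∃ a ≤ g, ∃ e ∈ J p m, z = u ^ a * v ^ e} := by
  classical
  have hle : i ≤ m' := by
    by_contra hlt
    apply mem_J.1 hi
    rw [Nat.choose_eq_zero_of_lt (by omega)]
    exact dvd_zero p
  have hcast : ((m'.choose i : ℕ) : k) ≠ 0 := fun h0 =>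
    mem_J.1 hi ((CharP.cast_eq_zero_iff k p _).1 h0)
  have : ExpChar k p := ExpChar.prime hp
  have hz : Function.Injective (fun c : T => u c ^ p ^ n) := by
    intro a b hab
    apply hu
    exact iterateFrobenius_inj k p n hab
  obtain ⟨S, -, hS⟩ := Finset.exists_subset_card_eq (s := (Finset.univ : Finset T))
    (n := m' + 1) (by rwa [Finset.card_univ])
  obtain ⟨c, hc⟩ := Pool.Agent.Lib.MP_56e792_co.dual_vec m' S (fun c => u c ^ p ^ n)
    hz.injOn hS (m' - i)
  set u0 : k := (-1) ^ (m' - i) * (m'.choose i : k) with hu0d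
  have hu0 : u0 ≠ 0 := mul_ne_zero (pow_ne_zero _ (neg_ne_zero.mpr one_ne_zero)) hcast
  have hP : (∑ j ∈ S, C (c j) * (X - C (u j ^ p ^ n)) ^ m' : k[X]) = C u0 * X ^ i := by
    ext l
    rw [Pool.Agent.Lib.MP_56e792_co.coeff_sum_pow m' S c (fun j => u j ^ p ^ n),
      Polynomial.coeff_C_mul_X_pow]
    by_cases hl : l ≤ m'
    · rw [hc (m' - l) (Nat.sub_le _ _)]
      by_cases hlk : l = i
      · rw [hlk, if_pos rfl, if_pos rfl, mul_one]
      · rw [if_neg hlk, if_neg (by omega), mul_zero]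
    · rw [Nat.choose_eq_zero_of_lt (by omega), if_neg (by omega)]
      simp
  have hev : ∀ t : T, ∑ j ∈ S, c j * (u t ^ p ^ n - u j ^ p ^ n) ^ m' =
      u0 * (u t ^ p ^ n) ^ i := by
    intro t
    have h1 := congrArg (fun P : k[X] => P.eval (u t ^ p ^ n)) hP
    simp only [Polynomial.eval_finsetSum, Polynomial.eval_mul, Polynomial.eval_C,
      Polynomial.eval_pow, Polynomial.eval_sub, Polynomial.eval_X] at h1
    exact h1
  have hmain : u ^ (p ^ n * i) = u0⁻¹ • ∑ j ∈ S, c j •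
      ((u - algebraMap k (T → k) (u j)) ^ g * (v - algebraMap k (T → k) (v j)) ^ m) := by
    funext t
    have h2 : ∀ j, (u t - u j) ^ g * (v t - v j) ^ m = (u t ^ p ^ n - u j ^ p ^ n) ^ m' := by
      intro j
      rw [← hrel t j, ← pow_add, add_comm g m, hQ, pow_mul, sub_pow_expChar_pow]
    have h3 := hev t
    simp only [Pi.pow_apply, Pi.smul_apply, Finset.sum_apply, Pi.mul_apply, Pi.sub_apply,
      Pi.algebraMap_apply, Algebra.algebraMap_self, RingHom.id_apply, smul_eq_mul, h2]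
    rw [h3, ← mul_assoc, inv_mul_cancel₀ hu0, one_mul, pow_mul]
  rw [hmain]
  exact Submodule.smul_mem _ _ (Submodule.sum_mem _ fun j _ =>
    Submodule.smul_mem _ _ (js2_prod u v _ _ g m))

private theorem js2_all {k T : Type} [Field k] [Fintype T] {p d L w : ℕ} [CharP k p]
    (h : Num p d L w) {s j0 : ℕ} (hj : j0 < s) (u v : T → k)
    (hu : Function.Injective u)
    (hrel : ∀ a b, (u a - u b) ^ mm d (p ^ L) (p ^ w) s = (v a - v b) ^ mm d (p ^ L) (p ^ w) s)
    (hcard : mm d (p ^ L) (p ^ w) (s - j0) + 1 ≤ Fintype.card T) {i : ℕ}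
    (hi : i ∈ J p (mm d (p ^ L) (p ^ w) s)) :
    u ^ i ∈ Submodule.span k {z | ∃ a < 2 * (p ^ w) ^ j0, ∃ e ∈ J p (mm d (p ^ L) (p ^ w) s),
      z = u ^ a * v ^ e} := by
  have hd : 0 < d := by have := h.hd; omega
  have hQ : mm d (p ^ L) (p ^ w) s + gg d (p ^ w) j0 =
      p ^ (w * j0) * mm d (p ^ L) (p ^ w) (s - j0) := by
    apply Nat.eq_of_mul_eq_mul_right hd
    have e1 : 1 ≤ (p ^ w) ^ j0 := Nat.one_le_pow _ _ (Nat.pos_of_ne_zero
      (pow_ne_zero _ h.hp.ne_zero))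
    have e2 : (p ^ w) ^ s = (p ^ w) ^ j0 * (p ^ w) ^ (s - j0) := by
      rw [← pow_add]; congr 1; omega
    rw [add_mul, mm_mul h s, gg_mul h j0, mul_assoc, mm_mul h (s - j0), pow_mul, e2]
    have e3 : p ^ L * ((p ^ w) ^ j0 * (p ^ w) ^ (s - j0)) + 1 + ((p ^ w) ^ j0 - 1) =
        p ^ L * ((p ^ w) ^ j0 * (p ^ w) ^ (s - j0)) + (p ^ w) ^ j0 := by omega
    rw [e3]
    ring
  have hnd : ¬ p ∣ mm d (p ^ L) (p ^ w) (s - j0) := by
    intro hdv
    have e1 : p ∣ mm d (p ^ L) (p ^ w) (s - j0) * d := hdv.mul_right d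
    rw [mm_mul h (s - j0)] at e1
    have e2 : p ∣ (p ^ w) ^ (s - j0) := by
      rw [← pow_mul]
      apply dvd_pow_self
      have := h.hw
      have h3 : 0 < w * (s - j0) := Nat.mul_pos (by omega) (by omega)
      omega
    have e3 : p ∣ p ^ L * (p ^ w) ^ (s - j0) := e2.mul_left _
    have e4 : p ∣ 1 := (Nat.dvd_add_right e3).1 e1
    exact h.hp.one_lt.ne' (Nat.dvd_one.1 e4)
  obtain ⟨k', i', hi1, hi2, hk⟩ := exp_bot h hj.le hi
  have hk' : k' ∈ J p (mm d (p ^ L) (p ^ w) (s - j0)) := J_up h.hp hnd hk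
  have h1 := js2_key h.hp hQ u v hu hrel hcard hk'
  have h2 : u ^ i' ∈ Submodule.span k ({u ^ i'} : Set (T → k)) :=
    Submodule.subset_span (Set.mem_singleton _)
  have h3 := Submodule.mul_mem_mul h2 h1
  rw [Submodule.span_mul_span] at h3
  have h4 : u ^ i = u ^ i' * u ^ (p ^ (w * j0) * k') := by
    rw [← pow_add, hi1, pow_mul, add_comm]
  rw [h4]
  refine Submodule.span_mono ?_ h3
  rintro _ ⟨_, rfl, _, ⟨a, ha, e, he, rfl⟩, rfl⟩
  refine ⟨i' + a, ?_, e, he, ?_⟩
  · have := gg_lt h j0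
    omega
  · show u ^ i' * (u ^ a * v ^ e) = _
    rw [pow_add]
    ring

theorem jst2 {k : Type} [Field k] {p d L w : ℕ} [CharP k p] (h : Num p d L w) {s j0 : ℕ}
    (hj : j0 < s) {C : Finset k}
    (hC : Clq (p ^ L * (p ^ w) ^ s) (mm d (p ^ L) (p ^ w) s) C)
    (hcard : mm d (p ^ L) (p ^ w) (s - j0) + 1 ≤ C.card) :
    Jal2 (k := k) (A := C → k) p (p ^ L * (p ^ w) ^ s) (mm d (p ^ L) (p ^ w) s) (2 * (p ^ w) ^ j0)
      (fun c => (c : k)) (fun c => (c : k) ^ (p ^ L * (p ^ w) ^ s)) := by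
  have hc : mm d (p ^ L) (p ^ w) (s - j0) + 1 ≤ Fintype.card C := by
    rwa [Fintype.card_coe]
  refine ⟨?_, ?_, ?_, ?_⟩
  · funext c
    rfl
  · funext c
    exact hC.fix c c.2
  · intro i hi
    refine js2_all h hj (fun c : C => (c : k) ^ (p ^ L * (p ^ w) ^ s)) (fun c : C => (c : k)) ?_
      ?_ hc hi
    · intro a b hab
      have h3 : ((a : k) ^ (p ^ L * (p ^ w) ^ s)) ^ (p ^ L * (p ^ w) ^ s) =
          ((b : k) ^ (p ^ L * (p ^ w) ^ s)) ^ (p ^ L * (p ^ w) ^ s) :=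
        congrArg (· ^ (p ^ L * (p ^ w) ^ s)) hab
      rw [hC.fix a a.2, hC.fix b b.2] at h3
      exact Subtype.ext h3
    · intro a b
      exact hC.rel a a.2 b b.2
  · intro i hi
    refine js2_all h hj (fun c : C => (c : k)) (fun c : C => (c : k) ^ (p ^ L * (p ^ w) ^ s)) ?_
      ?_ hc hi
    · intro a b hab
      exact Subtype.ext hab
    · intro a b
      exact (hC.rel a a.2 b b.2).symm

end GPC
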