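import Pool.Agent.Lib.MP_56e792_co.S.Defs2
import Pool.Agent.Lib.MP_56e792_co.S.Js2
import Pool.Agent.Lib.MP_56e792_co.S.Dc2
import Pool.Agent.Lib.MP_56e792_co.S.BiP

/-!
# MP_56e792_co, phase 2 (fixed characteristic), module Ic2

Copy of Icd (IC_codim) with `jst2` and `dimC2`, `N = 2 * (p^w)^j0`.
-/

set_option autoImplicit false
set_option linter.unusedVariables false

namespace GPC

open Polynomial
open Pool.Agent.Lib.MP_56e792_co (J mem_J GP)

theorem IC_codim2 {k : Type} [Field k] {p d L w : ℕ} [CharP k p] (h : Num p d L w) {s j j0 : ℕ}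
    (hj : j < s) (hj0 : j0 < s) {C : Finset k}
    (hC : Clq (p ^ L * (p ^ w) ^ s) (mm d (p ^ L) (p ^ w) s) C)
    (hcard : mm d (p ^ L) (p ^ w) (s - j0) + 1 ≤ C.card) :
    (p ^ w) ^ j * (p ^ w) ^ j ≤
      Module.finrank k (IC (p ^ L * (p ^ w) ^ s) C ((p ^ w) ^ j)) +
        6 * (2 * (p ^ w) ^ j0) ^ 2 * (p ^ w) ^ j * (p ^ L * (p ^ w - 1) ^ (s - j)) := by
  have hA := jst2 h hj0 hC hcard
  have h0 := dimC2 h hj hA
  have hfin : FiniteDimensional k (Bi k ((p ^ w) ^ j) ((p ^ w) ^ j)) := Bi_fin _ _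
  let f : k[X][X] →ₗ[k] (C → k) := (evC (p ^ L * (p ^ w) ^ s) C).toLinearMap
  have h1 := LinearMap.finrank_range_add_finrank_ker (V := Bi k ((p ^ w) ^ j) ((p ^ w) ^ j)) (V₂ := C → k)
    (f.domRestrict (Bi k ((p ^ w) ^ j) ((p ^ w) ^ j)))
  rw [Bi_finrank, LinearMap.range_domRestrict, LinearMap.ker_domRestrict] at h1
  have h2 : (Bi k ((p ^ w) ^ j) ((p ^ w) ^ j)).map (evC (p ^ L * (p ^ w) ^ s) C).toLinearMap =
      Submodule.span k {z : C → k | ∃ a b, a < (p ^ w) ^ j ∧ b < (p ^ w) ^ j ∧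
        z = (fun c : C => (c : k)) ^ a * (fun c : C => (c : k) ^ (p ^ L * (p ^ w) ^ s)) ^ b} := by
    unfold evC
    exact Bi_map _ _ _ _
  have h3 : Module.finrank k ((LinearMap.ker (evC (p ^ L * (p ^ w) ^ s) C).toLinearMap).comap
      (Bi k ((p ^ w) ^ j) ((p ^ w) ^ j)).subtype) =
      Module.finrank k (IC (p ^ L * (p ^ w) ^ s) C ((p ^ w) ^ j)) := by
    rw [← Submodule.finrank_map_subtype_eq, Submodule.map_comap_subtype]
    rfl
  rw [h2, h3] at h1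
  omega

end GPC
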