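import Pool.Agent.Lib.MP_56e792_co.S.Defs

/-!
# MP_56e792_co, all prime powers, module PaB

Real analysis only. `θ = (π-1)/π < 1`. The sum is `≤ 12 q0 π θ π^s ∑_{t ≥ T} θ^t = 12 q0 (π-1) π θ^T π^s`, so choose `T` with `12 π^2 θ^T ≤ η/2`. Choose `j0` with `π^(-j0) ≤ η/4`, `t0 = ⌈(s + j0)/2⌉`: `2 π^(2(s-t0)) ≤ 2 π^(s-j0) ≤ (η/2) π^s`,
and `s - t0 ≥ t0 - j0 - 1`, so `6 q0 (π-1)^t0 < π^(s-t0)` as soon as `(π/(π-1))^t0 > 6 q0 π^(j0+1)`, true for large `s`.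
-/

set_option autoImplicit false
set_option linter.unusedVariables false

namespace GPC

open Polynomial
open Pool.Agent.Lib.MP_56e792_co (J mem_J GP)

private theorem PaB_geom (θ : ℝ) (h0 : 0 ≤ θ) (h1 : θ < 1) (T t0 : ℕ) :
    ∑ t ∈ Finset.Ico T t0, θ ^ t ≤ θ ^ T / (1 - θ) := by
  have hp : 0 < 1 - θ := by linarith
  rcases le_total T t0 with h | h
  · rw [geom_sum_Ico (by linarith : θ ≠ 1) h]
    have e : (θ ^ t0 - θ ^ T) / (θ - 1) = (θ ^ T - θ ^ t0) / (1 - θ) := by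
      rw [div_eq_div_iff (by linarith : θ - 1 ≠ 0) hp.ne']
      ring
    rw [e]
    have : 0 ≤ θ ^ t0 := pow_nonneg h0 _
    exact div_le_div_of_nonneg_right (by linarith) hp.le
  · rw [Finset.Ico_eq_empty_of_le h, Finset.sum_empty]
    exact div_nonneg (pow_nonneg h0 _) hp.le

theorem parB (π q0 : ℕ) (hπ : 2 ≤ π) (hq0 : 1 ≤ q0) (η : ℝ) (hη : 0 < η) :
    ∃ T s0 : ℕ, 1 ≤ T ∧ ∀ s ≥ s0, ∃ t0, T ≤ t0 ∧ t0 ≤ s ∧
      6 * (q0 * (π - 1) ^ t0) < π ^ (s - t0) ∧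
      (2 * ((π : ℝ) ^ (s - t0)) ^ 2 + ∑ t ∈ Finset.Ico T t0,
        2 * (6 * ((q0 : ℝ) * ((π : ℝ) - 1) ^ (t + 1))) * (π : ℝ) ^ (s - t)) ≤
          η * ((q0 : ℝ) * (π : ℝ) ^ s) := by
  have hπr : (2 : ℝ) ≤ π := by exact_mod_cast hπ
  have hπ0 : (0 : ℝ) < π := by linarith
  have hq0r : (1 : ℝ) ≤ q0 := by exact_mod_cast hq0
  set θ : ℝ := ((π : ℝ) - 1) / π with hθ
  have hθ0 : 0 ≤ θ := div_nonneg (by linarith) hπ0.le
  have hθ1 : θ < 1 := by rw [hθ, div_lt_one hπ0]; linarith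
  have hθπ : θ * π = π - 1 := by rw [hθ]; field_simp
  have h1θ : 1 - θ = 1 / π := by rw [hθ]; field_simp; ring
  have hpow : ∀ t : ℕ, ((π : ℝ) - 1) ^ t = θ ^ t * (π : ℝ) ^ t := by
    intro t
    rw [← mul_pow, hθπ]
  -- the choice of T
  have hlim : Filter.Tendsto (fun n : ℕ => θ ^ n) Filter.atTop (nhds 0) :=
    tendsto_pow_atTop_nhds_zero_of_lt_one hθ0 hθ1
  obtain ⟨T0, hT0⟩ : ∃ T0 : ℕ, ∀ n ≥ T0, θ ^ n < η / (24 * (π : ℝ) ^ 2) := by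
    have h := hlim.eventually (gt_mem_nhds (show (0 : ℝ) < η / (24 * (π : ℝ) ^ 2) by positivity))
    exact Filter.eventually_atTop.1 h
  obtain ⟨j0, hj0⟩ : ∃ j0 : ℕ, (1 / (π : ℝ)) ^ j0 < η / 4 :=
    exists_pow_lt_of_lt_one (by positivity) (by rw [div_lt_one hπ0]; linarith)
  obtain ⟨t1, ht1⟩ : ∃ t1 : ℕ, ∀ n ≥ t1, θ ^ n < 1 / (6 * q0 * (π : ℝ) ^ (j0 + 1)) := by
    have h := hlim.eventually (gt_mem_nhds (show (0 : ℝ) < 1 / (6 * q0 * (π : ℝ) ^ (j0 + 1)) by positivity))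
    exact Filter.eventually_atTop.1 h
  refine ⟨max 1 T0, 2 * (max 1 T0 + t1) + j0 + 2, le_max_left _ _, fun s hs => ?_⟩
  set T : ℕ := max 1 T0 with hT
  have hTT0 : T0 ≤ T := le_max_right _ _
  set t0 : ℕ := (s + j0 + 1) / 2 with ht0
  have ha : s + j0 ≤ 2 * t0 := by omega
  have hb : 2 * t0 ≤ s + j0 + 1 := by omega
  have hTt : T ≤ t0 := by omega
  have hts : t0 ≤ s := by omega
  have ht1t : t1 ≤ t0 := by omega
  refine ⟨t0, hTt, hts, ?_, ?_⟩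
  · -- the strict inequality
    have hr : t0 ≤ (s - t0) + (j0 + 1) := by omega
    have h1 := ht1 t0 ht1t
    rw [lt_div_iff₀ (by positivity)] at h1
    have h2 : (6 : ℝ) * (q0 * ((π : ℝ) - 1) ^ t0) < (π : ℝ) ^ (s - t0) := by
      have h3 : (π : ℝ) ^ t0 ≤ (π : ℝ) ^ (s - t0) * (π : ℝ) ^ (j0 + 1) := by
        rw [← pow_add]
        exact pow_le_pow_right₀ (by linarith) hr
      have hpj : (0 : ℝ) < (π : ℝ) ^ (j0 + 1) := by positivity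
      have hpt : (0 : ℝ) < (π : ℝ) ^ t0 := by positivity
      have h4 : (6 : ℝ) * (q0 * ((π : ℝ) - 1) ^ t0) * (π : ℝ) ^ (j0 + 1) < (π : ℝ) ^ t0 := by
        rw [hpow]
        calc (6 : ℝ) * (q0 * (θ ^ t0 * (π : ℝ) ^ t0)) * (π : ℝ) ^ (j0 + 1)
            = (θ ^ t0 * (6 * q0 * (π : ℝ) ^ (j0 + 1))) * (π : ℝ) ^ t0 := by ring
          _ < 1 * (π : ℝ) ^ t0 := by
              exact mul_lt_mul_of_pos_right h1 hpt
          _ = (π : ℝ) ^ t0 := one_mul _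
      have h5 := h4.trans_le h3
      exact lt_of_mul_lt_mul_right h5 hpj.le
    have e : ((π - 1 : ℕ) : ℝ) = (π : ℝ) - 1 := by
      rw [Nat.cast_sub (by omega)]
      simp
    have h6 : ((6 * (q0 * (π - 1) ^ t0) : ℕ) : ℝ) < ((π ^ (s - t0) : ℕ) : ℝ) := by
      push_cast
      rw [e]
      exact h2
    exact_mod_cast h6
  · -- the sum
    have hA : 2 * ((π : ℝ) ^ (s - t0)) ^ 2 ≤ η / 2 * ((q0 : ℝ) * (π : ℝ) ^ s) := by
      have h1 : ((π : ℝ) ^ (s - t0)) ^ 2 * (π : ℝ) ^ j0 ≤ (π : ℝ) ^ s := by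
        rw [← pow_mul, ← pow_add]
        exact pow_le_pow_right₀ (by linarith) (by omega)
      have hpj : (0 : ℝ) < (π : ℝ) ^ j0 := by positivity
      have h2 : ((π : ℝ) ^ (s - t0)) ^ 2 ≤ (π : ℝ) ^ s * (1 / (π : ℝ)) ^ j0 := by
        rw [one_div, inv_pow, ← div_eq_mul_inv, le_div_iff₀ hpj]
        exact h1
      have hps : (0 : ℝ) < (π : ℝ) ^ s := by positivity
      have h3 : (π : ℝ) ^ s * (1 / (π : ℝ)) ^ j0 ≤ (π : ℝ) ^ s * (η / 4) :=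
        mul_le_mul_of_nonneg_left hj0.le hps.le
      have h4 : η / 2 * (π : ℝ) ^ s ≤ η / 2 * ((q0 : ℝ) * (π : ℝ) ^ s) := by
        refine mul_le_mul_of_nonneg_left ?_ (by positivity)
        nlinarith
      calc 2 * ((π : ℝ) ^ (s - t0)) ^ 2 ≤ 2 * ((π : ℝ) ^ s * (η / 4)) := by linarith
        _ = η / 2 * (π : ℝ) ^ s := by ring
        _ ≤ _ := h4
    have hB : ∑ t ∈ Finset.Ico T t0, 2 * (6 * ((q0 : ℝ) * ((π : ℝ) - 1) ^ (t + 1))) * (π : ℝ) ^ (s - t) ≤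
        η / 2 * ((q0 : ℝ) * (π : ℝ) ^ s) := by
      have e : ∀ t ∈ Finset.Ico T t0, 2 * (6 * ((q0 : ℝ) * ((π : ℝ) - 1) ^ (t + 1))) * (π : ℝ) ^ (s - t) =
          12 * q0 * (π - 1) * (π : ℝ) ^ s * θ ^ t := by
        intro t ht
        rw [Finset.mem_Ico] at ht
        have h1 : (π : ℝ) ^ s = (π : ℝ) ^ t * (π : ℝ) ^ (s - t) := by
          rw [← pow_add]
          congr 1
          omega
        rw [pow_succ, hpow t, h1]
        ring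
      rw [Finset.sum_congr rfl e, ← Finset.mul_sum]
      have h2 := PaB_geom θ hθ0 hθ1 T t0
      have h3 := hT0 T hTT0
      rw [lt_div_iff₀ (by positivity)] at h3
      have hps : (0 : ℝ) < (π : ℝ) ^ s := by positivity
      have h4 : θ ^ T / (1 - θ) = θ ^ T * π := by rw [h1θ]; field_simp
      rw [h4] at h2
      have h5 : 0 ≤ θ ^ T := pow_nonneg hθ0 _
      calc 12 * (q0 : ℝ) * (π - 1) * (π : ℝ) ^ s * ∑ t ∈ Finset.Ico T t0, θ ^ t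
          ≤ 12 * (q0 : ℝ) * (π - 1) * (π : ℝ) ^ s * (θ ^ T * π) := by
            refine mul_le_mul_of_nonneg_left h2 ?_
            have : (0 : ℝ) ≤ π - 1 := by linarith
            positivity
        _ ≤ 12 * (q0 : ℝ) * π * (π : ℝ) ^ s * (θ ^ T * π) := by
            have h6 : (0 : ℝ) ≤ (q0 : ℝ) * (π : ℝ) ^ s * (θ ^ T * π) := by positivity
            nlinarith
        _ = (θ ^ T * (24 * (π : ℝ) ^ 2)) / 2 * (q0 * (π : ℝ) ^ s) := by ring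
        _ ≤ η / 2 * ((q0 : ℝ) * (π : ℝ) ^ s) := by
            refine mul_le_mul_of_nonneg_right ?_ (by positivity)
            linarith
    linarith

end GPC
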