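import Pool.Agent.Lib.MP_56e792_co.S.Defs2
import Pool.Agent.Lib.MP_56e792_co.S.PaB

/-!
# MP_56e792_co, phase 2 (fixed characteristic), module Pb2

`parB` for `Γ * q0` and `η / Γ`.
-/

set_option autoImplicit false
set_option linter.unusedVariables false

namespace GPC

open Polynomial
open Pool.Agent.Lib.MP_56e792_co (J mem_J GP)

theorem parB2 (π q0 Γ : ℕ) (hπ : 2 ≤ π) (hq0 : 1 ≤ q0) (hΓ : 1 ≤ Γ) (η : ℝ) (hη : 0 < η) :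
    ∃ T s0 : ℕ, 1 ≤ T ∧ ∀ s ≥ s0, ∃ t0, T ≤ t0 ∧ t0 ≤ s ∧
      6 * Γ * (q0 * (π - 1) ^ t0) < π ^ (s - t0) ∧
      (2 * ((π : ℝ) ^ (s - t0)) ^ 2 + ∑ t ∈ Finset.Ico T t0,
        2 * (6 * (Γ : ℝ) * ((q0 : ℝ) * ((π : ℝ) - 1) ^ (t + 1))) * (π : ℝ) ^ (s - t)) ≤
          η * ((q0 : ℝ) * (π : ℝ) ^ s) := by
  have hΓr : (0 : ℝ) < Γ := by exact_mod_cast hΓ
  obtain ⟨T, s0, hT, h⟩ := parB π (Γ * q0) hπ (Nat.mul_pos hΓ hq0) (η / Γ) (div_pos hη hΓr)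
  refine ⟨T, s0, hT, fun s hs => ?_⟩
  obtain ⟨t0, h1, h2, h3, h4⟩ := h s hs
  refine ⟨t0, h1, h2, ?_, ?_⟩
  · have e : 6 * Γ * (q0 * (π - 1) ^ t0) = 6 * (Γ * q0 * (π - 1) ^ t0) := by ring
    rw [e]
    exact h3
  · have e1 : ∀ t ∈ Finset.Ico T t0,
        2 * (6 * (Γ : ℝ) * ((q0 : ℝ) * ((π : ℝ) - 1) ^ (t + 1))) * (π : ℝ) ^ (s - t) =
          2 * (6 * (((Γ * q0 : ℕ) : ℝ) * ((π : ℝ) - 1) ^ (t + 1))) * (π : ℝ) ^ (s - t) := by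
      intro t _
      push_cast
      ring
    have e2 : η * ((q0 : ℝ) * (π : ℝ) ^ s) = η / Γ * (((Γ * q0 : ℕ) : ℝ) * (π : ℝ) ^ s) := by
      push_cast
      field_simp
    rw [Finset.sum_congr rfl e1, e2]
    exact h4

end GPC
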