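import Pool.Agent.Lib.MP_56e792_co.S.Defs2
import Pool.Agent.Lib.MP_56e792_co.S.Ic2
import Pool.Agent.Lib.MP_56e792_co.S.Chn
import Pool.Agent.Lib.MP_56e792_co.S.Pb2

/-!
# MP_56e792_co, phase 2 (fixed characteristic), module Pr2

Copy of PrB (propB) with `IC_codim2`, `parB2`, `Γ = (2 (p^w)^j0)^2`, `bd t = 6 Γ (p^L (p^w-1)^t)`.
-/

set_option autoImplicit false
set_option linter.unusedVariables false

namespace GPC

open Polynomial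
open Pool.Agent.Lib.MP_56e792_co (J mem_J GP)

open Classical in
theorem propB2 {p d L w : ℕ} (h : Num p d L w) (j0 : ℕ) (η : ℝ) (hη : 0 < η) :
    ∃ A0 s0 : ℕ, ∀ s ≥ s0, ∀ (k : Type) [Field k] [CharP k p] (C : Finset k),
      Clq (p ^ L * (p ^ w) ^ s) (mm d (p ^ L) (p ^ w) s) C →
      mm d (p ^ L) (p ^ w) (s - j0) + 1 ≤ C.card →
      ∃ R : Finset (k[X][X]), (∀ r ∈ R, Irreducible r) ∧ ∑ r ∈ R, (dX r + dY r) ≤ A0 ∧
        ((C.filter (fun c => ∀ r ∈ R, pt c (c ^ (p ^ L * (p ^ w) ^ s)) r ≠ 0)).card : ℝ) ≤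
          η * ((p : ℝ) ^ L * ((p : ℝ) ^ w) ^ s) := by
  have hp2 : 2 ≤ p := h.hp.two_le
  have hπ : 2 ≤ p ^ w := by
    calc 2 ≤ p := hp2
      _ = p ^ 1 := (pow_one p).symm
      _ ≤ p ^ w := Nat.pow_le_pow_right (by omega) h.hw
  have hq0 : 1 ≤ p ^ L := Nat.one_le_pow _ _ (by omega)
  obtain ⟨Γ, hΓ⟩ : ∃ Γ : ℕ, Γ = (2 * (p ^ w) ^ j0) ^ 2 := ⟨_, rfl⟩
  have hΓ1 : 1 ≤ Γ := by
    rw [hΓ]
    exact Nat.one_le_pow _ _ (Nat.mul_pos (by omega) (pow_pos (by omega) _))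
  obtain ⟨T, s0, hT1, hmain⟩ := parB2 (p ^ w) (p ^ L) Γ hπ hq0 hΓ1 η hη
  refine ⟨2 * (6 * Γ * (p ^ L * (p ^ w - 1) ^ T)), max s0 (j0 + 1), ?_⟩
  intro s hs' k _ _ C hC hcard
  have hs : s0 ≤ s := le_trans (le_max_left _ _) hs'
  have hsj : j0 < s := lt_of_lt_of_le (Nat.lt_succ_self j0) (le_trans (le_max_right _ _) hs')
  obtain ⟨t0, hTt, ht0, hlt, hle⟩ := hmain s hs
  have hcod : ∀ t, T ≤ t → t ≤ t0 → (p ^ w) ^ (s - t) * (p ^ w) ^ (s - t) ≤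
      Module.finrank k (IC (p ^ L * (p ^ w) ^ s) C ((p ^ w) ^ (s - t))) +
        (p ^ w) ^ (s - t) * (6 * Γ * (p ^ L * (p ^ w - 1) ^ t)) := by
    intro t h1 h2
    have h3 := IC_codim2 h (s := s) (j := s - t) (j0 := j0) (by omega) hsj hC hcard
    have h4 : s - (s - t) = t := by omega
    rw [h4, ← hΓ] at h3
    calc (p ^ w) ^ (s - t) * (p ^ w) ^ (s - t) ≤ _ := h3
      _ = _ := by ring
  have h0 : IC (p ^ L * (p ^ w) ^ s) C ((p ^ w) ^ (s - t0)) ≠ ⊥ := by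
    intro hbot
    have h1 := hcod t0 hTt le_rfl
    rw [hbot, finrank_bot, zero_add] at h1
    have h2 := Nat.le_of_mul_le_mul_left h1 (pow_pos (by omega) _)
    omega
  obtain ⟨R, hR1, hR2, hR3⟩ := chain (p ^ L * (p ^ w) ^ s) C (π := p ^ w) (s := s) (T := T)
    (t0 := t0) (fun t => 6 * Γ * (p ^ L * (p ^ w - 1) ^ t)) (by omega) hTt ht0 hcod h0
  refine ⟨R, hR1, hR2, ?_⟩
  have hcast : ((p ^ w - 1 : ℕ) : ℝ) = ((p ^ w : ℕ) : ℝ) - 1 := by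
    rw [Nat.cast_sub (by omega), Nat.cast_one]
  have h1 : ((C.filter (fun c => ∀ r ∈ R, pt c (c ^ (p ^ L * (p ^ w) ^ s)) r ≠ 0)).card : ℝ) ≤
      ((2 * ((p ^ w) ^ (s - t0)) ^ 2 + ∑ t ∈ Finset.Ico T t0,
        2 * (6 * Γ * (p ^ L * (p ^ w - 1) ^ (t + 1))) * (p ^ w) ^ (s - t) : ℕ) : ℝ) :=
    Nat.cast_le.mpr hR3
  refine h1.trans ?_
  have h2 : ((2 * ((p ^ w) ^ (s - t0)) ^ 2 + ∑ t ∈ Finset.Ico T t0,
        2 * (6 * Γ * (p ^ L * (p ^ w - 1) ^ (t + 1))) * (p ^ w) ^ (s - t) : ℕ) : ℝ) =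
      (2 * (((p ^ w : ℕ) : ℝ) ^ (s - t0)) ^ 2 + ∑ t ∈ Finset.Ico T t0,
        2 * (6 * (Γ : ℝ) * (((p ^ L : ℕ) : ℝ) * (((p ^ w : ℕ) : ℝ) - 1) ^ (t + 1))) *
          ((p ^ w : ℕ) : ℝ) ^ (s - t)) := by
    rw [Nat.cast_add, Nat.cast_sum]
    congr 1
    · push_cast
      ring
    · refine Finset.sum_congr rfl (fun t _ => ?_)
      rw [Nat.cast_mul, Nat.cast_mul, Nat.cast_mul, Nat.cast_mul, Nat.cast_mul,
        Nat.cast_pow (p ^ w - 1), hcast, Nat.cast_pow (p ^ w)]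
      norm_num
  rw [h2]
  refine hle.trans (le_of_eq ?_)
  push_cast
  ring

end GPC
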