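import Pool.Agent.Lib.MP_56e792_co.S.Defs2
import Pool.Agent.Lib.MP_56e792_co.S.Pr2
import Pool.Agent.Lib.MP_56e792_co.S.Apc

/-!
# MP_56e792_co, phase 2 (fixed characteristic), module Str

STRUCTURE THEOREM (compare Mai). `w` with `p^w = 1 mod d` (`p` is prime to `d` because `d ∣ p^n + 1`), `L = n % w`, `s = n / w`. `j0` with `1/(d (p^w)^j0) ≤ δ/4`, so `mm (s-j0) + 1 ≤ δ q` for large `n`. `propB2` with `η = δ/2` (maxima over `L < w`): at least `(δ/2) q` points on the curves of `R`, `R.card ≤ A0`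
(an irreducible polynomial has `dX + dY ≥ 1`), so some `H ∈ R` contains at least `γ q` points, `γ = δ / (2 (A0 + 1))`; `appC`. (If `d` divides no `p^n + 1` with `n ≥ 1`, nothing to prove.)
-/

set_option autoImplicit false
set_option linter.unusedVariables false

namespace GPC

open Polynomial
open Pool.Agent.Lib.MP_56e792_co (J mem_J GP)

/-- an irreducible polynomial is not constant -/
private theorem str_deg {k : Type} [Field k] {H : k[X][X]} (hH : Irreducible H) :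
    1 ≤ dX H + dY H := by
  by_contra hcon
  have h1 : dX H = 0 := by omega
  have h2 : dY H = 0 := by omega
  unfold dX at h1
  unfold dY at h2
  rw [Polynomial.natDegree_eq_zero] at h2
  obtain ⟨g, hg⟩ := h2
  have h3 : Bivariate.swap H = g.map (C : k →+* k[X]) := by
    rw [← hg]; exact Bivariate.swap_C g
  rw [h3, Polynomial.natDegree_map_eq_of_injective (C_injective), Polynomial.natDegree_eq_zero] at h1
  obtain ⟨a, ha⟩ := h1
  rw [← hg, ← ha] at hH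
  by_cases h0 : a = 0
  · rw [h0, C_0, C_0] at hH
    exact hH.ne_zero rfl
  · exact hH.not_isUnit (Polynomial.isUnit_C.2 (Polynomial.isUnit_C.2 (Ne.isUnit h0)))

open Classical in
private theorem str_cover {k : Type} [Field k] {q A : ℕ} (C : Finset k) (R : Finset (k[X][X]))
    (hR : ∀ r ∈ R, Irreducible r) (hA : ∑ r ∈ R, (dX r + dY r) ≤ A) {η γ : ℝ} (hγ : 0 ≤ γ)
    (h0 : ((C.filter (fun c => ∀ r ∈ R, pt c (c ^ q) r ≠ 0)).card : ℝ) ≤ η)
    (hC : η + A * γ < (C.card : ℝ)) :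
    ∃ r ∈ R, dX r + dY r ≤ A ∧ γ ≤ ((C.filter (fun c => pt c (c ^ q) r = 0)).card : ℝ) := by
  by_contra hcon
  push Not at hcon
  have hle : ∀ r ∈ R, dX r + dY r ≤ A := fun r hr =>
    (Finset.single_le_sum (f := fun r => dX r + dY r) (fun _ _ => Nat.zero_le _) hr).trans hA
  have hcard : R.card ≤ A := by
    calc R.card = ∑ r ∈ R, 1 := by rw [Finset.sum_const, smul_eq_mul, mul_one]
      _ ≤ ∑ r ∈ R, (dX r + dY r) := Finset.sum_le_sum fun r hr => str_deg (hR r hr)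
      _ ≤ A := hA
  have hsub : C ⊆ (C.filter (fun c => ∀ r ∈ R, pt c (c ^ q) r ≠ 0)) ∪
      R.biUnion (fun r => C.filter (fun c => pt c (c ^ q) r = 0)) := by
    intro c hc
    rw [Finset.mem_union, Finset.mem_filter, Finset.mem_biUnion]
    by_cases h : ∀ r ∈ R, pt c (c ^ q) r ≠ 0
    · exact Or.inl ⟨hc, h⟩
    · right
      push Not at h
      obtain ⟨r, hr, h⟩ := h
      exact ⟨r, hr, Finset.mem_filter.2 ⟨hc, h⟩⟩
  have h1 : (C.card : ℝ) ≤ ((C.filter (fun c => ∀ r ∈ R, pt c (c ^ q) r ≠ 0)).card : ℝ) +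
      ∑ r ∈ R, ((C.filter (fun c => pt c (c ^ q) r = 0)).card : ℝ) := by
    have h2 := (Finset.card_le_card hsub).trans
      ((Finset.card_union_le _ _).trans (Nat.add_le_add_left Finset.card_biUnion_le _))
    exact_mod_cast h2
  have h3 : ∑ r ∈ R, ((C.filter (fun c => pt c (c ^ q) r = 0)).card : ℝ) ≤ A * γ := by
    calc ∑ r ∈ R, ((C.filter (fun c => pt c (c ^ q) r = 0)).card : ℝ) ≤ ∑ r ∈ R, γ :=
          Finset.sum_le_sum fun r hr => (hcon r hr (hle r hr)).le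
      _ = R.card * γ := by rw [Finset.sum_const, nsmul_eq_mul]
      _ ≤ A * γ := mul_le_mul_of_nonneg_right (by exact_mod_cast hcard) hγ
  linarith

open Classical in
theorem struct (p d : ℕ) (hp : p.Prime) (hd : 2 ≤ d) (δ : ℝ) (hδ : 0 < δ) :
    ∃ n0 K0 : ℕ, ∀ n ≥ n0, ∀ m : ℕ, m * d = p ^ n + 1 →
      ∀ (k : Type) [Field k] [IsAlgClosed k] [CharP k p] (C : Finset k), Clq (p ^ n) m C →
        δ * (p : ℝ) ^ n ≤ (C.card : ℝ) →
        ∃ H : k[X][X], Irreducible H ∧ dX H = 1 ∧ dY H = 1 ∧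
          (C.filter (fun c => pt c (c ^ p ^ n) H ≠ 0)).card ≤ K0 := by
  by_cases hpd : p ∣ d
  · refine ⟨1, 0, fun n hn m hm => ?_⟩
    exfalso
    have h1 : p ∣ p ^ n + 1 := by rw [← hm]; exact hpd.mul_left m
    have h2 : p ∣ p ^ n := dvd_pow_self p (by omega)
    have h3 : p ∣ 1 := (Nat.dvd_add_right h2).1 h1
    exact hp.one_lt.ne' (Nat.dvd_one.1 h3)
  have hcop : Nat.Coprime p d := (Nat.Prime.coprime_iff_not_dvd hp).2 hpd
  obtain ⟨w, hw⟩ : ∃ w, w = Nat.totient d := ⟨_, rfl⟩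
  have hw1 : 1 ≤ w := by rw [hw]; exact Nat.totient_pos.2 (by omega)
  have hpw : p ^ w ≡ 1 [MOD d] := by rw [hw]; exact Nat.ModEq.pow_totient hcop
  have hπ : d ∣ p ^ w - 1 := (Nat.modEq_iff_dvd' (Nat.one_le_pow _ _ hp.pos)).1 hpw.symm
  have hπ2 : 2 ≤ p ^ w := by
    calc 2 ≤ p := hp.two_le
      _ = p ^ 1 := (pow_one p).symm
      _ ≤ p ^ w := Nat.pow_le_pow_right hp.pos hw1
  obtain ⟨j0, hj0⟩ := exists_pow_lt_of_lt_one (show 0 < δ / 4 by positivity)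
    (show (1 / 2 : ℝ) < 1 by norm_num)
  have key : ∀ L : ℕ, ∃ As : ℕ × ℕ, Num p d L w → ∀ s ≥ As.2, ∀ (k : Type) [Field k] [CharP k p]
      (C : Finset k), Clq (p ^ L * (p ^ w) ^ s) (mm d (p ^ L) (p ^ w) s) C →
      mm d (p ^ L) (p ^ w) (s - j0) + 1 ≤ C.card →
      ∃ R : Finset (k[X][X]), (∀ r ∈ R, Irreducible r) ∧ ∑ r ∈ R, (dX r + dY r) ≤ As.1 ∧
        ((C.filter (fun c => ∀ r ∈ R, pt c (c ^ (p ^ L * (p ^ w) ^ s)) r ≠ 0)).card : ℝ) ≤
          δ / 2 * ((p : ℝ) ^ L * ((p : ℝ) ^ w) ^ s) := by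
    intro L
    by_cases h : Num p d L w
    · obtain ⟨A0, s0, h1⟩ := propB2 h j0 (δ / 2) (by positivity)
      exact ⟨(A0, s0), fun _ => h1⟩
    · exact ⟨(0, 0), fun h1 => absurd h1 h⟩
  choose f hf using key
  obtain ⟨A, hA⟩ : ∃ A, A = (Finset.range w).sup (fun L => (f L).1) := ⟨_, rfl⟩
  obtain ⟨S, hS⟩ : ∃ S, S = (Finset.range w).sup (fun L => (f L).2) := ⟨_, rfl⟩
  obtain ⟨γ, hγ⟩ : ∃ γ : ℝ, γ = δ / (4 * (A + 1)) := ⟨_, rfl⟩
  have hγ0 : 0 < γ := by rw [hγ]; positivity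
  obtain ⟨n2, K0, happ⟩ := appC p d A hp hd γ hγ0
  obtain ⟨N1, hN1⟩ := exists_nat_ge ((8 : ℝ) / δ)
  refine ⟨w * (S + j0 + 1) + n2 + N1 + 1, K0, fun n hn m hmd k _ _ _ C hclq hCδ => ?_⟩
  have hnq : n < p ^ n := Nat.lt_pow_self hp.one_lt
  obtain ⟨q, hq⟩ : ∃ q, q = p ^ n := ⟨_, rfl⟩
  have hqr : (p : ℝ) ^ n = (q : ℝ) := by rw [hq]; push_cast; rfl
  have hq0 : (0 : ℝ) < (q : ℝ) := by exact_mod_cast (show 0 < q by omega)
  have hqN : (8 : ℝ) ≤ δ * q := by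
    have h1 : (N1 : ℝ) ≤ (q : ℝ) := by exact_mod_cast (show N1 ≤ q by omega)
    have h2 : (8 : ℝ) / δ ≤ q := hN1.trans h1
    rw [div_le_iff₀ hδ] at h2
    linarith
  rw [hqr] at hCδ
  -- the decomposition of n
  obtain ⟨L, hL⟩ : ∃ L, L = n % w := ⟨_, rfl⟩
  obtain ⟨s, hs⟩ : ∃ s, s = n / w := ⟨_, rfl⟩
  have hLw : L < w := by rw [hL]; exact Nat.mod_lt _ (by omega)
  have hn2 : n = L + w * s := by rw [hL, hs]; exact (Nat.mod_add_div n w).symm
  have hsS : S + j0 + 1 ≤ s := by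
    rw [hs, Nat.le_div_iff_mul_le (by omega)]
    calc (S + j0 + 1) * w = w * (S + j0 + 1) := Nat.mul_comm _ _
      _ ≤ n := by omega
  have hpn : p ^ L * (p ^ w) ^ s = p ^ n := by rw [← pow_mul, ← pow_add, ← hn2]
  have hmm : mm d (p ^ L) (p ^ w) s = m := by
    unfold mm
    rw [hpn, ← hmd]
    exact Nat.mul_div_cancel _ (by omega)
  have hnum : Num p d L w := by
    refine ⟨hp, hd, hw1, hπ, ?_⟩
    have h1 : p ^ L * (p ^ w) ^ s + 1 ≡ p ^ L + 1 [MOD d] := by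
      have h2 : (p ^ w) ^ s ≡ 1 ^ s [MOD d] := hpw.pow s
      rw [one_pow] at h2
      have h3 : p ^ L * (p ^ w) ^ s ≡ p ^ L * 1 [MOD d] := Nat.ModEq.mul_left _ h2
      rw [mul_one] at h3
      exact h3.add_right 1
    rw [hpn] at h1
    have h4 : p ^ n + 1 ≡ 0 [MOD d] := (Nat.modEq_zero_iff_dvd).2 ⟨m, by rw [← hmd, mul_comm]⟩
    exact (Nat.modEq_zero_iff_dvd).1 (h1.symm.trans h4)
  have hfA : (f L).1 ≤ A := by
    rw [hA]; exact Finset.le_sup (f := fun L => (f L).1) (Finset.mem_range.2 hLw)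
  have hfS : (f L).2 ≤ S := by
    rw [hS]; exact Finset.le_sup (f := fun L => (f L).2) (Finset.mem_range.2 hLw)
  -- the number `mm (s - j0) + 1` is small
  have hsmall : mm d (p ^ L) (p ^ w) (s - j0) + 1 ≤ C.card := by
    have h1 : mm d (p ^ L) (p ^ w) (s - j0) ≤ p ^ L * (p ^ w) ^ (s - j0) + 1 := Nat.div_le_self _ _
    have h2 : (p ^ w) ^ j0 * (p ^ L * (p ^ w) ^ (s - j0)) = q := by
      rw [hq, ← hpn]
      calc (p ^ w) ^ j0 * (p ^ L * (p ^ w) ^ (s - j0))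
          = p ^ L * ((p ^ w) ^ (s - j0) * (p ^ w) ^ j0) := by ring
        _ = p ^ L * (p ^ w) ^ s := by rw [← pow_add, Nat.sub_add_cancel (by omega)]
    obtain ⟨x, hx⟩ : ∃ x, x = p ^ L * (p ^ w) ^ (s - j0) := ⟨_, rfl⟩
    rw [← hx] at h1 h2
    have h3 : 2 ^ j0 * x ≤ q := by
      rw [← h2]
      exact Nat.mul_le_mul_right x (Nat.pow_le_pow_left hπ2 j0)
    have h4 : (2 : ℝ) ^ j0 * x ≤ q := by exact_mod_cast h3
    have h5 : (x : ℝ) ≤ δ / 4 * q := by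
      have h6 : (x : ℝ) = (1 / 2) ^ j0 * (2 ^ j0 * x) := by
        rw [← mul_assoc, ← mul_pow]
        norm_num
      rw [h6]
      exact mul_le_mul hj0.le h4 (by positivity) (by positivity)
    have h7 : ((mm d (p ^ L) (p ^ w) (s - j0) + 1 : ℕ) : ℝ) ≤ (C.card : ℝ) := by
      have h8 : ((mm d (p ^ L) (p ^ w) (s - j0) : ℕ) : ℝ) ≤ (x : ℝ) + 1 := by exact_mod_cast h1
      push_cast
      have h9 : δ / 4 * q = δ * q / 4 := by ring
      linarith
    exact_mod_cast h7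
  obtain ⟨R, hR1, hR2, hR3⟩ := hf L hnum s (by omega) k C
    (by rw [hpn, hmm]; exact hclq) hsmall
  rw [hpn] at hR3
  have hpr : ((p : ℝ) ^ L * ((p : ℝ) ^ w) ^ s) = q := by
    rw [← hqr, ← pow_mul, ← pow_add, ← hn2]
  rw [hpr] at hR3
  have hAγ : (A : ℝ) * (γ * q) ≤ δ / 4 * q := by
    have h1 : (A : ℝ) * γ ≤ δ / 4 := by
      rw [hγ, mul_div_assoc', div_le_div_iff₀ (by positivity) (by norm_num)]
      nlinarith
    calc (A : ℝ) * (γ * q) = A * γ * q := by ring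
      _ ≤ δ / 4 * q := mul_le_mul_of_nonneg_right h1 hq0.le
  have hbig : δ / 2 * q + A * (γ * q) < (C.card : ℝ) := by
    have h2 : 0 < δ * q := by positivity
    have h3 : δ / 4 * q = δ * q / 4 := by ring
    have h4 : δ / 2 * q = δ * q / 2 := by ring
    linarith
  obtain ⟨H, hHR, hHA, hHγ⟩ := str_cover (A := A) C R hR1 (hR2.trans hfA)
    (by positivity : 0 ≤ γ * q) hR3 hbig
  rw [← hqr] at hHγ
  obtain ⟨hX1, hY1, hout⟩ := happ n (by omega) m hmd k C hclq H (hR1 H hHR) hHA hHγ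
  exact ⟨H, hR1 H hHR, hX1, hY1, hout⟩

end GPC
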