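import Pool.Agent.Lib.MP_56e792_co.S.Defs2
import Pool.Agent.Lib.MP_56e792_co.S.Str
import Pool.Agent.Lib.MP_56e792_co.S.Lc1
import Pool.Agent.Lib.MP_56e792_co.S.Cc1
import Pool.Agent.Lib.MP_56e792_co.S.HtF
import Pool.Agent.Lib.MP_56e792_co.S.Col

/-!
# MP_56e792_co, phase 2 (fixed characteristic), module Dns

`struct` with `δ`, `k = AlgebraicClosure F`, `clq_map` (Col.lean): `H`, at most `K0` points of `C` off `H`; `h_to_F` (`δ q - K0 ≥ 3`). `A` = the points of `C` off the curve. Line: two points of `C` on it give `(w^q)^m = w^m` (replace `w` by a multiple: the condition is invariant under factors `t^q = t`); by maximality `C ∩ Z = {v + t w | t^q = t, all conditions of A}` (`adj_iff`, `line_adj`, GP.lean: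
adding such a point gives a clique), `line_count` with `ε/2`. Circle (translate by `o`): for `w ≠ w'` in `C - o` on the circle `(w^q - w'^q)/(w - w') = -ρ/(w w')`, so `(w w')^m = (-ρ)^m`; at least three points: `w^m = τ` is constant; conversely two points with `w^m = τ` are adjacent (`τ^2 = (-ρ)^m`). So `C ∩ Z` is the set of `circ_count` for `A - o`, with `w0` any point of `C ∩ Z`.
`C.card = ncard + A.card`, `A.card ≤ K0 ≤ (ε/2) q`.
-/

set_option autoImplicit false
set_option linter.unusedVariables false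

namespace GPC

open Polynomial
open Pool.Agent.Lib.MP_56e792_co (J mem_J GP)

/-- a point adjacent to all other points of a maximal clique belongs to it -/
private theorem dns_mem {F : Type} [Field F] {d : ℕ} {C : Finset F}
    (hC : Maximal (fun s : Finset F => (GP F d).IsClique (s : Set F)) C) (z : F)
    (h : ∀ c ∈ C, c ≠ z → (GP F d).Adj z c) : z ∈ C := by
  classical
  have h1 : (GP F d).IsClique ((insert z C : Finset F) : Set F) := by
    rw [Finset.coe_insert]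
    exact hC.prop.insert (fun c hc hne => h c hc hne.symm)
  exact hC.le_of_ge h1 (Finset.subset_insert z C) (Finset.mem_insert_self z C)

private theorem dns_circ {F : Type} [Field F] {p e q : ℕ} (hp : p.Prime) (hq : q = p ^ e)
    (hcard : Nat.card F = q ^ 2) {ρ w w' : F} (m : ℕ) (hρ : ρ ≠ 0) (h1 : w ^ q * w = ρ)
    (h2 : w' ^ q * w' = ρ) (hne : w ≠ w') :
    ((w - w') ^ q) ^ m = (w - w') ^ m ↔ w ^ m * w' ^ m = (-ρ) ^ m := by
  have hw : w ≠ 0 := by
    rintro rfl; rw [mul_zero] at h1; exact hρ h1.symm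
  have hw' : w' ≠ 0 := by
    rintro rfl; rw [mul_zero] at h2; exact hρ h2.symm
  have hsub : w - w' ≠ 0 := sub_ne_zero.mpr hne
  have h3 : (w - w') ^ q * (w * w') = -ρ * (w - w') := by
    rw [Pool.Agent.Lib.MP_56e792_co.frob_sub hp hq hcard]
    linear_combination w' * h1 - w * h2
  have h4 : ((w - w') ^ q) ^ m * (w ^ m * w' ^ m) = (-ρ) ^ m * (w - w') ^ m := by
    rw [← mul_pow, ← mul_pow, h3, mul_pow]
  constructor
  · intro h
    rw [h, mul_comm ((-ρ) ^ m)] at h4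
    exact mul_left_cancel₀ (pow_ne_zero m hsub) h4
  · intro h
    rw [h, mul_comm ((-ρ) ^ m)] at h4
    exact mul_right_cancel₀ (pow_ne_zero m (neg_ne_zero.mpr hρ)) h4

private theorem dns_fin {ε q c b a x K0 : ℝ} (h1 : c = b + a) (ha0 : 0 ≤ a) (ha : a ≤ K0)
    (hK : K0 ≤ ε / 2 * q) (h : |b - x| ≤ ε / 2 * q) : |c - x| ≤ ε * q := by
  rw [abs_le] at h ⊢
  constructor <;> nlinarith [h.1, h.2]

/-- the case of a line -/
private theorem dns_line {F : Type} [Field F] {p n m d : ℕ} (hp : p.Prime)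
    (hq1 : 1 < p ^ n) (hcard : Nat.card F = (p ^ n) ^ 2) (hmd : m * d = p ^ n + 1)
    {C : Finset F} (hC : Maximal (fun s : Finset F => (GP F d).IsClique (s : Set F)) C)
    (P : F → Prop) [DecidablePred P] {v w : F} (hw : w ≠ 0)
    (hP : ∀ c : F, P c ↔ ∃ t : F, t ^ p ^ n = t ∧ c = v + t * w)
    (h2 : 2 ≤ (C.filter P).card) :
    (w ^ p ^ n) ^ m = w ^ m ∧
      (∀ a ∈ C.filter (fun c => ¬ P c), ∀ t : F, t ^ p ^ n = t → a ≠ v + t * w) ∧
      (C.filter P).card = Set.ncard {t : F | t ^ p ^ n = t ∧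
        ∀ a ∈ C.filter (fun c => ¬ P c), ((v + t * w - a) ^ p ^ n) ^ m = (v + t * w - a) ^ m} := by
  classical
  have hfrs : ∀ a b : F, (a - b) ^ p ^ n = a ^ p ^ n - b ^ p ^ n := fun a b =>
    Pool.Agent.Lib.MP_56e792_co.frob_sub hp rfl hcard a b
  have hadj : ∀ a b : F, a ≠ b → ((GP F d).Adj a b ↔ ((a - b) ^ p ^ n) ^ m = (a - b) ^ m) :=
    fun a b hab => Pool.Agent.Lib.MP_56e792_co.adj_iff hp rfl hq1 hcard hmd a b hab
  have hwm : (w ^ p ^ n) ^ m = w ^ m := by
    obtain ⟨c1, hc1, c2, hc2, hne⟩ := Finset.one_lt_card.mp (show 1 < (C.filter P).card by omega)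
    rw [Finset.mem_filter] at hc1 hc2
    obtain ⟨t1, ht1, e1⟩ := (hP c1).mp hc1.2
    obtain ⟨t2, ht2, e2⟩ := (hP c2).mp hc2.2
    have h := (hadj c1 c2 hne).mp (hC.prop hc1.1 hc2.1 hne)
    have h3 : c1 - c2 = (t1 - t2) * w := by rw [e1, e2]; ring
    have ht : t1 - t2 ≠ 0 := by
      intro h0
      rw [h0, zero_mul] at h3
      exact hne (sub_eq_zero.mp h3)
    rw [h3, mul_pow, mul_pow, mul_pow, hfrs, ht1, ht2] at h
    exact mul_left_cancel₀ (pow_ne_zero m ht) h
  have hoff : ∀ a ∈ C.filter (fun c => ¬ P c), ∀ t : F, t ^ p ^ n = t → a ≠ v + t * w := by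
    intro a ha t ht he
    exact (Finset.mem_filter.mp ha).2 ((hP a).mpr ⟨t, ht, he⟩)
  refine ⟨hwm, hoff, ?_⟩
  have hset : ((C.filter P : Finset F) : Set F) = (fun t : F => v + t * w) '' {t : F |
      t ^ p ^ n = t ∧ ∀ a ∈ C.filter (fun c => ¬ P c),
        ((v + t * w - a) ^ p ^ n) ^ m = (v + t * w - a) ^ m} := by
    ext z
    simp only [Finset.coe_filter, Set.mem_image, Set.mem_ofPred_eq]
    constructor
    · rintro ⟨hz, hPz⟩
      obtain ⟨t, ht, rfl⟩ := (hP z).mp hPz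
      refine ⟨t, ⟨ht, fun a ha => ?_⟩, rfl⟩
      have hne : v + t * w ≠ a := (hoff a ha t ht).symm
      exact (hadj _ a hne).mp (hC.prop hz (Finset.mem_filter.mp ha).1 hne)
    · rintro ⟨t, ⟨ht, hA⟩, rfl⟩
      refine ⟨dns_mem hC _ fun c hc hne => ?_, (hP _).mpr ⟨t, ht, rfl⟩⟩
      by_cases hPc : P c
      · obtain ⟨s, hs, rfl⟩ := (hP c).mp hPc
        exact Pool.Agent.Lib.MP_56e792_co.line_adj hp rfl hq1 hcard hmd v w hwm t s ht hs hne.symm
      · exact (hadj _ c hne.symm).mpr (hA c (Finset.mem_filter.mpr ⟨hc, hPc⟩))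
  have hinj : Function.Injective (fun t : F => v + t * w) := by
    intro s t hst
    have : s * w = t * w := add_left_cancel hst
    exact mul_right_cancel₀ hw this
  rw [← Set.ncard_coe_finset, hset, Set.ncard_image_of_injective _ hinj]

/-- the case of a circle -/
private theorem dns_circle {F : Type} [Field F] [DecidableEq F] {p n m d : ℕ} (hp : p.Prime)
    (hq1 : 1 < p ^ n) (hcard : Nat.card F = (p ^ n) ^ 2) (hmd : m * d = p ^ n + 1)
    {C : Finset F} (hC : Maximal (fun s : Finset F => (GP F d).IsClique (s : Set F)) C)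
    (P : F → Prop) [DecidablePred P] {o ρ : F} (hρ : ρ ≠ 0)
    (hP : ∀ c : F, P c ↔ (c - o) ^ p ^ n * (c - o) = ρ)
    (h3 : 3 ≤ (C.filter P).card) :
    ∃ τ : F, (∀ a ∈ (C.filter (fun c => ¬ P c)).image (fun c => c - o), a ^ p ^ n * a ≠ ρ) ∧
      (∃ w0 : F, w0 ^ p ^ n * w0 = ρ ∧ w0 ^ m = τ ∧
        ∀ a ∈ (C.filter (fun c => ¬ P c)).image (fun c => c - o),
          ((w0 - a) ^ p ^ n) ^ m = (w0 - a) ^ m) ∧
      (C.filter P).card = Set.ncard {w : F | w ^ p ^ n * w = ρ ∧ w ^ m = τ ∧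
        ∀ a ∈ (C.filter (fun c => ¬ P c)).image (fun c => c - o),
          ((w - a) ^ p ^ n) ^ m = (w - a) ^ m} := by
  classical
  have hadj : ∀ a b : F, a ≠ b → ((GP F d).Adj a b ↔ ((a - b) ^ p ^ n) ^ m = (a - b) ^ m) :=
    fun a b hab => Pool.Agent.Lib.MP_56e792_co.adj_iff hp rfl hq1 hcard hmd a b hab
  have hpair : ∀ w w' : F, w ^ p ^ n * w = ρ → w' ^ p ^ n * w' = ρ → w ≠ w' →
      (((w - w') ^ p ^ n) ^ m = (w - w') ^ m ↔ w ^ m * w' ^ m = (-ρ) ^ m) :=
    fun w w' h1 h2 hne => dns_circ hp rfl hcard m hρ h1 h2 hne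
  have hnz : ∀ w : F, w ^ p ^ n * w = ρ → w ^ m ≠ 0 := by
    intro w hw
    apply pow_ne_zero
    rintro rfl
    rw [mul_zero] at hw
    exact hρ hw.symm
  -- points of the clique on the circle
  have hcc : ∀ c ∈ C.filter P, ∀ c' ∈ C.filter P, c ≠ c' →
      (c - o) ^ m * (c' - o) ^ m = (-ρ) ^ m := by
    intro c hc c' hc' hne
    rw [Finset.mem_filter] at hc hc'
    have h1 := (hadj c c' hne).mp (hC.prop hc.1 hc'.1 hne)
    have h2 : c - c' = (c - o) - (c' - o) := by ring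
    rw [h2] at h1
    exact (hpair _ _ ((hP c).mp hc.2) ((hP c').mp hc'.2)
      (fun h => hne (sub_left_injective h))).mp h1
  obtain ⟨c0, hc0⟩ := Finset.card_pos.mp (show 0 < (C.filter P).card by omega)
  have hτ : ∀ c ∈ C.filter P, (c - o) ^ m = (c0 - o) ^ m := by
    intro c hc
    by_cases hcc0 : c = c0
    · rw [hcc0]
    · obtain ⟨c2, hc2⟩ := Finset.card_pos.mp (show 0 < (((C.filter P).erase c0).erase c).card by
        rw [Finset.card_erase_of_mem (Finset.mem_erase.mpr ⟨hcc0, hc⟩),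
          Finset.card_erase_of_mem hc0]
        omega)
      rw [Finset.mem_erase, Finset.mem_erase] at hc2
      have h1 := hcc c hc c2 hc2.2.2 hc2.1.symm
      have h2 := hcc c0 hc0 c2 hc2.2.2 hc2.2.1.symm
      have h4 : (c2 - o) ^ m ≠ 0 := hnz _ ((hP c2).mp (Finset.mem_filter.mp hc2.2.2).2)
      exact mul_right_cancel₀ h4 (h1.trans h2.symm)
  have hτ2 : (c0 - o) ^ m * (c0 - o) ^ m = (-ρ) ^ m := by
    obtain ⟨c2, hc2⟩ := Finset.card_pos.mp (show 0 < ((C.filter P).erase c0).card by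
      rw [Finset.card_erase_of_mem hc0]
      omega)
    rw [Finset.mem_erase] at hc2
    have h1 := hcc c0 hc0 c2 hc2.2 hc2.1.symm
    rw [hτ c2 hc2.2] at h1
    exact h1
  have hA1 : ∀ a ∈ (C.filter (fun c => ¬ P c)).image (fun c => c - o), a ^ p ^ n * a ≠ ρ := by
    intro a ha he
    obtain ⟨c, hc, rfl⟩ := Finset.mem_image.mp ha
    exact (Finset.mem_filter.mp hc).2 ((hP c).mpr he)
  have hfwd : ∀ c ∈ C.filter P, ∀ a ∈ (C.filter (fun c => ¬ P c)).image (fun c => c - o),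
      ((c - o - a) ^ p ^ n) ^ m = (c - o - a) ^ m := by
    intro c hc a ha
    obtain ⟨b, hb, rfl⟩ := Finset.mem_image.mp ha
    have hne : c ≠ b := by
      rintro rfl
      exact (Finset.mem_filter.mp hb).2 (Finset.mem_filter.mp hc).2
    have h1 := (hadj c b hne).mp (hC.prop (Finset.mem_filter.mp hc).1
      (Finset.mem_filter.mp hb).1 hne)
    have h2 : c - o - (b - o) = c - b := by ring
    simp only [h2]
    exact h1
  refine ⟨(c0 - o) ^ m, hA1, ⟨c0 - o, (hP c0).mp (Finset.mem_filter.mp hc0).2, rfl,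
    hfwd c0 hc0⟩, ?_⟩
  have hset : ((C.filter P : Finset F) : Set F) = (fun w : F => w + o) '' {w : F |
      w ^ p ^ n * w = ρ ∧ w ^ m = (c0 - o) ^ m ∧
        ∀ a ∈ (C.filter (fun c => ¬ P c)).image (fun c => c - o),
          ((w - a) ^ p ^ n) ^ m = (w - a) ^ m} := by
    ext z
    rw [Finset.mem_coe]
    simp only [Set.mem_image, Set.mem_ofPred_eq]
    constructor
    · intro hz
      exact ⟨z - o, ⟨(hP z).mp (Finset.mem_filter.mp hz).2, hτ z hz, hfwd z hz⟩, by ring⟩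
    · rintro ⟨w, ⟨hw1, hw2, hA⟩, rfl⟩
      have hPw : P (w + o) := by
        rw [hP, add_sub_cancel_right]
        exact hw1
      refine Finset.mem_filter.mpr ⟨dns_mem hC _ fun c hc hne => ?_, hPw⟩
      rw [hadj _ c hne.symm]
      have h2 : w + o - c = w - (c - o) := by ring
      rw [h2]
      by_cases hPc : P c
      · have hne' : w ≠ c - o := by
          intro h
          apply hne
          rw [h]; ring
        rw [hpair w (c - o) hw1 ((hP c).mp hPc) hne', hw2,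
          hτ c (Finset.mem_filter.mpr ⟨hc, hPc⟩)]
        exact hτ2
      · exact hA (c - o) (Finset.mem_image.mpr ⟨c, Finset.mem_filter.mpr ⟨hc, hPc⟩, rfl⟩)
  rw [← Set.ncard_coe_finset, hset, Set.ncard_image_of_injective _ (add_left_injective o)]

theorem dens (p d : ℕ) (hp : p.Prime) (hd : 2 ≤ d) (δ ε : ℝ) (hδ : 0 < δ) (hε : 0 < ε) :
    ∃ n0 : ℕ, ∀ n ≥ n0, d ∣ p ^ n + 1 → ∀ (F : Type) [Field F], Nat.card F = (p ^ n) ^ 2 →
      ∀ C : Finset F, Maximal (fun s : Finset F => (GP F d).IsClique (s : Set F)) C →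
        δ * (p : ℝ) ^ n ≤ (C.card : ℝ) →
        ∃ j : ℕ, |(C.card : ℝ) - (1 / (d : ℝ)) ^ j * (p : ℝ) ^ n| ≤ ε * (p : ℝ) ^ n := by
  classical
  obtain ⟨n1, K0, hstr⟩ := struct p d hp hd δ hδ
  obtain ⟨n2, hline⟩ := line_count p d K0 hp hd (ε / 2) (by positivity)
  obtain ⟨n3, hcirc⟩ := circ_count p d K0 hp hd (ε / 2) (by positivity)
  have hp1 : (1 : ℝ) < p := by exact_mod_cast hp.one_lt
  obtain ⟨n4, hn4⟩ : ∃ n4 : ℕ, ∀ n ≥ n4, (K0 + 3) / δ + K0 / (ε / 2) ≤ (p : ℝ) ^ n := by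
    have h := tendsto_pow_atTop_atTop_of_one_lt hp1
    have h2 := Filter.tendsto_atTop.mp h ((K0 + 3) / δ + K0 / (ε / 2))
    exact Filter.eventually_atTop.mp h2
  refine ⟨n1 + n2 + n3 + n4 + 1, ?_⟩
  intro n hn hdvd F _ hcard C hC hsize
  obtain ⟨m, hm⟩ := hdvd
  have hmd : m * d = p ^ n + 1 := by rw [hm, mul_comm]
  have hn1 : 1 ≤ n := by omega
  have hq1 : 1 < p ^ n := Nat.one_lt_pow (by omega) hp.one_lt
  obtain ⟨hFin, hchar⟩ := Pool.Agent.Lib.MP_56e792_co.char_of_card hp rfl hcard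
  have hbig := hn4 n (by omega)
  have hK1 : (K0 : ℝ) + 3 ≤ δ * (p : ℝ) ^ n := by
    have h0 : (K0 + 3 : ℝ) / δ ≤ (p : ℝ) ^ n := by
      have : (0 : ℝ) ≤ K0 / (ε / 2) := by positivity
      linarith
    rwa [div_le_iff₀' hδ] at h0
  have hK2 : (K0 : ℝ) ≤ ε / 2 * (p : ℝ) ^ n := by
    have h0 : (K0 : ℝ) / (ε / 2) ≤ (p : ℝ) ^ n := by
      have : (0 : ℝ) ≤ (K0 + 3) / δ := by positivity
      linarith
    rwa [div_le_iff₀' (by positivity)] at h0
  -- the curve
  let i : F →+* AlgebraicClosure F := algebraMap F (AlgebraicClosure F)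
  have hClq : Clq (p ^ n) m (C.image i) :=
    clq_map hp hn1 rfl hcard hmd C hC.prop i
  have hcardi : (C.image i).card = C.card :=
    Finset.card_image_of_injective _ i.injective
  obtain ⟨H, hH, hH1, hH2, hHK⟩ := hstr n (by omega) m hmd (AlgebraicClosure F) (C.image i) hClq
    (by rw [hcardi]; exact hsize)
  set P : F → Prop := fun c => pt (i c) ((i c) ^ p ^ n) H = 0 with hPdef
  have hAK : (C.filter (fun c => ¬ P c)).card ≤ K0 := by
    refine le_trans (le_of_eq ?_) hHK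
    rw [Finset.filter_image, Finset.card_image_of_injective _ i.injective]
  have hsum : (C.filter P).card + (C.filter (fun c => ¬ P c)).card = C.card :=
    Finset.card_filter_add_card_filter_not P
  have hsumR : (C.card : ℝ) = ((C.filter P).card : ℝ) + ((C.filter (fun c => ¬ P c)).card : ℝ) := by
    exact_mod_cast hsum.symm
  have hAKR : ((C.filter (fun c => ¬ P c)).card : ℝ) ≤ K0 := by exact_mod_cast hAK
  have h3 : 3 ≤ (C.filter P).card := by
    have h : (3 : ℝ) ≤ ((C.filter P).card : ℝ) := by linarith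
    exact_mod_cast h
  have h3' : 3 ≤ Set.ncard {c : F | pt (i c) ((i c) ^ p ^ n) H = 0} := by
    refine le_trans h3 ?_
    rw [← Set.ncard_coe_finset]
    apply Set.ncard_le_ncard _ (Set.toFinite _)
    intro c hc
    rw [Finset.mem_coe, Finset.mem_filter] at hc
    exact hc.2
  rcases h_to_F i hp hn1 hcard hH hH1 hH2 h3' with ⟨v, w, hw, hvw⟩ | ⟨o, ρ, hρ, hρq, hoρ⟩
  · obtain ⟨hwm, hoff, hcnt⟩ := dns_line hp hq1 hcard hmd hC P hw hvw (by omega)
    obtain ⟨j, hj⟩ := hline n (by omega) m hmd F hcard v w hw hwm _ hAK hoff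
    rw [← hcnt] at hj
    exact ⟨j, dns_fin hsumR (by positivity) hAKR hK2 hj⟩
  · obtain ⟨τ, hA1, hw0, hcnt⟩ := dns_circle hp hq1 hcard hmd hC P hρ hoρ h3
    obtain ⟨j, hj⟩ := hcirc n (by omega) m hmd F hcard ρ τ hρ hρq _
      (le_trans Finset.card_image_le hAK) hA1 hw0
    rw [← hcnt] at hj
    exact ⟨j, dns_fin hsumR (by positivity) hAKR hK2 hj⟩

end GPC
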