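import Pool.Agent.Lib.MP_56e792_co.S.Defs2
import Pool.Agent.Lib.MP_56e792_co.S.Str
import Pool.Agent.Lib.MP_56e792_co.S.Lc0
import Pool.Agent.Lib.MP_56e792_co.S.HtF
import Pool.Agent.Lib.MP_56e792_co.S.Col

/-!
# MP_56e792_co, phase 2 (fixed characteristic), module Exi

`F_q = {t | t^q = t}` is the line `v = 0`, `w = 1`. Choose `θ ∈ F` with `θ^q ≠ θ` and `t_1..t_j ∈ F_q` distinct with `θ^q + t_i ≠ θ + t_l` for all `i, l` (greedy; `q` large); `A = {θ + t_i}`: pairwise adjacent (differences in `F_q`). `S = {t ∈ F_q | adjacent to all of A}`: `|S| = q/d^j + O(ε' q)` (`line_count0`, `adj_iff`). `S ∪ A` is a clique; let `C` be a maximal clique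
containing it (`F` finite; `Finset.exists_le_maximal` or `exists_maximal`). `struct` with `δ = 1/(2 d^j)`: `H`, all but `K0` points of `C` on it; `h_to_F`: a line or a circle containing at least `3` points of `S ⊆ F_q`, so it is the line `F_q` (a circle meets `F_q` in at most 2 points, another line in at most 1). So `C \ F_q` has at most `K0` points and `C ∩ F_q ⊆ S`: `|S| ≤ |C| ≤ |S| + K0`.
-/

set_option autoImplicit false
set_option linter.unusedVariables false

namespace GPC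

open Polynomial
open Pool.Agent.Lib.MP_56e792_co (J mem_J GP adj_iff line_adj card_fixed frob_frob frob_sub)

open Classical in
private theorem exi_T {F : Type} [Field F] {q : ℕ} (hq1 : 1 < q) (hcard : Nat.card F = q ^ 2)
    (e : F) (he : e ≠ 0) (j : ℕ) : 3 * j < q →
    ∃ T : Finset F, T.card = j ∧ (∀ t ∈ T, t ^ q = t) ∧ ∀ s ∈ T, ∀ t ∈ T, s - t ≠ e := by
  induction j with
  | zero => exact fun _ => ⟨∅, rfl, by simp, by simp⟩
  | succ j ih =>
    intro hj
    obtain ⟨T, hT1, hT2, hT3⟩ := ih (by omega)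
    have hFin : Finite F := Nat.finite_of_card_ne_zero (by rw [hcard]; exact pow_ne_zero _ (by omega))
    have hfin : {t : F | t ^ q = t}.Finite := Set.toFinite _
    have hU : hfin.toFinset.card = q := by
      rw [← Set.ncard_eq_toFinset_card _ hfin]
      exact card_fixed hq1 hcard
    set R : Finset F := T ∪ (T.image (fun t => t + e) ∪ T.image (fun t => t - e)) with hR
    have hRc : R.card < hfin.toFinset.card := by
      have h1 : R.card ≤ T.card + ((T.image (fun t => t + e)).card +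
          (T.image (fun t => t - e)).card) :=
        (Finset.card_union_le _ _).trans (Nat.add_le_add_left (Finset.card_union_le _ _) _)
      have h2 : (T.image (fun t => t + e)).card ≤ T.card := Finset.card_image_le
      have h3 : (T.image (fun t => t - e)).card ≤ T.card := Finset.card_image_le
      omega
    obtain ⟨t, ht, htR⟩ := Finset.exists_mem_notMem_of_card_lt_card hRc
    rw [Set.Finite.mem_toFinset] at ht
    have ht' : t ^ q = t := ht
    rw [hR, Finset.mem_union, Finset.mem_union, Finset.mem_image, Finset.mem_image] at htR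
    push Not at htR
    obtain ⟨h1, h2, h3⟩ := htR
    refine ⟨insert t T, by rw [Finset.card_insert_of_notMem h1, hT1], ?_, ?_⟩
    · intro s hs
      rcases Finset.mem_insert.1 hs with rfl | hs
      · exact ht'
      · exact hT2 s hs
    · intro s hs u hu
      rcases Finset.mem_insert.1 hs with hs' | hs' <;>
        rcases Finset.mem_insert.1 hu with hu' | hu'
      · rw [hs', hu', sub_self]
        exact he.symm
      · rw [hs']
        intro h
        exact h2 u hu' (by rw [← h]; ring)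
      · rw [hu']
        intro h
        exact h3 s hs' (by rw [← h]; ring)
      · exact hT3 s hs' u hu'

private theorem exi_theta {F : Type} [Field F] {q : ℕ} (hq1 : 1 < q)
    (hcard : Nat.card F = q ^ 2) : ∃ θ : F, θ ^ q ≠ θ := by
  by_contra hcon
  push Not at hcon
  have h1 : {t : F | t ^ q = t} = Set.univ := by
    ext t
    simp [hcon t]
  have h2 := card_fixed (F := F) hq1 hcard
  rw [h1, Set.ncard_univ, hcard] at h2
  nlinarith

/-- a line or a circle with three points of `F_q` lies in `F_q` -/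
private theorem exi_line {F : Type} [Field F] {p e q : ℕ} (hp : p.Prime) (hq : q = p ^ e)
    (hcard : Nat.card F = q ^ 2) (Z : Set F)
    (hZ : (∃ v w : F, w ≠ 0 ∧ ∀ c : F, c ∈ Z ↔ ∃ t : F, t ^ q = t ∧ c = v + t * w) ∨
      ∃ o ρ : F, ρ ≠ 0 ∧ ρ ^ q = ρ ∧ ∀ c : F, c ∈ Z ↔ (c - o) ^ q * (c - o) = ρ)
    (G : Finset F) (hG : 3 ≤ G.card) (hGZ : ∀ c ∈ G, c ∈ Z) (hGq : ∀ c ∈ G, c ^ q = c)
    (c : F) (hc : c ∈ Z) : c ^ q = c := by
  classical
  rcases hZ with ⟨v, w, hw, h⟩ | ⟨o, ρ, -, -, h⟩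
  · obtain ⟨s1, hs1, s2, hs2, hne⟩ := Finset.one_lt_card.1 (show 1 < G.card by omega)
    obtain ⟨t1, ht1, e1⟩ := (h s1).1 (hGZ s1 hs1)
    obtain ⟨t2, ht2, e2⟩ := (h s2).1 (hGZ s2 hs2)
    obtain ⟨t, ht, e3⟩ := (h c).1 hc
    have htt : t2 - t1 ≠ 0 := by
      intro h0
      apply hne
      rw [e1, e2, sub_eq_zero.1 h0]
    have h1 : c - s1 = (t - t1) / (t2 - t1) * (s2 - s1) := by
      rw [e1, e2, e3]
      field_simp
      ring
    have h2 : (c - s1) ^ q = c - s1 := by
      rw [h1, mul_pow, div_pow, frob_sub hp hq hcard, frob_sub hp hq hcard,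
        frob_sub hp hq hcard, ht, ht1, ht2, hGq s1 hs1, hGq s2 hs2]
    rw [frob_sub hp hq hcard, hGq s1 hs1] at h2
    exact sub_left_injective h2
  · exfalso
    obtain ⟨s1, hs1, s2, hs2, s3, hs3, h12, h13, h23⟩ := Finset.two_lt_card.1
      (show 2 < G.card by omega)
    have e1 := (h s1).1 (hGZ s1 hs1)
    have e2 := (h s2).1 (hGZ s2 hs2)
    have e3 := (h s3).1 (hGZ s3 hs3)
    rw [frob_sub hp hq hcard, hGq s1 hs1] at e1
    rw [frob_sub hp hq hcard, hGq s2 hs2] at e2
    rw [frob_sub hp hq hcard, hGq s3 hs3] at e3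
    have f1 : (s1 - s2) * (s1 + s2 - o - o ^ q) = 0 := by linear_combination e1 - e2
    have f2 : (s1 - s3) * (s1 + s3 - o - o ^ q) = 0 := by linear_combination e1 - e3
    have g1 := (mul_eq_zero.1 f1).resolve_left (sub_ne_zero.2 h12)
    have g2 := (mul_eq_zero.1 f2).resolve_left (sub_ne_zero.2 h13)
    apply h23
    linear_combination g1 - g2

theorem exis (p d j : ℕ) (hp : p.Prime) (hd : 2 ≤ d) (ε : ℝ) (hε : 0 < ε) :
    ∃ n0 : ℕ, ∀ n ≥ n0, d ∣ p ^ n + 1 → ∀ (F : Type) [Field F], Nat.card F = (p ^ n) ^ 2 →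
      ∃ C : Finset F, Maximal (fun s : Finset F => (GP F d).IsClique (s : Set F)) C ∧
        |(C.card : ℝ) - (1 / (d : ℝ)) ^ j * (p : ℝ) ^ n| ≤ ε * (p : ℝ) ^ n := by
  classical
  have hd0 : (0 : ℝ) < (d : ℝ) := by exact_mod_cast (show 0 < d by omega)
  obtain ⟨δ, hδ⟩ : ∃ δ : ℝ, δ = (1 / (d : ℝ)) ^ j / 2 := ⟨_, rfl⟩
  have hδ0 : 0 < δ := by rw [hδ]; positivity
  obtain ⟨ε', hε'⟩ : ∃ ε' : ℝ, ε' = min (ε / 2) (δ / 2) := ⟨_, rfl⟩
  have hε'0 : 0 < ε' := by rw [hε']; exact lt_min (by positivity) (by positivity)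
  have hε'1 : ε' ≤ ε / 2 := by rw [hε']; exact min_le_left _ _
  have hε'2 : ε' ≤ δ / 2 := by rw [hε']; exact min_le_right _ _
  obtain ⟨nS, K0, hstr⟩ := struct p d hp hd δ hδ0
  obtain ⟨n1, hcnt⟩ := line_count0 p d j hp hd ε' hε'0
  obtain ⟨N1, hN1⟩ := exists_nat_ge ((K0 + 3 : ℝ) / δ)
  obtain ⟨N2, hN2⟩ := exists_nat_ge (2 * (K0 : ℝ) / ε)
  refine ⟨nS + n1 + N1 + N2 + 3 * j + 1, fun n hn hdvd F _ hcard => ?_⟩
  have hnq : n < p ^ n := Nat.lt_pow_self hp.one_lt
  obtain ⟨q, hq⟩ : ∃ q, q = p ^ n := ⟨_, rfl⟩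
  have hqr : (p : ℝ) ^ n = (q : ℝ) := by rw [hq]; push_cast; rfl
  have hq1 : 1 < q := by rw [hq]; omega
  have hq0 : (0 : ℝ) < (q : ℝ) := by exact_mod_cast (show 0 < q by omega)
  have hqK : (K0 + 3 : ℝ) ≤ δ * q := by
    have h1 : (N1 : ℝ) ≤ (q : ℝ) := by exact_mod_cast (show N1 ≤ q by omega)
    have h2 : (K0 + 3 : ℝ) / δ ≤ q := hN1.trans h1
    rw [div_le_iff₀ hδ0] at h2
    linarith
  have hqK2 : (K0 : ℝ) ≤ ε / 2 * q := by
    have h1 : (N2 : ℝ) ≤ (q : ℝ) := by exact_mod_cast (show N2 ≤ q by omega)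
    have h2 : 2 * (K0 : ℝ) / ε ≤ q := hN2.trans h1
    rw [div_le_iff₀ hε] at h2
    linarith
  obtain ⟨m, hm⟩ := hdvd
  have hmd' : m * d = p ^ n + 1 := by rw [hm, mul_comm]
  have hmd : m * d = q + 1 := by rw [hq]; exact hmd'
  have hcard' : Nat.card F = q ^ 2 := by rw [hq]; exact hcard
  have hFin : Finite F := Nat.finite_of_card_ne_zero (by rw [hcard']; exact pow_ne_zero _ (by omega))
  have := Fintype.ofFinite F
  rw [hqr]
  -- the points outside of the line
  obtain ⟨θ, hθ⟩ := exi_theta (F := F) hq1 hcard'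
  obtain ⟨T, hTc, hTq, hTe⟩ := exi_T hq1 hcard' (θ ^ q - θ) (sub_ne_zero.2 hθ) j (by omega)
  obtain ⟨A, hA⟩ : ∃ A : Finset F, A = T.image (fun t => θ + t) := ⟨_, rfl⟩
  have hAc : A.card = j := by
    rw [hA, Finset.card_image_of_injective _ (add_right_injective θ), hTc]
  have hadd : ∀ t : F, t ^ q = t → (θ + t) ^ q = θ ^ q + t := by
    intro t ht
    have h1 := frob_sub hp hq hcard' (θ + t) t
    rw [add_sub_cancel_right, ht] at h1
    rw [h1]
    ring
  have hAq : ∀ a ∈ A, a ^ q ≠ a := by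
    intro a ha
    rw [hA] at ha
    obtain ⟨t, ht, rfl⟩ := Finset.mem_image.1 ha
    rw [hadd t (hTq t ht)]
    intro h
    exact hθ (add_right_cancel h)
  have hAA : ∀ a ∈ A, ∀ b ∈ A, ((a - 0) / 1) ^ p ^ n ≠ (b - 0) / 1 := by
    intro a ha b hb
    rw [hA] at ha hb
    obtain ⟨s, hs, rfl⟩ := Finset.mem_image.1 ha
    obtain ⟨t, ht, rfl⟩ := Finset.mem_image.1 hb
    rw [sub_zero, sub_zero, div_one, div_one, ← hq, hadd s (hTq s hs)]
    intro h
    exact hTe t ht s hs (by linear_combination -h)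
  -- the part of the line
  obtain ⟨S, hS⟩ : ∃ S : Finset F, S = Finset.univ.filter
    (fun t : F => t ^ q = t ∧ ∀ a ∈ A, ((t - a) ^ q) ^ m = (t - a) ^ m) := ⟨_, rfl⟩
  have hSc : |(S.card : ℝ) - (1 / (d : ℝ)) ^ j * q| ≤ ε' * q := by
    have h1 := hcnt n (by omega) m hmd' F hcard 0 1 one_ne_zero (by simp) A (by omega) hAA
    rw [hAc, hqr] at h1
    have h2 : {t : F | t ^ p ^ n = t ∧
        ∀ a ∈ A, ((0 + t * 1 - a) ^ p ^ n) ^ m = (0 + t * 1 - a) ^ m} = (S : Set F) := by
      rw [hS, ← hq]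
      ext t
      simp
    rw [h2, Set.ncard_coe_finset] at h1
    exact h1
  obtain ⟨hSlo, hSup⟩ := abs_le.1 hSc
  have hpow : (1 / (d : ℝ)) ^ j = 2 * δ := by rw [hδ]; ring
  rw [hpow] at hSlo hSup ⊢
  have hεq : ε' * q ≤ δ / 2 * q := mul_le_mul_of_nonneg_right hε'2 hq0.le
  have hSδ : δ * q + δ / 2 * q ≤ S.card := by linarith
  -- the clique
  have hcl : (GP F d).IsClique ((S ∪ A : Finset F) : Set F) := by
    intro x hx y hy hxy
    rw [Finset.mem_coe, Finset.mem_union] at hx hy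
    have hSA : ∀ x ∈ S, ∀ y ∈ A, x ≠ y → (GP F d).Adj x y := by
      intro x hx y hy hxy
      rw [hS, Finset.mem_filter] at hx
      exact (adj_iff hp hq hq1 hcard' hmd x y hxy).2 (hx.2.2 y hy)
    rcases hx with hx | hx <;> rcases hy with hy | hy
    · rw [hS, Finset.mem_filter] at hx hy
      have h1 := line_adj hp hq hq1 hcard' hmd (0 : F) 1 (by simp) x y hx.2.1 hy.2.1
        (by simpa using hxy)
      simpa using h1
    · exact hSA x hx y hy hxy
    · exact (hSA y hy x hx hxy.symm).symm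
    · rw [hA] at hx hy
      obtain ⟨s, hs, rfl⟩ := Finset.mem_image.1 hx
      obtain ⟨t, ht, rfl⟩ := Finset.mem_image.1 hy
      have h1 := line_adj hp hq hq1 hcard' hmd θ 1 (by simp) s t (hTq s hs) (hTq t ht)
        (by simpa using hxy)
      simpa using h1
  obtain ⟨C, hSC, hC⟩ := Finite.exists_le_maximal
    (p := fun s : Finset F => (GP F d).IsClique (s : Set F)) hcl
  refine ⟨C, hC, ?_⟩
  have hSC1 : S ⊆ C := fun x hx => hSC (Finset.mem_union_left _ hx)
  have hAC : A ⊆ C := fun x hx => hSC (Finset.mem_union_right _ hx)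
  have hcardSC : S.card ≤ C.card := Finset.card_le_card hSC1
  -- the structure theorem
  have hchar := (Pool.Agent.Lib.MP_56e792_co.char_of_card (F := F) hp (q := p ^ n) (e := n)
    rfl hcard).2
  obtain ⟨i, hi⟩ : ∃ i : F →+* AlgebraicClosure F, i = algebraMap F (AlgebraicClosure F) :=
    ⟨_, rfl⟩
  have hinj : Function.Injective i := i.injective
  have hchark : CharP (AlgebraicClosure F) p := charP_of_injective_ringHom hinj p
  have hclq : Clq (p ^ n) m (C.image i) :=
    clq_map hp (by omega) rfl hcard hmd' C hC.prop i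
  have hcardC : (C.image i).card = C.card := Finset.card_image_of_injective _ hinj
  obtain ⟨H, hH, hH1, hH2, hH3⟩ := hstr n (by omega) m hmd' (AlgebraicClosure F) (C.image i)
    hclq (by
      rw [hcardC, hqr]
      have h1 : (S.card : ℝ) ≤ C.card := by exact_mod_cast hcardSC
      have h2 : 0 ≤ δ / 2 * q := by positivity
      linarith)
  have hbad : ∀ B : Finset F, (∀ c ∈ B, c ∈ C ∧ pt (i c) ((i c) ^ p ^ n) H ≠ 0) →
      B.card ≤ K0 := by
    intro B hB
    refine le_trans ?_ hH3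
    rw [← Finset.card_image_of_injective B hinj]
    apply Finset.card_le_card
    intro x hx
    obtain ⟨c, hc, rfl⟩ := Finset.mem_image.1 hx
    rw [Finset.mem_filter]
    exact ⟨Finset.mem_image_of_mem i (hB c hc).1, (hB c hc).2⟩
  obtain ⟨Z, hZ⟩ : ∃ Z : Set F, Z = {c : F | pt (i c) ((i c) ^ p ^ n) H = 0} := ⟨_, rfl⟩
  obtain ⟨G, hG⟩ : ∃ G : Finset F, G = S.filter (fun c => c ∈ Z) := ⟨_, rfl⟩
  have hG3 : 3 ≤ G.card := by
    have h1 := Finset.card_filter_add_card_filter_not (s := S) (fun c => c ∈ Z)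
    have h2 : (S.filter (fun c => ¬ c ∈ Z)).card ≤ K0 := by
      apply hbad
      intro c hc
      rw [Finset.mem_filter, hZ] at hc
      exact ⟨hSC1 hc.1, hc.2⟩
    have h3 : K0 + 3 ≤ S.card := by
      have h4 : ((K0 + 3 : ℕ) : ℝ) ≤ S.card := by
        push_cast
        have h5 : 0 ≤ δ / 2 * q := by positivity
        linarith
      exact_mod_cast h4
    rw [hG]
    omega
  have hGZ : ∀ c ∈ G, c ∈ Z := by
    intro c hc
    rw [hG, Finset.mem_filter] at hc
    exact hc.2
  have hGq : ∀ c ∈ G, c ^ q = c := by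
    intro c hc
    rw [hG, Finset.mem_filter, hS, Finset.mem_filter] at hc
    exact hc.1.2.1
  have hZ3 : 3 ≤ Set.ncard {c : F | pt (i c) ((i c) ^ p ^ n) H = 0} := by
    rw [← hZ]
    refine hG3.trans ?_
    rw [← Set.ncard_coe_finset]
    exact Set.ncard_le_ncard (fun c hc => hGZ c hc) (Set.toFinite _)
  have hline := h_to_F i hp (by omega) hcard hH hH1 hH2 hZ3
  have hZq : ∀ c ∈ Z, c ^ q = c := by
    apply exi_line hp hq hcard' Z ?_ G hG3 hGZ hGq
    rw [hZ, hq]
    exact hline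
  have hup : C.card ≤ S.card + K0 := by
    have h1 := Finset.card_filter_add_card_filter_not (s := C) (fun c => c ^ q = c)
    have h2 : (C.filter (fun c => ¬ c ^ q = c)).card ≤ K0 := by
      apply hbad
      intro c hc
      rw [Finset.mem_filter] at hc
      refine ⟨hc.1, fun h => hc.2 (hZq c ?_)⟩
      rw [hZ]
      exact h
    have h3 : (C.filter (fun c => c ^ q = c)).card ≤ S.card := by
      apply Finset.card_le_card
      intro c hc
      rw [Finset.mem_filter] at hc
      rw [hS, Finset.mem_filter]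
      refine ⟨Finset.mem_univ _, hc.2, fun a ha => ?_⟩
      have hca : c ≠ a := by
        rintro rfl
        exact hAq c ha hc.2
      exact (adj_iff hp hq hq1 hcard' hmd c a hca).1 (hC.prop hc.1 (hAC ha) hca)
    omega
  have h1 : (S.card : ℝ) ≤ C.card := by exact_mod_cast hcardSC
  have h2 : (C.card : ℝ) ≤ S.card + K0 := by exact_mod_cast hup
  have h3 : ε' * q ≤ ε / 2 * q := mul_le_mul_of_nonneg_right hε'1 hq0.le
  have h4 : ε * q = ε / 2 * q + ε / 2 * q := by ring
  rw [abs_le]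
  constructor <;> nlinarith [h1, h2, h3, h4, hSlo, hSup]

end GPC
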