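import Pool.Agent.Lib.MP_56e792_co.S.Dns
import Pool.Agent.Lib.MP_56e792_co.S.Exi

/-!
# MP_56e792_co, fixed characteristic: limit points (helper57)

`lim_p` and `ex_p`: the set of limit points along the powers of a prime `p` is `{0} ∪ {1 / d ^ j}`.
-/

set_option autoImplicit false

namespace GPC

open Polynomial
open Pool.Agent.Lib.MP_56e792_co (J mem_J GP)

/-- the powers `1 / d ^ j` are isolated from every positive number which is not one of them -/
private theorem fcl_gap (d : ℕ) (hd : 2 ≤ d) (x : ℝ) (hx : 0 < x)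
    (hne : ∀ j : ℕ, x ≠ 1 / (d : ℝ) ^ j) :
    ∃ ε : ℝ, 0 < ε ∧ ∀ j : ℕ, 2 * ε < |x - (1 / (d : ℝ)) ^ j| := by
  have hd1 : (1 : ℝ) < (d : ℝ) := by exact_mod_cast (show 1 < d by omega)
  have hr1 : (1 / (d : ℝ)) < 1 := by
    rw [div_lt_one (by linarith)]; exact hd1
  have hr0 : 0 < (1 / (d : ℝ)) := by positivity
  obtain ⟨N, hN⟩ := exists_pow_lt_of_lt_one (show 0 < x / 2 by positivity) hr1
  have hne' : ∀ j : ℕ, 0 < |x - (1 / (d : ℝ)) ^ j| := by
    intro j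
    refine abs_pos.2 (sub_ne_zero.2 ?_)
    rw [div_pow, one_pow]
    exact hne j
  -- the minimum over `j < N`
  have hmin : ∃ ε : ℝ, 0 < ε ∧ ∀ j < N, 2 * ε < |x - (1 / (d : ℝ)) ^ j| := by
    clear hN
    induction N with
    | zero => exact ⟨1, one_pos, fun j hj => absurd hj (Nat.not_lt_zero j)⟩
    | succ N ih =>
      obtain ⟨ε, h1, h2⟩ := ih
      refine ⟨min ε (|x - (1 / (d : ℝ)) ^ N| / 3), lt_min h1 (by have := hne' N; positivity),
        fun j hj => ?_⟩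
      rcases Nat.lt_succ_iff_lt_or_eq.1 hj with h | rfl
      · exact lt_of_le_of_lt (by
          have := min_le_left ε (|x - (1 / (d : ℝ)) ^ N| / 3)
          linarith) (h2 j h)
      · have h3 := min_le_right ε (|x - (1 / (d : ℝ)) ^ j| / 3)
        have h4 := hne' j
        linarith
  obtain ⟨ε, h1, h2⟩ := hmin
  refine ⟨min ε (x / 5), lt_min h1 (by positivity), fun j => ?_⟩
  rcases Nat.lt_or_ge j N with h | h
  · exact lt_of_le_of_lt (by have := min_le_left ε (x / 5); linarith) (h2 j h)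
  · have h3 : (1 / (d : ℝ)) ^ j ≤ (1 / (d : ℝ)) ^ N := pow_le_pow_of_le_one hr0.le hr1.le h
    have h4 := min_le_right ε (x / 5)
    rw [abs_of_pos (by linarith)]
    linarith

/-- **Limit points in fixed characteristic.** -/
theorem lim_p (p d : ℕ) (hp : p.Prime) (hd : 2 ≤ d) (x : ℝ) (q : ℕ → ℕ) (F : ℕ → Type)
    (inst : ∀ k, Field (F k)) (C : ∀ k, Finset (F k)) (hmono : StrictMono q)
    (hdvd : ∀ k, d ∣ q k + 1) (hcard : ∀ k, Nat.card (F k) = q k ^ 2)
    (hC : ∀ k, Maximal (fun s : Finset (F k) => (GP (F k) d).IsClique (s : Set (F k))) (C k))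
    (hlim : Filter.Tendsto (fun k => ((C k).card : ℝ) / (q k : ℝ)) Filter.atTop (nhds x))
    (hinf : ∃ᶠ k in Filter.atTop, ∃ n : ℕ, q k = p ^ n) :
    x = 0 ∨ ∃ j : ℕ, x = 1 / (d : ℝ) ^ j := by
  by_contra hcon
  rw [not_or, not_exists] at hcon
  obtain ⟨hx0, hne⟩ := hcon
  have hx : 0 ≤ x := ge_of_tendsto' hlim fun k => by positivity
  have hxp : 0 < x := lt_of_le_of_ne hx (Ne.symm hx0)
  obtain ⟨ε, hε, hgap⟩ := fcl_gap d hd x hxp hne
  obtain ⟨n0, hn0⟩ := dens p d hp hd (x / 2) ε (by positivity) hε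
  have hev1 : ∀ᶠ k in Filter.atTop, |((C k).card : ℝ) / (q k : ℝ) - x| < ε :=
    (Metric.tendsto_nhds.1 hlim ε hε).mono fun k hk => by rwa [Real.dist_eq] at hk
  have hev2 : ∀ᶠ k in Filter.atTop, x / 2 < ((C k).card : ℝ) / (q k : ℝ) :=
    hlim.eventually_const_lt (by linarith)
  have hev3 : ∀ᶠ k in Filter.atTop, p ^ n0 ≤ q k :=
    (hmono.tendsto_atTop).eventually_ge_atTop _
  obtain ⟨k, ⟨n, hn⟩, h1, h2, h3⟩ := (hinf.and_eventually (hev1.and (hev2.and hev3))).exists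
  have hnn : n0 ≤ n := by
    rw [hn] at h3
    exact (Nat.pow_le_pow_iff_right hp.one_lt).1 h3
  have hq0 : (0 : ℝ) < (q k : ℝ) := by
    rw [hn]; exact_mod_cast pow_pos hp.pos n
  have hqe : (q k : ℝ) = (p : ℝ) ^ n := by rw [hn]; push_cast; rfl
  obtain ⟨j, hj⟩ := hn0 n hnn (by rw [← hn]; exact hdvd k) (F k) (by rw [← hn]; exact hcard k)
    (C k) (hC k) (by
      rw [← hqe]
      rw [lt_div_iff₀ hq0] at h2
      exact h2.le)
  rw [← hqe] at hj
  have h4 : |((C k).card : ℝ) / (q k : ℝ) - (1 / (d : ℝ)) ^ j| ≤ ε := by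
    have h5 : ((C k).card : ℝ) / (q k : ℝ) - (1 / (d : ℝ)) ^ j =
        (((C k).card : ℝ) - (1 / (d : ℝ)) ^ j * (q k : ℝ)) / (q k : ℝ) := by
      field_simp
    rw [h5, abs_div, abs_of_pos hq0, div_le_iff₀ hq0]
    exact hj
  have h6 := hgap j
  have h7 : |x - (1 / (d : ℝ)) ^ j| ≤ |((C k).card : ℝ) / (q k : ℝ) - x| +
      |((C k).card : ℝ) / (q k : ℝ) - (1 / (d : ℝ)) ^ j| := by
    have h8 := abs_sub_le x (((C k).card : ℝ) / (q k : ℝ)) ((1 / (d : ℝ)) ^ j)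
    rwa [abs_sub_comm x (((C k).card : ℝ) / (q k : ℝ))] at h8
  linarith

/-- **Limit points, exponents large in terms of the characteristic.** There is a function `N` such
that limit points along prime powers `p ^ n` with `N p ≤ n` are `0` or `1 / d ^ j`. -/
theorem lim_N (d : ℕ) (hd : 2 ≤ d) : ∃ N : ℕ → ℕ, ∀ (x : ℝ) (q : ℕ → ℕ) (F : ℕ → Type)
    (_ : ∀ k, Field (F k)) (C : ∀ k, Finset (F k)), StrictMono q →
    (∀ k, d ∣ q k + 1) → (∀ k, Nat.card (F k) = q k ^ 2) →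
    (∀ k, Maximal (fun s : Finset (F k) => (GP (F k) d).IsClique (s : Set (F k))) (C k)) →
    Filter.Tendsto (fun k => ((C k).card : ℝ) / (q k : ℝ)) Filter.atTop (nhds x) →
    (∃ᶠ k in Filter.atTop, ∃ p n : ℕ, p.Prime ∧ N p ≤ n ∧ q k = p ^ n) →
    x = 0 ∨ ∃ j : ℕ, x = 1 / (d : ℝ) ^ j := by
  classical
  have hdens : ∀ (p i : ℕ), ∃ n0 : ℕ, p.Prime → ∀ n ≥ n0, d ∣ p ^ n + 1 →
      ∀ (F : Type) [Field F], Nat.card F = (p ^ n) ^ 2 →
      ∀ C : Finset F, Maximal (fun s : Finset F => (GP F d).IsClique (s : Set F)) C →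
        (1 / ((i : ℝ) + 1)) * (p : ℝ) ^ n ≤ (C.card : ℝ) →
        ∃ j : ℕ, |(C.card : ℝ) - (1 / (d : ℝ)) ^ j * (p : ℝ) ^ n| ≤
          (1 / ((i : ℝ) + 1)) * (p : ℝ) ^ n := by
    intro p i
    by_cases hp : p.Prime
    · obtain ⟨n0, h⟩ := dens p d hp hd (1 / ((i : ℝ) + 1)) (1 / ((i : ℝ) + 1)) (by positivity)
        (by positivity)
      exact ⟨n0, fun _ => h⟩
    · exact ⟨0, fun h => absurd h hp⟩
  choose n0 hn0 using hdens
  refine ⟨fun p => (Finset.range (p + 1)).sup (n0 p), ?_⟩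
  intro x q F inst C hmono hdvd hcard hC hlim hfreq
  by_contra hcon
  have hcon' := hcon
  rw [not_or, not_exists] at hcon'
  obtain ⟨hx0, hne⟩ := hcon'
  have hx : 0 ≤ x := ge_of_tendsto' hlim fun k => by positivity
  have hxp : 0 < x := lt_of_le_of_ne hx (Ne.symm hx0)
  obtain ⟨ε, hε, hgap⟩ := fcl_gap d hd x hxp hne
  obtain ⟨i, hi⟩ := exists_nat_gt (1 / min (x / 2) ε)
  have hm0 : 0 < min (x / 2) ε := lt_min (by positivity) hε
  have hi1 : 1 / ((i : ℝ) + 1) ≤ min (x / 2) ε := by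
    rw [div_lt_iff₀ hm0] at hi
    rw [div_le_iff₀ (by positivity)]
    nlinarith
  have hev1 : ∀ᶠ k in Filter.atTop, |((C k).card : ℝ) / (q k : ℝ) - x| < ε :=
    (Metric.tendsto_nhds.1 hlim ε hε).mono fun k hk => by rwa [Real.dist_eq] at hk
  have hev2 : ∀ᶠ k in Filter.atTop, x / 2 < ((C k).card : ℝ) / (q k : ℝ) :=
    hlim.eventually_const_lt (by linarith)
  -- large characteristic is impossible
  have hsmall : ∀ᶠ k in Filter.atTop, ∀ p n : ℕ, p.Prime →
      (Finset.range (p + 1)).sup (n0 p) ≤ n → q k = p ^ n → p < i := by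
    filter_upwards [hev1, hev2] with k h1 h2
    intro p n hp hNn hn
    by_contra hpi
    rw [not_lt] at hpi
    have hnn : n0 p i ≤ n :=
      (Finset.le_sup (f := n0 p) (Finset.mem_range.mpr (by omega))).trans hNn
    have hq0 : (0 : ℝ) < (q k : ℝ) := by
      rw [hn]; exact_mod_cast pow_pos hp.pos n
    have hqe : (q k : ℝ) = (p : ℝ) ^ n := by rw [hn]; push_cast; rfl
    obtain ⟨j, hj⟩ := hn0 p i hp n hnn (by rw [← hn]; exact hdvd k) (F k)
      (by rw [← hn]; exact hcard k) (C k) (hC k) (by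
        rw [← hqe]
        rw [lt_div_iff₀ hq0] at h2
        refine le_trans ?_ h2.le
        exact mul_le_mul_of_nonneg_right (hi1.trans (min_le_left _ _)) hq0.le)
    rw [← hqe] at hj
    have h4 : |((C k).card : ℝ) / (q k : ℝ) - (1 / (d : ℝ)) ^ j| ≤ ε := by
      have h5 : ((C k).card : ℝ) / (q k : ℝ) - (1 / (d : ℝ)) ^ j =
          (((C k).card : ℝ) - (1 / (d : ℝ)) ^ j * (q k : ℝ)) / (q k : ℝ) := by
        field_simp
      rw [h5, abs_div, abs_of_pos hq0, div_le_iff₀ hq0]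
      exact hj.trans (mul_le_mul_of_nonneg_right (hi1.trans (min_le_right _ _)) hq0.le)
    have h6 := hgap j
    have h7 : |x - (1 / (d : ℝ)) ^ j| ≤ |((C k).card : ℝ) / (q k : ℝ) - x| +
        |((C k).card : ℝ) / (q k : ℝ) - (1 / (d : ℝ)) ^ j| := by
      have h8 := abs_sub_le x (((C k).card : ℝ) / (q k : ℝ)) ((1 / (d : ℝ)) ^ j)
      rwa [abs_sub_comm x (((C k).card : ℝ) / (q k : ℝ))] at h8
    linarith
  -- so one small prime occurs infinitely often
  have hfreq2 : ∃ᶠ k in Filter.atTop, ∃ p ∈ Finset.range i, p.Prime ∧ ∃ n : ℕ, q k = p ^ n := by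
    refine (hfreq.and_eventually hsmall).mono ?_
    rintro k ⟨⟨p, n, hp, hNn, hn⟩, h⟩
    exact ⟨p, Finset.mem_range.mpr (h p n hp hNn hn), hp, n, hn⟩
  have hex : ∃ p ∈ Finset.range i, p.Prime ∧ ∃ᶠ k in Filter.atTop, ∃ n : ℕ, q k = p ^ n := by
    by_contra hno
    have h1 : ∀ p ∈ Finset.range i, ∀ᶠ k in Filter.atTop, ¬ (p.Prime ∧ ∃ n : ℕ, q k = p ^ n) := by
      intro p hp
      by_cases hpp : p.Prime
      · have h2 : ¬ ∃ᶠ k in Filter.atTop, ∃ n : ℕ, q k = p ^ n := fun h => hno ⟨p, hp, hpp, h⟩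
        rw [Filter.not_frequently] at h2
        exact h2.mono fun k hk h => hk h.2
      · exact Filter.Eventually.of_forall fun k h => hpp h.1
    have h2 := (Filter.eventually_all_finset (Finset.range i)).mpr h1
    obtain ⟨k, ⟨p, hp, hpp, hn⟩, h3⟩ := (hfreq2.and_eventually h2).exists
    exact h3 p hp ⟨hpp, hn⟩
  obtain ⟨p, -, hpp, hfr⟩ := hex
  exact hcon (lim_p p d hpp hd x q F inst C hmono hdvd hcard hC hlim hfr)

/-- **Existence in fixed characteristic**: every sequence of densities. -/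
theorem ex_seq (p d n0 : ℕ) (hp : p.Prime) (hd : 2 ≤ d) (hn0 : 1 ≤ n0) (hdvd : d ∣ p ^ n0 + 1)
    (J' : ℕ → ℕ) (x : ℝ)
    (hx : Filter.Tendsto (fun k => (1 / (d : ℝ)) ^ J' k) Filter.atTop (nhds x)) :
    ∃ (q : ℕ → ℕ) (F : ℕ → Type) (_ : ∀ k, Field (F k)) (C : ∀ k, Finset (F k)),
      StrictMono q ∧ (∀ k, ∃ n, q k = p ^ n) ∧ (∀ k, d ∣ q k + 1) ∧
      (∀ k, Nat.card (F k) = q k ^ 2) ∧
      (∀ k, Maximal (fun s : Finset (F k) => (GP (F k) d).IsClique (s : Set (F k))) (C k)) ∧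
      Filter.Tendsto (fun k => ((C k).card : ℝ) / (q k : ℝ)) Filter.atTop (nhds x) := by
  classical
  have hfact : Fact p.Prime := ⟨hp⟩
  -- the exponents
  have hodd : ∀ t : ℕ, d ∣ p ^ (n0 * (2 * t + 1)) + 1 := by
    intro t
    have h1 : p ^ n0 + 1 ∣ (p ^ n0) ^ (2 * t + 1) + 1 ^ (2 * t + 1) :=
      Odd.nat_add_dvd_pow_add_pow (p ^ n0) 1 ⟨t, rfl⟩
    rw [one_pow, ← pow_mul] at h1
    exact hdvd.trans h1
  choose N hN using fun k : ℕ => exis p d (J' k) hp hd (1 / ((k : ℝ) + 1)) (by positivity)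
  -- recursive choice of `t`
  let T : ℕ → ℕ := fun k => Nat.rec (N 0) (fun k t => max (N (k + 1)) (t + 1)) k
  have hT0 : ∀ k, N k ≤ T k := by
    intro k
    cases k with
    | zero => exact le_refl _
    | succ k => exact le_max_left _ _
  have hTs : ∀ k, T k < T (k + 1) := fun k => lt_of_lt_of_le (Nat.lt_succ_self _) (le_max_right _ _)
  have hTm : StrictMono T := strictMono_nat_of_lt_succ hTs
  let n : ℕ → ℕ := fun k => n0 * (2 * T k + 1)
  have hnm : StrictMono n := fun a b hab => by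
    have h1 := hTm hab
    show n0 * (2 * T a + 1) < n0 * (2 * T b + 1)
    exact Nat.mul_lt_mul_of_pos_left (by omega) (by omega)
  have hnN : ∀ k, N k ≤ n k := by
    intro k
    have h1 := hT0 k
    show N k ≤ n0 * (2 * T k + 1)
    calc N k ≤ T k := h1
      _ ≤ 2 * T k + 1 := by omega
      _ = 1 * (2 * T k + 1) := (one_mul _).symm
      _ ≤ n0 * (2 * T k + 1) := Nat.mul_le_mul_right _ hn0
  have hn1 : ∀ k, 1 ≤ n k := by
    intro k
    show 1 ≤ n0 * (2 * T k + 1)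
    exact Nat.mul_pos (by omega) (by omega)
  have hcardF : ∀ k, Nat.card (GaloisField p (n k * 2)) = (p ^ n k) ^ 2 := by
    intro k
    rw [GaloisField.card p (n k * 2) (by have := hn1 k; omega), pow_mul]
  have hex : ∀ k, ∃ C : Finset (GaloisField p (n k * 2)),
      Maximal (fun s : Finset (GaloisField p (n k * 2)) =>
        (GP (GaloisField p (n k * 2)) d).IsClique (s : Set (GaloisField p (n k * 2)))) C ∧
        |(C.card : ℝ) - (1 / (d : ℝ)) ^ J' k * (p : ℝ) ^ n k| ≤ 1 / ((k : ℝ) + 1) * (p : ℝ) ^ n k :=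
    fun k => hN k (n k) (hnN k) (hodd (T k)) (GaloisField p (n k * 2)) (hcardF k)
  choose C hCm hCc using hex
  refine ⟨fun k => p ^ n k, fun k => GaloisField p (n k * 2), fun k => inferInstance, C,
    fun a b hab => Nat.pow_lt_pow_right hp.one_lt (hnm hab), fun k => ⟨n k, rfl⟩,
    fun k => hodd (T k), hcardF, hCm, ?_⟩
  -- the limit
  have hb : ∀ k, |((C k).card : ℝ) / ((p ^ n k : ℕ) : ℝ) - (1 / (d : ℝ)) ^ J' k| ≤
      1 / ((k : ℝ) + 1) := by
    intro k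
    have hq0 : (0 : ℝ) < (p : ℝ) ^ n k := by
      have : (0 : ℝ) < (p : ℝ) := by exact_mod_cast hp.pos
      positivity
    have h5 : ((C k).card : ℝ) / ((p ^ n k : ℕ) : ℝ) - (1 / (d : ℝ)) ^ J' k =
        (((C k).card : ℝ) - (1 / (d : ℝ)) ^ J' k * (p : ℝ) ^ n k) / (p : ℝ) ^ n k := by
      push_cast
      field_simp
    rw [h5, abs_div, abs_of_pos hq0, div_le_iff₀ hq0]
    exact hCc k
  have h6 : Filter.Tendsto (fun k => ((C k).card : ℝ) / ((p ^ n k : ℕ) : ℝ) -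
      (1 / (d : ℝ)) ^ J' k) Filter.atTop (nhds 0) :=
    squeeze_zero_norm (fun k => by rw [Real.norm_eq_abs]; exact hb k)
      tendsto_one_div_add_atTop_nhds_zero_nat
  have h7 := h6.add hx
  rw [zero_add] at h7
  refine h7.congr fun k => ?_
  ring

/-- **Existence in fixed characteristic.** -/
theorem ex_p (p d n0 : ℕ) (hp : p.Prime) (hd : 2 ≤ d) (hn0 : 1 ≤ n0) (hdvd : d ∣ p ^ n0 + 1)
    (x : ℝ) (hx : x = 0 ∨ ∃ j : ℕ, x = 1 / (d : ℝ) ^ j) :
    ∃ (q : ℕ → ℕ) (F : ℕ → Type) (_ : ∀ k, Field (F k)) (C : ∀ k, Finset (F k)),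
      StrictMono q ∧ (∀ k, ∃ n, q k = p ^ n) ∧ (∀ k, d ∣ q k + 1) ∧
      (∀ k, Nat.card (F k) = q k ^ 2) ∧
      (∀ k, Maximal (fun s : Finset (F k) => (GP (F k) d).IsClique (s : Set (F k))) (C k)) ∧
      Filter.Tendsto (fun k => ((C k).card : ℝ) / (q k : ℝ)) Filter.atTop (nhds x) := by
  rcases hx with rfl | ⟨j, rfl⟩
  · refine ex_seq p d n0 hp hd hn0 hdvd (fun k => k) 0 ?_
    have hd1 : (1 : ℝ) < (d : ℝ) := by exact_mod_cast (show 1 < d by omega)
    refine tendsto_pow_atTop_nhds_zero_of_lt_one (by positivity) ?_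
    rw [div_lt_one (by linarith)]
    exact hd1
  · refine ex_seq p d n0 hp hd hn0 hdvd (fun _ => j) _ ?_
    rw [div_pow, one_pow]
    exact tendsto_const_nhds

end GPC
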