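import Mathlib
import Pool.Agent.Lib.MP_56e792_co.GP

set_option autoImplicit false

namespace GPC

open Pool.Agent.Lib.MP_56e792_co

/-- For every graph of the frozen statement: a maximal clique has at most `m + W` vertices,
or at most `q ^ (2 / 3)`, or exactly `q`; here `W * max d (max 3 P) ≤ q + 1` if the
characteristic is at least `P`. -/
theorem maximal_card {F : Type} [Field F] {q d P : ℕ} (hd : 2 ≤ d) (hdvd : d ∣ q + 1)
    (hcard : Nat.card F = q ^ 2) (hq0 : 0 < q) (hP : P ≤ ringChar F) (C : Finset F)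
    (hC : Maximal (fun s : Finset F => (GP F d).IsClique (s : Set F)) C) :
    (∃ m W : ℕ, m * d = q + 1 ∧ W * max d (max 3 P) ≤ q + 1 ∧ C.card ≤ m + W) ∨
      C.card ^ 3 ≤ q ^ 2 ∨ C.card = q := by
  have hfin : Finite F := Nat.finite_of_card_ne_zero (by rw [hcard]; positivity)
  have := Fintype.ofFinite F
  obtain ⟨n, hp, hn⟩ := FiniteField.card F (ringChar F)
  set p := ringChar F with hpdef
  have hq2 : q ^ 2 = p ^ (n : ℕ) := by
    rw [← hcard, Nat.card_eq_fintype_card, hn]
  obtain ⟨e, -, hqe⟩ := (Nat.dvd_prime_pow hp).mp (show q ∣ p ^ (n : ℕ) by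
    rw [← hq2]; exact dvd_pow_self q two_ne_zero)
  have he : 1 ≤ e := by
    rcases Nat.eq_zero_or_pos e with h0 | h0
    · exfalso
      rw [h0, pow_zero] at hqe
      rw [hqe, one_pow] at hq2
      have h1 : 1 < p ^ (n : ℕ) := Nat.one_lt_pow n.ne_zero hp.one_lt
      omega
    · exact h0
  have hq1 : 1 < q := by rw [hqe]; exact Nat.one_lt_pow (by omega) hp.one_lt
  obtain ⟨m, hm⟩ := hdvd
  have hmd : m * d = q + 1 := by rw [hm, mul_comm]
  have hm0 : m ≠ 0 := by rintro rfl; omega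
  have hmq : m < q := by nlinarith
  set ρ := Nat.log p m with hρ
  have hWm : p ^ ρ ≤ m := Nat.pow_log_le_self p hm0
  have hWlt : m < p ^ (ρ + 1) := Nat.lt_pow_succ_log_self hp.one_lt m
  have hκ : ∀ i, i ≤ m / p ^ ρ → ¬ p ∣ (m / p ^ ρ).choose i := by
    intro i hi
    refine prime_choose hp ?_ hi
    rw [Nat.div_lt_iff_lt_mul (pow_pos hp.pos ρ), ← pow_succ']
    exact hWlt
  have hρe : ρ < e := by
    rw [hqe] at hmq
    exact (Nat.pow_lt_pow_iff_right hp.one_lt).mp (lt_of_le_of_lt hWm hmq)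
  have hWp : p ^ ρ * p ≤ q := by
    rw [hqe, ← pow_succ]
    exact Nat.pow_le_pow_right hp.pos hρe
  rcases maximal_clique_dichotomy hp he hqe hcard hd hmd hκ C hC with h | h | h
  · left
    refine ⟨m, p ^ ρ, hmd, ?_, h⟩
    have hd1 : p ^ ρ * d ≤ q + 1 := by
      rw [← hmd]; exact Nat.mul_le_mul_right _ hWm
    have hP1 : p ^ ρ * P ≤ q + 1 := (Nat.mul_le_mul_left _ hP).trans (by omega)
    have h31 : p ^ ρ * 3 ≤ q + 1 := by
      by_cases hd3 : 3 ≤ d
      · exact (Nat.mul_le_mul_left _ hd3).trans hd1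
      · have hd2 : d = 2 := by omega
        have hp3 : 3 ≤ p := by
          by_contra hcon
          have hp2 : p = 2 := by
            have := hp.two_le
            omega
          have h2 : 2 ∣ q := by
            rw [hqe, hp2]; exact dvd_pow_self 2 (by omega)
          rw [hd2] at hmd
          omega
        exact (Nat.mul_le_mul_left _ hp3).trans (by omega)
    rcases le_total d (max 3 P) with h1 | h1
    · rw [max_eq_right h1]
      rcases le_total 3 P with h2 | h2
      · rw [max_eq_right h2]; exact hP1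
      · rw [max_eq_left h2]; exact h31
    · rw [max_eq_left h1]; exact hd1
  · exact Or.inr (Or.inl h.2)
  · exact Or.inr (Or.inr h.1)

/-- The limit points of the ratios of maximal cliques. -/
theorem limit_points (d P : ℕ) (hd : 2 ≤ d) (x : ℝ) (q : ℕ → ℕ) (F : ℕ → Type)
    (inst : ∀ k, Field (F k)) (C : ∀ k, Finset (F k)) (hmono : StrictMono q)
    (hdvd : ∀ k, d ∣ q k + 1)
    (hcard : ∀ k, Nat.card (F k) = q k ^ 2)
    (hP : ∀ k, P ≤ ringChar (F k))
    (hC : ∀ k, Maximal (fun s : Finset (F k) => (GP (F k) d).IsClique (s : Set (F k))) (C k))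
    (hlim : Filter.Tendsto (fun k => ((C k).card : ℝ) / (q k : ℝ)) Filter.atTop (nhds x)) :
    x ≤ 1 / (d : ℝ) + 1 / ((max d (max 3 P) : ℕ) : ℝ) ∨ x = 1 := by
  set D := max d (max 3 P) with hD
  have hd0 : (0 : ℝ) < (d : ℝ) := by
    have : 0 < d := by omega
    exact_mod_cast this
  have hD0 : (0 : ℝ) < (D : ℝ) := by
    have : 0 < D := lt_of_lt_of_le (show 0 < d by omega) (le_max_left _ _)
    exact_mod_cast this
  have hqpos : ∀ᶠ k in Filter.atTop, 0 < q k := by
    filter_upwards [hmono.tendsto_atTop.eventually_gt_atTop 0] with k hk using hk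
  have hq : Filter.Tendsto (fun k => (q k : ℝ)) Filter.atTop Filter.atTop :=
    tendsto_natCast_atTop_atTop.comp hmono.tendsto_atTop
  have hqinv : Filter.Tendsto (fun k => (q k : ℝ)⁻¹) Filter.atTop (nhds 0) :=
    tendsto_inv_atTop_zero.comp hq
  by_cases hf : ∃ᶠ k in Filter.atTop, (C k).card = q k
  · right
    have h1 : ∃ᶠ k in Filter.atTop, ((C k).card : ℝ) / (q k : ℝ) ∈ ({1} : Set ℝ) := by
      refine (hf.and_eventually hqpos).mono ?_
      rintro k ⟨hk, hk0⟩
      rw [hk, Set.mem_singleton_iff]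
      exact div_self (by exact_mod_cast hk0.ne')
    exact isClosed_singleton.mem_of_frequently_of_tendsto h1 hlim
  · left
    rw [Filter.not_frequently] at hf
    by_contra hcon
    rw [not_le] at hcon
    set B : ℝ := 1 / (d : ℝ) + 1 / (D : ℝ) with hB
    have hB0 : 0 < B := by positivity
    set c : ℝ := (B + x) / 2 with hc
    have hBc : B < c := by rw [hc]; linarith
    have hcx : c < x := by rw [hc]; linarith
    have hc0 : 0 < c := hB0.trans hBc
    have e1 : ∀ᶠ k in Filter.atTop, c < ((C k).card : ℝ) / (q k : ℝ) :=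
      hlim.eventually (lt_mem_nhds hcx)
    have t2 : Filter.Tendsto (fun k => B + B * (q k : ℝ)⁻¹) Filter.atTop (nhds (B + B * 0)) :=
      Filter.Tendsto.const_add _ (Filter.Tendsto.const_mul _ hqinv)
    rw [mul_zero, add_zero] at t2
    have e2 : ∀ᶠ k in Filter.atTop, B + B * (q k : ℝ)⁻¹ < c := t2.eventually (gt_mem_nhds hBc)
    have e3 : ∀ᶠ k in Filter.atTop, (q k : ℝ)⁻¹ < c ^ 3 :=
      hqinv.eventually (gt_mem_nhds (by positivity))
    obtain ⟨k, h1, h2, h3, h4, h5⟩ := (e1.and (e2.and (e3.and (hf.and hqpos)))).exists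
    have hk0 : (0 : ℝ) < (q k : ℝ) := by exact_mod_cast h5
    rcases maximal_card hd (hdvd k) (hcard k) h5 (hP k) (C k) (hC k) with h | h | h
    · obtain ⟨m, W, hm, hW, hmW⟩ := h
      have hm' : (m : ℝ) * d = q k + 1 := by exact_mod_cast hm
      have hW' : (W : ℝ) * D ≤ q k + 1 := by exact_mod_cast hW
      have hmW' : ((C k).card : ℝ) ≤ m + W := by exact_mod_cast hmW
      have f1 : (m : ℝ) = (q k + 1) / d := by
        rw [eq_div_iff hd0.ne']; exact hm'
      have f2 : (W : ℝ) ≤ (q k + 1) / D := by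
        rw [le_div_iff₀ hD0]; exact hW'
      have f3 : ((C k).card : ℝ) ≤ B * (q k + 1) := by
        calc ((C k).card : ℝ) ≤ m + W := hmW'
          _ ≤ (q k + 1) / d + (q k + 1) / D := by rw [f1]; linarith
          _ = B * (q k + 1) := by rw [hB]; ring
      have f4 : ((C k).card : ℝ) / (q k : ℝ) ≤ B + B * (q k : ℝ)⁻¹ := by
        rw [div_le_iff₀ hk0]
        calc ((C k).card : ℝ) ≤ B * (q k + 1) := f3
          _ = (B + B * (q k : ℝ)⁻¹) * q k := by field_simp
      linarith
    · have g1 : ((C k).card : ℝ) ^ 3 ≤ (q k : ℝ) ^ 2 := by exact_mod_cast h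
      have g2 : (((C k).card : ℝ) / (q k : ℝ)) ^ 3 ≤ (q k : ℝ)⁻¹ := by
        rw [div_pow, div_le_iff₀ (by positivity)]
        calc ((C k).card : ℝ) ^ 3 ≤ (q k : ℝ) ^ 2 := g1
          _ = (q k : ℝ)⁻¹ * (q k : ℝ) ^ 3 := by field_simp
      have g3 : c ^ 3 ≤ (((C k).card : ℝ) / (q k : ℝ)) ^ 3 :=
        pow_le_pow_left₀ hc0.le h1.le 3
      linarith
    · exact h4 h

end GPC
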