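import Pool.Agent.Lib.MP_56e792_co.S.Mai
import Pool.Agent.Lib.MP_56e792_co.S.Old

/-!
# MP_56e792_co: the gap theorem for all prime powers

`gap_all`: for all large prime powers `q` every maximal clique of `GP(q ^ 2, d)` has at most
`(1 / d + ε) q` vertices or exactly `q`.
-/

set_option autoImplicit false
set_option linter.unusedVariables false

namespace GPC

open Pool.Agent.Lib.MP_56e792_co (J mem_J GP)

theorem gap_all (d : ℕ) (hd : 2 ≤ d) (ε : ℝ) (hε : 0 < ε) :
    ∃ q0 : ℕ, ∀ q ≥ q0, d ∣ q + 1 → ∀ (F : Type) [Field F], Nat.card F = q ^ 2 →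
      ∀ C : Finset F, Maximal (fun s : Finset F => (GP F d).IsClique (s : Set F)) C →
        (C.card : ℝ) ≤ (1 / (d : ℝ) + ε) * q ∨ C.card = q := by
  have hd0 : (0 : ℝ) < (d : ℝ) := by
    have : 0 < d := by omega
    exact_mod_cast this
  obtain ⟨P, hP⟩ := exists_nat_gt (4 / ε)
  have hP0 : (0 : ℝ) < (P : ℝ) := lt_trans (by positivity) hP
  have hPε : 1 / (P : ℝ) ≤ ε / 4 := by
    rw [div_lt_iff₀ hε] at hP
    rw [div_le_iff₀ hP0]
    linarith
  have hex : ∀ r : ℕ, ∃ n0 : ℕ, r.Prime → ∀ n ≥ n0, d ∣ r ^ n + 1 →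
      ∀ (F : Type) [Field F], Nat.card F = (r ^ n) ^ 2 →
      ∀ C : Finset F, Maximal (fun s : Finset F => (GP F d).IsClique (s : Set F)) C →
        (C.card : ℝ) ≤ (1 / (d : ℝ) + ε) * (r : ℝ) ^ n ∨ C.card = r ^ n := by
    intro r
    by_cases hr : r.Prime
    · obtain ⟨n0, h⟩ := main_fixed r d hr hd ε hε
      exact ⟨n0, fun _ => h⟩
    · exact ⟨0, fun h => absurd h hr⟩
  choose n0 hn0 using hex
  obtain ⟨Q, hQ⟩ := exists_nat_gt (max ((1 / (d : ℝ) + ε / 4) / (3 * ε / 4)) ((1 / ε) ^ 3))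
  refine ⟨Q + (∑ r ∈ Finset.range P, r ^ n0 r) + 1, ?_⟩
  intro q hq hdvd F _ hcard C hC
  have hq0 : 0 < q := by omega
  have hqR : (0 : ℝ) < (q : ℝ) := by exact_mod_cast hq0
  have hQq : (Q : ℝ) ≤ (q : ℝ) := by
    have : Q ≤ q := by omega
    exact_mod_cast this
  by_cases hchar : P ≤ ringChar F
  · rcases maximal_card hd hdvd hcard hq0 hchar C hC with h | h | h
    · left
      obtain ⟨m, W, hm, hW, hmW⟩ := h
      have hm' : (m : ℝ) * d = q + 1 := by exact_mod_cast hm
      have hWP : W * P ≤ q + 1 := by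
        refine le_trans (Nat.mul_le_mul_left _ ?_) hW
        exact le_trans (le_max_right 3 P) (le_max_right d _)
      have hW' : (W : ℝ) * P ≤ q + 1 := by exact_mod_cast hWP
      have hmW' : (C.card : ℝ) ≤ m + W := by exact_mod_cast hmW
      have f1 : (m : ℝ) = (q + 1) / d := by
        rw [eq_div_iff hd0.ne']; exact hm'
      have f2 : (W : ℝ) ≤ (q + 1) * (ε / 4) := by
        have h1 : (W : ℝ) ≤ (q + 1) / P := by
          rw [le_div_iff₀ hP0]; exact hW'
        have h2 : ((q : ℝ) + 1) / P ≤ (q + 1) * (ε / 4) := by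
          rw [div_eq_mul_one_div]
          exact mul_le_mul_of_nonneg_left hPε (by positivity)
        linarith
      have hQ1 : (1 / (d : ℝ) + ε / 4) / (3 * ε / 4) < (q : ℝ) :=
        lt_of_lt_of_le (lt_of_le_of_lt (le_max_left _ _) hQ) hQq
      rw [div_lt_iff₀ (by positivity)] at hQ1
      have f3 : ((q : ℝ) + 1) / d = (1 / d) * q + 1 / d := by field_simp
      rw [f3] at f1
      nlinarith
    · left
      by_contra hcon
      rw [not_le] at hcon
      have hQ1 : (1 / ε) ^ 3 < (q : ℝ) :=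
        lt_of_lt_of_le (lt_of_le_of_lt (le_max_right _ _) hQ) hQq
      have g1 : ((C.card : ℕ) : ℝ) ^ 3 ≤ (q : ℝ) ^ 2 := by exact_mod_cast h
      have g2 : ε * q < C.card := by
        have : 0 < 1 / (d : ℝ) * q := by positivity
        nlinarith
      have g3 : (ε * q) ^ 3 < (C.card : ℝ) ^ 3 :=
        pow_lt_pow_left₀ g2 (by positivity) (by norm_num)
      have g4 : 1 < ε ^ 3 * q := by
        have h3 : (1 / ε) ^ 3 * ε ^ 3 = 1 := by
          rw [← mul_pow, one_div_mul_cancel hε.ne', one_pow]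
        nlinarith [pow_pos hε 3]
      have g5 : (q : ℝ) ^ 2 < (ε * q) ^ 3 := by
        have : (ε * q) ^ 3 = (ε ^ 3 * q) * (q : ℝ) ^ 2 := by ring
        rw [this]
        have h2 : 0 < (q : ℝ) ^ 2 := by positivity
        nlinarith
      linarith
    · exact Or.inr h
  · rw [not_le] at hchar
    have hfin : Finite F := Nat.finite_of_card_ne_zero (by rw [hcard]; positivity)
    have := Fintype.ofFinite F
    obtain ⟨n, hp, hn⟩ := FiniteField.card F (ringChar F)
    have hq2 : q ^ 2 = (ringChar F) ^ (n : ℕ) := by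
      rw [← hcard, Nat.card_eq_fintype_card, hn]
    obtain ⟨e, -, hqe⟩ := (Nat.dvd_prime_pow hp).mp (show q ∣ (ringChar F) ^ (n : ℕ) by
      rw [← hq2]; exact dvd_pow_self q two_ne_zero)
    have hle : (ringChar F) ^ n0 (ringChar F) ≤ ∑ r ∈ Finset.range P, r ^ n0 r :=
      Finset.single_le_sum (f := fun r => r ^ n0 r) (fun _ _ => Nat.zero_le _)
        (Finset.mem_range.2 hchar)
    have hlt : (ringChar F) ^ n0 (ringChar F) < (ringChar F) ^ e := by
      rw [← hqe]; omega
    have hen : n0 (ringChar F) ≤ e := ((Nat.pow_lt_pow_iff_right hp.one_lt).mp hlt).le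
    have h := hn0 (ringChar F) hp e hen (by rw [← hqe]; exact hdvd) F
      (by rw [← hqe]; exact hcard) C hC
    rcases h with h | h
    · left
      have hcast : ((q : ℕ) : ℝ) = ((ringChar F : ℕ) : ℝ) ^ e := by
        rw [hqe]; push_cast; rfl
      rw [hcast]
      exact h
    · right
      rw [h, ← hqe]

end GPC
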