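import Pool.Agent.Lib.MP_56e792_co.S.Defs2
import Pool.Agent.Lib.MP_56e792_co.S.Dns

/-!
# MP_56e792_co, phase 2 (fixed characteristic), module Lf1

Bounded characteristic: some prime `p ≤ P` is the characteristic of `F k` for infinitely many `k`; pass to this subsequence; `q k = p^(n k)` (`char_of_card`, as in `maximal_card` in Old.lean), `n k → ∞`. If `x ≠ 0` then `x > 0` and `dens` with `δ = x/2`, every `ε > 0`: for all large `k` there is `j` with `|C_k|/q_k` within `ε` of `(1/d)^j`. The set `{0} ∪ {(1/d)^j}` is closed, so `x` is in it.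
-/

set_option autoImplicit false
set_option linter.unusedVariables false

namespace GPC

open Polynomial
open Pool.Agent.Lib.MP_56e792_co (J mem_J GP)

theorem lim_bdd (d P : ℕ) (hd : 2 ≤ d) (x : ℝ) (q : ℕ → ℕ) (F : ℕ → Type)
    (inst : ∀ k, Field (F k)) (C : ∀ k, Finset (F k)) (hmono : StrictMono q)
    (hdvd : ∀ k, d ∣ q k + 1) (hcard : ∀ k, Nat.card (F k) = q k ^ 2)
    (hP : ∀ k, ringChar (F k) ≤ P)
    (hC : ∀ k, Maximal (fun s : Finset (F k) => (GP (F k) d).IsClique (s : Set (F k))) (C k))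
    (hlim : Filter.Tendsto (fun k => ((C k).card : ℝ) / (q k : ℝ)) Filter.atTop (nhds x)) :
    x = 0 ∨ ∃ j : ℕ, x = (1 / (d : ℝ)) ^ j := by
  have hd0 : (0 : ℝ) < (d : ℝ) := by
    have : 0 < d := by omega
    exact_mod_cast this
  have hd1 : 1 / (d : ℝ) < 1 := by
    rw [div_lt_one hd0]
    have : 1 < d := by omega
    exact_mod_cast this
  have hdi0 : 0 < 1 / (d : ℝ) := by positivity
  by_contra hcon
  rw [not_or, not_exists] at hcon
  obtain ⟨hx1, hx2⟩ := hcon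
  have hx0 : 0 < x := by
    have h1 : 0 ≤ x := ge_of_tendsto' hlim (fun k => by positivity)
    exact lt_of_le_of_ne h1 (Ne.symm hx1)
  -- the powers of `1 / d` which are at least `x / 2`
  obtain ⟨J, hJ⟩ := exists_pow_lt_of_lt_one (show 0 < x / 2 by positivity) hd1
  have hμ : ∃ μ : ℝ, 0 < μ ∧ ∀ j ∈ Finset.range (J + 1), μ ≤ |x - (1 / (d : ℝ)) ^ j| := by
    have hne : (Finset.range (J + 1)).Nonempty := ⟨0, by simp⟩
    refine ⟨(Finset.range (J + 1)).inf' hne (fun j => |x - (1 / (d : ℝ)) ^ j|), ?_, ?_⟩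
    · rw [Finset.lt_inf'_iff]
      intro j _
      exact abs_pos.2 (sub_ne_zero.2 (hx2 j))
    · intro j hj
      exact Finset.inf'_le _ hj
  obtain ⟨μ, hμ0, hμ⟩ := hμ
  obtain ⟨ε, hε⟩ : ∃ ε : ℝ, ε = min μ x / 4 := ⟨_, rfl⟩
  have hε0 : 0 < ε := by rw [hε]; exact div_pos (lt_min hμ0 hx0) (by norm_num)
  have hεμ : 4 * ε ≤ μ := by
    have := min_le_left μ x
    rw [hε]; linarith
  have hεx : 4 * ε ≤ x := by
    have := min_le_right μ x
    rw [hε]; linarith
  -- some characteristic occurs infinitely often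
  have hr : ∃ r : ℕ, ∃ᶠ k in Filter.atTop, ringChar (F k) = r := by
    by_contra hno
    simp only [not_exists, Filter.not_frequently] at hno
    have h1 : ∀ᶠ k in Filter.atTop, ∀ r ∈ Finset.range (P + 1), ¬ ringChar (F k) = r :=
      (Filter.eventually_all_finset (Finset.range (P + 1))).mpr (fun r _ => hno r)
    obtain ⟨k, h2⟩ := h1.exists
    exact h2 (ringChar (F k)) (Finset.mem_range.mpr (Nat.lt_succ_of_le (hP k))) rfl
  obtain ⟨r, hr⟩ := hr
  obtain ⟨φ, hφ, hφr⟩ := Filter.extraction_of_frequently_atTop hr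
  have hqφ : StrictMono (fun n => q (φ n)) := hmono.comp hφ
  have hle : ∀ n, n ≤ q (φ n) := fun n => hqφ.le_apply
  -- the field number `n`
  have hfield : ∀ n, 1 ≤ n → r.Prime ∧ ∃ e : ℕ, q (φ n) = r ^ e := by
    intro n hn
    have hq0 : 0 < q (φ n) := lt_of_lt_of_le hn (hle n)
    have hfin : Finite (F (φ n)) := Nat.finite_of_card_ne_zero (by rw [hcard]; positivity)
    have := Fintype.ofFinite (F (φ n))
    obtain ⟨m, hp, hm⟩ := FiniteField.card (F (φ n)) (ringChar (F (φ n)))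
    rw [hφr n] at hp hm
    refine ⟨hp, ?_⟩
    have hq2 : q (φ n) ^ 2 = r ^ (m : ℕ) := by
      rw [← hcard, Nat.card_eq_fintype_card, hm]
    obtain ⟨e, -, hqe⟩ := (Nat.dvd_prime_pow hp).mp (show q (φ n) ∣ r ^ (m : ℕ) by
      rw [← hq2]; exact dvd_pow_self _ two_ne_zero)
    exact ⟨e, hqe⟩
  have hrp : r.Prime := (hfield 1 le_rfl).1
  obtain ⟨n0, hn0⟩ := dens r d hrp hd (x / 2) ε (by positivity) hε0
  have hlim' : Filter.Tendsto (fun n => ((C (φ n)).card : ℝ) / (q (φ n) : ℝ)) Filter.atTop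
      (nhds x) := hlim.comp hφ.tendsto_atTop
  have e1 := hlim'.eventually (lt_mem_nhds (show x - ε < x by linarith))
  have e2 := hlim'.eventually (gt_mem_nhds (show x < x + ε by linarith))
  obtain ⟨n, hn, h1, h2⟩ := ((Filter.eventually_ge_atTop (r ^ n0 + 1)).and (e1.and e2)).exists
  have hn1 : 1 ≤ n := by omega
  obtain ⟨-, e, he⟩ := hfield n hn1
  have hlt : r ^ n0 < r ^ e := by
    rw [← he]
    exact lt_of_lt_of_le (by omega) (hle n)
  have hen : n0 ≤ e := ((Nat.pow_lt_pow_iff_right hrp.one_lt).mp hlt).le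
  have hq0 : (0 : ℝ) < (q (φ n) : ℝ) := by
    have : 0 < q (φ n) := lt_of_lt_of_le hn1 (hle n)
    exact_mod_cast this
  have hcast : ((q (φ n) : ℕ) : ℝ) = (r : ℝ) ^ e := by rw [he]; push_cast; rfl
  have hdv : d ∣ r ^ e + 1 := by rw [← he]; exact hdvd (φ n)
  have hca : Nat.card (F (φ n)) = (r ^ e) ^ 2 := by rw [← he]; exact hcard (φ n)
  have hδ : x / 2 * (r : ℝ) ^ e ≤ ((C (φ n)).card : ℝ) := by
    rw [← hcast]
    have h3 : x / 2 < ((C (φ n)).card : ℝ) / (q (φ n) : ℝ) := by linarith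
    rw [lt_div_iff₀ hq0] at h3
    exact h3.le
  obtain ⟨j, hj⟩ := hn0 e hen hdv (F (φ n)) hca (C (φ n)) (hC (φ n)) hδ
  rw [← hcast] at hj
  have hj' : |((C (φ n)).card : ℝ) / (q (φ n) : ℝ) - (1 / (d : ℝ)) ^ j| ≤ ε := by
    have h3 : ((C (φ n)).card : ℝ) / (q (φ n) : ℝ) - (1 / (d : ℝ)) ^ j =
        (((C (φ n)).card : ℝ) - (1 / (d : ℝ)) ^ j * (q (φ n) : ℝ)) / (q (φ n) : ℝ) := by
      field_simp
    rw [h3, abs_div, abs_of_pos hq0, div_le_iff₀ hq0]
    exact hj
  rw [abs_le] at hj'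
  have hxj : |x - (1 / (d : ℝ)) ^ j| < μ := by
    rw [abs_lt]
    constructor <;> linarith [hj'.1, hj'.2]
  have hjJ : j < J + 1 := by
    by_contra hge
    have h3 : (1 / (d : ℝ)) ^ j ≤ (1 / (d : ℝ)) ^ J :=
      pow_le_pow_of_le_one hdi0.le hd1.le (by omega)
    linarith [hj'.1, hj'.2]
  exact absurd (hμ j (Finset.mem_range.2 hjJ)) (not_le.2 hxj)

end GPC
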