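import Pool.Agent.Lib.MP_56e792_co.S.Defs2
import Pool.Agent.Lib.MP_56e792_co.S.Exi

/-!
# MP_56e792_co, phase 2 (fixed characteristic), module Lf2

If `d ∣ p^n + 1` then `d ∣ p^(n (2 i + 1)) + 1`. `x = (1/d)^j`: `exis` with `ε = 1/(i+1)` along `n_i → ∞` (choose a strictly increasing sequence of multiples `n (2 i' + 1)`), fields `GaloisField p (2 n_i)`. `x = 0`: diagonal: `j = i`, `ε = 1/(i+1)`.
-/

set_option autoImplicit false
set_option linter.unusedVariables false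

namespace GPC

open Polynomial
open Pool.Agent.Lib.MP_56e792_co (J mem_J GP)

theorem lim_exists (p d : ℕ) (hp : p.Prime) (hd : 2 ≤ d) (hex : ∃ n, 1 ≤ n ∧ d ∣ p ^ n + 1)
    (x : ℝ) (hx : x = 0 ∨ ∃ j : ℕ, x = (1 / (d : ℝ)) ^ j) :
    ∃ (n : ℕ → ℕ) (F : ℕ → Type) (_ : ∀ k, Field (F k)) (C : ∀ k, Finset (F k)),
      StrictMono n ∧ (∀ k, d ∣ p ^ n k + 1) ∧ (∀ k, Nat.card (F k) = (p ^ n k) ^ 2) ∧
      (∀ k, Maximal (fun s : Finset (F k) => (GP (F k) d).IsClique (s : Set (F k))) (C k)) ∧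
      Filter.Tendsto (fun k => ((C k).card : ℝ) / ((p : ℝ) ^ n k)) Filter.atTop (nhds x) := by
  haveI : Fact p.Prime := ⟨hp⟩
  have hd0 : (0 : ℝ) < (d : ℝ) := by positivity
  -- the exponents
  obtain ⟨jj, hjj⟩ : ∃ jj : ℕ → ℕ,
      Filter.Tendsto (fun k => (1 / (d : ℝ)) ^ (jj k)) Filter.atTop (nhds x) := by
    rcases hx with rfl | ⟨j, rfl⟩
    · refine ⟨fun k => k, ?_⟩
      apply tendsto_pow_atTop_nhds_zero_of_lt_one (by positivity)
      rw [div_lt_one hd0]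
      exact_mod_cast (by omega : 1 < d)
    · exact ⟨fun _ => j, tendsto_const_nhds⟩
  obtain ⟨n1, hn1, hdn1⟩ := hex
  have hε : ∀ k : ℕ, (0 : ℝ) < 1 / ((k : ℝ) + 1) := fun k => by positivity
  choose n0 hn0 using fun k : ℕ => exis p d (jj k) hp hd (1 / ((k : ℝ) + 1)) (hε k)
  -- the indices
  let M : ℕ → ℕ := fun k => ∑ i ∈ Finset.range (k + 1), (n0 i + 1)
  have hMs : StrictMono M := by
    apply strictMono_nat_of_lt_succ
    intro k
    change ∑ i ∈ Finset.range (k + 1), (n0 i + 1) < ∑ i ∈ Finset.range (k + 1 + 1), (n0 i + 1)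
    rw [Finset.sum_range_succ _ (k + 1)]
    omega
  have hM0 : ∀ k, n0 k ≤ M k := by
    intro k
    change n0 k ≤ ∑ i ∈ Finset.range (k + 1), (n0 i + 1)
    rw [Finset.sum_range_succ]
    omega
  let n : ℕ → ℕ := fun k => n1 * (2 * M k + 1)
  have hns : StrictMono n := by
    intro a b hab
    have h := hMs hab
    change n1 * (2 * M a + 1) < n1 * (2 * M b + 1)
    exact Nat.mul_lt_mul_of_pos_left (by omega) (by omega)
  have hnn0 : ∀ k, n0 k ≤ n k := by
    intro k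
    have h := hM0 k
    change n0 k ≤ n1 * (2 * M k + 1)
    nlinarith
  have hn1' : ∀ k, n k ≠ 0 := by
    intro k
    change n1 * (2 * M k + 1) ≠ 0
    have : 0 < n1 * (2 * M k + 1) := by positivity
    omega
  have hdn : ∀ k, d ∣ p ^ n k + 1 := by
    intro k
    refine dvd_trans hdn1 ?_
    change p ^ n1 + 1 ∣ p ^ (n1 * (2 * M k + 1)) + 1
    have h := Odd.nat_add_dvd_pow_add_pow (p ^ n1) 1 (n := 2 * M k + 1) ⟨M k, rfl⟩
    rwa [one_pow, ← pow_mul] at h
  have hcard : ∀ k, Nat.card (GaloisField p (2 * n k)) = (p ^ n k) ^ 2 := by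
    intro k
    rw [GaloisField.card p (2 * n k) (by have := hn1' k; omega), ← pow_mul, mul_comm]
  choose C hC1 hC2 using fun k : ℕ =>
    hn0 k (n k) (hnn0 k) (hdn k) (GaloisField p (2 * n k)) (hcard k)
  refine ⟨n, fun k => GaloisField p (2 * n k), fun k => inferInstance, C, hns, hdn, hcard, hC1, ?_⟩
  have hq : ∀ k, (0 : ℝ) < (p : ℝ) ^ n k := by
    intro k
    have : (0 : ℝ) < (p : ℝ) := by exact_mod_cast hp.pos
    positivity
  have hb : ∀ k, |((C k).card : ℝ) / ((p : ℝ) ^ n k) - (1 / (d : ℝ)) ^ (jj k)| ≤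
      1 / ((k : ℝ) + 1) := by
    intro k
    have h := hC2 k
    have e : ((C k).card : ℝ) / ((p : ℝ) ^ n k) - (1 / (d : ℝ)) ^ (jj k) =
        (((C k).card : ℝ) - (1 / (d : ℝ)) ^ (jj k) * (p : ℝ) ^ n k) / (p : ℝ) ^ n k := by
      have := (hq k).ne'
      field_simp
    rw [e, abs_div, abs_of_pos (hq k), div_le_iff₀ (hq k)]
    exact h
  have hz : Filter.Tendsto
      (fun k => ((C k).card : ℝ) / ((p : ℝ) ^ n k) - (1 / (d : ℝ)) ^ (jj k))
      Filter.atTop (nhds 0) :=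
    squeeze_zero_norm (fun k => by rw [Real.norm_eq_abs]; exact hb k)
      tendsto_one_div_add_atTop_nhds_zero_nat
  have := hz.add hjj
  simpa using this

end GPC
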