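import Pool.Agent.Lib.MP_56e792_co.S.Defs
import Pool.Agent.Lib.MP_56e792_co.S.Icd
import Pool.Agent.Lib.MP_56e792_co.S.Chn
import Pool.Agent.Lib.MP_56e792_co.S.PaB

/-!
# MP_56e792_co, all prime powers, module PrB

Part B. `parB` with `π = p^w`, `q0 = p^L` gives `T`, `s0`; `A0 := 12 p^L (p^w-1)^T`. For `s ≥ s0`: `chain` with `bd t = 6 (p^L (p^w-1)^t)`; `hcod` is `IC_codim` with `j = s - t`, `1 ≤ T ≤ t` gives `j < s`, `s - j = t`;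
`IC ≠ ⊥` for `t0`: the codimension is `< D^2` by `6 (..) < π^(s-t0)`.
-/

set_option autoImplicit false
set_option linter.unusedVariables false

namespace GPC

open Polynomial
open Pool.Agent.Lib.MP_56e792_co (J mem_J GP)

open Classical in
theorem propB {p d L w : ℕ} (h : Num p d L w) (η : ℝ) (hη : 0 < η) :
    ∃ A0 s0 : ℕ, ∀ s ≥ s0, ∀ (k : Type) [Field k] [CharP k p] (C : Finset k),
      Clq (p ^ L * (p ^ w) ^ s) (mm d (p ^ L) (p ^ w) s) C →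
      mm d (p ^ L) (p ^ w) s + 1 ≤ C.card →
      ∃ R : Finset (k[X][X]), (∀ r ∈ R, Irreducible r) ∧ ∑ r ∈ R, (dX r + dY r) ≤ A0 ∧
        ((C.filter (fun c => ∀ r ∈ R, pt c (c ^ (p ^ L * (p ^ w) ^ s)) r ≠ 0)).card : ℝ) ≤
          η * ((p : ℝ) ^ L * ((p : ℝ) ^ w) ^ s) := by
  have hp2 : 2 ≤ p := h.hp.two_le
  have hπ : 2 ≤ p ^ w := by
    calc 2 ≤ p := hp2
      _ = p ^ 1 := (pow_one p).symm
      _ ≤ p ^ w := Nat.pow_le_pow_right (by omega) h.hw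
  have hq0 : 1 ≤ p ^ L := Nat.one_le_pow _ _ (by omega)
  obtain ⟨T, s0, hT1, hmain⟩ := parB (p ^ w) (p ^ L) hπ hq0 η hη
  refine ⟨2 * (6 * (p ^ L * (p ^ w - 1) ^ T)), s0, ?_⟩
  intro s hs k _ _ C hC hcard
  obtain ⟨t0, hTt, ht0, hlt, hle⟩ := hmain s hs
  have hcod : ∀ t, T ≤ t → t ≤ t0 → (p ^ w) ^ (s - t) * (p ^ w) ^ (s - t) ≤
      Module.finrank k (IC (p ^ L * (p ^ w) ^ s) C ((p ^ w) ^ (s - t))) +
        (p ^ w) ^ (s - t) * (6 * (p ^ L * (p ^ w - 1) ^ t)) := by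
    intro t h1 h2
    have h3 := IC_codim h (s := s) (j := s - t) (by omega) hC hcard
    have h4 : s - (s - t) = t := by omega
    rw [h4] at h3
    calc (p ^ w) ^ (s - t) * (p ^ w) ^ (s - t) ≤ _ := h3
      _ = _ := by ring
  have h0 : IC (p ^ L * (p ^ w) ^ s) C ((p ^ w) ^ (s - t0)) ≠ ⊥ := by
    intro hbot
    have h1 := hcod t0 hTt le_rfl
    rw [hbot, finrank_bot, zero_add] at h1
    have h2 := Nat.le_of_mul_le_mul_left h1 (pow_pos (by omega) _)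
    omega
  obtain ⟨R, hR1, hR2, hR3⟩ := chain (p ^ L * (p ^ w) ^ s) C (π := p ^ w) (s := s) (T := T)
    (t0 := t0) (fun t => 6 * (p ^ L * (p ^ w - 1) ^ t)) (by omega) hTt ht0 hcod h0
  refine ⟨R, hR1, hR2, ?_⟩
  have hcast : ((p ^ w - 1 : ℕ) : ℝ) = ((p ^ w : ℕ) : ℝ) - 1 := by
    rw [Nat.cast_sub (by omega), Nat.cast_one]
  have h1 : ((C.filter (fun c => ∀ r ∈ R, pt c (c ^ (p ^ L * (p ^ w) ^ s)) r ≠ 0)).card : ℝ) ≤
      ((2 * ((p ^ w) ^ (s - t0)) ^ 2 + ∑ t ∈ Finset.Ico T t0,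
        2 * (6 * (p ^ L * (p ^ w - 1) ^ (t + 1))) * (p ^ w) ^ (s - t) : ℕ) : ℝ) :=
    Nat.cast_le.mpr hR3
  refine h1.trans ?_
  have h2 : ((2 * ((p ^ w) ^ (s - t0)) ^ 2 + ∑ t ∈ Finset.Ico T t0,
        2 * (6 * (p ^ L * (p ^ w - 1) ^ (t + 1))) * (p ^ w) ^ (s - t) : ℕ) : ℝ) =
      (2 * (((p ^ w : ℕ) : ℝ) ^ (s - t0)) ^ 2 + ∑ t ∈ Finset.Ico T t0,
        2 * (6 * (((p ^ L : ℕ) : ℝ) * (((p ^ w : ℕ) : ℝ) - 1) ^ (t + 1))) *
          ((p ^ w : ℕ) : ℝ) ^ (s - t)) := by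
    rw [Nat.cast_add, Nat.cast_sum]
    congr 1
    · push_cast
      ring
    · refine Finset.sum_congr rfl (fun t _ => ?_)
      rw [Nat.cast_mul, Nat.cast_mul, Nat.cast_mul, Nat.cast_mul, Nat.cast_pow (p ^ w - 1), hcast,
        Nat.cast_pow (p ^ w)]
      norm_num
  rw [h2]
  refine hle.trans (le_of_eq ?_)
  push_cast
  ring

end GPC
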