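import Pool.Agent.Lib.MP_56e792_co.S.Defs
import Pool.Agent.Lib.MP_56e792_co.S.PrB
import Pool.Agent.Lib.MP_56e792_co.S.Apc
import Pool.Agent.Lib.MP_56e792_co.S.Cir
import Pool.Agent.Lib.MP_56e792_co.S.Col

/-!
# MP_56e792_co, all prime powers, module Mai

For one `n` (everything else fixed). `L = n % w`, `s = n / w` (`p^w = 1 mod d`, `w = φ(d)`), `k = AlgebraicClosure F`,
`C' = C.image (algebraMap F k)` (`clq_map`). Suppose `C.card > (1/d + ε) q`; for large `n` this is `≥ m + 1`. `propB` with `η = ε/4` for the number `L`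
(maxima over `L < w` of `A0`, `s0`); `R.card ≤ A0` (an irreducible polynomial has `dX + dY ≥ 1`), so some `H ∈ R` has at least `γ q` points, `γ = ε/(4 (A0 + 1))`; `appC`: `dX H = dY H = 1`, at most `K0` points of `C'` outside. `circ`: either
`C.card ≤ m + 1 + K0 ≤ (1/d + ε) q` for large `n`, or `b c + c' c^q + e = 0` for all `c ∈ C'`: then `C` is collinear, so `col_card`.
-/

set_option autoImplicit false
set_option linter.unusedVariables false

namespace GPC

open Polynomial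
open Pool.Agent.Lib.MP_56e792_co (J mem_J GP)

/-- an irreducible polynomial is not constant -/
private theorem mai_deg {k : Type} [Field k] {H : k[X][X]} (hH : Irreducible H) :
    1 ≤ dX H + dY H := by
  by_contra hcon
  have h1 : dX H = 0 := by omega
  have h2 : dY H = 0 := by omega
  unfold dX at h1
  unfold dY at h2
  rw [Polynomial.natDegree_eq_zero] at h2
  obtain ⟨g, hg⟩ := h2
  have h3 : Bivariate.swap H = g.map (C : k →+* k[X]) := by
    rw [← hg]; exact Bivariate.swap_C g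
  rw [h3, Polynomial.natDegree_map_eq_of_injective (C_injective), Polynomial.natDegree_eq_zero] at h1
  obtain ⟨a, ha⟩ := h1
  rw [← hg, ← ha] at hH
  by_cases h0 : a = 0
  · rw [h0, C_0, C_0] at hH
    exact hH.ne_zero rfl
  · exact hH.not_isUnit (Polynomial.isUnit_C.2 (Polynomial.isUnit_C.2 (Ne.isUnit h0)))

open Classical in
private theorem mai_cover {k : Type} [Field k] {q A : ℕ} (C : Finset k) (R : Finset (k[X][X]))
    (hR : ∀ r ∈ R, Irreducible r) (hA : ∑ r ∈ R, (dX r + dY r) ≤ A) {η γ : ℝ} (hγ : 0 ≤ γ)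
    (h0 : ((C.filter (fun c => ∀ r ∈ R, pt c (c ^ q) r ≠ 0)).card : ℝ) ≤ η)
    (hC : η + A * γ < (C.card : ℝ)) :
    ∃ r ∈ R, dX r + dY r ≤ A ∧ γ ≤ ((C.filter (fun c => pt c (c ^ q) r = 0)).card : ℝ) := by
  by_contra hcon
  push Not at hcon
  have hle : ∀ r ∈ R, dX r + dY r ≤ A := fun r hr =>
    (Finset.single_le_sum (f := fun r => dX r + dY r) (fun _ _ => Nat.zero_le _) hr).trans hA
  have hcard : R.card ≤ A := by
    calc R.card = ∑ r ∈ R, 1 := by rw [Finset.sum_const, smul_eq_mul, mul_one]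
      _ ≤ ∑ r ∈ R, (dX r + dY r) := Finset.sum_le_sum fun r hr => mai_deg (hR r hr)
      _ ≤ A := hA
  have hsub : C ⊆ (C.filter (fun c => ∀ r ∈ R, pt c (c ^ q) r ≠ 0)) ∪
      R.biUnion (fun r => C.filter (fun c => pt c (c ^ q) r = 0)) := by
    intro c hc
    rw [Finset.mem_union, Finset.mem_filter, Finset.mem_biUnion]
    by_cases h : ∀ r ∈ R, pt c (c ^ q) r ≠ 0
    · exact Or.inl ⟨hc, h⟩
    · right
      push Not at h
      obtain ⟨r, hr, h⟩ := h
      exact ⟨r, hr, Finset.mem_filter.2 ⟨hc, h⟩⟩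
  have h1 : (C.card : ℝ) ≤ ((C.filter (fun c => ∀ r ∈ R, pt c (c ^ q) r ≠ 0)).card : ℝ) +
      ∑ r ∈ R, ((C.filter (fun c => pt c (c ^ q) r = 0)).card : ℝ) := by
    have h2 := (Finset.card_le_card hsub).trans
      ((Finset.card_union_le _ _).trans (Nat.add_le_add_left Finset.card_biUnion_le _))
    exact_mod_cast h2
  have h3 : ∑ r ∈ R, ((C.filter (fun c => pt c (c ^ q) r = 0)).card : ℝ) ≤ A * γ := by
    calc ∑ r ∈ R, ((C.filter (fun c => pt c (c ^ q) r = 0)).card : ℝ) ≤ ∑ r ∈ R, γ :=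
          Finset.sum_le_sum fun r hr => (hcon r hr (hle r hr)).le
      _ = R.card * γ := by rw [Finset.sum_const, nsmul_eq_mul]
      _ ≤ A * γ := mul_le_mul_of_nonneg_right (by exact_mod_cast hcard) hγ
  linarith

open Classical in
private theorem mai_split {k : Type} [Field k] {q a b : ℕ} {H : k[X][X]} (C : Finset k)
    (h1 : (C.filter (fun c => pt c (c ^ q) H = 0)).card ≤ a)
    (h2 : (C.filter (fun c => pt c (c ^ q) H ≠ 0)).card ≤ b) : C.card ≤ a + b := by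
  have h3 := Finset.card_filter_add_card_filter_not (s := C) (fun c => pt c (c ^ q) H = 0)
  have h4 : (C.filter (fun c => ¬ pt c (c ^ q) H = 0)).card ≤ b := h2
  omega

/-- large cliques are collinear -/
theorem main_col (p d : ℕ) (hp : p.Prime) (hd : 2 ≤ d) (ε : ℝ) (hε : 0 < ε) :
    ∃ n0 : ℕ, ∀ n ≥ n0, d ∣ p ^ n + 1 → ∀ (F : Type) [Field F], Nat.card F = (p ^ n) ^ 2 →
      ∀ C : Finset F, (GP F d).IsClique (C : Set F) →
        (C.card : ℝ) ≤ (1 / d + ε) * (p : ℝ) ^ n ∨ (1 ≤ n ∧ 2 ≤ C.card ∧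
          ∀ v ∈ C, ∀ a ∈ C, ∀ b ∈ C,
            (a - v) ^ p ^ n * (b - v) = (a - v) * (b - v) ^ p ^ n) := by
  classical
  by_cases hpd : p ∣ d
  · refine ⟨1, fun n hn hdvd => ?_⟩
    exfalso
    have h1 : p ∣ p ^ n + 1 := hpd.trans hdvd
    have h2 : p ∣ p ^ n := dvd_pow_self p (by omega)
    have h3 : p ∣ 1 := (Nat.dvd_add_right h2).1 h1
    exact hp.one_lt.ne' (Nat.dvd_one.1 h3)
  have hcop : Nat.Coprime p d := (Nat.Prime.coprime_iff_not_dvd hp).2 hpd
  obtain ⟨w, hw⟩ : ∃ w, w = Nat.totient d := ⟨_, rfl⟩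
  have hw1 : 1 ≤ w := by rw [hw]; exact Nat.totient_pos.2 (by omega)
  have hpw : p ^ w ≡ 1 [MOD d] := by rw [hw]; exact Nat.ModEq.pow_totient hcop
  have hπ : d ∣ p ^ w - 1 := (Nat.modEq_iff_dvd' (Nat.one_le_pow _ _ hp.pos)).1 hpw.symm
  have key : ∀ L : ℕ, ∃ As : ℕ × ℕ, Num p d L w → ∀ s ≥ As.2, ∀ (k : Type) [Field k] [CharP k p]
      (C : Finset k), Clq (p ^ L * (p ^ w) ^ s) (mm d (p ^ L) (p ^ w) s) C →
      mm d (p ^ L) (p ^ w) s + 1 ≤ C.card →
      ∃ R : Finset (k[X][X]), (∀ r ∈ R, Irreducible r) ∧ ∑ r ∈ R, (dX r + dY r) ≤ As.1 ∧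
        ((C.filter (fun c => ∀ r ∈ R, pt c (c ^ (p ^ L * (p ^ w) ^ s)) r ≠ 0)).card : ℝ) ≤
          ε / 4 * ((p : ℝ) ^ L * ((p : ℝ) ^ w) ^ s) := by
    intro L
    by_cases h : Num p d L w
    · obtain ⟨A0, s0, h1⟩ := propB h (ε / 4) (by positivity)
      exact ⟨(A0, s0), fun _ => h1⟩
    · exact ⟨(0, 0), fun h1 => absurd h1 h⟩
  choose f hf using key
  obtain ⟨A, hA⟩ : ∃ A, A = (Finset.range w).sup (fun L => (f L).1) := ⟨_, rfl⟩
  obtain ⟨S, hS⟩ : ∃ S, S = (Finset.range w).sup (fun L => (f L).2) := ⟨_, rfl⟩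
  obtain ⟨γ, hγ⟩ : ∃ γ : ℝ, γ = ε / (4 * (A + 1)) := ⟨_, rfl⟩
  have hγ0 : 0 < γ := by rw [hγ]; positivity
  obtain ⟨n2, K0, happ⟩ := appC p d A hp hd γ hγ0
  obtain ⟨N1, hN1⟩ := exists_nat_ge ((K0 + 3 : ℝ) / ε)
  refine ⟨w * (S + 1) + n2 + N1 + 1, fun n hn hdvd F _ hcard C hC => ?_⟩
  by_cases hle : (C.card : ℝ) ≤ (1 / d + ε) * (p : ℝ) ^ n
  · exact Or.inl hle
  right
  rw [not_le] at hle
  have hd0 : (0 : ℝ) < (d : ℝ) := by exact_mod_cast (show 0 < d by omega)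
  have hnq : n < p ^ n := Nat.lt_pow_self hp.one_lt
  obtain ⟨q, hq⟩ : ∃ q, q = p ^ n := ⟨_, rfl⟩
  have hqr : (p : ℝ) ^ n = (q : ℝ) := by rw [hq]; push_cast; rfl
  have hq0 : (0 : ℝ) < (q : ℝ) := by exact_mod_cast (show 0 < q by omega)
  have hqN : (K0 + 3 : ℝ) ≤ ε * q := by
    have h1 : (N1 : ℝ) ≤ (q : ℝ) := by exact_mod_cast (show N1 ≤ q by omega)
    have h2 : (K0 + 3 : ℝ) / ε ≤ q := hN1.trans h1
    rw [div_le_iff₀ hε] at h2
    linarith
  obtain ⟨m, hm⟩ := hdvd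
  have hmd : m * d = p ^ n + 1 := by rw [hm, mul_comm]
  have hmr : (m : ℝ) * d = q + 1 := by rw [← hqr]; exact_mod_cast hmd
  have hm1 : 1 ≤ m := by
    rcases Nat.eq_zero_or_pos m with h0 | h0
    · rw [h0, zero_mul] at hmd; omega
    · exact h0
  have hmle : (m : ℝ) ≤ 1 / d * q + 1 := by
    have h1 : (m : ℝ) = (q + 1) / d := by rw [eq_div_iff hd0.ne']; exact hmr
    have h2 : (1 : ℝ) / d ≤ 1 := by
      rw [div_le_one hd0]; exact_mod_cast (show 1 ≤ d by omega)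
    rw [h1, add_div]
    have h3 : (q : ℝ) / d = 1 / d * q := by ring
    linarith
  rw [hqr] at hle
  have hexp : (1 / (d : ℝ) + ε) * q = 1 / d * q + ε * q := by ring
  rw [hexp] at hle
  -- the decomposition of n
  obtain ⟨L, hL⟩ : ∃ L, L = n % w := ⟨_, rfl⟩
  obtain ⟨s, hs⟩ : ∃ s, s = n / w := ⟨_, rfl⟩
  have hLw : L < w := by rw [hL]; exact Nat.mod_lt _ (by omega)
  have hn2 : n = L + w * s := by rw [hL, hs]; exact (Nat.mod_add_div n w).symm
  have hsS : S + 1 ≤ s := by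
    rw [hs, Nat.le_div_iff_mul_le (by omega)]
    calc (S + 1) * w = w * (S + 1) := Nat.mul_comm _ _
      _ ≤ n := by omega
  have hpn : p ^ L * (p ^ w) ^ s = p ^ n := by rw [← pow_mul, ← pow_add, ← hn2]
  have hmm : mm d (p ^ L) (p ^ w) s = m := by
    unfold mm
    rw [hpn, ← hmd]
    exact Nat.mul_div_cancel _ (by omega)
  have hnum : Num p d L w := by
    refine ⟨hp, hd, hw1, hπ, ?_⟩
    have h1 : p ^ L * (p ^ w) ^ s + 1 ≡ p ^ L + 1 [MOD d] := by
      have h2 : (p ^ w) ^ s ≡ 1 ^ s [MOD d] := hpw.pow s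
      rw [one_pow] at h2
      have h3 : p ^ L * (p ^ w) ^ s ≡ p ^ L * 1 [MOD d] := Nat.ModEq.mul_left _ h2
      rw [mul_one] at h3
      exact h3.add_right 1
    rw [hpn] at h1
    have h4 : p ^ n + 1 ≡ 0 [MOD d] := (Nat.modEq_zero_iff_dvd).2 ⟨m, hm⟩
    exact (Nat.modEq_zero_iff_dvd).1 (h1.symm.trans h4)
  have hfA : (f L).1 ≤ A := by
    rw [hA]; exact Finset.le_sup (f := fun L => (f L).1) (Finset.mem_range.2 hLw)
  have hfS : (f L).2 ≤ S := by
    rw [hS]; exact Finset.le_sup (f := fun L => (f L).2) (Finset.mem_range.2 hLw)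
  -- the clique in the algebraic closure
  have hchar := (Pool.Agent.Lib.MP_56e792_co.char_of_card (F := F) hp (q := p ^ n) (e := n) rfl hcard).2
  obtain ⟨i, hi⟩ : ∃ i : F →+* AlgebraicClosure F, i = algebraMap F (AlgebraicClosure F) := ⟨_, rfl⟩
  have hinj : Function.Injective i := i.injective
  have hchark : CharP (AlgebraicClosure F) p := charP_of_injective_ringHom hinj p
  have hclq : Clq (p ^ n) m (C.image i) :=
    clq_map hp (by omega) rfl hcard hmd C hC i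
  have hcardC : (C.image i).card = C.card := Finset.card_image_of_injective _ hinj
  have hmC : m + 1 ≤ (C.image i).card := by
    rw [hcardC]
    have h1 : (m : ℝ) < (C.card : ℝ) := by
      have : (0 : ℝ) ≤ (K0 : ℝ) := Nat.cast_nonneg _
      linarith
    have h2 : m < C.card := by exact_mod_cast h1
    omega
  obtain ⟨R, hR1, hR2, hR3⟩ := hf L hnum s (by omega) (AlgebraicClosure F) (C.image i)
    (by rw [hpn, hmm]; exact hclq) (by rw [hmm]; exact hmC)
  rw [hpn] at hR3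
  have hpr : ((p : ℝ) ^ L * ((p : ℝ) ^ w) ^ s) = q := by
    rw [← hqr, ← pow_mul, ← pow_add, ← hn2]
  rw [hpr] at hR3
  have hAγ : (A : ℝ) * (γ * q) ≤ ε / 4 * q := by
    have h1 : (A : ℝ) * γ ≤ ε / 4 := by
      rw [hγ, mul_div_assoc', div_le_div_iff₀ (by positivity) (by norm_num)]
      nlinarith
    calc (A : ℝ) * (γ * q) = A * γ * q := by ring
      _ ≤ ε / 4 * q := mul_le_mul_of_nonneg_right h1 hq0.le
  have hbig : ε / 4 * q + A * (γ * q) < ((C.image i).card : ℝ) := by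
    rw [hcardC]
    have h1 : (0 : ℝ) ≤ 1 / d * q := by positivity
    have h2 : 0 < ε * q := by positivity
    linarith
  obtain ⟨H, hHR, hHA, hHγ⟩ := mai_cover (A := A) (C.image i) R hR1 (hR2.trans hfA)
    (by positivity : 0 ≤ γ * q) hR3 hbig
  rw [← hqr] at hHγ
  obtain ⟨hX1, hY1, hout⟩ := happ n (by omega) m hmd (AlgebraicClosure F) (C.image i) hclq H
    (hR1 H hHR) hHA hHγ
  rcases circ hX1 hY1 (hR1 H hHR) hm1 hclq with hc | ⟨b, c', e, hb, hc', hall⟩
  · exfalso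
    have h1 := mai_split (C.image i) hc hout
    rw [hcardC] at h1
    have h2 : (C.card : ℝ) ≤ (m : ℝ) + 1 + K0 := by exact_mod_cast h1
    linarith
  · refine ⟨by omega, ?_, ?_⟩
    · rw [hcardC] at hmC
      omega
    · intro v hv a ha b' hb'
      apply hinj
      have ea := hall (i a) (Finset.mem_image_of_mem i ha)
      have ev := hall (i v) (Finset.mem_image_of_mem i hv)
      have eb := hall (i b') (Finset.mem_image_of_mem i hb')
      have f1 : i ((a - v) ^ p ^ n) = i a ^ p ^ n - i v ^ p ^ n := by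
        rw [Pool.Agent.Lib.MP_56e792_co.frob_sub hp rfl hcard, map_sub, map_pow, map_pow]
      have f2 : i ((b' - v) ^ p ^ n) = i b' ^ p ^ n - i v ^ p ^ n := by
        rw [Pool.Agent.Lib.MP_56e792_co.frob_sub hp rfl hcard, map_sub, map_pow, map_pow]
      rw [map_mul, map_mul, f1, f2, map_sub, map_sub]
      apply mul_left_cancel₀ hc'
      linear_combination (i b' - i v) * (ea - ev) - (i a - i v) * (eb - ev)

theorem main_fixed (p d : ℕ) (hp : p.Prime) (hd : 2 ≤ d) (ε : ℝ) (hε : 0 < ε) :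
    ∃ n0 : ℕ, ∀ n ≥ n0, d ∣ p ^ n + 1 → ∀ (F : Type) [Field F], Nat.card F = (p ^ n) ^ 2 →
      ∀ C : Finset F, Maximal (fun s : Finset F => (GP F d).IsClique (s : Set F)) C →
        (C.card : ℝ) ≤ (1 / d + ε) * (p : ℝ) ^ n ∨ C.card = p ^ n := by
  obtain ⟨n0, h⟩ := main_col p d hp hd ε hε
  refine ⟨n0, fun n hn hdvd F _ hcard C hC => ?_⟩
  rcases h n hn hdvd F hcard C hC.prop with h1 | ⟨h1, h2, h3⟩
  · exact Or.inl h1
  · right
    obtain ⟨m, hm⟩ := hdvd
    exact col_card hp (e := n) (m := m) h1 rfl hcard hd (by rw [hm, mul_comm]) C hC h2 h3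

end GPC
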