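import Pool.Agent.Lib.MP_56e792_co.S.Defs
import Pool.Agent.Lib.MP_56e792_co.S.Mai
import Pool.Agent.Lib.MP_56e792_co.S.Old

/-!
# MP_56e792_co, all prime powers, module Lim

If `ringChar (F k)` is unbounded (`∀ P, ∃ᶠ k, P ≤ ringChar (F k)`): for every `P` pass to a subsequence (`Filter.extraction_of_frequently_atTop`) and use `limit_points` (Old.lean): `x ≤ 1/d + 1/max(..)` or `x = 1`; let `P → ∞`.
Otherwise there is `P` with `ringChar (F k) < P` for all large `k`; some prime `p` occurs infinitely often; along this subsequence `q k = p ^ n_k`, `n_k → ∞` (`q` strictly increasing; `q k ∣ p ^ _` as in `maximal_card`), and `main_fixed` gives for every `ε`: `|C k| / q k ≤ 1/d + ε` or `= 1` for all large `k`,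
so `x ≤ 1/d + ε` or `x = 1`.
-/

set_option autoImplicit false
set_option linter.unusedVariables false

namespace GPC

open Polynomial
open Pool.Agent.Lib.MP_56e792_co (J mem_J GP)

theorem lim_final (d : ℕ) (hd : 2 ≤ d) (x : ℝ) (q : ℕ → ℕ) (F : ℕ → Type)
    (inst : ∀ k, Field (F k)) (C : ∀ k, Finset (F k)) (hmono : StrictMono q)
    (hdvd : ∀ k, d ∣ q k + 1) (hcard : ∀ k, Nat.card (F k) = q k ^ 2)
    (hC : ∀ k, Maximal (fun s : Finset (F k) => (GP (F k) d).IsClique (s : Set (F k))) (C k))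
    (hlim : Filter.Tendsto (fun k => ((C k).card : ℝ) / (q k : ℝ)) Filter.atTop (nhds x)) :
    x ≤ 1 / (d : ℝ) ∨ x = 1 := by
  have hd0 : (0 : ℝ) < (d : ℝ) := by
    have : 0 < d := by omega
    exact_mod_cast this
  by_contra hcon
  rw [not_or, not_le] at hcon
  obtain ⟨hx1, hx2⟩ := hcon
  by_cases hb : ∃ P : ℕ, ∀ᶠ k in Filter.atTop, ringChar (F k) < P
  · obtain ⟨P, hP⟩ := hb
    -- some value occurs infinitely often
    have hr : ∃ r : ℕ, ∃ᶠ k in Filter.atTop, ringChar (F k) = r := by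
      by_contra hno
      simp only [not_exists, Filter.not_frequently] at hno
      have h1 : ∀ᶠ k in Filter.atTop, ∀ r ∈ Finset.range P, ¬ ringChar (F k) = r :=
        (Filter.eventually_all_finset (Finset.range P)).mpr (fun r _ => hno r)
      obtain ⟨k, h2, h3⟩ := (h1.and hP).exists
      exact h2 (ringChar (F k)) (Finset.mem_range.mpr h3) rfl
    obtain ⟨r, hr⟩ := hr
    obtain ⟨φ, hφ, hφr⟩ := Filter.extraction_of_frequently_atTop hr
    have hqφ : StrictMono (fun n => q (φ n)) := hmono.comp hφ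
    have hle : ∀ n, n ≤ q (φ n) := fun n => hqφ.le_apply
    -- the field number `n`
    have hfield : ∀ n, 1 ≤ n → r.Prime ∧ ∃ e : ℕ, q (φ n) = r ^ e := by
      intro n hn
      have hq0 : 0 < q (φ n) := lt_of_lt_of_le hn (hle n)
      have hfin : Finite (F (φ n)) := Nat.finite_of_card_ne_zero (by rw [hcard]; positivity)
      have := Fintype.ofFinite (F (φ n))
      obtain ⟨m, hp, hm⟩ := FiniteField.card (F (φ n)) (ringChar (F (φ n)))
      rw [hφr n] at hp hm
      refine ⟨hp, ?_⟩
      have hq2 : q (φ n) ^ 2 = r ^ (m : ℕ) := by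
        rw [← hcard, Nat.card_eq_fintype_card, hm]
      obtain ⟨e, -, hqe⟩ := (Nat.dvd_prime_pow hp).mp (show q (φ n) ∣ r ^ (m : ℕ) by
        rw [← hq2]; exact dvd_pow_self _ two_ne_zero)
      exact ⟨e, hqe⟩
    have hrp : r.Prime := (hfield 1 le_rfl).1
    set ε : ℝ := (x - 1 / (d : ℝ)) / 2 with hε
    have hε0 : 0 < ε := by rw [hε]; linarith
    obtain ⟨n0, hn0⟩ := main_fixed r d hrp hd ε hε0
    have hev : ∀ᶠ n in Filter.atTop, ((C (φ n)).card : ℝ) / (q (φ n) : ℝ) ≤ 1 / (d : ℝ) + ε ∨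
        ((C (φ n)).card : ℝ) / (q (φ n) : ℝ) = 1 := by
      filter_upwards [Filter.eventually_ge_atTop (r ^ n0 + 1)] with n hn
      have hn1 : 1 ≤ n := by omega
      obtain ⟨-, e, he⟩ := hfield n hn1
      have hlt : r ^ n0 < r ^ e := by
        rw [← he]
        exact lt_of_lt_of_le (by omega) (hle n)
      have hen : n0 ≤ e := ((Nat.pow_lt_pow_iff_right hrp.one_lt).mp hlt).le
      have hq0 : (0 : ℝ) < (q (φ n) : ℝ) := by
        have : 0 < q (φ n) := lt_of_lt_of_le hn1 (hle n)
        exact_mod_cast this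
      have hcast : ((q (φ n) : ℕ) : ℝ) = (r : ℝ) ^ e := by rw [he]; push_cast; rfl
      have hdv : d ∣ r ^ e + 1 := by rw [← he]; exact hdvd (φ n)
      have hca : Nat.card (F (φ n)) = (r ^ e) ^ 2 := by rw [← he]; exact hcard (φ n)
      rcases hn0 e hen hdv (F (φ n)) hca (C (φ n)) (hC (φ n)) with h | h
      · left
        rw [div_le_iff₀ hq0, hcast]
        exact h
      · right
        rw [h, ← he, div_self hq0.ne']
    have hlim' : Filter.Tendsto (fun n => ((C (φ n)).card : ℝ) / (q (φ n) : ℝ)) Filter.atTop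
        (nhds x) := hlim.comp hφ.tendsto_atTop
    have hlt : 1 / (d : ℝ) + ε < x := by rw [hε]; linarith
    have h1 : ∀ᶠ n in Filter.atTop, ((C (φ n)).card : ℝ) / (q (φ n) : ℝ) = 1 := by
      filter_upwards [hev, hlim'.eventually (lt_mem_nhds hlt)] with n h2 h3
      rcases h2 with h2 | h2
      · exact absurd h2 (not_le.mpr h3)
      · exact h2
    have h2 : Filter.Tendsto (fun n => ((C (φ n)).card : ℝ) / (q (φ n) : ℝ)) Filter.atTop
        (nhds 1) := by
      refine tendsto_const_nhds.congr' ?_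
      filter_upwards [h1] with n hn
      exact hn.symm
    exact hx2 (tendsto_nhds_unique hlim' h2)
  · have hb' : ∀ P : ℕ, ∃ᶠ k in Filter.atTop, P ≤ ringChar (F k) := by
      intro P
      rw [Filter.frequently_iff]
      intro U hU
      by_contra hno
      apply hb
      refine ⟨P, ?_⟩
      filter_upwards [hU] with k hk
      by_contra h
      exact hno ⟨k, hk, not_lt.mp h⟩
    obtain ⟨P, hP⟩ := exists_nat_gt (1 / (x - 1 / (d : ℝ)))
    have hx0 : 0 < x - 1 / (d : ℝ) := by linarith
    obtain ⟨φ, hφ, hφP⟩ := Filter.extraction_of_frequently_atTop (hb' P)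
    have hP0 : (0 : ℝ) < (P : ℝ) := lt_trans (by positivity) hP
    have hlp := limit_points d P hd x (fun n => q (φ n)) (fun n => F (φ n))
      (fun n => inst (φ n)) (fun n => C (φ n)) (hmono.comp hφ) (fun n => hdvd (φ n))
      (fun n => hcard (φ n)) hφP (fun n => hC (φ n)) (hlim.comp hφ.tendsto_atTop)
    rcases hlp with h | h
    · have h1 : (P : ℝ) ≤ ((max d (max 3 P) : ℕ) : ℝ) := by
        have : P ≤ max d (max 3 P) := le_trans (le_max_right 3 P) (le_max_right _ _)
        exact_mod_cast this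
      have h2 : 1 / ((max d (max 3 P) : ℕ) : ℝ) ≤ 1 / (P : ℝ) :=
        one_div_le_one_div_of_le hP0 h1
      have h3 : 1 / (P : ℝ) < x - 1 / (d : ℝ) := by
        rw [div_lt_iff₀ hP0]
        rw [div_lt_iff₀ hx0] at hP
        linarith
      linarith
    · exact hx2 h

end GPC
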