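import Pool.Agent.Lib.MP_56e792_co.GP

/-!
# MP_56e792_co: exact numbers of neighbours on lines and circles

`card_root`: the `m`-th roots of unity. `card_line_pt`: a point off a line has `m - 1` neighbours
on it. `card_circ`: the points of a circle in one class.
-/

set_option autoImplicit false
set_option linter.unusedVariables false

namespace GPC

open Pool.Agent.Lib.MP_56e792_co

theorem card_root {F : Type} [Field F] {q m d : ℕ} (hq1 : 1 < q) (hcard : Nat.card F = q ^ 2)
    (hmd : m * d = q + 1) : {z : F | z ^ m = 1}.ncard = m := by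
  have hq0 : q ≠ 0 := by omega
  have hm0 : m ≠ 0 := by
    rintro rfl
    omega
  have : Finite F := Nat.finite_of_card_ne_zero (by rw [hcard]; exact pow_ne_zero _ hq0)
  have := Fintype.ofFinite F
  have h1 : Nat.card (powMonoidHom m : Fˣ →* Fˣ).ker = m := by
    rw [IsCyclic.card_powMonoidHom_ker, Nat.card_units, hcard]
    have : q ^ 2 - 1 = m * (d * (q - 1)) := by
      have : q ^ 2 - 1 = q ^ 2 - 1 ^ 2 := by simp
      rw [this, Nat.sq_sub_sq, ← hmd]
      ring
    rw [this, Nat.gcd_mul_right_left]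
  have h2 : {z : F | z ^ m = 1} =
      (fun u : Fˣ => (u : F)) '' ((powMonoidHom m : Fˣ →* Fˣ).ker : Set Fˣ) := by
    ext t
    simp only [Set.mem_ofPred_eq, Set.mem_image, SetLike.mem_coe,
      MonoidHom.mem_ker, powMonoidHom_apply]
    constructor
    · intro ht
      have h0 : t ≠ 0 := by
        rintro rfl
        rw [zero_pow hm0] at ht
        exact zero_ne_one ht
      refine ⟨Units.mk0 t h0, ?_, rfl⟩
      apply Units.ext
      simp only [Units.val_pow_eq_pow_val, Units.val_mk0, Units.val_one]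
      exact ht
    · rintro ⟨u, hu, rfl⟩
      have h3 := congrArg (fun u : Fˣ => (u : F)) hu
      simp only [Units.val_pow_eq_pow_val, Units.val_one] at h3
      exact h3
  rw [h2, Set.ncard_image_of_injective _ Units.val_injective, ← Nat.card_coe_set_eq]
  exact h1

theorem card_line_pt {F : Type} [Field F] {p e q m d : ℕ} (hp : p.Prime) (hq : q = p ^ e)
    (hq1 : 1 < q) (hcard : Nat.card F = q ^ 2) (hmd : m * d = q + 1) {α : F}
    (hα : α ^ q ≠ α) :
    {t : F | t ^ q = t ∧ ((t - α) ^ q) ^ m = (t - α) ^ m}.ncard = m - 1 := by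
  have hq0 : q ≠ 0 := by omega
  have hFin : Finite F := Nat.finite_of_card_ne_zero (by rw [hcard]; exact pow_ne_zero _ hq0)
  have hfs : ∀ a b : F, (a - b) ^ q = a ^ q - b ^ q := fun a b => frob_sub hp hq hcard a b
  have hff : ∀ a : F, (a ^ q) ^ q = a := frob_frob hq0 hcard
  have h0 : ∀ t : F, t ^ q = t → t - α ≠ 0 := by
    intro t ht h
    rw [sub_eq_zero] at h
    rw [h] at ht
    exact hα ht
  have himg : (fun t : F => (t - α ^ q) / (t - α)) ''
      {t : F | t ^ q = t ∧ ((t - α) ^ q) ^ m = (t - α) ^ m} = {z : F | z ^ m = 1} \ {1} := by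
    ext z
    simp only [Set.mem_image, Set.mem_ofPred_eq, Set.mem_sdiff, Set.mem_singleton_iff]
    constructor
    · rintro ⟨t, ⟨ht, htm⟩, rfl⟩
      rw [hfs, ht] at htm
      refine ⟨?_, ?_⟩
      · rw [div_pow, htm, div_self (pow_ne_zero m (h0 t ht))]
      · intro h
        rw [div_eq_one_iff_eq (h0 t ht)] at h
        exact hα (sub_right_injective h)
    · rintro ⟨hz, hz1⟩
      have hz0 : z ≠ 0 := by
        rintro rfl
        have hm0 : m ≠ 0 := by
          rintro rfl
          omega
        rw [zero_pow hm0] at hz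
        exact zero_ne_one hz
      have hzq : z ^ q * z = 1 := by
        rw [← pow_succ, ← hmd, pow_mul, hz, one_pow]
      have hz1' : z - 1 ≠ 0 := sub_ne_zero.mpr hz1
      have hzq1 : z ^ q - 1 ≠ 0 := by
        intro h
        rw [sub_eq_zero] at h
        rw [h, one_mul] at hzq
        exact hz1 hzq
      have ht : ((z * α - α ^ q) / (z - 1)) ^ q = (z * α - α ^ q) / (z - 1) := by
        rw [div_pow, hfs, hfs, mul_pow, hff, one_pow, div_eq_div_iff hzq1 hz1']
        linear_combination (α ^ q - α) * hzq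
      have e1 : (z * α - α ^ q) / (z - 1) - α ^ q = z * (α - α ^ q) / (z - 1) := by
        field_simp
        ring
      have e2 : (z * α - α ^ q) / (z - 1) - α = (α - α ^ q) / (z - 1) := by
        field_simp
        ring
      have hαq : α - α ^ q ≠ 0 := sub_ne_zero.mpr hα.symm
      refine ⟨(z * α - α ^ q) / (z - 1), ⟨ht, ?_⟩, ?_⟩
      · rw [hfs, ht, e1, e2, mul_div_assoc, mul_pow, hz, one_mul]
      · rw [e1, e2]
        field_simp
  have hinj : Set.InjOn (fun t : F => (t - α ^ q) / (t - α))
      {t : F | t ^ q = t ∧ ((t - α) ^ q) ^ m = (t - α) ^ m} := by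
    rintro t ⟨ht, -⟩ s ⟨hs, -⟩ h
    have h1 : (t - α ^ q) / (t - α) = (s - α ^ q) / (s - α) := h
    rw [div_eq_div_iff (h0 t ht) (h0 s hs)] at h1
    have h2 : (t - s) * (α ^ q - α) = 0 := by linear_combination h1
    rcases mul_eq_zero.mp h2 with h3 | h3
    · exact sub_eq_zero.mp h3
    · exact absurd (sub_eq_zero.mp h3) hα
  rw [← Set.ncard_image_of_injOn hinj, himg, Set.ncard_diff_singleton_of_mem (by simp),
    card_root hq1 hcard hmd]

theorem card_circ {F : Type} [Field F] {q m d : ℕ} (hq1 : 1 < q) (hcard : Nat.card F = q ^ 2)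
    (hmd : m * d = q + 1) {ρ τ w0 : F} (hρ : ρ ≠ 0) (h1 : w0 ^ q * w0 = ρ) (h2 : w0 ^ m = τ) :
    {w : F | w ^ q * w = ρ ∧ w ^ m = τ}.ncard = m := by
  have hw0 : w0 ≠ 0 := by
    rintro rfl
    rw [mul_zero] at h1
    exact hρ h1.symm
  have himg : {w : F | w ^ q * w = ρ ∧ w ^ m = τ} = (fun z : F => z * w0) '' {z : F | z ^ m = 1} := by
    ext w
    simp only [Set.mem_ofPred_eq, Set.mem_image]
    constructor
    · rintro ⟨-, hw⟩
      refine ⟨w / w0, ?_, div_mul_cancel₀ _ hw0⟩
      rw [div_pow, hw, h2, div_self]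
      rw [← h2]
      exact pow_ne_zero m hw0
    · rintro ⟨z, hz, rfl⟩
      have hzq : z ^ q * z = 1 := by
        rw [← pow_succ, ← hmd, pow_mul, hz, one_pow]
      refine ⟨?_, ?_⟩
      · rw [mul_pow]
        linear_combination h1 + w0 ^ q * w0 * hzq
      · rw [mul_pow, hz, one_mul, h2]
  have hinj : Function.Injective (fun z : F => z * w0) := fun a b h => mul_right_cancel₀ hw0 h
  rw [himg, Set.ncard_image_of_injective _ hinj, card_root hq1 hcard hmd]

end GPC
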