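import Pool.Agent.Lib.MP_56e792_co.S.Mai
import Pool.Agent.Lib.MP_56e792_co.S.Old

/-!
# MP_56e792_co, all prime powers, module Uni

For fixed `d` and `ε` every maximal clique of `GP(q ^ 2, d)` is a line or has at most `(1 / d + ε) q` points, for all
large prime powers `q`: `main_col` for the finitely many characteristics below `P`, `maximal_clique_dichotomy` for the others.
-/

set_option autoImplicit false
set_option linter.unusedVariables false

namespace GPC

open Pool.Agent.Lib.MP_56e792_co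

/-- collinear and maximal implies a whole line -/
theorem col_line {F : Type} [Field F] {p e q m d : ℕ} (hp : p.Prime) (he : 1 ≤ e)
    (hq : q = p ^ e) (hcard : Nat.card F = q ^ 2) (hmd : m * d = q + 1)
    (C : Finset F) (hC : Maximal (fun s : Finset F => (GP F d).IsClique (s : Set F)) C)
    (h2 : 2 ≤ C.card)
    (hcol : ∀ v ∈ C, ∀ a ∈ C, ∀ b ∈ C, (a - v) ^ q * (b - v) = (a - v) * (b - v) ^ q) :
    C.card = q ∧ ∃ v w : F, w ≠ 0 ∧
      (C : Set F) = {u : F | ∃ t : F, t ^ q = t ∧ u = v + t * w} := by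
  classical
  have hq1 : 1 < q := by rw [hq]; exact Nat.one_lt_pow (by omega) hp.one_lt
  have hq0 : q ≠ 0 := by omega
  have hFin : Finite F := Nat.finite_of_card_ne_zero (by rw [hcard]; exact pow_ne_zero _ hq0)
  obtain ⟨v, hv, b, hb, hvb⟩ := Finset.one_lt_card.mp (show 1 < C.card by omega)
  have hw : b - v ≠ 0 := sub_ne_zero.mpr hvb.symm
  have hwm : ((b - v) ^ q) ^ m = (b - v) ^ m :=
    (adj_iff hp hq hq1 hcard hmd b v hvb.symm).mp (hC.prop hb hv hvb.symm)
  have hsub : (C : Set F) ⊆ {u : F | ∃ t : F, t ^ q = t ∧ u = v + t * (b - v)} := by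
    intro a ha
    refine ⟨(a - v) / (b - v), ?_, ?_⟩
    · have h := hcol v hv a ha b hb
      rw [div_pow, div_eq_div_iff (pow_ne_zero q hw) hw]
      exact h
    · rw [div_mul_cancel₀ _ hw]; ring
  have hfin : {u : F | ∃ t : F, t ^ q = t ∧ u = v + t * (b - v)}.Finite := Set.toFinite _
  have hclique : (GP F d).IsClique {u : F | ∃ t : F, t ^ q = t ∧ u = v + t * (b - v)} := by
    rintro x ⟨s, hs, rfl⟩ y ⟨t, ht, rfl⟩ hne
    exact line_adj hp hq hq1 hcard hmd v (b - v) hwm s t hs ht hne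
  have hle2 : C ≤ hfin.toFinset := by
    intro z hz
    rw [Set.Finite.mem_toFinset]
    exact hsub hz
  have h2' : hfin.toFinset ≤ C := hC.le_of_ge (by
    simp only [Set.Finite.coe_toFinset]; exact hclique) hle2
  have heq : C = hfin.toFinset := le_antisymm hle2 h2'
  have hset : (C : Set F) = {u : F | ∃ t : F, t ^ q = t ∧ u = v + t * (b - v)} := by
    rw [heq, Set.Finite.coe_toFinset]
  refine ⟨?_, v, b - v, hw, hset⟩
  have h3 : {u : F | ∃ t : F, t ^ q = t ∧ u = v + t * (b - v)}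
      = (fun t : F => v + t * (b - v)) '' {t : F | t ^ q = t} := by
    ext u
    simp only [Set.mem_ofPred_eq, Set.mem_image]
    constructor
    · rintro ⟨t, ht, rfl⟩; exact ⟨t, ht, rfl⟩
    · rintro ⟨t, ht, rfl⟩; exact ⟨t, ht, rfl⟩
  have h4 : Function.Injective (fun t : F => v + t * (b - v)) := by
    intro s t hst
    have : s * (b - v) = t * (b - v) := add_left_cancel hst
    exact mul_right_cancel₀ hw this
  rw [← Set.ncard_coe_finset, hset, h3, Set.ncard_image_of_injective _ h4,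
    card_fixed hq1 hcard]

/-- as `maximal_card`, with the line -/
theorem maximal_line {F : Type} [Field F] {q d P : ℕ} (hd : 2 ≤ d) (hdvd : d ∣ q + 1)
    (hcard : Nat.card F = q ^ 2) (hq0 : 0 < q) (hP : P ≤ ringChar F) (C : Finset F)
    (hC : Maximal (fun s : Finset F => (GP F d).IsClique (s : Set F)) C) :
    (∃ m W : ℕ, m * d = q + 1 ∧ W * P ≤ q + 1 ∧ C.card ≤ m + W) ∨
      C.card ^ 3 ≤ q ^ 2 ∨ (C.card = q ∧ ∃ v w : F, w ≠ 0 ∧
      (C : Set F) = {u : F | ∃ t : F, t ^ q = t ∧ u = v + t * w}) := by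
  have hfin : Finite F := Nat.finite_of_card_ne_zero (by rw [hcard]; positivity)
  have := Fintype.ofFinite F
  obtain ⟨n, hp, hn⟩ := FiniteField.card F (ringChar F)
  set p := ringChar F with hpdef
  have hq2 : q ^ 2 = p ^ (n : ℕ) := by
    rw [← hcard, Nat.card_eq_fintype_card, hn]
  obtain ⟨e, -, hqe⟩ := (Nat.dvd_prime_pow hp).mp (show q ∣ p ^ (n : ℕ) by
    rw [← hq2]; exact dvd_pow_self q two_ne_zero)
  have he : 1 ≤ e := by
    rcases Nat.eq_zero_or_pos e with h0 | h0
    · exfalso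
      rw [h0, pow_zero] at hqe
      rw [hqe, one_pow] at hq2
      have h1 : 1 < p ^ (n : ℕ) := Nat.one_lt_pow n.ne_zero hp.one_lt
      omega
    · exact h0
  have hq1 : 1 < q := by rw [hqe]; exact Nat.one_lt_pow (by omega) hp.one_lt
  obtain ⟨m, hm⟩ := hdvd
  have hmd : m * d = q + 1 := by rw [hm, mul_comm]
  have hm0 : m ≠ 0 := by rintro rfl; omega
  have hmq : m < q := by nlinarith
  set ρ := Nat.log p m with hρ
  have hWm : p ^ ρ ≤ m := Nat.pow_log_le_self p hm0
  have hWlt : m < p ^ (ρ + 1) := Nat.lt_pow_succ_log_self hp.one_lt m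
  have hκ : ∀ i, i ≤ m / p ^ ρ → ¬ p ∣ (m / p ^ ρ).choose i := by
    intro i hi
    refine prime_choose hp ?_ hi
    rw [Nat.div_lt_iff_lt_mul (pow_pos hp.pos ρ), ← pow_succ']
    exact hWlt
  have hρe : ρ < e := by
    rw [hqe] at hmq
    exact (Nat.pow_lt_pow_iff_right hp.one_lt).mp (lt_of_le_of_lt hWm hmq)
  have hWp : p ^ ρ * p ≤ q := by
    rw [hqe, ← pow_succ]
    exact Nat.pow_le_pow_right hp.pos hρe
  rcases maximal_clique_dichotomy hp he hqe hcard hd hmd hκ C hC with h | h | h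
  · left
    exact ⟨m, p ^ ρ, hmd, (Nat.mul_le_mul_left _ hP).trans (by omega), h⟩
  · exact Or.inr (Or.inl h.2)
  · exact Or.inr (Or.inr h)

/-- **Every large maximal clique is a line.** -/
theorem uniform (d : ℕ) (hd : 2 ≤ d) (ε : ℝ) (hε : 0 < ε) :
    ∃ q0 : ℕ, ∀ q ≥ q0, d ∣ q + 1 → ∀ (F : Type) (_ : Field F), Nat.card F = q ^ 2 →
      ∀ C : Finset F, Maximal (fun s : Finset F => (GP F d).IsClique (s : Set F)) C →
        (C.card : ℝ) ≤ (1 / d + ε) * q ∨ (C.card = q ∧ ∃ v w : F, w ≠ 0 ∧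
          (C : Set F) = {u : F | ∃ t : F, t ^ q = t ∧ u = v + t * w}) := by
  have hd0 : (0 : ℝ) < (d : ℝ) := by exact_mod_cast (show 0 < d by omega)
  obtain ⟨P, hP⟩ := exists_nat_ge (2 / ε)
  have hP0 : (0 : ℝ) < (P : ℝ) := lt_of_lt_of_le (by positivity) hP
  have key : ∀ p : ℕ, ∃ n0 : ℕ, p.Prime → ∀ n ≥ n0, d ∣ p ^ n + 1 → ∀ (F : Type) [Field F],
      Nat.card F = (p ^ n) ^ 2 → ∀ C : Finset F, (GP F d).IsClique (C : Set F) →
        (C.card : ℝ) ≤ (1 / d + ε) * (p : ℝ) ^ n ∨ (1 ≤ n ∧ 2 ≤ C.card ∧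
          ∀ v ∈ C, ∀ a ∈ C, ∀ b ∈ C,
            (a - v) ^ p ^ n * (b - v) = (a - v) * (b - v) ^ p ^ n) := by
    intro p
    by_cases hp : p.Prime
    · obtain ⟨n0, h⟩ := main_col p d hp hd ε hε
      exact ⟨n0, fun _ => h⟩
    · exact ⟨0, fun h => absurd h hp⟩
  choose f hf using key
  obtain ⟨N1, hN1⟩ := exists_nat_ge (6 / ε)
  refine ⟨(Finset.range P).sup (fun p => p ^ f p) + N1 + d ^ 3 + 1, ?_⟩
  intro q hq hdvd F _ hcard C hC
  have hq0 : 0 < q := by omega
  have hqr : (0 : ℝ) < (q : ℝ) := by exact_mod_cast hq0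
  by_cases hch : P ≤ ringChar F
  · rcases maximal_line hd hdvd hcard hq0 hch C hC with ⟨m, W, h1, h2, h3⟩ | h | h
    · left
      have h1' : (m : ℝ) * d = q + 1 := by exact_mod_cast h1
      have h2' : (W : ℝ) * P ≤ q + 1 := by exact_mod_cast h2
      have h3' : (C.card : ℝ) ≤ m + W := by exact_mod_cast h3
      have f1 : (m : ℝ) = 1 / d * q + 1 / d := by
        have : (m : ℝ) = (q + 1) / d := by rw [eq_div_iff hd0.ne']; exact h1'
        rw [this]; ring
      have f2 : (1 : ℝ) / d ≤ 1 := by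
        rw [div_le_one hd0]; exact_mod_cast (show 1 ≤ d by omega)
      have f3 : (W : ℝ) ≤ ε / 2 * (q + 1) := by
        have g1 : (1 : ℝ) ≤ ε / 2 * P := by
          rw [div_le_iff₀ hε] at hP
          linarith
        have g2 : (0 : ℝ) ≤ (W : ℝ) := Nat.cast_nonneg _
        calc (W : ℝ) = W * 1 := (mul_one _).symm
          _ ≤ W * (ε / 2 * P) := mul_le_mul_of_nonneg_left g1 g2
          _ = ε / 2 * (W * P) := by ring
          _ ≤ ε / 2 * (q + 1) := mul_le_mul_of_nonneg_left h2' (by positivity)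
      have f4 : (6 : ℝ) ≤ ε * q := by
        have g1 : (N1 : ℝ) ≤ (q : ℝ) := by exact_mod_cast (show N1 ≤ q by omega)
        have g2 := hN1.trans g1
        rw [div_le_iff₀ hε] at g2
        linarith
      by_cases hε2 : ε ≤ 2
      · nlinarith
      · have g3 : (1 : ℝ) / d * q ≥ 0 := by positivity
        have g4 : (C.card : ℝ) ≤ (q : ℝ) ^ 2 := by
          have hfin : Finite F := Nat.finite_of_card_ne_zero (by rw [hcard]; positivity)
          have := Fintype.ofFinite F
          have g5 : C.card ≤ q ^ 2 := by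
            rw [← hcard, Nat.card_eq_fintype_card]
            exact Finset.card_le_univ C
          exact_mod_cast g5
        have g6 : (1 : ℝ) ≤ q := by exact_mod_cast hq0
        nlinarith
    · left
      by_contra hcon
      rw [not_le] at hcon
      have g1 : (q : ℝ) < C.card * d := by
        have : (1 / (d : ℝ) + ε) * q * d = q + ε * q * d := by field_simp
        have g2 : (1 / (d : ℝ) + ε) * q * d < C.card * d := mul_lt_mul_of_pos_right hcon hd0
        have g3 : 0 < ε * q * d := by positivity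
        linarith
      have g2 : q < C.card * d := by exact_mod_cast g1
      have g3 : q ^ 3 < (C.card * d) ^ 3 := Nat.pow_lt_pow_left g2 (by norm_num)
      have g4 : (C.card * d) ^ 3 ≤ q ^ 2 * d ^ 3 := by
        rw [mul_pow]; exact Nat.mul_le_mul_right _ h
      have g5 : q ^ 2 * d ^ 3 ≤ q ^ 2 * q := Nat.mul_le_mul_left _ (by omega)
      have g6 : q ^ 2 * q = q ^ 3 := by ring
      omega
    · exact Or.inr h
  · have hfin : Finite F := Nat.finite_of_card_ne_zero (by rw [hcard]; positivity)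
    have := Fintype.ofFinite F
    obtain ⟨n, hp, hn⟩ := FiniteField.card F (ringChar F)
    obtain ⟨p, hpdef⟩ : ∃ p, p = ringChar F := ⟨_, rfl⟩
    rw [← hpdef] at hp hn hch
    have hq2 : q ^ 2 = p ^ (n : ℕ) := by
      rw [← hcard, Nat.card_eq_fintype_card, hn]
    obtain ⟨e, -, hqe⟩ := (Nat.dvd_prime_pow hp).mp (show q ∣ p ^ (n : ℕ) by
      rw [← hq2]; exact dvd_pow_self q two_ne_zero)
    have hsup : p ^ f p ≤ (Finset.range P).sup (fun p => p ^ f p) :=
      Finset.le_sup (f := fun p => p ^ f p) (Finset.mem_range.2 (by omega))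
    have hfe : f p ≤ e := by
      have h1 : p ^ f p < p ^ e := by rw [← hqe]; omega
      exact ((Nat.pow_lt_pow_iff_right hp.one_lt).mp h1).le
    have hqc : (p : ℝ) ^ e = (q : ℝ) := by rw [hqe]; push_cast; rfl
    rcases hf p hp e hfe (by rw [← hqe]; exact hdvd) F (by rw [← hqe]; exact hcard) C hC.prop with
      h | ⟨h1, h2, h3⟩
    · left
      rw [hqc] at h
      exact h
    · right
      rw [← hqe] at h3
      obtain ⟨m, hm⟩ := hdvd
      exact col_line hp h1 hqe hcard (by rw [hm, mul_comm]) C hC h2 h3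

end GPC
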