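import Pool.Agent.Lib.MP_56e792_co.S.Defs2
import Pool.Agent.Lib.MP_56e792_co.S.Str
import Pool.Agent.Lib.MP_56e792_co.S.Lc0
import Pool.Agent.Lib.MP_56e792_co.S.Cc0
import Pool.Agent.Lib.MP_56e792_co.S.HtF
import Pool.Agent.Lib.MP_56e792_co.S.Col
import Pool.Agent.Lib.MP_56e792_co.S.Uni
import Pool.Agent.Lib.MP_56e792_co.S.SecA

/-!
# MP_56e792_co: the exact size of the second largest maximal cliques, fixed characteristic

By the structure theorem a maximal clique with more than `(1 / d ^ 2 + ε) q` points has all but a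
bounded number of points on a line or circle `Z`. Two independent conditions leave only
`(1 / d ^ 2 + ε / 2) q` points of `Z`; so the points off `Z` are at most a pair of conjugate
points (line) or the centre (circle), and the numbers of points on `Z` are known exactly.
-/

set_option autoImplicit false
set_option linter.unusedVariables false

namespace GPC

open Polynomial
open Pool.Agent.Lib.MP_56e792_co (J mem_J GP)

/-- a point adjacent to all other points of a maximal clique belongs to it -/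
private theorem sec_mem {F : Type} [Field F] {d : ℕ} {C : Finset F}
    (hC : Maximal (fun s : Finset F => (GP F d).IsClique (s : Set F)) C) (z : F)
    (h : ∀ c ∈ C, c ≠ z → (GP F d).Adj z c) : z ∈ C := by
  classical
  have h1 : (GP F d).IsClique ((insert z C : Finset F) : Set F) := by
    rw [Finset.coe_insert]
    exact hC.prop.insert (fun c hc hne => h c hc hne.symm)
  exact hC.le_of_ge h1 (Finset.subset_insert z C) (Finset.mem_insert_self z C)

private theorem sec_circ {F : Type} [Field F] {p e q : ℕ} (hp : p.Prime) (hq : q = p ^ e)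
    (hcard : Nat.card F = q ^ 2) {ρ w w' : F} (m : ℕ) (hρ : ρ ≠ 0) (h1 : w ^ q * w = ρ)
    (h2 : w' ^ q * w' = ρ) (hne : w ≠ w') :
    ((w - w') ^ q) ^ m = (w - w') ^ m ↔ w ^ m * w' ^ m = (-ρ) ^ m := by
  have hw : w ≠ 0 := by
    rintro rfl; rw [mul_zero] at h1; exact hρ h1.symm
  have hw' : w' ≠ 0 := by
    rintro rfl; rw [mul_zero] at h2; exact hρ h2.symm
  have hsub : w - w' ≠ 0 := sub_ne_zero.mpr hne
  have h3 : (w - w') ^ q * (w * w') = -ρ * (w - w') := by
    rw [Pool.Agent.Lib.MP_56e792_co.frob_sub hp hq hcard]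
    linear_combination w' * h1 - w * h2
  have h4 : ((w - w') ^ q) ^ m * (w ^ m * w' ^ m) = (-ρ) ^ m * (w - w') ^ m := by
    rw [← mul_pow, ← mul_pow, h3, mul_pow]
  constructor
  · intro h
    rw [h, mul_comm ((-ρ) ^ m)] at h4
    exact mul_left_cancel₀ (pow_ne_zero m hsub) h4
  · intro h
    rw [h, mul_comm ((-ρ) ^ m)] at h4
    exact mul_right_cancel₀ (pow_ne_zero m (neg_ne_zero.mpr hρ)) h4

/-- the case of a line -/
private theorem sec_line {F : Type} [Field F] {p n m d : ℕ} (hp : p.Prime)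
    (hq1 : 1 < p ^ n) (hcard : Nat.card F = (p ^ n) ^ 2) (hmd : m * d = p ^ n + 1)
    {C : Finset F} (hC : Maximal (fun s : Finset F => (GP F d).IsClique (s : Set F)) C)
    (P : F → Prop) [DecidablePred P] {v w : F} (hw : w ≠ 0)
    (hP : ∀ c : F, P c ↔ ∃ t : F, t ^ p ^ n = t ∧ c = v + t * w)
    (h2 : 2 ≤ (C.filter P).card) :
    (w ^ p ^ n) ^ m = w ^ m ∧
      (∀ a ∈ C.filter (fun c => ¬ P c), ∀ t : F, t ^ p ^ n = t → a ≠ v + t * w) ∧
      (C.filter P).card = Set.ncard {t : F | t ^ p ^ n = t ∧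
        ∀ a ∈ C.filter (fun c => ¬ P c), ((v + t * w - a) ^ p ^ n) ^ m = (v + t * w - a) ^ m} := by
  classical
  have hfrs : ∀ a b : F, (a - b) ^ p ^ n = a ^ p ^ n - b ^ p ^ n := fun a b =>
    Pool.Agent.Lib.MP_56e792_co.frob_sub hp rfl hcard a b
  have hadj : ∀ a b : F, a ≠ b → ((GP F d).Adj a b ↔ ((a - b) ^ p ^ n) ^ m = (a - b) ^ m) :=
    fun a b hab => Pool.Agent.Lib.MP_56e792_co.adj_iff hp rfl hq1 hcard hmd a b hab
  have hwm : (w ^ p ^ n) ^ m = w ^ m := by
    obtain ⟨c1, hc1, c2, hc2, hne⟩ := Finset.one_lt_card.mp (show 1 < (C.filter P).card by omega)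
    rw [Finset.mem_filter] at hc1 hc2
    obtain ⟨t1, ht1, e1⟩ := (hP c1).mp hc1.2
    obtain ⟨t2, ht2, e2⟩ := (hP c2).mp hc2.2
    have h := (hadj c1 c2 hne).mp (hC.prop hc1.1 hc2.1 hne)
    have h3 : c1 - c2 = (t1 - t2) * w := by rw [e1, e2]; ring
    have ht : t1 - t2 ≠ 0 := by
      intro h0
      rw [h0, zero_mul] at h3
      exact hne (sub_eq_zero.mp h3)
    rw [h3, mul_pow, mul_pow, mul_pow, hfrs, ht1, ht2] at h
    exact mul_left_cancel₀ (pow_ne_zero m ht) h
  have hoff : ∀ a ∈ C.filter (fun c => ¬ P c), ∀ t : F, t ^ p ^ n = t → a ≠ v + t * w := by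
    intro a ha t ht he
    exact (Finset.mem_filter.mp ha).2 ((hP a).mpr ⟨t, ht, he⟩)
  refine ⟨hwm, hoff, ?_⟩
  have hset : ((C.filter P : Finset F) : Set F) = (fun t : F => v + t * w) '' {t : F |
      t ^ p ^ n = t ∧ ∀ a ∈ C.filter (fun c => ¬ P c),
        ((v + t * w - a) ^ p ^ n) ^ m = (v + t * w - a) ^ m} := by
    ext z
    simp only [Finset.coe_filter, Set.mem_image, Set.mem_ofPred_eq]
    constructor
    · rintro ⟨hz, hPz⟩
      obtain ⟨t, ht, rfl⟩ := (hP z).mp hPz
      refine ⟨t, ⟨ht, fun a ha => ?_⟩, rfl⟩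
      have hne : v + t * w ≠ a := (hoff a ha t ht).symm
      exact (hadj _ a hne).mp (hC.prop hz (Finset.mem_filter.mp ha).1 hne)
    · rintro ⟨t, ⟨ht, hA⟩, rfl⟩
      refine ⟨sec_mem hC _ fun c hc hne => ?_, (hP _).mpr ⟨t, ht, rfl⟩⟩
      by_cases hPc : P c
      · obtain ⟨s, hs, rfl⟩ := (hP c).mp hPc
        exact Pool.Agent.Lib.MP_56e792_co.line_adj hp rfl hq1 hcard hmd v w hwm t s ht hs hne.symm
      · exact (hadj _ c hne.symm).mpr (hA c (Finset.mem_filter.mpr ⟨hc, hPc⟩))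
  have hinj : Function.Injective (fun t : F => v + t * w) := by
    intro s t hst
    have : s * w = t * w := add_left_cancel hst
    exact mul_right_cancel₀ hw this
  rw [← Set.ncard_coe_finset, hset, Set.ncard_image_of_injective _ hinj]

/-- the case of a circle -/
private theorem sec_circle {F : Type} [Field F] [DecidableEq F] {p n m d : ℕ} (hp : p.Prime)
    (hq1 : 1 < p ^ n) (hcard : Nat.card F = (p ^ n) ^ 2) (hmd : m * d = p ^ n + 1)
    {C : Finset F} (hC : Maximal (fun s : Finset F => (GP F d).IsClique (s : Set F)) C)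
    (P : F → Prop) [DecidablePred P] {o ρ : F} (hρ : ρ ≠ 0)
    (hP : ∀ c : F, P c ↔ (c - o) ^ p ^ n * (c - o) = ρ)
    (h3 : 3 ≤ (C.filter P).card) :
    ∃ τ : F, τ * τ = (-ρ) ^ m ∧ (∀ c ∈ C.filter P, (c - o) ^ m = τ) ∧
      (∀ a ∈ (C.filter (fun c => ¬ P c)).image (fun c => c - o), a ^ p ^ n * a ≠ ρ) ∧
      (∃ w0 : F, w0 ^ p ^ n * w0 = ρ ∧ w0 ^ m = τ ∧
        ∀ a ∈ (C.filter (fun c => ¬ P c)).image (fun c => c - o),
          ((w0 - a) ^ p ^ n) ^ m = (w0 - a) ^ m) ∧
      (C.filter P).card = Set.ncard {w : F | w ^ p ^ n * w = ρ ∧ w ^ m = τ ∧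
        ∀ a ∈ (C.filter (fun c => ¬ P c)).image (fun c => c - o),
          ((w - a) ^ p ^ n) ^ m = (w - a) ^ m} := by
  classical
  have hadj : ∀ a b : F, a ≠ b → ((GP F d).Adj a b ↔ ((a - b) ^ p ^ n) ^ m = (a - b) ^ m) :=
    fun a b hab => Pool.Agent.Lib.MP_56e792_co.adj_iff hp rfl hq1 hcard hmd a b hab
  have hpair : ∀ w w' : F, w ^ p ^ n * w = ρ → w' ^ p ^ n * w' = ρ → w ≠ w' →
      (((w - w') ^ p ^ n) ^ m = (w - w') ^ m ↔ w ^ m * w' ^ m = (-ρ) ^ m) :=
    fun w w' h1 h2 hne => sec_circ hp rfl hcard m hρ h1 h2 hne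
  have hnz : ∀ w : F, w ^ p ^ n * w = ρ → w ^ m ≠ 0 := by
    intro w hw
    apply pow_ne_zero
    rintro rfl
    rw [mul_zero] at hw
    exact hρ hw.symm
  -- points of the clique on the circle
  have hcc : ∀ c ∈ C.filter P, ∀ c' ∈ C.filter P, c ≠ c' →
      (c - o) ^ m * (c' - o) ^ m = (-ρ) ^ m := by
    intro c hc c' hc' hne
    rw [Finset.mem_filter] at hc hc'
    have h1 := (hadj c c' hne).mp (hC.prop hc.1 hc'.1 hne)
    have h2 : c - c' = (c - o) - (c' - o) := by ring
    rw [h2] at h1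
    exact (hpair _ _ ((hP c).mp hc.2) ((hP c').mp hc'.2)
      (fun h => hne (sub_left_injective h))).mp h1
  obtain ⟨c0, hc0⟩ := Finset.card_pos.mp (show 0 < (C.filter P).card by omega)
  have hτ : ∀ c ∈ C.filter P, (c - o) ^ m = (c0 - o) ^ m := by
    intro c hc
    by_cases hcc0 : c = c0
    · rw [hcc0]
    · obtain ⟨c2, hc2⟩ := Finset.card_pos.mp (show 0 < (((C.filter P).erase c0).erase c).card by
        rw [Finset.card_erase_of_mem (Finset.mem_erase.mpr ⟨hcc0, hc⟩),
          Finset.card_erase_of_mem hc0]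
        omega)
      rw [Finset.mem_erase, Finset.mem_erase] at hc2
      have h1 := hcc c hc c2 hc2.2.2 hc2.1.symm
      have h2 := hcc c0 hc0 c2 hc2.2.2 hc2.2.1.symm
      have h4 : (c2 - o) ^ m ≠ 0 := hnz _ ((hP c2).mp (Finset.mem_filter.mp hc2.2.2).2)
      exact mul_right_cancel₀ h4 (h1.trans h2.symm)
  have hτ2 : (c0 - o) ^ m * (c0 - o) ^ m = (-ρ) ^ m := by
    obtain ⟨c2, hc2⟩ := Finset.card_pos.mp (show 0 < ((C.filter P).erase c0).card by
      rw [Finset.card_erase_of_mem hc0]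
      omega)
    rw [Finset.mem_erase] at hc2
    have h1 := hcc c0 hc0 c2 hc2.2 hc2.1.symm
    rw [hτ c2 hc2.2] at h1
    exact h1
  have hA1 : ∀ a ∈ (C.filter (fun c => ¬ P c)).image (fun c => c - o), a ^ p ^ n * a ≠ ρ := by
    intro a ha he
    obtain ⟨c, hc, rfl⟩ := Finset.mem_image.mp ha
    exact (Finset.mem_filter.mp hc).2 ((hP c).mpr he)
  have hfwd : ∀ c ∈ C.filter P, ∀ a ∈ (C.filter (fun c => ¬ P c)).image (fun c => c - o),
      ((c - o - a) ^ p ^ n) ^ m = (c - o - a) ^ m := by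
    intro c hc a ha
    obtain ⟨b, hb, rfl⟩ := Finset.mem_image.mp ha
    have hne : c ≠ b := by
      rintro rfl
      exact (Finset.mem_filter.mp hb).2 (Finset.mem_filter.mp hc).2
    have h1 := (hadj c b hne).mp (hC.prop (Finset.mem_filter.mp hc).1
      (Finset.mem_filter.mp hb).1 hne)
    have h2 : c - o - (b - o) = c - b := by ring
    simp only [h2]
    exact h1
  refine ⟨(c0 - o) ^ m, hτ2, hτ, hA1, ⟨c0 - o, (hP c0).mp (Finset.mem_filter.mp hc0).2, rfl,
    hfwd c0 hc0⟩, ?_⟩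
  have hset : ((C.filter P : Finset F) : Set F) = (fun w : F => w + o) '' {w : F |
      w ^ p ^ n * w = ρ ∧ w ^ m = (c0 - o) ^ m ∧
        ∀ a ∈ (C.filter (fun c => ¬ P c)).image (fun c => c - o),
          ((w - a) ^ p ^ n) ^ m = (w - a) ^ m} := by
    ext z
    rw [Finset.mem_coe]
    simp only [Set.mem_image, Set.mem_ofPred_eq]
    constructor
    · intro hz
      exact ⟨z - o, ⟨(hP z).mp (Finset.mem_filter.mp hz).2, hτ z hz, hfwd z hz⟩, by ring⟩
    · rintro ⟨w, ⟨hw1, hw2, hA⟩, rfl⟩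
      have hPw : P (w + o) := by
        rw [hP, add_sub_cancel_right]
        exact hw1
      refine Finset.mem_filter.mpr ⟨sec_mem hC _ fun c hc hne => ?_, hPw⟩
      rw [hadj _ c hne.symm]
      have h2 : w + o - c = w - (c - o) := by ring
      rw [h2]
      by_cases hPc : P c
      · have hne' : w ≠ c - o := by
          intro h
          apply hne
          rw [h]; ring
        rw [hpair w (c - o) hw1 ((hP c).mp hPc) hne', hw2,
          hτ c (Finset.mem_filter.mpr ⟨hc, hPc⟩)]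
        exact hτ2
      · exact hA (c - o) (Finset.mem_image.mpr ⟨c, Finset.mem_filter.mpr ⟨hc, hPc⟩, rfl⟩)
  rw [← Set.ncard_coe_finset, hset, Set.ncard_image_of_injective _ (add_left_injective o)]


/-- the case of a line, complete -/
private theorem sec_L {F : Type} [Field F] {p n m d : ℕ} (hp : p.Prime) (hn1 : 1 ≤ n)
    (hq1 : 1 < p ^ n) (hcard : Nat.card F = (p ^ n) ^ 2) (hmd : m * d = p ^ n + 1)
    {C : Finset F} (hC : Maximal (fun s : Finset F => (GP F d).IsClique (s : Set F)) C)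
    (P : F → Prop) [DecidablePred P] {v w : F} (hw : w ≠ 0)
    (hP : ∀ c : F, P c ↔ ∃ t : F, t ^ p ^ n = t ∧ c = v + t * w)
    (h2 : 2 ≤ (C.filter P).card) {B : ℝ}
    (hB : ∀ A : Finset F, A.card = 2 →
      (∀ a ∈ A, ∀ b ∈ A, ((a - v) / w) ^ p ^ n ≠ (b - v) / w) →
      ((Set.ncard {t : F | t ^ p ^ n = t ∧
        ∀ a ∈ A, ((v + t * w - a) ^ p ^ n) ^ m = (v + t * w - a) ^ m} : ℕ) : ℝ) ≤ B) :
    ((C.filter P).card : ℝ) ≤ B ∨ (∃ α : F, α ^ p ^ n ≠ α ∧
      ((C.card = m + 1 ∧ (-1 : F) ^ m = 1) ∨ (C.card = m ∧ (-1 : F) ^ m ≠ 1)) ∧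
      ∀ u : F, u ∈ C ↔ (u = v + α * w ∨ ((-1 : F) ^ m = 1 ∧ u = v + α ^ p ^ n * w) ∨
        ∃ t z : F, t ^ p ^ n = t ∧ u = v + t * w ∧ z ^ d = u - (v + α * w))) ∨
      (C.card = p ^ n ∧ ∃ v w : F, w ≠ 0 ∧
        (C : Set F) = {u : F | ∃ t : F, t ^ p ^ n = t ∧ u = v + t * w}) := by
  classical
  have hFin : Finite F := Nat.finite_of_card_ne_zero (by
    rw [hcard]; exact pow_ne_zero _ (by omega))
  obtain ⟨hwm, hoff, hcnt⟩ := sec_line hp hq1 hcard hmd hC P hw hP h2
  have hfs : ∀ a b : F, (a - b) ^ p ^ n = a ^ p ^ n - b ^ p ^ n := fun a b =>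
    Pool.Agent.Lib.MP_56e792_co.frob_sub hp rfl hcard a b
  have hff : ∀ a : F, (a ^ p ^ n) ^ p ^ n = a :=
    Pool.Agent.Lib.MP_56e792_co.frob_frob (by omega) hcard
  have hadj : ∀ a b : F, a ≠ b → ((GP F d).Adj a b ↔ ((a - b) ^ p ^ n) ^ m = (a - b) ^ m) :=
    fun a b hab => Pool.Agent.Lib.MP_56e792_co.adj_iff hp rfl hq1 hcard hmd a b hab
  have hm0 : m ≠ 0 := by
    rintro rfl
    omega
  have hsum : (C.filter P).card + (C.filter (fun c => ¬ P c)).card = C.card :=
    Finset.card_filter_add_card_filter_not P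
  have hPc : ∀ α : F, P (v + α * w) ↔ α ^ p ^ n = α := by
    intro α
    rw [hP]
    constructor
    · rintro ⟨t, ht, h⟩
      have : α = t := mul_right_cancel₀ hw (add_left_cancel h)
      rw [this]; exact ht
    · intro h
      exact ⟨α, h, rfl⟩
  have hcoord : ∀ a : F, v + (a - v) / w * w = a := by
    intro a
    rw [div_mul_cancel₀ _ hw]; ring
  -- the condition of a point off the line
  have hcond : ∀ α t : F, ((v + t * w - (v + α * w)) ^ p ^ n) ^ m = (v + t * w - (v + α * w)) ^ m ↔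
      ((t - α) ^ p ^ n) ^ m = (t - α) ^ m := by
    intro α t
    have e : v + t * w - (v + α * w) = w * (t - α) := by ring
    rw [e, mul_pow, mul_pow, mul_pow, hwm]
    exact mul_right_inj' (pow_ne_zero m hw)
  by_cases hE : C.filter (fun c => ¬ P c) = ∅
  · -- contained in the line
    right; right
    have hCP : ∀ c ∈ C, P c := by
      intro c hc
      by_contra h
      have : c ∈ C.filter (fun c => ¬ P c) := Finset.mem_filter.mpr ⟨hc, h⟩
      rw [hE] at this
      exact absurd this (Finset.notMem_empty c)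
    rw [hE, Finset.card_empty, add_zero] at hsum
    refine col_line hp hn1 rfl hcard hmd C hC (by omega) ?_
    intro x hx a ha b hb
    obtain ⟨tx, hx1, rfl⟩ := (hP x).mp (hCP x hx)
    obtain ⟨ta, ha1, rfl⟩ := (hP a).mp (hCP a ha)
    obtain ⟨tb, hb1, rfl⟩ := (hP b).mp (hCP b hb)
    have e1 : v + ta * w - (v + tx * w) = (ta - tx) * w := by ring
    have e2 : v + tb * w - (v + tx * w) = (tb - tx) * w := by ring
    rw [e1, e2, mul_pow, mul_pow, hfs, hfs, ha1, hb1, hx1]
    ring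
  obtain ⟨a, ha⟩ := Finset.nonempty_iff_ne_empty.mpr hE
  have haC : a ∈ C := (Finset.mem_filter.mp ha).1
  have haP : ¬ P a := (Finset.mem_filter.mp ha).2
  set α : F := (a - v) / w with hαdef
  have haα : v + α * w = a := hcoord a
  have hα : α ^ p ^ n ≠ α := by
    intro h
    apply haP
    rw [← haα, hPc]
    exact h
  by_cases hb : ∃ b ∈ C.filter (fun c => ¬ P c), b ≠ a ∧ (b - v) / w ≠ α ^ p ^ n
  · -- two independent conditions
    left
    obtain ⟨b, hbE, hba, hbα⟩ := hb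
    have hbP : ¬ P b := (Finset.mem_filter.mp hbE).2
    have hβ : ((b - v) / w) ^ p ^ n ≠ (b - v) / w := by
      intro h
      apply hbP
      rw [← hcoord b, hPc]
      exact h
    have hA := hB {a, b} (Finset.card_pair hba.symm) (by
      intro x hx y hy
      rw [Finset.mem_insert, Finset.mem_singleton] at hx hy
      rcases hx with rfl | rfl <;> rcases hy with rfl | rfl
      · exact hα
      · exact hbα.symm
      · intro h
        apply hbα
        rw [hαdef, ← h, hff]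
      · exact hβ)
    refine le_trans ?_ hA
    rw [hcnt]
    have : Set.ncard {t : F | t ^ p ^ n = t ∧ ∀ a ∈ C.filter (fun c => ¬ P c),
        ((v + t * w - a) ^ p ^ n) ^ m = (v + t * w - a) ^ m} ≤
        Set.ncard {t : F | t ^ p ^ n = t ∧ ∀ x ∈ ({a, b} : Finset F),
        ((v + t * w - x) ^ p ^ n) ^ m = (v + t * w - x) ^ m} := by
      apply Set.ncard_le_ncard _ (Set.toFinite _)
      rintro t ⟨ht, hall⟩
      refine ⟨ht, ?_⟩
      intro x hx
      rw [Finset.mem_insert, Finset.mem_singleton] at hx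
      rcases hx with rfl | rfl
      · exact hall _ ha
      · exact hall _ hbE
    exact_mod_cast this
  push Not at hb
  -- the conjugate point
  set a' : F := v + α ^ p ^ n * w with ha'def
  have haa' : a ≠ a' := by
    intro h
    apply hα
    rw [← haα, ha'def] at h
    exact (mul_right_cancel₀ hw (add_left_cancel h)).symm
  have ha'P : ¬ P a' := by
    rw [ha'def, hPc, hff]
    exact fun h => hα h.symm
  have hEsub : ∀ b ∈ C.filter (fun c => ¬ P c), b = a ∨ b = a' := by
    intro b hbE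
    by_cases hba : b = a
    · exact Or.inl hba
    · right
      rw [ha'def, ← hb b hbE hba, hcoord]
  have hconj : ∀ t : F, t ^ p ^ n = t → (((t - α ^ p ^ n) ^ p ^ n) ^ m = (t - α ^ p ^ n) ^ m ↔
      ((t - α) ^ p ^ n) ^ m = (t - α) ^ m) := by
    intro t ht
    rw [hfs, hfs, ht, hff]
    exact eq_comm
  have hset : {t : F | t ^ p ^ n = t ∧ ∀ a ∈ C.filter (fun c => ¬ P c),
      ((v + t * w - a) ^ p ^ n) ^ m = (v + t * w - a) ^ m} =
      {t : F | t ^ p ^ n = t ∧ ((t - α) ^ p ^ n) ^ m = (t - α) ^ m} := by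
    ext t
    simp only [Set.mem_ofPred_eq]
    constructor
    · rintro ⟨ht, hall⟩
      refine ⟨ht, ?_⟩
      have h := hall a ha
      rw [← haα] at h
      exact (hcond α t).mp h
    · rintro ⟨ht, h⟩
      refine ⟨ht, ?_⟩
      intro b hbE
      rcases hEsub b hbE with rfl | rfl
      · rw [← haα]
        exact (hcond α t).mpr h
      · exact (hcond _ t).mpr ((hconj t ht).mpr h)
  have hcntP : (C.filter P).card = m - 1 := by
    rw [hcnt, hset]
    exact card_line_pt hp rfl hq1 hcard hmd hα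
  have hSfin : {t : F | t ^ p ^ n = t ∧ ((t - α) ^ p ^ n) ^ m = (t - α) ^ m}.Finite :=
    Set.toFinite _
  have hfilt : ∀ t : F, t ^ p ^ n = t → ((t - α) ^ p ^ n) ^ m = (t - α) ^ m → v + t * w ∈ C := by
    have hsub2 : C.filter P ⊆ hSfin.toFinset.image (fun t => v + t * w) := by
      intro c hc
      rw [Finset.mem_filter] at hc
      obtain ⟨t, ht, rfl⟩ := (hP c).mp hc.2
      have hne : v + t * w ≠ a := fun h => haP (h ▸ hc.2)
      have h1 := (hadj _ a hne).mp (hC.prop hc.1 haC hne)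
      rw [← haα] at h1
      exact Finset.mem_image.mpr ⟨t, by
        rw [Set.Finite.mem_toFinset]
        exact ⟨ht, (hcond α t).mp h1⟩, rfl⟩
    have hinj : Function.Injective (fun t : F => v + t * w) := fun x y h =>
      mul_right_cancel₀ hw (add_left_cancel h)
    have heq := Finset.eq_of_subset_of_card_le hsub2 (by
      rw [Finset.card_image_of_injective _ hinj, hcntP,
        ← Set.ncard_eq_toFinset_card _ hSfin, card_line_pt hp rfl hq1 hcard hmd hα])
    intro t ht htm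
    have h1 : v + t * w ∈ C.filter P := by
      rw [heq]
      exact Finset.mem_image.mpr ⟨t, by
        rw [Set.Finite.mem_toFinset]
        exact ⟨ht, htm⟩, rfl⟩
    exact (Finset.mem_filter.mp h1).1
  have hdp : ∀ u : F, P u → (((u - a) ^ p ^ n) ^ m = (u - a) ^ m ↔ ∃ z : F, z ^ d = u - a) := by
    intro u hu
    exact Pool.Agent.Lib.MP_56e792_co.dth_power_iff hq1 hcard hmd _
      (sub_ne_zero.mpr (fun h => haP (h ▸ hu)))
  -- adjacency of the two conjugate points
  have hadj' : ((a - a') ^ p ^ n) ^ m = (a - a') ^ m ↔ (-1 : F) ^ m = 1 := by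
    have e : a - a' = w * (α - α ^ p ^ n) := by
      rw [← haα, ha'def]; ring
    have h0 : α - α ^ p ^ n ≠ 0 := sub_ne_zero.mpr hα.symm
    rw [e, mul_pow, mul_pow, mul_pow, hwm, mul_right_inj' (pow_ne_zero m hw), hfs, hff]
    have e2 : α ^ p ^ n - α = (-1) * (α - α ^ p ^ n) := by ring
    rw [e2, mul_pow]
    constructor
    · intro h
      exact mul_right_cancel₀ (pow_ne_zero m h0) (by rw [h, one_mul])
    · intro h
      rw [h, one_mul]
  have hm1 : 1 ≤ m := by omega
  right; left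
  refine ⟨α, hα, ?_⟩
  -- membership
  have hmemC : ∀ u : F, u ∈ C ↔ (u = v + α * w ∨ (a' ∈ C ∧ u = v + α ^ p ^ n * w) ∨
        ∃ t z : F, t ^ p ^ n = t ∧ u = v + t * w ∧ z ^ d = u - (v + α * w)) := by
    intro u
    constructor
    · intro hu
      by_cases hPu : P u
      · right; right
        obtain ⟨t, ht, hut⟩ := (hP u).mp hPu
        have hne : u ≠ a := fun h => haP (h ▸ hPu)
        obtain ⟨z, hz⟩ := (hdp u hPu).mp ((hadj u a hne).mp (hC.prop hu haC hne))
        exact ⟨t, z, ht, hut, by rw [haα]; exact hz⟩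
      · rcases hEsub u (Finset.mem_filter.mpr ⟨hu, hPu⟩) with h | h
        · left; rw [haα]; exact h
        · right; left
          rw [h] at hu
          exact ⟨hu, h⟩
    · rintro (h | ⟨h1, h2⟩ | ⟨t, z, ht, hut, hz⟩)
      · rw [h, haα]; exact haC
      · rw [h2]; exact h1
      · rw [hut]
        have hPu : P u := (hP u).mpr ⟨t, ht, hut⟩
        have h1 : ((u - a) ^ p ^ n) ^ m = (u - a) ^ m := (hdp u hPu).mpr ⟨z, by
          rw [haα] at hz; exact hz⟩
        rw [hut, ← haα] at h1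
        exact hfilt t ht ((hcond α t).mp h1)
  by_cases ha'C : a' ∈ C
  · -- both conjugate points
    have hone : (-1 : F) ^ m = 1 := hadj'.mp ((hadj a a' haa').mp (hC.prop haC ha'C haa'))
    refine ⟨Or.inl ⟨?_, hone⟩, ?_⟩
    swap
    · intro u
      rw [hmemC u]
      simp only [ha'C, hone, true_and]
    have hEeq : C.filter (fun c => ¬ P c) = {a, a'} := by
      apply Finset.Subset.antisymm
      · intro b hbE
        rw [Finset.mem_insert, Finset.mem_singleton]
        exact hEsub b hbE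
      · intro b hb'
        rw [Finset.mem_insert, Finset.mem_singleton] at hb'
        rcases hb' with rfl | rfl
        · exact ha
        · exact Finset.mem_filter.mpr ⟨ha'C, ha'P⟩
    rw [hEeq, Finset.card_pair haa', hcntP] at hsum
    omega
  · have hEeq : C.filter (fun c => ¬ P c) = {a} := by
      apply Finset.Subset.antisymm
      · intro b hbE
        rw [Finset.mem_singleton]
        rcases hEsub b hbE with h | h
        · exact h
        · rw [h] at hbE
          exact absurd (Finset.mem_filter.mp hbE).1 ha'C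
      · intro b hb'
        rw [Finset.mem_singleton] at hb'
        rw [hb']; exact ha
    have hnone : (-1 : F) ^ m ≠ 1 := by
      intro hone
      apply ha'C
      refine sec_mem hC a' fun c hc hne => ?_
      by_cases hPcc : P c
      · obtain ⟨t, ht, rfl⟩ := (hP c).mp hPcc
        have h1 : ((v + t * w - a) ^ p ^ n) ^ m = (v + t * w - a) ^ m :=
          (hadj _ a (fun h => haP (h ▸ hPcc))).mp (hC.prop hc haC (fun h => haP (h ▸ hPcc)))
        rw [← haα] at h1
        exact ((hadj _ a' hne).mpr ((hcond _ t).mpr ((hconj t ht).mpr ((hcond α t).mp h1)))).symm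
      · rcases hEsub c (Finset.mem_filter.mpr ⟨hc, hPcc⟩) with rfl | rfl
        · exact ((hadj _ a' haa').mpr (hadj'.mpr hone)).symm
        · exact absurd rfl hne
    refine ⟨Or.inr ⟨?_, hnone⟩, ?_⟩
    · rw [hEeq, Finset.card_singleton, hcntP] at hsum
      omega
    · intro u
      rw [hmemC u]
      simp only [ha'C, hnone, false_and]

/-- the case of a circle, complete -/
private theorem sec_C {F : Type} [Field F] [DecidableEq F] {p n m d : ℕ} (hp : p.Prime)
    (hq1 : 1 < p ^ n) (hcard : Nat.card F = (p ^ n) ^ 2) (hmd : m * d = p ^ n + 1)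
    {C : Finset F} (hC : Maximal (fun s : Finset F => (GP F d).IsClique (s : Set F)) C)
    (P : F → Prop) [DecidablePred P] {o ρ : F} (hρ : ρ ≠ 0) (hρq : ρ ^ p ^ n = ρ)
    (hP : ∀ c : F, P c ↔ (c - o) ^ p ^ n * (c - o) = ρ)
    (h3 : 3 ≤ (C.filter P).card) {B : ℝ}
    (hB : ∀ τ a : F, τ ^ d = ρ → a ≠ 0 → a ^ p ^ n * a ≠ ρ →
      ((Set.ncard {w : F | w ^ p ^ n * w = ρ ∧ w ^ m = τ ∧
        ∀ x ∈ ({a} : Finset F), ((w - x) ^ p ^ n) ^ m = (w - x) ^ m} : ℕ) : ℝ) ≤ B) :
    ((C.filter P).card : ℝ) ≤ B ∨ ∃ τ : F, τ ≠ 0 ∧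
      ((C.card = m + 1 ∧ (-1 : F) ^ m = 1) ∨ (C.card = m ∧ (-1 : F) ^ m ≠ 1)) ∧
      ∀ u : F, u ∈ C ↔ (((-1 : F) ^ m = 1 ∧ u = o) ∨ (u - o) ^ m = τ) := by
  classical
  have hFin : Finite F := Nat.finite_of_card_ne_zero (by
    rw [hcard]; exact pow_ne_zero _ (by omega))
  obtain ⟨τ, hτ2, hττ, hA1, ⟨w0, hw0, hw0τ, hw0A⟩, hcnt⟩ := sec_circle hp hq1 hcard hmd hC P hρ hP h3
  have hadj : ∀ a b : F, a ≠ b → ((GP F d).Adj a b ↔ ((a - b) ^ p ^ n) ^ m = (a - b) ^ m) :=
    fun a b hab => Pool.Agent.Lib.MP_56e792_co.adj_iff hp rfl hq1 hcard hmd a b hab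
  have hsum : (C.filter P).card + (C.filter (fun c => ¬ P c)).card = C.card :=
    Finset.card_filter_add_card_filter_not P
  have hτ0 : τ ≠ 0 := by
    rintro rfl
    rw [mul_zero] at hτ2
    exact pow_ne_zero m (neg_ne_zero.mpr hρ) hτ2.symm
  -- the condition of the centre
  have hcen : ∀ w : F, w ^ p ^ n * w = ρ → w ^ m = τ →
      ((w ^ p ^ n) ^ m = w ^ m ↔ (-1 : F) ^ m = 1) := by
    intro w hw hwτ
    have h1 : (w ^ p ^ n) ^ m * w ^ m = ρ ^ m := by rw [← mul_pow, hw]
    have h2 : (-1 : F) ^ m * ρ ^ m = τ * τ := by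
      rw [hτ2, ← mul_pow]; congr 1; ring
    rw [hwτ] at h1 ⊢
    constructor
    · intro h
      rw [h] at h1
      rw [← h1] at h2
      have h3 : (-1 : F) ^ m * (τ * τ) = 1 * (τ * τ) := by rw [h2, one_mul]
      exact mul_right_cancel₀ (mul_ne_zero hτ0 hτ0) h3
    · intro h
      rw [h, one_mul, ← h1] at h2
      exact mul_right_cancel₀ hτ0 h2
  by_cases hE : ∃ a ∈ C.filter (fun c => ¬ P c), a ≠ o
  · left
    obtain ⟨a, ha, hao⟩ := hE
    have haI : a - o ∈ (C.filter (fun c => ¬ P c)).image (fun c => c - o) :=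
      Finset.mem_image.mpr ⟨a, ha, rfl⟩
    have hτd : τ ^ d = ρ := by
      rw [← hw0τ, ← pow_mul, hmd, pow_succ, hw0]
    refine le_trans ?_ (hB τ (a - o) hτd (sub_ne_zero.mpr hao) (hA1 _ haI))
    rw [hcnt]
    have : Set.ncard {w : F | w ^ p ^ n * w = ρ ∧ w ^ m = τ ∧
        ∀ a ∈ (C.filter (fun c => ¬ P c)).image (fun c => c - o),
          ((w - a) ^ p ^ n) ^ m = (w - a) ^ m} ≤
        Set.ncard {w : F | w ^ p ^ n * w = ρ ∧ w ^ m = τ ∧
        ∀ x ∈ ({a - o} : Finset F), ((w - x) ^ p ^ n) ^ m = (w - x) ^ m} := by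
      apply Set.ncard_le_ncard _ (Set.toFinite _)
      rintro w ⟨hw1, hw2, hall⟩
      refine ⟨hw1, hw2, ?_⟩
      intro x hx
      rw [Finset.mem_singleton] at hx
      rw [hx]
      exact hall _ haI
    exact_mod_cast this
  push Not at hE
  right
  have hoP : ¬ P o := by
    rw [hP, sub_self, mul_zero]
    exact fun h => hρ h.symm
  have hmain : ∀ hcase : (∀ a ∈ (C.filter (fun c => ¬ P c)).image (fun c => c - o), ∀ w : F,
      w ^ p ^ n * w = ρ → w ^ m = τ → ((w - a) ^ p ^ n) ^ m = (w - a) ^ m),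
      (C.filter P).card = m := by
    intro hcase
    rw [hcnt]
    have hset : {w : F | w ^ p ^ n * w = ρ ∧ w ^ m = τ ∧
        ∀ a ∈ (C.filter (fun c => ¬ P c)).image (fun c => c - o),
          ((w - a) ^ p ^ n) ^ m = (w - a) ^ m} = {w : F | w ^ p ^ n * w = ρ ∧ w ^ m = τ} := by
      ext w
      simp only [Set.mem_ofPred_eq]
      constructor
      · rintro ⟨h1, h2, -⟩
        exact ⟨h1, h2⟩
      · rintro ⟨h1, h2⟩
        exact ⟨h1, h2, fun a ha => hcase a ha w h1 h2⟩
    rw [hset]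
    exact card_circ hq1 hcard hmd hρ hw0 hw0τ
  have hτd : τ ^ d = ρ := by
    rw [← hw0τ, ← pow_mul, hmd, pow_succ, hw0]
  refine ⟨τ, hτ0, ?_⟩
  have hmemC : (C.filter P).card = m → ∀ u : F, u ∈ C ↔ ((o ∈ C ∧ u = o) ∨ (u - o) ^ m = τ) := by
    intro hcm u
    have hfin : {w : F | w ^ p ^ n * w = ρ ∧ w ^ m = τ}.Finite := Set.toFinite _
    have hsub2 : (C.filter P).image (fun c => c - o) ⊆ hfin.toFinset := by
      intro w hw
      obtain ⟨c, hc, rfl⟩ := Finset.mem_image.mp hw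
      rw [Set.Finite.mem_toFinset]
      exact ⟨(hP c).mp (Finset.mem_filter.mp hc).2, hττ c hc⟩
    have hinj : Function.Injective (fun c : F => c - o) := sub_left_injective
    have heq := Finset.eq_of_subset_of_card_le hsub2 (by
      rw [Finset.card_image_of_injective _ hinj, hcm, ← Set.ncard_eq_toFinset_card _ hfin,
        card_circ hq1 hcard hmd hρ hw0 hw0τ])
    constructor
    · intro hu
      by_cases hPu : P u
      · exact Or.inr (hττ u (Finset.mem_filter.mpr ⟨hu, hPu⟩))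
      · have h1 := hE u (Finset.mem_filter.mpr ⟨hu, hPu⟩)
        left
        rw [h1] at hu
        exact ⟨hu, h1⟩
    · rintro (⟨h1, h2⟩ | h)
      · rw [h2]; exact h1
      · have h1 : u - o ∈ (C.filter P).image (fun c => c - o) := by
          rw [heq, Set.Finite.mem_toFinset]
          refine ⟨?_, h⟩
          rw [← pow_succ, ← hmd, pow_mul, h, hτd]
        obtain ⟨c, hc, hcu⟩ := Finset.mem_image.mp h1
        rw [← sub_left_injective hcu]
        exact (Finset.mem_filter.mp hc).1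
  by_cases hoC : o ∈ C
  · have hEeq : C.filter (fun c => ¬ P c) = {o} := by
      apply Finset.Subset.antisymm
      · intro b hb
        rw [Finset.mem_singleton]
        exact hE b hb
      · intro b hb
        rw [Finset.mem_singleton] at hb
        rw [hb]
        exact Finset.mem_filter.mpr ⟨hoC, hoP⟩
    have hone : (-1 : F) ^ m = 1 := by
      have h := hw0A 0 (Finset.mem_image.mpr ⟨o, by rw [hEeq]; simp, sub_self o⟩)
      rw [sub_zero] at h
      exact (hcen w0 hw0 hw0τ).mp h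
    have h := hmain (by
      intro a ha w h1 h2
      rw [hEeq, Finset.image_singleton, Finset.mem_singleton, sub_self] at ha
      rw [ha, sub_zero]
      exact (hcen w h1 h2).mpr hone)
    rw [hEeq, Finset.card_singleton, h] at hsum
    refine ⟨Or.inl ⟨hsum.symm, hone⟩, ?_⟩
    intro u
    rw [hmemC h u]
    simp only [hoC, hone, true_and]
  · have hEeq : C.filter (fun c => ¬ P c) = ∅ := by
      rw [Finset.eq_empty_iff_forall_notMem]
      intro b hb
      have h1 := hE b hb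
      rw [h1] at hb
      exact hoC (Finset.mem_filter.mp hb).1
    have h := hmain (by
      intro a ha
      rw [hEeq, Finset.image_empty] at ha
      exact absurd ha (Finset.notMem_empty a))
    have hnone : (-1 : F) ^ m ≠ 1 := by
     intro hone
     apply hoC
     refine sec_mem hC o fun c hc hne => ?_
     have hPcc : P c := by
       by_contra hcon
       have : c ∈ C.filter (fun c => ¬ P c) := Finset.mem_filter.mpr ⟨hc, hcon⟩
       rw [hEeq] at this
       exact absurd this (Finset.notMem_empty c)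
     have hc1 := (hP c).mp hPcc
     have hcτ : (c - o) ^ m = τ := hττ c (Finset.mem_filter.mpr ⟨hc, hPcc⟩)
     exact ((hadj c o hne).mpr ((hcen _ hc1 hcτ).mpr hone)).symm
    rw [hEeq, Finset.card_empty, h] at hsum
    refine ⟨Or.inr ⟨hsum.symm, hnone⟩, ?_⟩
    intro u
    rw [hmemC h u]
    simp only [hoC, hnone, false_and]


/-- Maximal cliques with more than `(1 / d ^ 2 + ε) q` vertices. -/
theorem second (p d : ℕ) (hp : p.Prime) (hd : 2 ≤ d) (ε : ℝ) (hε : 0 < ε) :
    ∃ n0 : ℕ, ∀ n ≥ n0, ∀ m : ℕ, m * d = p ^ n + 1 → ∀ (F : Type) [Field F],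
      Nat.card F = (p ^ n) ^ 2 →
      ∀ C : Finset F, Maximal (fun s : Finset F => (GP F d).IsClique (s : Set F)) C →
        (C.card : ℝ) ≤ ((1 / (d : ℝ)) ^ 2 + ε) * (p : ℝ) ^ n ∨
          (C.card = p ^ n ∧ ∃ v w : F, w ≠ 0 ∧
            (C : Set F) = {u : F | ∃ t : F, t ^ p ^ n = t ∧ u = v + t * w}) ∨
          (((C.card = m + 1 ∧ (-1 : F) ^ m = 1) ∨ (C.card = m ∧ (-1 : F) ^ m ≠ 1)) ∧
            ((∃ v w α : F, w ≠ 0 ∧ α ^ p ^ n ≠ α ∧ ∀ u : F, u ∈ C ↔
              (u = v + α * w ∨ ((-1 : F) ^ m = 1 ∧ u = v + α ^ p ^ n * w) ∨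
                ∃ t z : F, t ^ p ^ n = t ∧ u = v + t * w ∧ z ^ d = u - (v + α * w))) ∨
            (∃ o τ : F, τ ≠ 0 ∧ ∀ u : F, u ∈ C ↔
              (((-1 : F) ^ m = 1 ∧ u = o) ∨ (u - o) ^ m = τ)))) := by
  classical
  have hd0 : (0 : ℝ) < (d : ℝ) := by
    have : 0 < d := by omega
    exact_mod_cast this
  have hδ : 0 < (1 / (d : ℝ)) ^ 2 := by positivity
  set δ : ℝ := (1 / (d : ℝ)) ^ 2 with hδdef
  obtain ⟨n1, K0, hstr⟩ := struct p d hp hd δ hδ
  obtain ⟨n2, hline⟩ := line_count0 p d 2 hp hd (ε / 2) (by positivity)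
  obtain ⟨n3, hcirc⟩ := circ_count0 p d 1 hp hd (ε / 2) (by positivity)
  have hp1 : (1 : ℝ) < p := by exact_mod_cast hp.one_lt
  obtain ⟨n4, hn4⟩ : ∃ n4 : ℕ, ∀ n ≥ n4, (K0 + 3) / δ + K0 / (ε / 2) ≤ (p : ℝ) ^ n := by
    have h := tendsto_pow_atTop_atTop_of_one_lt hp1
    have h2 := Filter.tendsto_atTop.mp h ((K0 + 3) / δ + K0 / (ε / 2))
    exact Filter.eventually_atTop.mp h2
  refine ⟨n1 + n2 + n3 + n4 + 1, ?_⟩
  intro n hn m hmd F _ hcard C hC
  have hn1 : 1 ≤ n := by omega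
  have hq1 : 1 < p ^ n := Nat.one_lt_pow (by omega) hp.one_lt
  have hqR : (0 : ℝ) < (p : ℝ) ^ n := by positivity
  obtain ⟨hFin, hchar⟩ := Pool.Agent.Lib.MP_56e792_co.char_of_card hp rfl hcard
  by_cases hsize : (C.card : ℝ) ≤ (δ + ε) * (p : ℝ) ^ n
  · exact Or.inl hsize
  rw [not_le] at hsize
  have hbig := hn4 n (by omega)
  have hK1 : (K0 : ℝ) + 3 ≤ δ * (p : ℝ) ^ n := by
    have h0 : (K0 + 3 : ℝ) / δ ≤ (p : ℝ) ^ n := by
      have : (0 : ℝ) ≤ K0 / (ε / 2) := by positivity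
      linarith
    rwa [div_le_iff₀' hδ] at h0
  have hK2 : (K0 : ℝ) ≤ ε / 2 * (p : ℝ) ^ n := by
    have h0 : (K0 : ℝ) / (ε / 2) ≤ (p : ℝ) ^ n := by
      have : (0 : ℝ) ≤ (K0 + 3) / δ := by positivity
      linarith
    rwa [div_le_iff₀' (by positivity)] at h0
  have hsize' : δ * (p : ℝ) ^ n ≤ (C.card : ℝ) := by nlinarith
  -- the curve
  let i : F →+* AlgebraicClosure F := algebraMap F (AlgebraicClosure F)
  have hClq : Clq (p ^ n) m (C.image i) :=
    clq_map hp hn1 rfl hcard hmd C hC.prop i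
  have hcardi : (C.image i).card = C.card :=
    Finset.card_image_of_injective _ i.injective
  obtain ⟨H, hH, hH1, hH2, hHK⟩ := hstr n (by omega) m hmd (AlgebraicClosure F) (C.image i) hClq
    (by rw [hcardi]; exact hsize')
  set P : F → Prop := fun c => pt (i c) ((i c) ^ p ^ n) H = 0 with hPdef
  have hAK : (C.filter (fun c => ¬ P c)).card ≤ K0 := by
    refine le_trans (le_of_eq ?_) hHK
    rw [Finset.filter_image, Finset.card_image_of_injective _ i.injective]
  have hsum : (C.filter P).card + (C.filter (fun c => ¬ P c)).card = C.card :=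
    Finset.card_filter_add_card_filter_not P
  have hsumR : (C.card : ℝ) = ((C.filter P).card : ℝ) + ((C.filter (fun c => ¬ P c)).card : ℝ) := by
    exact_mod_cast hsum.symm
  have hAKR : ((C.filter (fun c => ¬ P c)).card : ℝ) ≤ K0 := by exact_mod_cast hAK
  have h3 : 3 ≤ (C.filter P).card := by
    have h : (3 : ℝ) ≤ ((C.filter P).card : ℝ) := by linarith
    exact_mod_cast h
  have h3' : 3 ≤ Set.ncard {c : F | pt (i c) ((i c) ^ p ^ n) H = 0} := by
    refine le_trans h3 ?_
    rw [← Set.ncard_coe_finset]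
    apply Set.ncard_le_ncard _ (Set.toFinite _)
    intro c hc
    rw [Finset.mem_coe, Finset.mem_filter] at hc
    exact hc.2
  have hsmall : ¬ ((C.filter P).card : ℝ) ≤ (δ + ε / 2) * (p : ℝ) ^ n := by
    intro h
    linarith
  rcases h_to_F i hp hn1 hcard hH hH1 hH2 h3' with ⟨v, w, hw, hvw⟩ | ⟨o, ρ, hρ, hρq, hoρ⟩
  · have hB : ∀ A : Finset F, A.card = 2 →
        (∀ a ∈ A, ∀ b ∈ A, ((a - v) / w) ^ p ^ n ≠ (b - v) / w) →
        ((Set.ncard {t : F | t ^ p ^ n = t ∧
          ∀ a ∈ A, ((v + t * w - a) ^ p ^ n) ^ m = (v + t * w - a) ^ m} : ℕ) : ℝ) ≤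
          (δ + ε / 2) * (p : ℝ) ^ n := by
      intro A hA2 hA
      have hwm : (w ^ p ^ n) ^ m = w ^ m :=
        (sec_line hp hq1 hcard hmd hC P hw hvw (by omega)).1
      have h := hline n (by omega) m hmd F hcard v w hw hwm A (by omega) hA
      rw [hA2, abs_le] at h
      linarith [h.2]
    rcases sec_L hp hn1 hq1 hcard hmd hC P hw hvw (by omega) hB with h | ⟨α, h1, h2, h3⟩ | h
    · exact absurd h hsmall
    · exact Or.inr (Or.inr ⟨h2, Or.inl ⟨v, w, α, hw, h1, h3⟩⟩)
    · exact Or.inr (Or.inl h)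
  · have hB : ∀ τ a : F, τ ^ d = ρ → a ≠ 0 → a ^ p ^ n * a ≠ ρ →
        ((Set.ncard {w : F | w ^ p ^ n * w = ρ ∧ w ^ m = τ ∧
          ∀ x ∈ ({a} : Finset F), ((w - x) ^ p ^ n) ^ m = (w - x) ^ m} : ℕ) : ℝ) ≤
          (δ + ε / 2) * (p : ℝ) ^ n := by
      intro τ a hτ ha haρ
      have h := hcirc n (by omega) m hmd F hcard ρ τ hρ hρq hτ {a} (by simp)
        (by rw [Finset.mem_singleton]; exact fun h => ha h.symm)
        (by
          intro x hx y hy
          rw [Finset.mem_singleton] at hx hy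
          rw [hx, hy]
          exact haρ)
      rw [Finset.card_singleton, abs_le] at h
      have e : (1 / (d : ℝ)) ^ (1 + 1) = δ := by rw [hδdef]
      rw [e] at h
      linarith [h.2]
    rcases sec_C hp hq1 hcard hmd hC P hρ hρq hoρ h3 hB with h | ⟨τ, h1, h2, h4⟩
    · exact absurd h hsmall
    · exact Or.inr (Or.inr ⟨h2, Or.inr ⟨o, τ, h1, h4⟩⟩)

end GPC
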