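import Pool.Agent.Lib.MP_56e792_co.S.SecB

/-!
# MP_56e792_co: the second largest size of a maximal clique, exact, fixed characteristic

`second_full`: for all large `q = p ^ n` the maximal cliques with more than `(1 / d ^ 2 + ε) q`
points are lines (`q` points) or have exactly `M` points, `M = m + 1` if `m` is even or `p = 2`,
`M = m` otherwise, `m = (q + 1) / d`; and maximal cliques with `M` points exist.
-/

set_option autoImplicit false
set_option linter.unusedVariables false

namespace GPC

open Pool.Agent.Lib.MP_56e792_co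

private theorem neg_one_iff {F : Type} [Field F] {p : ℕ} (hp : p.Prime) [CharP F p] (m : ℕ) :
    (-1 : F) ^ m = 1 ↔ (p = 2 ∨ Even m) := by
  constructor
  · intro h
    by_cases hp2 : p = 2
    · exact Or.inl hp2
    · right
      have h1 : (-1 : F) ≠ 1 := by
        have : Fact (2 < p) := ⟨lt_of_le_of_ne hp.two_le (Ne.symm hp2)⟩
        exact CharP.neg_one_ne_one F p
      exact (neg_one_pow_eq_one_iff_even h1).mp h
  · rintro (h | h)
    · subst h
      have : (-1 : F) = 1 := by
        have h2 : (2 : F) = 0 := by exact_mod_cast CharP.cast_eq_zero F 2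
        linear_combination -h2
      rw [this, one_pow]
    · exact h.neg_one_pow

theorem second_full (p d : ℕ) (hp : p.Prime) (hd : 2 ≤ d) (ε : ℝ) (hε : 0 < ε) :
    ∃ n0 : ℕ, ∀ n ≥ n0, ∀ m M : ℕ, m * d = p ^ n + 1 →
      (((p = 2 ∨ Even m) ∧ M = m + 1) ∨ (¬ (p = 2 ∨ Even m) ∧ M = m)) →
      ∀ (F : Type) (_ : Field F), Nat.card F = (p ^ n) ^ 2 →
      (∀ C : Finset F, Maximal (fun s : Finset F => (GP F d).IsClique (s : Set F)) C →
        (C.card : ℝ) ≤ (1 / (d : ℝ) ^ 2 + ε) * (p : ℝ) ^ n ∨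
          (C.card = p ^ n ∧ ∃ v w : F, w ≠ 0 ∧
            (C : Set F) = {u : F | ∃ t : F, t ^ p ^ n = t ∧ u = v + t * w}) ∨
          (C.card = M ∧
            ((∃ v w α : F, w ≠ 0 ∧ α ^ p ^ n ≠ α ∧
              (C : Set F) = {u : F | u = v + α * w ∨ (M = m + 1 ∧ u = v + α ^ p ^ n * w) ∨
                ∃ t z : F, t ^ p ^ n = t ∧ u = v + t * w ∧ z ^ d = u - (v + α * w)}) ∨
            (∃ o τ : F, τ ≠ 0 ∧
              (C : Set F) = {u : F | (M = m + 1 ∧ u = o) ∨ (u - o) ^ m = τ})))) ∧
      ∃ C : Finset F, Maximal (fun s : Finset F => (GP F d).IsClique (s : Set F)) C ∧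
        C.card = M := by
  classical
  have hd0 : (2 : ℝ) ≤ (d : ℝ) := by exact_mod_cast hd
  obtain ⟨n1, h1⟩ := second p d hp hd ε hε
  have hε2 : 0 < (1 / (d : ℝ) - (1 / (d : ℝ)) ^ 2) := by
    have : 0 < 1 / (d : ℝ) := by positivity
    have h2 : 1 / (d : ℝ) ≤ 1 / 2 := one_div_le_one_div_of_le (by norm_num) hd0
    nlinarith
  obtain ⟨n2, h2⟩ := second p d hp hd (1 / (d : ℝ) - (1 / (d : ℝ)) ^ 2) hε2
  refine ⟨n1 + n2 + 3 * d + 1, ?_⟩
  intro n hn m M hmd hM F _ hcard
  have hn1 : 1 ≤ n := by omega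
  have hq1 : 1 < p ^ n := Nat.one_lt_pow (by omega) hp.one_lt
  obtain ⟨hFin, hchar⟩ := char_of_card hp rfl hcard
  have hM' : ((-1 : F) ^ m = 1 ∧ M = m + 1) ∨ ((-1 : F) ^ m ≠ 1 ∧ M = m) := by
    rw [ne_eq, neg_one_iff hp m]
    exact hM
  have hcl : ∀ C : Finset F,
      ((C.card = m + 1 ∧ (-1 : F) ^ m = 1) ∨ (C.card = m ∧ (-1 : F) ^ m ≠ 1)) → C.card = M := by
    intro C h
    rcases hM' with ⟨h3, h4⟩ | ⟨h3, h4⟩
    · rcases h with h | h
      · rw [h.1, h4]
      · exact absurd h3 h.2
    · rcases h with h | h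
      · exact absurd h.2 h3
      · rw [h.1, h4]
  have hMm : (-1 : F) ^ m = 1 ↔ M = m + 1 := by
    rcases hM' with ⟨h3, h4⟩ | ⟨h3, h4⟩
    · exact ⟨fun _ => h4, fun _ => h3⟩
    · refine ⟨fun h => absurd h h3, fun h => ?_⟩
      omega
  constructor
  · intro C hC
    rcases h1 n (by omega) m hmd F hcard C hC with h | h | ⟨hc, h⟩
    · left
      rw [one_div_pow] at h
      exact h
    · exact Or.inr (Or.inl h)
    · right; right
      refine ⟨hcl C hc, ?_⟩
      rcases h with ⟨v, w, α, hw, hα, hu⟩ | ⟨o, τ, hτ, hu⟩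
      · left
        refine ⟨v, w, α, hw, hα, ?_⟩
        ext u
        rw [Finset.mem_coe, hu u, hMm]
        exact Iff.rfl
      · right
        refine ⟨o, τ, hτ, ?_⟩
        ext u
        rw [Finset.mem_coe, hu u, hMm]
        exact Iff.rfl
  · -- existence
    have hfs : ∀ a b : F, (a - b) ^ p ^ n = a ^ p ^ n - b ^ p ^ n := fun a b =>
      frob_sub hp rfl hcard a b
    have hadj : ∀ a b : F, a ≠ b → ((GP F d).Adj a b ↔ ((a - b) ^ p ^ n) ^ m = (a - b) ^ m) :=
      fun a b hab => adj_iff hp rfl hq1 hcard hmd a b hab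
    obtain ⟨α, hα⟩ : ∃ α : F, α ^ p ^ n ≠ α := by
      by_contra hcon
      push Not at hcon
      have h3 : {t : F | t ^ p ^ n = t} = Set.univ := by
        ext t
        simp [hcon t]
      have h4 := card_fixed hq1 hcard
      rw [h3, Set.ncard_univ, hcard] at h4
      nlinarith
    have hTfin : {t : F | t ^ p ^ n = t ∧ ((t - α) ^ p ^ n) ^ m = (t - α) ^ m}.Finite :=
      Set.toFinite _
    have hT : hTfin.toFinset.card = m - 1 := by
      rw [← Set.ncard_eq_toFinset_card _ hTfin]
      exact card_line_pt hp rfl hq1 hcard hmd hα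
    have hmem : ∀ t : F, t ∈ hTfin.toFinset ↔
        (t ^ p ^ n = t ∧ ((t - α) ^ p ^ n) ^ m = (t - α) ^ m) := by
      intro t
      rw [Set.Finite.mem_toFinset]
      exact Iff.rfl
    have hαT : α ∉ hTfin.toFinset := by
      rw [hmem]
      exact fun h => hα h.1
    -- the size of `m`
    have hm3 : 3 ≤ m := by
      by_contra hcon
      have h3 : m * d ≤ 2 * d := Nat.mul_le_mul_right d (by omega)
      have h4 : n < p ^ n := Nat.lt_pow_self hp.one_lt
      omega
    have hclq : (GP F d).IsClique ((insert α hTfin.toFinset : Finset F) : Set F) := by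
      rw [Finset.coe_insert]
      apply SimpleGraph.IsClique.insert
      · intro s hs t ht hst
        rw [Finset.mem_coe, hmem] at hs ht
        have h3 := line_adj (d := d) hp rfl hq1 hcard hmd 0 1 (by simp) s t hs.1 ht.1
          (by simpa using hst)
        simpa using h3
      · intro t ht hne
        rw [Finset.mem_coe, hmem] at ht
        exact ((hadj t α hne.symm).mpr ht.2).symm
    obtain ⟨C, hTC, hC⟩ := Finite.exists_le_maximal
      (p := fun s : Finset F => (GP F d).IsClique (s : Set F)) hclq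
    refine ⟨C, hC, ?_⟩
    have hcardC : m ≤ C.card := by
      have h3 := Finset.card_le_card hTC
      rw [Finset.card_insert_of_notMem hαT, hT] at h3
      omega
    rcases h2 n (by omega) m hmd F hcard C hC with h | h | ⟨h, -⟩
    · exfalso
      have h3 : (m : ℝ) * d = (p : ℝ) ^ n + 1 := by exact_mod_cast hmd
      have h4 : ((1 / (d : ℝ)) ^ 2 + (1 / (d : ℝ) - (1 / (d : ℝ)) ^ 2)) * (p : ℝ) ^ n =
          (p : ℝ) ^ n / d := by ring
      rw [h4] at h
      have h5 : (m : ℝ) ≤ C.card := by exact_mod_cast hcardC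
      have h6 : (m : ℝ) = ((p : ℝ) ^ n + 1) / d := by
        rw [eq_div_iff (by positivity)]
        exact h3
      have h7 : (p : ℝ) ^ n / d < ((p : ℝ) ^ n + 1) / d :=
        div_lt_div_of_pos_right (by linarith) (by positivity)
      linarith
    swap
    · exact hcl C h
    · exfalso
      obtain ⟨-, v, w, hw, hCL⟩ := h
      obtain ⟨s, hs, t, ht, hst⟩ := Finset.one_lt_card.mp (show 1 < hTfin.toFinset.card by omega)
      have hs' := (hmem s).mp hs
      have ht' := (hmem t).mp ht
      have hsC : s ∈ (C : Set F) := hTC (Finset.mem_insert_of_mem hs)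
      have htC : t ∈ (C : Set F) := hTC (Finset.mem_insert_of_mem ht)
      have hαC : α ∈ (C : Set F) := hTC (Finset.mem_insert_self _ _)
      rw [hCL] at hsC htC hαC
      obtain ⟨a, ha, rfl⟩ := hsC
      obtain ⟨b, hb, rfl⟩ := htC
      obtain ⟨c, hc, hcα⟩ := hαC
      have hab : a - b ≠ 0 := by
        intro h
        apply hst
        rw [sub_eq_zero.mp h]
      -- `w` is fixed by the Frobenius map
      have hfa : ∀ x y : F, (x + y) ^ p ^ n = x ^ p ^ n + y ^ p ^ n := by
        intro x y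
        have h3 := hfs x (-y)
        have h4 := frob_neg hp rfl hcard y
        rw [sub_neg_eq_add, h4, sub_neg_eq_add] at h3
        exact h3
      have hw1 : w ^ p ^ n = w := by
        have h3 : ((v + a * w) - (v + b * w)) ^ p ^ n = (v + a * w) - (v + b * w) := by
          rw [hfs, hs'.1, ht'.1]
        have h4 : (v + a * w) - (v + b * w) = (a - b) * w := by ring
        rw [h4, mul_pow, hfs, ha, hb] at h3
        exact mul_left_cancel₀ hab h3
      have hv1 : v ^ p ^ n = v := by
        have h3 := hs'.1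
        rw [hfa, mul_pow, ha, hw1] at h3
        exact add_right_cancel h3
      apply hα
      rw [hcα, hfa, mul_pow, hc, hw1, hv1]

end GPC
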