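import Pool.Agent.Lib.MP_56e792_co.S.Defs2
import Pool.Agent.Lib.MP_56e792_co.S.Str
import Pool.Agent.Lib.MP_56e792_co.S.HtF
import Pool.Agent.Lib.MP_56e792_co.S.Col

/-!
# MP_56e792_co: the structure theorem in the field `F`

Fixed characteristic: every clique of `GP(q ^ 2, d)` with at least `δ q` vertices has all but a
bounded number of its vertices on one line or one circle of the affine plane over the subfield
of order `q`. (`struct`, transported by `h_to_F`.)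
-/

set_option autoImplicit false
set_option linter.unusedVariables false

namespace GPC

open Polynomial
open Pool.Agent.Lib.MP_56e792_co (J mem_J GP)

theorem struct_F (p d : ℕ) (hp : p.Prime) (hd : 2 ≤ d) (δ : ℝ) (hδ : 0 < δ) :
    ∃ K0 : ℕ, ∀ n : ℕ, d ∣ p ^ n + 1 → ∀ (F : Type) [Field F], Nat.card F = (p ^ n) ^ 2 →
      ∀ C : Finset F, (GP F d).IsClique (C : Set F) → δ * (p : ℝ) ^ n ≤ (C.card : ℝ) →
        (∃ v w : F, w ≠ 0 ∧
          Set.ncard {c : F | c ∈ C ∧ ¬ ∃ t : F, t ^ p ^ n = t ∧ c = v + t * w} ≤ K0) ∨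
        ∃ o ρ : F, ρ ≠ 0 ∧ ρ ^ p ^ n = ρ ∧
          Set.ncard {c : F | c ∈ C ∧ (c - o) ^ (p ^ n + 1) ≠ ρ} ≤ K0 := by
  classical
  obtain ⟨n1, K0, hstr⟩ := struct p d hp hd δ hδ
  have hp1 : (1 : ℝ) < p := by exact_mod_cast hp.one_lt
  obtain ⟨n4, hn4⟩ : ∃ n4 : ℕ, ∀ n ≥ n4, (K0 + 3) / δ ≤ (p : ℝ) ^ n := by
    have h := tendsto_pow_atTop_atTop_of_one_lt hp1
    have h2 := Filter.tendsto_atTop.mp h ((K0 + 3) / δ)
    exact Filter.eventually_atTop.mp h2
  refine ⟨K0 + (p ^ (n1 + n4 + 1)) ^ 2, ?_⟩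
  intro n hdvd F _ hcard C hC hsize
  have hq0 : p ^ n ≠ 0 := pow_ne_zero n hp.ne_zero
  haveI hFin : Finite F := Nat.finite_of_card_ne_zero (by rw [hcard]; exact pow_ne_zero _ hq0)
  by_cases hn : n ≤ n1 + n4 + 1
  · left
    refine ⟨0, 1, one_ne_zero, ?_⟩
    calc Set.ncard {c : F | c ∈ C ∧ ¬ ∃ t : F, t ^ p ^ n = t ∧ c = 0 + t * 1}
        ≤ Nat.card F := Set.ncard_le_card _
      _ = (p ^ n) ^ 2 := hcard
      _ ≤ (p ^ (n1 + n4 + 1)) ^ 2 :=
        Nat.pow_le_pow_left (Nat.pow_le_pow_right hp.pos hn) 2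
      _ ≤ K0 + (p ^ (n1 + n4 + 1)) ^ 2 := Nat.le_add_left _ _
  rw [not_le] at hn
  obtain ⟨m, hm⟩ := hdvd
  have hmd : m * d = p ^ n + 1 := by rw [hm, mul_comm]
  have hn1 : 1 ≤ n := by omega
  obtain ⟨_, hchar⟩ := Pool.Agent.Lib.MP_56e792_co.char_of_card hp rfl hcard
  have hbig := hn4 n (by omega)
  have hK1 : (K0 : ℝ) + 3 ≤ δ * (p : ℝ) ^ n := by
    rwa [div_le_iff₀' hδ] at hbig
  let i : F →+* AlgebraicClosure F := algebraMap F (AlgebraicClosure F)
  have hClq : Clq (p ^ n) m (C.image i) :=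
    clq_map hp hn1 rfl hcard hmd C hC i
  have hcardi : (C.image i).card = C.card :=
    Finset.card_image_of_injective _ i.injective
  obtain ⟨H, hH, hH1, hH2, hHK⟩ := hstr n (by omega) m hmd (AlgebraicClosure F) (C.image i) hClq
    (by rw [hcardi]; exact hsize)
  set P : F → Prop := fun c => pt (i c) ((i c) ^ p ^ n) H = 0 with hPdef
  have hAK : (C.filter (fun c => ¬ P c)).card ≤ K0 := by
    refine le_trans (le_of_eq ?_) hHK
    rw [Finset.filter_image, Finset.card_image_of_injective _ i.injective]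
  have hsum : (C.filter P).card + (C.filter (fun c => ¬ P c)).card = C.card :=
    Finset.card_filter_add_card_filter_not P
  have hsumR : (C.card : ℝ) = ((C.filter P).card : ℝ) + ((C.filter (fun c => ¬ P c)).card : ℝ) := by
    exact_mod_cast hsum.symm
  have hAKR : ((C.filter (fun c => ¬ P c)).card : ℝ) ≤ K0 := by exact_mod_cast hAK
  have h3 : 3 ≤ (C.filter P).card := by
    have h : (3 : ℝ) ≤ ((C.filter P).card : ℝ) := by linarith
    exact_mod_cast h
  have h3' : 3 ≤ Set.ncard {c : F | pt (i c) ((i c) ^ p ^ n) H = 0} := by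
    refine le_trans h3 ?_
    rw [← Set.ncard_coe_finset]
    apply Set.ncard_le_ncard _ (Set.toFinite _)
    intro c hc
    rw [Finset.mem_coe, Finset.mem_filter] at hc
    exact hc.2
  have hle : ∀ Q : F → Prop, (∀ c, P c ↔ Q c) →
      Set.ncard {c : F | c ∈ C ∧ ¬ Q c} ≤ K0 + (p ^ (n1 + n4 + 1)) ^ 2 := by
    intro Q hQ
    refine le_trans (le_of_eq ?_) (hAK.trans (Nat.le_add_right _ _))
    rw [← Set.ncard_coe_finset]
    congr 1
    ext c
    rw [Finset.mem_coe, Finset.mem_filter, hQ c]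
    exact Iff.rfl
  rcases h_to_F i hp hn1 hcard hH hH1 hH2 h3' with ⟨v, w, hw, hvw⟩ | ⟨o, ρ, hρ, hρq, hoρ⟩
  · exact Or.inl ⟨v, w, hw, hle _ hvw⟩
  · refine Or.inr ⟨o, ρ, hρ, hρq, hle (fun c => (c - o) ^ (p ^ n + 1) = ρ) ?_⟩
    intro c
    rw [pow_succ]
    exact hoρ c

end GPC
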